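import Mathlib
import Pool.Graph.R_pool_sql_team_seeded_3997aac3.Q191.SY.Grp

/-!
# Non-trapping functions, scattering maps and suspensions: definitions

`E n = ℝⁿ × ℝⁿ` is `ℝ^{2n}` and `SympCt n` is the group `G_n = Symp_ct(ℝ^{2n})`.  On `ℝ^{2n+2}` we
write `X`, `Y` for the first `x` and the first `y` coordinate and `tail` for the other
coordinates (a point of `ℝ^{2n}`).  The space `P` of parameters is any finite dimensional space,
for instance a point; if it has dimension `k` then homotopy classes of compactly supported maps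
from `P` to a space correspond to elements of its `k`-th homotopy group.
-/

set_option autoImplicit false

open scoped ContDiff
open Set Filter Topology Function
open Q170.SC

namespace Pool.Agent.H822.EF

variable {n : ℕ}

/-- the first `x` coordinate -/
def X (z : E (n + 1)) : ℝ := z.1 0

/-- the first `y` coordinate -/
def Y (z : E (n + 1)) : ℝ := z.2 0

/-- the other coordinates -/
def tail (z : E (n + 1)) : E n := (fun i => z.1 i.succ, fun i => z.2 i.succ)

/-- the point with given coordinates -/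
def point (x y : ℝ) (w : E n) : E (n + 1) := (Fin.cons x w.1, Fin.cons y w.2)

/-- `γ` is an orbit of the Hamiltonian flow of `L`: `x' = ∂L/∂y`, `y' = -∂L/∂x`. -/
def Orbit (L : ℝ → E n → ℝ) (γ : ℝ → E n) : Prop :=
  ∀ t, HasDerivAt γ ((fun i => fderiv ℝ (L t) (γ t) (0, Pi.single i 1),
    fun i => - fderiv ℝ (L t) (γ t) (Pi.single i 1, 0)) : E n) t

/-- A smooth function on `ℝ^{2n+2}`, equal to `Y` off a compact set, is non-trapping if its
Hamiltonian flow has no bounded orbits. -/
structure NonTrapping (L : E (n + 1) → ℝ) : Prop where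
  smooth : ContDiff ℝ ∞ L
  std : ∃ K : Set (E (n + 1)), IsCompact K ∧ ∀ z, z ∉ K → L z = Y z
  trapless : ∀ γ : ℝ → E (n + 1), Orbit (fun _ => L) γ → ¬ Bornology.IsBounded (range γ)

/-- A family of maps with parameters in `Q` is smooth. -/
def Smooth {Q : Type} [NormedAddCommGroup Q] [NormedSpace ℝ Q] {V : Type} [NormedAddCommGroup V]
    [NormedSpace ℝ V] (f : Q → E n → V) : Prop :=
  ContDiff ℝ ∞ (fun q : Q × E n => f q.1 q.2)

variable {P : Type} [NormedAddCommGroup P] [NormedSpace ℝ P]

/-- A smooth map `b` from the space `P` to the group `G_n`, with compact support. -/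
structure Fam (b : P → SympCt n) : Prop where
  smooth : Smooth fun p => (b p).map
  supp : ∃ K : Set (P × E n), IsCompact K ∧ ∀ p z, (p, z) ∉ K → (b p).map z = z

/-- Two such maps are smoothly homotopic with compact support. -/
def Htp (b b' : P → SympCt n) : Prop :=
  ∃ (B : ℝ → P → SympCt n) (K : Set (P × E n)), IsCompact K ∧
    Smooth (fun q : ℝ × P => (B q.1 q.2).map) ∧
    (∀ s p z, (p, z) ∉ K → (B s p).map z = z) ∧ B 0 = b ∧ B 1 = b'

/-- A smooth map `L` from `P` to the space `T` of the non-trapping functions on `ℝ^{2n+2}`, with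
compact support: `L p z = Y z` off a compact subset of `P × ℝ^{2n+2}`. -/
structure TMap (L : P → E (n + 1) → ℝ) : Prop where
  smooth : Smooth L
  supp : ∃ K : Set (P × E (n + 1)), IsCompact K ∧ ∀ p z, (p, z) ∉ K → L p z = Y z
  nt : ∀ p, NonTrapping (L p)

/-- Two such maps are smoothly homotopic with compact support. -/
def THtp (L L' : P → E (n + 1) → ℝ) : Prop :=
  ∃ (F : ℝ → P → E (n + 1) → ℝ) (K : Set (P × E (n + 1))), IsCompact K ∧
    Smooth (fun q : ℝ × P => F q.1 q.2) ∧ (∀ s p z, (p, z) ∉ K → F s p z = Y z) ∧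
    (∀ s p, NonTrapping (F s p)) ∧ F 0 = L ∧ F 1 = L'

/-- `b` is the scattering map of `L`: for each `p`, each orbit of `L p` which comes in along the
line through `z` parallel to the `X` axis leaves along such a line with the same `Y` and with the
other coordinates `b (p, Y z) (tail z)`. -/
def IsScat (L : P → E (n + 1) → ℝ) (b : P × ℝ → SympCt n) : Prop :=
  ∀ (p : P) (γ : ℝ → E (n + 1)) (z : E (n + 1)), Orbit (fun _ => L p) γ →
    (∀ᶠ t in atBot, γ t = point (X z + t) (Y z) (tail z)) →
    ∃ x : ℝ, ∀ᶠ t in atTop, γ t = point (x + t) (Y z) ((b (p, Y z)).map (tail z))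

/-- `ψ : P → G_{n+1}` is a suspension of the map `b : P × ℝ² → G_n`: for all `p`, `y` the path
`s ↦ b (p, s, y)` is generated by the Hamiltonians `K p s y` on `ℝ^{2n}`, and `ψ p` is the time
`(-∞, ∞)` map of the Hamiltonians `β(X) K(p, s, Y, tail)` on `ℝ^{2n+2}`, where `β` is a cut off
function on the line. -/
def IsSusp (b : P × ℝ × ℝ → SympCt n) (ψ : P → SympCt (n + 1)) : Prop :=
  ∃ (K : P × ℝ × ℝ → E n → ℝ) (β : ℝ → ℝ) (C : P → ℝ → E (n + 1) → E (n + 1)) (R : ℝ),
    Smooth K ∧ (∀ p s y w, (R < |s| ∨ R < |y| ∨ R < ‖w‖) → K (p, s, y) w = 0) ∧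
    (∀ p y w, Orbit (fun s => K (p, s, y)) (fun s => (b (p, s, y)).map w)) ∧
    ContDiff ℝ ∞ β ∧ (∀ x, x < -R → β x = 0) ∧ (∀ x, R < x → β x = 1) ∧
    (∀ p z, Orbit (fun s z => β (X z) * K (p, s, Y z) (tail z)) (fun s => C p s z)) ∧
    (∀ p z, ∀ᶠ s in atBot, C p s z = z) ∧ ∀ p z, ∀ᶠ s in atTop, C p s z = (ψ p).map z

/-- Every compactly supported smooth family in `G_n` is null-homotopic. -/
def GTrivial (n : ℕ) : Prop :=
  ∀ (P : Type) [NormedAddCommGroup P] [NormedSpace ℝ P] [FiniteDimensional ℝ P]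
    (b : P → SympCt n), Fam b → Htp b (fun _ => 1)

/-- Every compactly supported smooth family of non-trapping functions on `ℝ^{2n+2}` is
null-homotopic. -/
def TTrivial (n : ℕ) : Prop :=
  ∀ (P : Type) [NormedAddCommGroup P] [NormedSpace ℝ P] [FiniteDimensional ℝ P]
    (L : P → E (n + 1) → ℝ), TMap L → THtp L (fun _ => Y)

end Pool.Agent.H822.EF
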