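import Mathlib
import Pool.Agent.H822.PairsMain

/-!
# The splitting `ℝ^{2n+2} = ℝ_X × ℝ_Y × ℝ^{2n}`
-/

set_option autoImplicit false

open scoped ContDiff
open Set Filter Topology Function Metric
open Q170.SC Pool.Agent.H822.Ham Pool.Agent.H822.Pairs Pool.Agent.H822.PairsMain

namespace Pool.Agent.H822.EX

variable {n : ℕ}

/-- the first `x` coordinate `X` -/
def cX : E (n + 1) →L[ℝ] ℝ :=
  (ContinuousLinearMap.proj (R := ℝ) (φ := fun _ : Fin (n + 1) => ℝ) 0).comp
    (ContinuousLinearMap.fst ℝ _ _)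

/-- the first `y` coordinate `Y` -/
def cY : E (n + 1) →L[ℝ] ℝ :=
  (ContinuousLinearMap.proj (R := ℝ) (φ := fun _ : Fin (n + 1) => ℝ) 0).comp
    (ContinuousLinearMap.snd ℝ _ _)

/-- the other coordinates -/
def tl : E (n + 1) →L[ℝ] E n :=
  ContinuousLinearMap.prod
    ((ContinuousLinearMap.pi fun i : Fin n =>
      ContinuousLinearMap.proj (R := ℝ) (φ := fun _ : Fin (n + 1) => ℝ) i.succ).comp
      (ContinuousLinearMap.fst ℝ _ _))
    ((ContinuousLinearMap.pi fun i : Fin n =>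
      ContinuousLinearMap.proj (R := ℝ) (φ := fun _ : Fin (n + 1) => ℝ) i.succ).comp
      (ContinuousLinearMap.snd ℝ _ _))

theorem cX_apply (z : E (n + 1)) : cX z = z.1 0 := rfl
theorem cY_apply (z : E (n + 1)) : cY z = z.2 0 := rfl
theorem tl_apply (z : E (n + 1)) : tl z = (fun i => z.1 i.succ, fun i => z.2 i.succ) := rfl

/-- the point with given coordinates -/
def pt (x y : ℝ) (w : E n) : E (n + 1) := (Fin.cons x w.1, Fin.cons y w.2)

@[simp] theorem cX_pt (x y : ℝ) (w : E n) : cX (pt x y w) = x := rfl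
@[simp] theorem cY_pt (x y : ℝ) (w : E n) : cY (pt x y w) = y := rfl
@[simp] theorem tl_pt (x y : ℝ) (w : E n) : tl (pt x y w) = w := rfl

theorem ext_co {z z' : E (n + 1)} (h1 : cX z = cX z') (h2 : cY z = cY z') (h3 : tl z = tl z') :
    z = z' := by
  rw [tl_apply, tl_apply, Prod.mk.injEq] at h3
  apply Prod.ext
  · ext i
    refine Fin.cases h1 (fun j => ?_) i
    exact congrFun h3.1 j
  · ext i
    refine Fin.cases h2 (fun j => ?_) i
    exact congrFun h3.2 j

theorem pt_eta (z : E (n + 1)) : pt (cX z) (cY z) (tl z) = z := ext_co rfl rfl rfl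

/-- `pt` as a linear map -/
noncomputable def ptL : ℝ × ℝ × E n →L[ℝ] E (n + 1) :=
  LinearMap.toContinuousLinearMap
    { toFun := fun q => pt q.1 q.2.1 q.2.2
      map_add' := fun _ _ => ext_co rfl rfl rfl
      map_smul' := fun _ _ => ext_co rfl rfl rfl }

theorem ptL_apply (x y : ℝ) (w : E n) : ptL (x, y, w) = pt x y w := rfl

theorem pt_add (x y x' y' : ℝ) (w w' : E n) :
    pt x y w + pt x' y' w' = pt (x + x') (y + y') (w + w') := ext_co rfl rfl rfl

theorem pt_smul (c x y : ℝ) (w : E n) : c • pt x y w = pt (c * x) (c * y) (c • w) :=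
  ext_co rfl rfl rfl

/-- the direction of `X` -/
def e0 : E (n + 1) := pt 1 0 0

/-- the direction of `Y` -/
def f0 : E (n + 1) := pt 0 1 0

/-- the inclusion of the other directions -/
noncomputable def up : E n →L[ℝ] E (n + 1) := ptL.comp ((0 : E n →L[ℝ] ℝ).prod ((0 : E n →L[ℝ] ℝ).prod
  (ContinuousLinearMap.id ℝ (E n))))

theorem up_apply (w : E n) : up w = pt 0 0 w := rfl

theorem e0_eq : (e0 : E (n + 1)) = ex 0 := by
  refine ext_co ?_ ?_ ?_
  · show (1 : ℝ) = (Pi.single (0 : Fin (n + 1)) (1 : ℝ) : Fin (n + 1) → ℝ) 0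
    simp
  · rfl
  · rw [e0, tl_pt, tl_apply]
    apply Prod.ext
    · ext i
      show (0 : ℝ) = (Pi.single (0 : Fin (n + 1)) (1 : ℝ) : Fin (n + 1) → ℝ) i.succ
      simp
    · rfl

theorem f0_eq : (f0 : E (n + 1)) = ey 0 := by
  refine ext_co ?_ ?_ ?_
  · rfl
  · show (1 : ℝ) = (Pi.single (0 : Fin (n + 1)) (1 : ℝ) : Fin (n + 1) → ℝ) 0
    simp
  · rw [f0, tl_pt, tl_apply]
    apply Prod.ext
    · rfl
    · ext i
      show (0 : ℝ) = (Pi.single (0 : Fin (n + 1)) (1 : ℝ) : Fin (n + 1) → ℝ) i.succ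
      simp

@[simp] theorem cX_e0 : cX (e0 : E (n + 1)) = 1 := rfl
@[simp] theorem cY_e0 : cY (e0 : E (n + 1)) = 0 := rfl
@[simp] theorem tl_e0 : tl (e0 : E (n + 1)) = 0 := rfl
@[simp] theorem cX_f0 : cX (f0 : E (n + 1)) = 0 := rfl
@[simp] theorem cY_f0 : cY (f0 : E (n + 1)) = 1 := rfl
@[simp] theorem tl_f0 : tl (f0 : E (n + 1)) = 0 := rfl
@[simp] theorem cX_up (w : E n) : cX (up w) = 0 := rfl
@[simp] theorem cY_up (w : E n) : cY (up w) = 0 := rfl
@[simp] theorem tl_up (w : E n) : tl (up w) = w := rfl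

theorem omega_co (z z' : E (n + 1)) :
    omega z z' = cX z * cY z' - cY z * cX z' + omega (tl z) (tl z') := by
  rw [omega, Fin.sum_univ_succ]
  rfl

theorem omega_zero_left (v : E n) : omega 0 v = 0 := by simp [omega]
theorem omega_zero_right (v : E n) : omega v 0 = 0 := by simp [omega]

theorem omega_e0 (z : E (n + 1)) : omega e0 z = cY z := by
  rw [omega_co]; simp [omega_zero_left]

theorem omega_e0' (z : E (n + 1)) : omega z e0 = - cY z := by
  rw [omega_co]; simp [omega_zero_right]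

theorem omega_f0 (z : E (n + 1)) : omega f0 z = - cX z := by
  rw [omega_co]; simp [omega_zero_left]

theorem omega_f0' (z : E (n + 1)) : omega z f0 = cX z := by
  rw [omega_co]; simp [omega_zero_right]

theorem dual_cY : dual (cY : E (n + 1) →L[ℝ] ℝ) = e0 := by
  refine omega_inj fun w => ?_
  rw [omega_dual, omega_e0]

theorem ham_cY (z : E (n + 1)) : ham (cY : E (n + 1) → ℝ) z = e0 := by
  rw [ham, ContinuousLinearMap.fderiv, dual_cY]

theorem norm_tl_le (z : E (n + 1)) : ‖tl z‖ ≤ ‖z‖ := by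
  rw [tl_apply, Prod.norm_def]
  refine max_le ?_ ?_
  · exact ((pi_norm_le_iff_of_nonneg (norm_nonneg _)).2 fun i : Fin n =>
      norm_le_pi_norm z.1 i.succ).trans
      (norm_fst_le z)
  · exact ((pi_norm_le_iff_of_nonneg (norm_nonneg _)).2 fun i : Fin n =>
      norm_le_pi_norm z.2 i.succ).trans
      (norm_snd_le z)

theorem abs_cX_le (z : E (n + 1)) : |cX z| ≤ ‖z‖ :=
  (norm_le_pi_norm z.1 0).trans (norm_fst_le z)

theorem abs_cY_le (z : E (n + 1)) : |cY z| ≤ ‖z‖ :=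
  (norm_le_pi_norm z.2 0).trans (norm_snd_le z)

theorem norm_le_of {z : E (n + 1)} {R : ℝ} (h1 : |cX z| ≤ R) (h2 : |cY z| ≤ R)
    (h3 : ‖tl z‖ ≤ R) : ‖z‖ ≤ R := by
  have hR : 0 ≤ R := (abs_nonneg _).trans h1
  rw [Prod.norm_def]
  rw [tl_apply, Prod.norm_def] at h3
  refine max_le ((pi_norm_le_iff_of_nonneg hR).2 fun i => ?_)
    ((pi_norm_le_iff_of_nonneg hR).2 fun i => ?_)
  · refine Fin.cases h1 (fun j => ?_) i
    exact (norm_le_pi_norm (fun i : Fin n => z.1 i.succ) j).trans ((le_max_left _ _).trans h3)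
  · refine Fin.cases h2 (fun j => ?_) i
    exact (norm_le_pi_norm (fun i : Fin n => z.2 i.succ) j).trans ((le_max_right _ _).trans h3)

theorem norm_le_iff {z : E (n + 1)} {R : ℝ} :
    ‖z‖ ≤ R ↔ |cX z| ≤ R ∧ |cY z| ≤ R ∧ ‖tl z‖ ≤ R :=
  ⟨fun h => ⟨(abs_cX_le z).trans h, (abs_cY_le z).trans h, (norm_tl_le z).trans h⟩,
    fun h => norm_le_of h.1 h.2.1 h.2.2⟩

theorem dual_co (a : E (n + 1) →L[ℝ] ℝ) : dual a = pt (a f0) (- a e0) (dual (a.comp up)) := by
  refine omega_inj fun w => ?_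
  rw [omega_dual, omega_co]
  simp only [cX_pt, cY_pt, tl_pt]
  rw [omega_dual]
  have : w = cX w • e0 + cY w • f0 + up (tl w) := by
    refine ext_co ?_ ?_ ?_ <;> simp
  conv_lhs => rw [this]
  simp only [map_add, map_smul, smul_eq_mul]
  show _ = a f0 * cY w - -a e0 * cX w + a (up (tl w))
  ring

end Pool.Agent.H822.EX
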