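import Mathlib
import Pool.Agent.H822.Par

/-!
# Flows of complete smooth vector fields, time dependent fields with parameters
-/

set_option autoImplicit false

open scoped ContDiff
open Set Filter Topology Function Metric
open Pool.Agent.GR.Flow Pool.Agent.H822.Par

namespace Pool.Agent.H822.EX

section gen

variable {W : Type} [NormedAddCommGroup W] [NormedSpace ℝ W] [FiniteDimensional ℝ W]

theorem lip_ball {X : W → W} (hX : ContDiff ℝ ∞ X) (R : ℝ) :
    ∃ C : NNReal, LipschitzOnWith C X (closedBall 0 R) := by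
  have : ProperSpace W := FiniteDimensional.proper_real W
  have hc : Continuous (fderiv ℝ X) := hX.continuous_fderiv (by simp)
  obtain ⟨C, hC⟩ := ((isCompact_closedBall (0 : W) R).image hc).isBounded.exists_norm_le
  refine ⟨Real.toNNReal C, (convex_closedBall (0 : W) R).lipschitzOnWith_of_nnnorm_fderiv_le
    (fun x _ => hX.differentiable (by simp) x) fun x hx => ?_⟩
  rw [← NNReal.coe_le_coe]
  simp only [coe_nnnorm]
  exact (hC _ ⟨x, hx, rfl⟩).trans (Real.le_coe_toNNReal _)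

/-- integral curves of a smooth field are determined by one value -/
theorem unique_Ioo {X : W → W} (hX : ContDiff ℝ ∞ X) {γ₁ γ₂ : ℝ → W} {a b t₀ : ℝ}
    (h₀ : t₀ ∈ Ioo a b) (c₁ : Continuous γ₁) (c₂ : Continuous γ₂)
    (h₁ : ∀ t ∈ Ioo a b, HasDerivAt γ₁ (X (γ₁ t)) t)
    (h₂ : ∀ t ∈ Ioo a b, HasDerivAt γ₂ (X (γ₂ t)) t) (h : γ₁ t₀ = γ₂ t₀) :
    EqOn γ₁ γ₂ (Icc a b) := by
  obtain ⟨R₁, hR₁⟩ := ((isCompact_Icc (a := a) (b := b)).image c₁).isBounded.exists_norm_le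
  obtain ⟨R₂, hR₂⟩ := ((isCompact_Icc (a := a) (b := b)).image c₂).isBounded.exists_norm_le
  obtain ⟨C, hC⟩ := lip_ball hX (max R₁ R₂)
  refine ODE_solution_unique_of_mem_Icc (v := fun _ => X) (s := fun _ => closedBall 0 (max R₁ R₂))
    (fun t _ => hC) h₀ c₁.continuousOn h₁ (fun t ht => ?_) c₂.continuousOn h₂ (fun t ht => ?_) h
  · rw [mem_closedBall_zero_iff]
    exact (hR₁ _ ⟨t, Ioo_subset_Icc_self ht, rfl⟩).trans (le_max_left _ _)
  · rw [mem_closedBall_zero_iff]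
    exact (hR₂ _ ⟨t, Ioo_subset_Icc_self ht, rfl⟩).trans (le_max_right _ _)

omit [FiniteDimensional ℝ W] in
theorem cont_of {X : W → W} {γ : ℝ → W} (h : ∀ t, HasDerivAt γ (X (γ t)) t) : Continuous γ :=
  continuous_iff_continuousAt.2 fun t => (h t).continuousAt

theorem unique_all {X : W → W} (hX : ContDiff ℝ ∞ X) {γ₁ γ₂ : ℝ → W} {t₀ : ℝ}
    (h₁ : ∀ t, HasDerivAt γ₁ (X (γ₁ t)) t) (h₂ : ∀ t, HasDerivAt γ₂ (X (γ₂ t)) t)
    (h : γ₁ t₀ = γ₂ t₀) (t : ℝ) : γ₁ t = γ₂ t := by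
  have h0 : t₀ ∈ Ioo (min t t₀ - 1) (max t t₀ + 1) :=
    ⟨by linarith [min_le_right t t₀], by linarith [le_max_right t t₀]⟩
  exact unique_Ioo hX h0 (cont_of h₁) (cont_of h₂) (fun t _ => h₁ t) (fun t _ => h₂ t) h
    ⟨by linarith [min_le_left t t₀], by linarith [le_max_left t t₀]⟩

theorem flow_uniq {X : W → W} (hX : ContDiff ℝ ∞ X) {g : ℝ → W → W} (hg : IsFlowOf X g)
    {γ : ℝ → W} {x : W} (h0 : γ 0 = x) (h1 : ∀ t, HasDerivAt γ (X (γ t)) t) (t : ℝ) :
    γ t = g t x :=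
  unique_all hX (t₀ := 0) h1 (hg.deriv x) (by rw [h0, hg.zero]) t

theorem flow_add {X : W → W} (hX : ContDiff ℝ ∞ X) {g : ℝ → W → W} (hg : IsFlowOf X g)
    (s t : ℝ) (x : W) : g (s + t) x = g s (g t x) := by
  refine flow_uniq hX hg (γ := fun s => g (s + t) x) ?_ (fun s => ?_) s
  · show g (0 + t) x = _
    rw [zero_add]
  · exact HasDerivAt.comp_add_const s t (hg.deriv x (s + t))

/-- the field cut off at the ball of radius `R + 1` -/
theorem exists_cut (X : W → W) (hX : ContDiff ℝ ∞ X) (R : ℝ) (hR : 0 < R) :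
    ∃ (X' : W → W) (C M : NNReal), ContDiff ℝ ∞ X' ∧ LipschitzWith C X' ∧ (∀ z, ‖X' z‖ ≤ M) ∧
      (∀ z, ‖z‖ ≤ R → X' z = X z) ∧ ∀ z, ‖X' z‖ ≤ ‖X z‖ := by
  have : ProperSpace W := FiniteDimensional.proper_real W
  let χ : ContDiffBump (0 : W) := ⟨R, R + 1, hR, by linarith⟩
  have hs : ContDiff ℝ ∞ (fun z => χ z • X z) := χ.contDiff.smul hX
  have hoff : ∀ z, z ∉ closedBall (0 : W) (R + 1) → χ z • X z = 0 := by
    intro z hz
    have : χ z = 0 := χ.zero_of_le_dist (by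
      rw [mem_closedBall, not_le] at hz
      exact hz.le)
    rw [this, zero_smul]
  obtain ⟨C, hC⟩ := exists_lipschitz _ hs _ (isCompact_closedBall (0 : W) (R + 1))
    (fderiv_off _ _ isClosed_closedBall 0 hoff)
  obtain ⟨M, hM⟩ := Par.exists_bound _ hs.continuous _ (isCompact_closedBall (0 : W) (R + 1)) 0 hoff
  refine ⟨_, C, M, hs, hC, hM, fun z hz => ?_, fun z => ?_⟩
  · have : χ z = 1 := χ.one_of_mem_closedBall (by simpa using hz)
    rw [this, one_smul]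
  · rw [norm_smul, Real.norm_of_nonneg χ.nonneg]
    exact mul_le_of_le_one_left (norm_nonneg _) χ.le_one

/-- a bounded smooth vector field is complete -/
theorem exists_global {X : W → W} (hX : ContDiff ℝ ∞ X) {M : ℝ} (hM : ∀ z, ‖X z‖ ≤ M) :
    ∃ g : ℝ → W → W, IsFlowOf X g := by
  have hM0 : 0 ≤ M := (norm_nonneg _).trans (hM 0)
  have key : ∀ (x : W) (k : ℕ), ∃ γ : ℝ → W, Continuous γ ∧ γ 0 = x ∧
      ∀ t ∈ Ioo (-(k : ℝ)) k, HasDerivAt γ (X (γ t)) t := by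
    intro x k
    obtain ⟨X', C, M', h1, h2, h3, h4, h5⟩ := exists_cut X hX (‖x‖ + M * k + 1) (by positivity)
    obtain ⟨g, hg⟩ := Par.exists_flow h2 h3
    refine ⟨fun t => g t x, hg.continuous x, hg.zero x, fun t ht => ?_⟩
    have h6 : ∀ t, ‖g t x - x‖ ≤ M * |t| := by
      intro t
      have h7 := Convex.norm_image_sub_le_of_norm_hasDerivWithin_le (f := fun t => g t x)
        (f' := fun t => X' (g t x)) (s := univ) (C := M) (x := 0) (y := t)
        (fun t _ => (hg.deriv x t).hasDerivWithinAt) (fun t _ => (h5 _).trans (hM _)) convex_univ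
        (mem_univ _) (mem_univ _)
      simp only [hg.zero, sub_zero] at h7
      exact h7
    have h8 : |t| ≤ k := abs_le.2 ⟨ht.1.le, ht.2.le⟩
    have h9 : ‖g t x‖ ≤ ‖x‖ + M * k + 1 := by
      have := norm_le_norm_add_norm_sub x (g t x)
      rw [norm_sub_rev] at this
      nlinarith [h6 t]
    rw [← h4 _ h9]
    exact hg.deriv x t
  choose γ hc h0 hd using key
  have hagree : ∀ x (k l : ℕ), k ≤ l → 0 < k → ∀ t ∈ Icc (-(k : ℝ)) k, γ x k t = γ x l t := by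
    intro x k l hkl hk t ht
    have hk' : (0 : ℝ) < k := by exact_mod_cast hk
    have hkl' : (k : ℝ) ≤ l := by exact_mod_cast hkl
    exact unique_Ioo hX (t₀ := 0) ⟨by linarith, hk'⟩ (hc x k) (hc x l) (hd x k)
      (fun t ht => hd x l t ⟨by linarith [ht.1], by linarith [ht.2]⟩) (by rw [h0, h0]) ht
  refine ⟨fun t x => γ x (⌈|t|⌉₊ + 1) t, fun x => h0 _ _, fun x t => ?_⟩
  set k := ⌈|t|⌉₊ + 1 with hk
  have hk1 : |t| < k := by
    rw [hk]
    push_cast
    linarith [Nat.le_ceil |t|]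
  have hev : (fun t => γ x (⌈|t|⌉₊ + 1) t) =ᶠ[𝓝 t] fun t => γ x (k + 1) t := by
    have h1 : ∀ᶠ s : ℝ in 𝓝 t, |s| < (k : ℝ) := continuous_abs.continuousAt.eventually_lt
      continuousAt_const hk1
    filter_upwards [h1] with s hs
    have h2 : ⌈|s|⌉₊ ≤ k := Nat.ceil_le.2 hs.le
    have h3 := Nat.le_ceil |s|
    refine hagree x _ _ (by omega) (by omega) s ?_
    have h4 := abs_le.1 h3
    push_cast
    exact ⟨by linarith [h4.1], by linarith [h4.2]⟩
  have h5 : γ x (⌈|t|⌉₊ + 1) t = γ x (k + 1) t := hev.self_of_nhds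
  show HasDerivAt (fun t => γ x (⌈|t|⌉₊ + 1) t) (X (γ x (⌈|t|⌉₊ + 1) t)) t
  rw [h5]
  refine (hd x (k + 1) t ?_).congr_of_eventuallyEq hev
  have h6 := abs_lt.1 hk1
  push_cast
  exact ⟨by linarith [h6.1], by linarith [h6.2]⟩

/-- the flow of a complete smooth vector field is smooth -/
theorem smooth_complete {X : W → W} (hX : ContDiff ℝ ∞ X) {g : ℝ → W → W}
    (hg : IsFlowOf X g) : ContDiff ℝ ∞ (fun p : ℝ × W => g p.1 p.2) := by
  have : ProperSpace W := FiniteDimensional.proper_real W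
  have : CompleteSpace W := FiniteDimensional.complete ℝ W
  rw [contDiff_iff_contDiffAt]
  rintro ⟨t₀, z₀⟩
  set T := |t₀| + 1 with hT
  have hT0 : 0 < T := by positivity
  obtain ⟨R, hR⟩ := ((isCompact_Icc (a := -T) (b := T)).image
    (hg.continuous z₀)).isBounded.exists_norm_le
  obtain ⟨X', C, M, h1, h2, h3, h4, h5⟩ := exists_cut X hX (|R| + 1) (by positivity)
  obtain ⟨g', hg'⟩ := Par.exists_flow h2 h3
  have hsm := contDiff_flow_infty h1 h2 hg'
  have hz₀ : ∀ t ∈ Icc (-T) T, g' t z₀ = g t z₀ := by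
    refine unique_Ioo h1 (t₀ := 0) ⟨by linarith, hT0⟩ (hg'.continuous z₀) (hg.continuous z₀)
      (fun t _ => hg'.deriv z₀ t) (fun t ht => ?_) (by rw [hg'.zero, hg.zero])
    have h6 : ‖g t z₀‖ ≤ |R| + 1 := by
      linarith [hR _ ⟨t, Ioo_subset_Icc_self ht, rfl⟩, le_abs_self R]
    rw [h4 _ h6]
    exact hg.deriv z₀ t
  have hnb : ∀ᶠ z in 𝓝 z₀, ∀ t ∈ Icc (-T) T, ‖g' t z‖ < |R| + 1 := by
    have hopen : IsOpen {p : ℝ × W | ‖g' p.1 p.2‖ < |R| + 1} :=
      isOpen_lt (hsm.continuous.norm) continuous_const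
    have hsub : Icc (-T) T ×ˢ ({z₀} : Set W) ⊆ {p : ℝ × W | ‖g' p.1 p.2‖ < |R| + 1} := by
      rintro ⟨t, z⟩ ⟨ht, hz⟩
      have hz : z = z₀ := hz
      show ‖g' t z‖ < |R| + 1
      rw [hz, hz₀ t ht]
      linarith [hR _ ⟨t, ht, rfl⟩, le_abs_self R]
    obtain ⟨u, v, hu, hv, hsu, hsv, huv⟩ := generalized_tube_lemma isCompact_Icc
      (isCompact_singleton (x := z₀)) hopen hsub
    filter_upwards [hv.mem_nhds (hsv rfl)] with z hz t ht
    exact huv (show (t, z) ∈ u ×ˢ v from ⟨hsu ht, hz⟩)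
  have heq : (fun p : ℝ × W => g p.1 p.2) =ᶠ[𝓝 (t₀, z₀)] fun p => g' p.1 p.2 := by
    have h7 : ∀ᶠ p : ℝ × W in 𝓝 (t₀, z₀), |p.1| < T :=
      (continuous_abs.comp continuous_fst).continuousAt.eventually_lt continuousAt_const
        (by show |t₀| < T; rw [hT]; linarith)
    have h8 : ∀ᶠ p : ℝ × W in 𝓝 (t₀, z₀), ∀ t ∈ Icc (-T) T, ‖g' t p.2‖ < |R| + 1 :=
      (continuous_snd (X := ℝ) (Y := W)).tendsto (t₀, z₀) |>.eventually hnb
    filter_upwards [h7, h8] with p hp1 hp2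
    have h9 := unique_Ioo hX (t₀ := 0) (a := -T) (b := T) ⟨by linarith, hT0⟩
      (hg.continuous p.2) (hg'.continuous p.2) (fun t _ => hg.deriv p.2 t) (fun t ht => by
        rw [← h4 _ (hp2 t (Ioo_subset_Icc_self ht)).le]
        exact hg'.deriv p.2 t) (by rw [hg'.zero, hg.zero])
    exact h9 (Ioo_subset_Icc_self (abs_lt.1 hp1))
  exact hsm.contDiffAt.congr_of_eventuallyEq heq

end gen

section td

variable {P W : Type} [NormedAddCommGroup P] [NormedSpace ℝ P] [FiniteDimensional ℝ P]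
  [NormedAddCommGroup W] [NormedSpace ℝ W] [FiniteDimensional ℝ W]

/-- `C` is the flow of the time dependent vector field `F`, depending on a parameter, with
`C p s₀ = id`. -/
structure TD (F : P → ℝ → W → W) (s₀ : ℝ) (C : P → ℝ → W → W) : Prop where
  smooth : ContDiff ℝ ∞ (fun q : P × ℝ × W => C q.1 q.2.1 q.2.2)
  zero : ∀ p z, C p s₀ z = z
  deriv : ∀ p s z, HasDerivAt (fun s => C p s z) (F p s (C p s z)) s

theorem td_uniq_Ioo {F : ℝ → W → W} (hF : ContDiff ℝ ∞ (fun q : ℝ × W => F q.1 q.2))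
    {γ₁ γ₂ : ℝ → W} {a b t₀ : ℝ} (h₀ : t₀ ∈ Ioo a b) (c₁ : Continuous γ₁) (c₂ : Continuous γ₂)
    (h₁ : ∀ t ∈ Ioo a b, HasDerivAt γ₁ (F t (γ₁ t)) t)
    (h₂ : ∀ t ∈ Ioo a b, HasDerivAt γ₂ (F t (γ₂ t)) t) (h : γ₁ t₀ = γ₂ t₀) :
    EqOn γ₁ γ₂ (Icc a b) := by
  have hX : ContDiff ℝ ∞ (fun q : ℝ × W => (((1 : ℝ), F q.1 q.2) : ℝ × W)) :=
    contDiff_const.prodMk hF
  have h3 := unique_Ioo hX (γ₁ := fun t => (t, γ₁ t)) (γ₂ := fun t => (t, γ₂ t)) h₀
    (continuous_id.prodMk c₁) (continuous_id.prodMk c₂)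
    (fun t ht => (hasDerivAt_id t).prodMk (h₁ t ht))
    (fun t ht => (hasDerivAt_id t).prodMk (h₂ t ht)) (by rw [h])
  intro t ht
  exact congrArg Prod.snd (h3 ht)

theorem td_uniq {F : ℝ → W → W} (hF : ContDiff ℝ ∞ (fun q : ℝ × W => F q.1 q.2))
    {γ₁ γ₂ : ℝ → W} {t₀ : ℝ} (h₁ : ∀ t, HasDerivAt γ₁ (F t (γ₁ t)) t)
    (h₂ : ∀ t, HasDerivAt γ₂ (F t (γ₂ t)) t) (h : γ₁ t₀ = γ₂ t₀) (t : ℝ) : γ₁ t = γ₂ t := by
  have h0 : t₀ ∈ Ioo (min t t₀ - 1) (max t t₀ + 1) :=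
    ⟨by linarith [min_le_right t t₀], by linarith [le_max_right t t₀]⟩
  exact td_uniq_Ioo hF h0 (continuous_iff_continuousAt.2 fun t => (h₁ t).continuousAt)
    (continuous_iff_continuousAt.2 fun t => (h₂ t).continuousAt) (fun t _ => h₁ t)
    (fun t _ => h₂ t) h ⟨by linarith [min_le_left t t₀], by linarith [le_max_left t t₀]⟩

/-- flows of bounded smooth time dependent vector fields with parameters -/
theorem exists_td {F : P → ℝ → W → W}
    (hF : ContDiff ℝ ∞ (fun q : P × ℝ × W => F q.1 q.2.1 q.2.2))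
    (hb : ∀ p, ∃ M : ℝ, ∀ s z, ‖F p s z‖ ≤ M) (s₀ : ℝ) : ∃ C : P → ℝ → W → W, TD F s₀ C := by
  have hXp : ∀ p, ContDiff ℝ ∞ (fun q : ℝ × W => (((1 : ℝ), F p q.1 q.2) : ℝ × W)) := fun p =>
    contDiff_const.prodMk (hF.comp (contDiff_const.prodMk contDiff_id))
  have hex : ∀ p, ∃ g : ℝ → ℝ × W → ℝ × W,
      IsFlowOf (fun q : ℝ × W => (((1 : ℝ), F p q.1 q.2) : ℝ × W)) g := by
    intro p
    obtain ⟨M, hM⟩ := hb p
    refine exists_global (hXp p) (M := max 1 M) fun z => ?_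
    rw [Prod.norm_def]
    exact max_le_max (by simp) (hM _ _)
  choose g hg using hex
  let X : P × ℝ × W → P × ℝ × W := fun q => (0, 1, F q.1 q.2.1 q.2.2)
  have hX : ContDiff ℝ ∞ X := contDiff_const.prodMk (contDiff_const.prodMk hF)
  have hG : IsFlowOf X (fun t q => (q.1, g q.1 t q.2)) := by
    refine ⟨fun q => ?_, fun q t => ?_⟩
    · show (q.1, g q.1 0 q.2) = q
      rw [(hg q.1).zero]
    · exact (hasDerivAt_const t q.1).prodMk ((hg q.1).deriv q.2 t)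
  have hsm := smooth_complete hX hG
  have h1 : ∀ p t q, (g p t q).1 = q.1 + t := by
    intro p t q
    have h2 := unique_all (W := ℝ) (X := fun _ => (1 : ℝ)) contDiff_const (t₀ := 0)
      (γ₁ := fun t => (g p t q).1) (γ₂ := fun t => q.1 + t)
      (fun t => (ContinuousLinearMap.fst ℝ ℝ W).hasFDerivAt.comp_hasDerivAt t ((hg p).deriv q t))
      (fun t => by simpa using (hasDerivAt_id t).const_add q.1)
      (by rw [(hg p).zero]; simp) t
    exact h2
  refine ⟨fun p s z => (g p (s - s₀) (s₀, z)).2, ?_, fun p z => ?_, fun p s z => ?_⟩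
  · have h3 : ContDiff ℝ ∞ (fun q : P × ℝ × W => ((q.2.1 - s₀, q.1, s₀, q.2.2) : ℝ × P × ℝ × W)) :=
      ((contDiff_fst.comp contDiff_snd).sub contDiff_const).prodMk
        (contDiff_fst.prodMk (contDiff_const.prodMk (contDiff_snd.comp contDiff_snd)))
    exact (contDiff_snd.comp contDiff_snd).comp (hsm.comp h3)
  · show (g p (s₀ - s₀) (s₀, z)).2 = z
    rw [sub_self, (hg p).zero]
  · have h4 := (hg p).deriv (s₀, z) (s - s₀)
    have h5 : HasDerivAt (fun s => g p (s - s₀) (s₀, z))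
        ((1, F p (g p (s - s₀) (s₀, z)).1 (g p (s - s₀) (s₀, z)).2) : ℝ × W) s :=
      HasDerivAt.comp_sub_const s s₀ h4
    have h6 := (ContinuousLinearMap.snd ℝ ℝ W).hasFDerivAt.comp_hasDerivAt s h5
    rw [h1] at h6
    have h7 : s₀ + (s - s₀) = s := by ring
    rw [h7] at h6
    exact h6

end td

end Pool.Agent.H822.EX
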