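import Mathlib
import Pool.Agent.H822.Td
import Pool.Agent.H822.PairsMain
import Pool.Graph.R_seed8.W585.Param

/-!
# Smooth families of symplectic diffeomorphisms and their Hamiltonians
-/

set_option autoImplicit false

open scoped ContDiff
open Set Filter Topology Function Metric
open Q170.SC Pool.Agent.H822.Ham Pool.Agent.H822.Pairs Pool.Agent.H822.PairsMain

namespace Pool.Agent.H822.EX

variable {m : ℕ}

/-- a smooth family of symplectic diffeomorphisms of `ℝ^{2m}` -/
structure SFam {P : Type} [NormedAddCommGroup P] [NormedSpace ℝ P] (Φ : P → E m → E m) :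
    Prop where
  smooth : ContDiff ℝ ∞ (fun q : P × E m => Φ q.1 q.2)
  symp : ∀ p z u v, omega (fderiv ℝ (Φ p) z u) (fderiv ℝ (Φ p) z v) = omega u v
  bij : ∀ p, Bijective (Φ p)

section fam

variable {P : Type} [NormedAddCommGroup P] [NormedSpace ℝ P] {Φ : P → E m → E m}

theorem SFam.slice (h : SFam Φ) (p : P) : ContDiff ℝ ∞ (Φ p) :=
  h.smooth.comp (contDiff_const.prodMk contDiff_id)

theorem fderiv_slice (hΦ : ContDiff ℝ ∞ (fun q : P × E m => Φ q.1 q.2)) (p : P) (z u : E m) :
    fderiv ℝ (Φ p) z u = fderiv ℝ (fun q : P × E m => Φ q.1 q.2) (p, z) (0, u) := by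
  have h1 : HasFDerivAt (fun y : E m => (p, y)) (ContinuousLinearMap.inr ℝ P (E m)) z :=
    hasFDerivAt_prodMk_right p z
  have h2 : fderiv ℝ (Φ p) z =
      (fderiv ℝ (fun q : P × E m => Φ q.1 q.2) (p, z)).comp (ContinuousLinearMap.inr ℝ P (E m)) :=
    ((hΦ.differentiable (by simp) (p, z)).hasFDerivAt.comp z h1).fderiv
  rw [h2]
  rfl

theorem SFam.surj (h : SFam Φ) (p : P) (z w : E m) : ∃ v, fderiv ℝ (Φ p) z v = w := by
  have : Surjective (fderiv ℝ (Φ p) z : E m →ₗ[ℝ] E m) :=
    LinearMap.surjective_of_injective ((injective_iff_map_eq_zero _).2 fun v hv =>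
      inj_of_symp (h.symp p) z v hv)
  exact this w

theorem SFam.exists_inv [FiniteDimensional ℝ P] (h : SFam Φ) :
    ∃ Ψ : P → E m → E m, SFam Ψ ∧ (∀ p z, Ψ p (Φ p z) = z) ∧ ∀ p z, Φ p (Ψ p z) = z := by
  let F : P × E m → P × E m := fun q => (q.1, Φ q.1 q.2)
  have hF : ContDiff ℝ ∞ F := contDiff_fst.prodMk h.smooth
  have hb : Bijective F := by
    constructor
    · rintro ⟨p, z⟩ ⟨p', z'⟩ heq
      have h1 : p = p' := congrArg Prod.fst heq
      subst h1
      have h2 : Φ p z = Φ p z' := congrArg Prod.snd heq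
      rw [(h.bij p).1 h2]
    · rintro ⟨p, z⟩
      obtain ⟨y, hy⟩ := (h.bij p).2 z
      exact ⟨(p, y), by show (p, Φ p y) = _; rw [hy]⟩
  have hi : ∀ q v, fderiv ℝ F q v = 0 → v = 0 := by
    rintro ⟨p, z⟩ ⟨a, v⟩ hv
    have h1 : HasFDerivAt F ((ContinuousLinearMap.fst ℝ P (E m)).prod
        (fderiv ℝ (fun q : P × E m => Φ q.1 q.2) (p, z))) (p, z) :=
      hasFDerivAt_fst.prodMk (h.smooth.differentiable (by simp) (p, z)).hasFDerivAt
    rw [h1.fderiv] at hv
    have ha : a = 0 := congrArg Prod.fst hv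
    subst ha
    have h2 : fderiv ℝ (fun q : P × E m => Φ q.1 q.2) (p, z) (0, v) = 0 := congrArg Prod.snd hv
    rw [← fderiv_slice h.smooth] at h2
    rw [inj_of_symp (h.symp p) z v h2]
    rfl
  obtain ⟨G, hG, h1, h2⟩ := exists_smooth_inv F hF hb hi
  have h3 : ∀ q, (G q).1 = q.1 := fun q => by
    have := congrArg Prod.fst (h2 q)
    exact this
  have h5 : ∀ p z, (G (p, Φ p z)).2 = z := fun p z => congrArg Prod.snd (h1 (p, z))
  have h6 : ∀ p z, Φ p (G (p, z)).2 = z := by
    intro p z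
    have := congrArg Prod.snd (h2 (p, z))
    have h7 : Φ (G (p, z)).1 (G (p, z)).2 = z := this
    rwa [h3] at h7
  have hGp : ∀ p, ContDiff ℝ ∞ (fun z => (G (p, z)).2) := fun p =>
    contDiff_snd.comp (hG.comp (contDiff_const.prodMk contDiff_id))
  refine ⟨fun p z => (G (p, z)).2, ⟨contDiff_snd.comp hG, fun p z u v => ?_, fun p => ?_⟩, h5, h6⟩
  · have h7 : (Φ p) ∘ (fun z => (G (p, z)).2) = id := funext (h6 p)
    have h8 : (fderiv ℝ (Φ p) (G (p, z)).2).comp (fderiv ℝ (fun z => (G (p, z)).2) z) =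
        ContinuousLinearMap.id ℝ (E m) := by
      rw [← fderiv_id (𝕜 := ℝ) (x := z), ← h7]
      exact (fderiv_comp z ((h.slice p).differentiable (by simp) _)
        ((hGp p).differentiable (by simp) z)).symm
    have h9 : ∀ w, fderiv ℝ (Φ p) (G (p, z)).2 (fderiv ℝ (fun z => (G (p, z)).2) z w) = w :=
      fun w => DFunLike.congr_fun h8 w
    rw [← h.symp p (G (p, z)).2, h9, h9]
  · refine ⟨fun a b hab => ?_, fun z => ⟨Φ p z, h5 p z⟩⟩
    rw [← h6 p a, ← h6 p b]
    exact congrArg (Φ p) hab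

end fam

theorem fderiv_zero_of_ham {H : E m → ℝ} {z : E m} (h : ham H z = 0) : fderiv ℝ H z = 0 := by
  refine ContinuousLinearMap.ext fun w => ?_
  rw [← omega_ham, h]
  simp [omega]

/-- a function is constant along segments on which its Hamiltonian field vanishes -/
theorem const_segment {H : E m → ℝ} (hH : ContDiff ℝ ∞ H) {a b : E m}
    (h : ∀ z ∈ segment ℝ a b, ham H z = 0) : H b = H a := by
  have h1 := (convex_segment (𝕜 := ℝ) a b).norm_image_sub_le_of_norm_fderiv_le (𝕜 := ℝ) (f := H)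
    (C := 0) (fun x _ => hH.differentiable (by simp) x)
    (fun x hx => by rw [fderiv_zero_of_ham (h x hx), norm_zero])
    (left_mem_segment ℝ a b) (right_mem_segment ℝ a b)
  rw [zero_mul, norm_le_zero_iff, sub_eq_zero] at h1
  exact h1

section ham

variable {P : Type} [NormedAddCommGroup P] [NormedSpace ℝ P] [FiniteDimensional ℝ P]

/-- the field `V` is given by a Hamiltonian -/
theorem exists_primitive (V : P → E m → E m) (hV : ContDiff ℝ ∞ (fun q : P × E m => V q.1 q.2))
    (hs : ∀ p z u v, omega (fderiv ℝ (V p) z u) v + omega u (fderiv ℝ (V p) z v) = 0) :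
    ∃ H : P → E m → ℝ, ContDiff ℝ ∞ (fun q : P × E m => H q.1 q.2) ∧
      ∀ p z, ham (H p) z = V p z := by
  refine ⟨fun p z => ∫ t in (0 : ℝ)..1, omL m (V p (t • z)) z, ?_, fun p z => ?_⟩
  · refine Pool.Agent.W585.contDiff_param (E := P × E m)
      (F := fun q t => omL m (V q.1 (t • q.2)) q.2) ?_ 0 1
    have h1 : ContDiff ℝ ∞ (fun q : (P × E m) × ℝ => V q.1.1 (q.2 • q.1.2)) :=
      hV.comp ((contDiff_fst.comp contDiff_fst).prodMk
        (contDiff_snd.smul (contDiff_snd.comp contDiff_fst)))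
    exact ((omL m).contDiff.comp h1).clm_apply (contDiff_snd.comp contDiff_fst)
  · have hVp : ContDiff ℝ ∞ (V p) := hV.comp (contDiff_const.prodMk contDiff_id)
    have hd : ∀ z, HasFDerivAt (fun z => omL m (V p z)) ((omL m).comp (fderiv ℝ (V p) z)) z :=
      fun z => (omL m).hasFDerivAt.comp z (hVp.differentiable (by simp) z).hasFDerivAt
    have h1 := Convex.hasFDerivWithinAt_curveIntegral_segment_of_hasFDerivWithinAt_symmetric
      (s := (univ : Set (E m))) (a := 0) (b := z) convex_univ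
      (fun z _ => (hd z).hasFDerivWithinAt) (fun z _ u _ v _ => by
        show omega (fderiv ℝ (V p) z u) v = omega (fderiv ℝ (V p) z v) u
        rw [omega_swap (fderiv ℝ (V p) z v)]
        linarith [hs p z u v]) (mem_univ _) (mem_univ _)
    rw [hasFDerivWithinAt_univ] at h1
    have h2 : (fun b => curveIntegral (fun z => omL m (V p z)) (Path.segment 0 b)) =
        fun z => ∫ t in (0 : ℝ)..1, omL m (V p (t • z)) z := by
      ext z
      rw [curveIntegral_segment]
      simp [AffineMap.lineMap_apply]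
    rw [h2] at h1
    refine omega_inj fun w => ?_
    rw [omega_ham, h1.fderiv]
    rfl

/-- a smooth path of symplectic diffeomorphisms, depending on a parameter, is generated by
Hamiltonians -/
theorem exists_ham (Φ : P × ℝ → E m → E m) (h : SFam Φ) :
    ∃ H : P × ℝ → E m → ℝ, ContDiff ℝ ∞ (fun q : (P × ℝ) × E m => H q.1 q.2) ∧
      ∀ p s z, HasDerivAt (fun s => Φ (p, s) z) (ham (H (p, s)) (Φ (p, s) z)) s := by
  obtain ⟨Ψ, hΨ, h1, h2⟩ := h.exists_inv
  let D : (P × ℝ) × E m → E m := fun q =>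
    fderiv ℝ (fun q : (P × ℝ) × E m => Φ q.1 q.2) q ((0, 1), 0)
  have hD : ContDiff ℝ ∞ D :=
    (h.smooth.fderiv_right (m := ∞) (by simp)).clm_apply contDiff_const
  let V : P × ℝ → E m → E m := fun q z => D (q, Ψ q z)
  have hV : ContDiff ℝ ∞ (fun q : (P × ℝ) × E m => V q.1 q.2) :=
    hD.comp (contDiff_fst.prodMk hΨ.smooth)
  have hder : ∀ p s z, HasDerivAt (fun s => Φ (p, s) z) (V (p, s) (Φ (p, s) z)) s := by
    intro p s z
    show HasDerivAt _ (D ((p, s), Ψ (p, s) (Φ (p, s) z))) s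
    rw [h1]
    have h3 : HasDerivAt (fun s : ℝ => (((p, s), z) : (P × ℝ) × E m)) ((0, 1), 0) s :=
      ((hasDerivAt_const s p).prodMk (hasDerivAt_id s)).prodMk (hasDerivAt_const s z)
    exact (h.smooth.differentiable (by simp) ((p, s), z)).hasFDerivAt.comp_hasDerivAt s h3
  have hsym : ∀ q z u v, omega (fderiv ℝ (V q) z u) v + omega u (fderiv ℝ (V q) z v) = 0 := by
    rintro ⟨p, s⟩ z u v
    obtain ⟨x, rfl⟩ := (h.bij (p, s)).2 z
    obtain ⟨u', rfl⟩ := h.surj (p, s) x u
    obtain ⟨v', rfl⟩ := h.surj (p, s) x v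
    have hΦp : ContDiff ℝ ∞ (fun r : ℝ × E m => Φ (p, r.1) r.2) :=
      h.smooth.comp ((contDiff_const.prodMk contDiff_fst).prodMk contDiff_snd)
    have hVp : ContDiff ℝ ∞ (fun r : ℝ × E m => V (p, r.1) r.2) :=
      hV.comp ((contDiff_const.prodMk contDiff_fst).prodMk contDiff_snd)
    have h3 := Td.swap hΦp hVp (fun s x => hder p s x) s x u'
    have h4 := Td.swap hΦp hVp (fun s x => hder p s x) s x v'
    have h5 := hasDerivAt_omega h3 h4
    have h6 : (fun t => omega (fderiv ℝ (fun y => Φ (p, t) y) x u')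
        (fderiv ℝ (fun y => Φ (p, t) y) x v')) = fun _ => omega u' v' := by
      ext t
      exact h.symp (p, t) x u' v'
    have h7 : HasDerivAt (fun t => omega (fderiv ℝ (fun y => Φ (p, t) y) x u')
        (fderiv ℝ (fun y => Φ (p, t) y) x v')) 0 s := by
      rw [h6]
      exact hasDerivAt_const s _
    exact h5.unique h7
  obtain ⟨H, hH, h3⟩ := exists_primitive V hV hsym
  refine ⟨H, hH, fun p s z => ?_⟩
  rw [h3]
  exact hder p s z

end ham

end Pool.Agent.H822.EX
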