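import Mathlib
import Pool.Agent.H822.EX.Flow
import Pool.Agent.H822.EX.Co
import Pool.Agent.H822.EX.Poi

/-!
# Wave maps of functions without trapped orbits
-/

set_option autoImplicit false

open scoped ContDiff
open Set Filter Topology Function Metric
open Q170.SC Pool.Agent.H822.Ham Pool.Agent.H822.Pairs Pool.Agent.H822.PairsMain
open Pool.Agent.GR.Flow Pool.Agent.H822.Par

namespace Pool.Agent.H822.EX

variable {n : ℕ}

/-- the Hamiltonian flow of `L` has no bounded orbits -/
def Trapless {m : ℕ} (L : E m → ℝ) : Prop :=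
  ∀ γ : ℝ → E m, (∀ t, HasDerivAt γ (ham L (γ t)) t) → ¬ Bornology.IsBounded (range γ)

/-! ### naturality -/

theorem surj_of_symp {m : ℕ} {F : E m → E m}
    (h : ∀ z u v, omega (fderiv ℝ F z u) (fderiv ℝ F z v) = omega u v) (z w : E m) :
    ∃ v, fderiv ℝ F z v = w := by
  have : Surjective (fderiv ℝ F z : E m →ₗ[ℝ] E m) :=
    LinearMap.surjective_of_injective ((injective_iff_map_eq_zero _).2 fun v hv =>
      inj_of_symp h z v hv)
  exact this w

theorem ham_natural {m : ℕ} {F : E m → E m} (hF : ContDiff ℝ ∞ F)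
    (h : ∀ z u v, omega (fderiv ℝ F z u) (fderiv ℝ F z v) = omega u v) {L : E m → ℝ}
    (hL : ContDiff ℝ ∞ L) (z : E m) :
    fderiv ℝ F z (ham (fun y => L (F y)) z) = ham L (F z) := by
  refine omega_inj fun w => ?_
  obtain ⟨v, rfl⟩ := surj_of_symp h z w
  rw [h, omega_ham, omega_ham]
  have h2 : fderiv ℝ (fun y => L (F y)) z = (fderiv ℝ L (F z)).comp (fderiv ℝ F z) :=
    fderiv_comp z (hL.differentiable (by simp) _) (hF.differentiable (by simp) z)
  rw [h2]
  rfl

/-- if `L ∘ W = Y` then `W` maps lines to orbits of `L` -/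
theorem line_orbit {W : E (n + 1) → E (n + 1)} (hW : ContDiff ℝ ∞ W)
    (hs : ∀ z u v, omega (fderiv ℝ W z u) (fderiv ℝ W z v) = omega u v)
    {L : E (n + 1) → ℝ} (hL : ContDiff ℝ ∞ L) (h : ∀ z, L (W z) = cY z) (z : E (n + 1)) (t : ℝ) :
    HasDerivAt (fun t : ℝ => W (z + t • e0)) (ham L (W (z + t • e0))) t := by
  have h1 : HasDerivAt (fun t : ℝ => z + t • (e0 : E (n + 1))) ((1 : ℝ) • e0) t :=
    ((hasDerivAt_id t).smul_const _).const_add z
  rw [one_smul] at h1
  have h2 := (hW.differentiable (by simp) (z + t • e0)).hasFDerivAt.comp_hasDerivAt t h1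
  have h3 := ham_natural hW hs hL (z + t • e0)
  have h4 : (fun y => L (W y)) = cY := funext h
  rw [h4, ham_cY] at h3
  rw [h3] at h2
  exact h2

/-- `W` is determined by `L = Y ∘ W⁻¹` and by the condition that it is the identity on the
left -/
theorem wave_unique {W W' : E (n + 1) → E (n + 1)} (hW : ContDiff ℝ ∞ W)
    (hs : ∀ z u v, omega (fderiv ℝ W z u) (fderiv ℝ W z v) = omega u v)
    (hW' : ContDiff ℝ ∞ W')
    (hs' : ∀ z u v, omega (fderiv ℝ W' z u) (fderiv ℝ W' z v) = omega u v)
    {L : E (n + 1) → ℝ} (hL : ContDiff ℝ ∞ L) (h : ∀ z, L (W z) = cY z)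
    (h' : ∀ z, L (W' z) = cY z) {R R' : ℝ} (hl : ∀ z, cX z < -R → W z = z)
    (hl' : ∀ z, cX z < -R' → W' z = z) (z : E (n + 1)) : W z = W' z := by
  set t₀ : ℝ := - (|R| + |R'| + |cX z| + 1) with ht
  have h1 : cX (z + t₀ • e0) < -R := by
    simp only [map_add, map_smul, cX_e0, smul_eq_mul, mul_one, ht]
    have := le_abs_self R; have := le_abs_self (cX z); have := abs_nonneg R'
    linarith
  have h2 : cX (z + t₀ • e0) < -R' := by
    simp only [map_add, map_smul, cX_e0, smul_eq_mul, mul_one, ht]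
    have := le_abs_self R'; have := le_abs_self (cX z); have := abs_nonneg R
    linarith
  have h3 := unique_all (ham_smooth hL) (line_orbit hW hs hL h z) (line_orbit hW' hs' hL h' z)
    (t₀ := t₀) (by rw [hl _ h1, hl' _ h2]) 0
  simpa using h3

/-! ### Exit times -/

section exit

variable {P W : Type} [NormedAddCommGroup P] [NormedSpace ℝ P]
  [NormedAddCommGroup W] [NormedSpace ℝ W]

omit [NormedSpace ℝ P] [NormedSpace ℝ W] in
theorem exit {g : P → ℝ → W → W} (hg : Continuous (fun q : P × ℝ × W => g q.1 q.2.1 q.2.2))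
    {Q : Set P} (hQ : IsCompact Q) {K : Set W} (hK : IsCompact K)
    (hno : ∀ p z, ¬ ∀ t, g p t z ∈ K) :
    ∃ T : ℝ, 0 < T ∧ ∀ p ∈ Q, ∀ z ∈ K, ∃ t ∈ Icc (-T) T, g p t z ∉ K := by
  by_contra hcon
  push Not at hcon
  let F : ℕ → Set (P × W) := fun k =>
    (Q ×ˢ K) ∩ ⋂ t ∈ Icc (-((k : ℝ) + 1)) ((k : ℝ) + 1), {q | g q.1 t q.2 ∈ K}
  have hcl : ∀ k, IsClosed (F k) := by
    intro k
    refine (hQ.prod hK).isClosed.inter (isClosed_biInter fun t _ => ?_)
    exact hK.isClosed.preimage (hg.comp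
      (continuous_fst.prodMk (continuous_const.prodMk continuous_snd)))
  have hne : ∀ k, (F k).Nonempty := by
    intro k
    obtain ⟨p, hp, z, hz, h⟩ := hcon ((k : ℝ) + 1) (by positivity)
    refine ⟨(p, z), ⟨hp, hz⟩, ?_⟩
    simp only [mem_iInter]
    exact fun t ht => h t ht
  have hmono : ∀ k, F (k + 1) ⊆ F k := by
    intro k q hq
    refine ⟨hq.1, ?_⟩
    have h2 := hq.2
    simp only [mem_iInter] at h2 ⊢
    intro t ht
    refine h2 t ⟨?_, ?_⟩ <;> push_cast <;> [linarith [ht.1]; linarith [ht.2]]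
  have h0 : IsCompact (F 0) := (hQ.prod hK).of_isClosed_subset (hcl 0) inter_subset_left
  obtain ⟨q, hq⟩ := IsCompact.nonempty_iInter_of_sequence_nonempty_isCompact_isClosed F hmono hne
    h0 hcl
  refine hno q.1 q.2 fun t => ?_
  obtain ⟨k, hk⟩ := exists_nat_ge |t|
  have h1 := (mem_iInter.1 hq k).2
  simp only [mem_iInter] at h1
  have := abs_le.1 hk
  exact h1 t ⟨by linarith [this.1], by linarith [this.2]⟩

omit [NormedSpace ℝ P] [NormedSpace ℝ W] in
theorem exit_pm {g : P → ℝ → W → W} (hg : Continuous (fun q : P × ℝ × W => g q.1 q.2.1 q.2.2))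
    (hadd : ∀ p s t z, g p (s + t) z = g p s (g p t z))
    {Q : Set P} (hQ : IsCompact Q) {K : Set W} (hK : IsCompact K)
    (hno : ∀ p z, ¬ ∀ t, g p t z ∈ K) :
    ∃ T : ℝ, 0 < T ∧ (∀ p ∈ Q, ∀ z ∈ K, ∃ t ∈ Icc 0 T, g p t z ∉ K) ∧
      ∀ p ∈ Q, ∀ z ∈ K, ∃ t ∈ Icc 0 T, g p (-t) z ∉ K := by
  obtain ⟨T, hT, h⟩ := exit hg hQ hK hno
  refine ⟨2 * T, by positivity, fun p hp z hz => ?_, fun p hp z hz => ?_⟩
  · by_contra hcon
    push Not at hcon
    obtain ⟨t, ht, h1⟩ := h p hp _ (hcon T ⟨hT.le, by linarith⟩)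
    rw [← hadd] at h1
    exact h1 (hcon (t + T) ⟨by linarith [ht.1], by linarith [ht.2]⟩)
  · by_contra hcon
    push Not at hcon
    obtain ⟨t, ht, h1⟩ := h p hp _ (hcon T ⟨hT.le, by linarith⟩)
    rw [← hadd] at h1
    have h2 := hcon (T - t) ⟨by linarith [ht.2], by linarith [ht.1]⟩
    rw [neg_sub] at h2
    exact h1 h2

end exit

/-! ### One function -/

section one

variable {L : E (n + 1) → ℝ} {R : ℝ} {g : ℝ → E (n + 1) → E (n + 1)}
  (hs : ContDiff ℝ ∞ L) (hoff : ∀ z, R < ‖z‖ → L z = cY z) (hg : IsFlowOf (ham L) g)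

include hoff in
theorem ham_out {z : E (n + 1)} (hz : R < ‖z‖) : ham L z = e0 := by
  rw [← dual_cY]
  refine ham_off (K := closedBall 0 R) isClosed_closedBall (fun z hz => hoff z ?_) z ?_
  · rwa [mem_closedBall_zero_iff, not_le] at hz
  · rwa [mem_closedBall_zero_iff, not_le]

theorem norm_gt_of_cX {z : E (n + 1)} {R : ℝ} (h : R < |cX z|) : R < ‖z‖ :=
  h.trans_le (abs_cX_le z)

include hs hoff in
theorem exists_lip : ∃ C : NNReal, LipschitzWith C (ham L) :=
  ham_lip hs (isCompact_closedBall (0 : E (n + 1)) R) (ℓ := cY) fun z hz => hoff z (by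
    rwa [mem_closedBall_zero_iff, not_le] at hz)

include hs hoff hg in
theorem straight' {w : E (n + 1)} {s : ℝ} (h0 : 0 ≤ s)
    (h : ∀ r ∈ Icc (0 : ℝ) s, R < ‖w + r • e0‖) : g s w = w + s • e0 := by
  obtain ⟨C, hC⟩ := exists_lip hs hoff
  exact straight hC hg h0 fun r hr => ham_out hoff (h r hr)

include hs hoff hg in
theorem fwd_out {z : E (n + 1)} (hz : R < cX z) {t : ℝ} (ht : 0 ≤ t) :
    g t z = z + t • e0 := by
  refine straight' hs hoff hg ht fun r hr => norm_gt_of_cX (lt_of_lt_of_le ?_ (le_abs_self _))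
  simp
  linarith [hr.1]

include hs in
theorem inv_of (hg : IsFlowOf (ham L) g) {t : ℝ} {z w : E (n + 1)} (h : g t z = w) :
    g (-t) w = z := by
  rw [← h, ← flow_add (ham_smooth hs) hg, neg_add_cancel, hg.zero]

include hs hoff hg in
theorem bwd_in {z : E (n + 1)} (hz : cX z < -R) {t : ℝ} (ht : 0 ≤ t) :
    g (-t) z = z - t • e0 := by
  refine inv_of hs hg ?_
  rw [straight' hs hoff hg ht fun r hr => norm_gt_of_cX (lt_of_lt_of_le ?_ (neg_le_abs _))]
  · abel
  · simp
    linarith [hr.2]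

include hs hoff hg in
theorem tube_flow {z : E (n + 1)} (hz : R < |cY z| ∨ R < ‖tl z‖) (t : ℝ) :
    g t z = z + t • e0 := by
  have key : ∀ (z : E (n + 1)), (R < |cY z| ∨ R < ‖tl z‖) → ∀ t, 0 ≤ t → g t z = z + t • e0 := by
    intro z hz t ht
    refine straight' hs hoff hg ht fun r hr => ?_
    rcases hz with hz | hz
    · refine lt_of_lt_of_le ?_ (abs_cY_le _)
      simpa using hz
    · refine lt_of_lt_of_le ?_ (norm_tl_le _)
      simpa using hz
  rcases le_total 0 t with ht | ht
  · exact key z hz t ht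
  · have h1 := key (z + t • e0) (by simpa using hz) (-t) (by linarith)
    have h2 := inv_of hs hg h1
    rw [neg_neg] at h2
    rw [← h2]
    congr 1
    rw [neg_smul]
    abel

/-- the wave map -/
noncomputable def wv (R : ℝ) (g : ℝ → E (n + 1) → E (n + 1)) (z : E (n + 1)) : E (n + 1) :=
  g (cX z + R + 1) (z - (cX z + R + 1) • e0)

include hs hoff hg in
theorem wv_eq {z : E (n + 1)} {s : ℝ} (h : cX z + R + 1 ≤ s) : wv R g z = g s (z - s • e0) := by
  have h1 : g (s - (cX z + R + 1)) (z - s • e0) = z - (cX z + R + 1) • e0 := by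
    rw [straight' hs hoff hg (by linarith) fun r hr => norm_gt_of_cX
      (lt_of_lt_of_le ?_ (neg_le_abs _))]
    · rw [sub_smul]; abel
    · simp
      linarith [hr.2]
  rw [wv, ← h1, ← flow_add (ham_smooth hs) hg]
  congr 1
  ring

include hs hoff hg in
theorem wv_flow (z : E (n + 1)) (t : ℝ) : wv R g (z + t • e0) = g t (wv R g z) := by
  obtain ⟨s, h1, h2⟩ : ∃ s, cX z + R + 1 ≤ s ∧ cX (z + t • e0) + R + 1 ≤ s + t :=
    ⟨cX z + R + 1, le_rfl, by simp; linarith⟩
  rw [wv_eq hs hoff hg h1, wv_eq hs hoff hg h2, ← flow_add (ham_smooth hs) hg, add_comm t s]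
  congr 1
  rw [add_smul]
  abel

include hs hoff hg in
theorem wv_left {z : E (n + 1)} (hz : cX z < -R) : wv R g z = z := by
  have h1 : cX z + R + 1 ≤ max 0 (cX z + R + 1) := le_max_right _ _
  rw [wv_eq hs hoff hg h1, straight' hs hoff hg (le_max_left _ _) fun r hr => norm_gt_of_cX
      (lt_of_lt_of_le ?_ (neg_le_abs _))]
  · abel
  · simp
    have := hr.2
    simp only [le_sup_iff] at this
    linarith [hr.2]

include hs hoff hg in
theorem wv_tube {z : E (n + 1)} (hz : R < |cY z| ∨ R < ‖tl z‖) : wv R g z = z := by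
  rw [wv, tube_flow hs hoff hg (by simpa using hz)]
  abel

include hs hoff hg in
theorem wv_inj : Injective (wv R g) := by
  intro z z' h
  have h1 := fun t => (wv_flow hs hoff hg z t).trans ((congrArg (g t) h).trans
    (wv_flow hs hoff hg z' t).symm)
  have h2 := h1 (-(|cX z| + |cX z'| + |R| + 1))
  have a1 := le_abs_self (cX z)
  have a2 := le_abs_self (cX z')
  have a3 := le_abs_self R
  have a4 := abs_nonneg (cX z)
  have a5 := abs_nonneg (cX z')
  rw [wv_left hs hoff hg (by simp; linarith), wv_left hs hoff hg (by simp; linarith)] at h2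
  simpa using h2

include hs hoff hg in
theorem wv_fun (z : E (n + 1)) : L (wv R g z) = cY z := by
  have h1 := wv_eq (z := z) hs hoff hg le_rfl
  rw [h1, flow_bracket hs hg (poisson_self L), hoff]
  · simp
  · refine norm_gt_of_cX (lt_of_lt_of_le ?_ (neg_le_abs _))
    simp
    linarith

end one

/-! ### Families -/

/-- A smooth family of functions, equal to `Y` off one ball, without trapped orbits. -/
structure TFam {P : Type} [NormedAddCommGroup P] [NormedSpace ℝ P] (L : P → E (n + 1) → ℝ)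
    (R : ℝ) : Prop where
  pos : 0 < R
  smooth : ContDiff ℝ ∞ (fun q : P × E (n + 1) => L q.1 q.2)
  off : ∀ p z, R < ‖z‖ → L p z = cY z
  trapless : ∀ p, Trapless (L p)

/-- A smooth family of symplectic diffeomorphisms of `ℝ^{2n+2}` which are the identity on the left
and outside of a tube around the `X` axis, and which on the right commute with the translations
in the direction of `X` and preserve `Y`. -/
structure Sc {P : Type} [NormedAddCommGroup P] [NormedSpace ℝ P]
    (W : P → E (n + 1) → E (n + 1)) (R : ℝ) : Prop where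
  pos : 0 < R
  fam : SFam W
  left : ∀ p z, cX z < -R → W p z = z
  tube : ∀ p z, (R < |cY z| ∨ R < ‖tl z‖) → W p z = z
  out : ∀ Q : Set P, IsCompact Q → ∃ M : ℝ, ∀ p ∈ Q, ∀ z, M ≤ cX z → cY (W p z) = cY z ∧
    ∀ r : ℝ, 0 ≤ r → W p (z + r • e0) = W p z + r • e0

section fam

variable {P : Type} [NormedAddCommGroup P] [NormedSpace ℝ P] [FiniteDimensional ℝ P]
  {L : P → E (n + 1) → ℝ} {R : ℝ}

omit [FiniteDimensional ℝ P] in
theorem TFam.slice (h : TFam L R) (p : P) : ContDiff ℝ ∞ (L p) :=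
  h.smooth.comp (contDiff_const.prodMk contDiff_id)

/-- wave maps of families -/
theorem TFam.exists_wave (h : TFam L R) :
    ∃ W : P → E (n + 1) → E (n + 1), Sc W R ∧ ∀ p z, L p (W p z) = cY z := by
  have hflow : ∀ p, ∃ g : ℝ → E (n + 1) → E (n + 1), IsFlowOf (ham (L p)) g := fun p =>
    ham_flow (h.slice p) (isCompact_closedBall (0 : E (n + 1)) R) (ℓ := cY) fun z hz =>
      h.off p z (by rwa [mem_closedBall_zero_iff, not_le] at hz)
  choose g hg using hflow
  have hgs : ContDiff ℝ ∞ (fun q : P × ℝ × E (n + 1) => g q.1 q.2.1 q.2.2) :=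
    smooth_flow_param (fun p => ham (L p)) (ham_smooth_param h.smooth) (closedBall 0 R)
      (isCompact_closedBall _ _) e0 (fun p z hz => ham_out (h.off p) (by
        rwa [mem_closedBall_zero_iff, not_le] at hz)) g hg
  have hadd : ∀ p s t z, g p (s + t) z = g p s (g p t z) := fun p s t z =>
    flow_add (ham_smooth (h.slice p)) (hg p) s t z
  have hno : ∀ p z, ¬ ∀ t, g p t z ∈ closedBall (0 : E (n + 1)) (R + 1) := by
    intro p z hz
    refine h.trapless p (fun t => g p t z) ((hg p).deriv z) ?_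
    refine (isBounded_closedBall (x := (0 : E (n + 1))) (r := R + 1)).subset ?_
    rintro _ ⟨t, rfl⟩
    exact hz t
  refine ⟨fun p => wv R (g p), ⟨h.pos, ⟨?_, fun p z u v => ?_, fun p => ?_⟩,
    fun p z hz => wv_left (h.slice p) (h.off p) (hg p) hz,
    fun p z hz => wv_tube (h.slice p) (h.off p) (hg p) hz, fun Q hQ => ?_⟩,
    fun p z => wv_fun (h.slice p) (h.off p) (hg p) z⟩
  · have h2 : ContDiff ℝ ∞ (fun q : P × E (n + 1) => cX q.2 + R + 1) :=
      (((cX : E (n + 1) →L[ℝ] ℝ).contDiff.comp contDiff_snd).add contDiff_const).add contDiff_const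
    exact hgs.comp (contDiff_fst.prodMk (h2.prodMk (contDiff_snd.sub (h2.smul contDiff_const))))
  · obtain ⟨C, hC⟩ := exists_lip (h.slice p) (h.off p)
    set s := cX z + R + 2 with hs
    have h1 : wv R (g p) =ᶠ[𝓝 z] fun z => g p s (z - s • e0) := by
      have h2 : ∀ᶠ y in 𝓝 z, cX y < cX z + 1 :=
        (cX : E (n + 1) →L[ℝ] ℝ).continuous.continuousAt.eventually_lt continuousAt_const (by simp)
      filter_upwards [h2] with y hy
      exact wv_eq (h.slice p) (h.off p) (hg p) (by linarith)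
    have h3 := fderiv_comp_sub (𝕜 := ℝ) (f := g p s) (x := z) (s • e0)
    rw [h1.fderiv_eq, h3]
    exact flow_symp (h.slice p) hC (hg p) s _ u v
  · refine ⟨wv_inj (h.slice p) (h.off p) (hg p), fun ζ => ?_⟩
    obtain ⟨T, hT, -, h2⟩ := exit_pm hgs.continuous hadd (isCompact_singleton (x := p))
      (isCompact_closedBall (0 : E (n + 1)) (R + 1)) hno
    -- points which come from the left
    have key : ∀ ζ : E (n + 1), ∀ t : ℝ, cX (g p (-t) ζ) < -R → ∃ z, wv R (g p) z = ζ := by
      intro ζ t hη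
      refine ⟨g p (-t) ζ + t • e0, ?_⟩
      rw [wv_flow (h.slice p) (h.off p) (hg p), wv_left (h.slice p) (h.off p) (hg p) hη, ← hadd,
        add_neg_cancel, (hg p).zero]
    have key2 : ∀ ζ : E (n + 1), ‖ζ‖ ≤ R + 1 → ∃ z, wv R (g p) z = ζ := by
      intro ζ hζ
      by_cases hU : R < |cY ζ| ∨ R < ‖tl ζ‖
      · exact ⟨ζ, wv_tube (h.slice p) (h.off p) (hg p) hU⟩
      obtain ⟨t, ht, h3⟩ := h2 p rfl ζ (by simpa using hζ)
      rw [mem_closedBall_zero_iff, norm_le_iff, not_and_or, not_and_or] at h3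
      set η := g p (-t) ζ with hη
      have hback : g p t η = ζ := by rw [hη, ← hadd, add_neg_cancel, (hg p).zero]
      have hU' : ¬ (R < |cY η| ∨ R < ‖tl η‖) := by
        intro hU'
        apply hU
        have h4 := tube_flow (h.slice p) (h.off p) (hg p) hU' t
        rw [hback] at h4
        rw [h4]
        simpa using hU'
      rw [not_or, not_lt, not_lt] at hU'
      rcases h3 with h3 | h3 | h3
      · rw [not_le] at h3
        by_cases h5 : 0 ≤ cX η
        · exfalso
          rw [abs_of_nonneg h5] at h3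
          have h6 := fwd_out (h.slice p) (h.off p) (hg p) (z := η) (by linarith) ht.1
          rw [hback] at h6
          have h7 := (abs_cX_le ζ).trans hζ
          rw [h6] at h7
          simp only [map_add, map_smul, cX_e0, smul_eq_mul, mul_one] at h7
          linarith [le_abs_self (cX η + t), ht.1]
        · rw [abs_of_neg (not_le.1 h5)] at h3
          exact key ζ t (by rw [← hη]; linarith)
      · exact absurd (hU'.1.trans (by linarith)) h3
      · exact absurd (hU'.2.trans (by linarith)) h3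
    by_cases hU : R < |cY ζ| ∨ R < ‖tl ζ‖
    · exact ⟨ζ, wv_tube (h.slice p) (h.off p) (hg p) hU⟩
    rw [not_or, not_lt, not_lt] at hU
    by_cases h5 : |cX ζ| ≤ R + 1
    · exact key2 ζ (norm_le_of h5 (by linarith [hU.1]) (by linarith [hU.2]))
    rw [not_le] at h5
    by_cases h6 : 0 ≤ cX ζ
    · rw [abs_of_nonneg h6] at h5
      set r := cX ζ - (R + 1) with hr
      have h7 : ‖ζ - r • e0‖ ≤ R + 1 := by
        refine norm_le_of ?_ ?_ ?_
        · simp only [map_sub, map_smul, cX_e0, smul_eq_mul, mul_one, hr]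
          rw [show cX ζ - (cX ζ - (R + 1)) = R + 1 by ring, abs_of_nonneg (by linarith [h.pos])]
        · simp
          linarith [hU.1]
        · simp
          linarith [hU.2]
      obtain ⟨z, hz⟩ := key2 _ h7
      refine ⟨z + r • e0, ?_⟩
      rw [wv_flow (h.slice p) (h.off p) (hg p), hz,
        fwd_out (h.slice p) (h.off p) (hg p) (by simp [hr]) (by linarith)]
      abel
    · rw [abs_of_neg (not_le.1 h6)] at h5
      exact ⟨ζ, wv_left (h.slice p) (h.off p) (hg p) (by linarith)⟩
  · obtain ⟨T, hT, h1, -⟩ := exit_pm hgs.continuous hadd hQ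
      (isCompact_closedBall (0 : E (n + 1)) (R + 1)) hno
    refine ⟨T, fun p hp z hz => ?_⟩
    by_cases hU : R < |cY z| ∨ R < ‖tl z‖
    · rw [wv_tube (h.slice p) (h.off p) (hg p) hU]
      refine ⟨rfl, fun r _ => ?_⟩
      rw [wv_tube (h.slice p) (h.off p) (hg p) (by simpa using hU)]
    rw [not_or, not_lt, not_lt] at hU
    set s := cX z + R + 1 with hs
    set w := z - s • e0 with hw
    have hwc : cX w = -(R + 1) := by
      simp only [hw, hs, map_sub, map_smul, cX_e0, smul_eq_mul, mul_one]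
      ring
    have hwK : ‖w‖ ≤ R + 1 := by
      refine norm_le_of ?_ ?_ ?_
      · rw [hwc, abs_neg, abs_of_nonneg (by linarith [h.pos])]
      · simp only [hw, map_sub, map_smul, cY_e0, smul_eq_mul, mul_zero, sub_zero]
        linarith [hU.1]
      · simp only [hw, map_sub, map_smul, tl_e0, smul_zero, sub_zero]
        linarith [hU.2]
    obtain ⟨t, ht, h3⟩ := h1 p hp w (by simpa using hwK)
    have hts : t ≤ s := by linarith [ht.2, h.pos]
    rw [mem_closedBall_zero_iff, norm_le_iff, not_and_or, not_and_or] at h3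
    set η := g p t w with hη
    have hback : g p (-t) η = w := by rw [hη, ← hadd, neg_add_cancel, (hg p).zero]
    have hU' : ¬ (R < |cY η| ∨ R < ‖tl η‖) := by
      intro hU'
      have h4 := tube_flow (h.slice p) (h.off p) (hg p) hU' (-t)
      rw [hback] at h4
      have h5 : ¬ (R < |cY w| ∨ R < ‖tl w‖) := by
        rw [not_or, not_lt, not_lt]
        simpa [hw] using hU
      apply h5
      rw [h4]
      simpa using hU'
    rw [not_or, not_lt, not_lt] at hU'
    have hηX : R + 1 < cX η := by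
      rcases h3 with h3 | h3 | h3
      · rw [not_le] at h3
        by_cases h5 : 0 ≤ cX η
        · rwa [abs_of_nonneg h5] at h3
        · exfalso
          rw [abs_of_neg (not_le.1 h5)] at h3
          have h6 := bwd_in (h.slice p) (h.off p) (hg p) (z := η) (by linarith) ht.1
          rw [hback] at h6
          rw [h6] at hwc
          simp only [map_sub, map_smul, cX_e0, smul_eq_mul, mul_one] at hwc
          linarith [ht.1]
      · exact absurd (hU'.1.trans (by linarith)) h3
      · exact absurd (hU'.2.trans (by linarith)) h3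
    have hWz : wv R (g p) z = η + (s - t) • e0 := by
      show g p s w = _
      have : s = (s - t) + t := by ring
      conv_lhs => rw [this]
      rw [hadd, ← hη, fwd_out (h.slice p) (h.off p) (hg p) (by linarith) (by linarith)]
    have hWX : R < cX (wv R (g p) z) := by
      rw [hWz]
      simp only [map_add, map_smul, cX_e0, smul_eq_mul, mul_one]
      linarith
    refine ⟨?_, fun r hr => ?_⟩
    · have h8 := wv_fun (h.slice p) (h.off p) (hg p) z
      rwa [h.off p _ (norm_gt_of_cX (lt_of_lt_of_le hWX (le_abs_self _)))] at h8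
    · rw [wv_flow (h.slice p) (h.off p) (hg p), fwd_out (h.slice p) (h.off p) (hg p) hWX hr]

end fam

end Pool.Agent.H822.EX
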