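import Mathlib
import Pool.Agent.H822.EX.Wave

/-!
# Outgoing families of elements of `Symp_ct(ℝ^{2n})`
-/

set_option autoImplicit false

open scoped ContDiff
open Set Filter Topology Function Metric
open Q170.SC Pool.Agent.H822.Ham Pool.Agent.H822.Pairs Pool.Agent.H822.PairsMain
open Pool.Agent.GR.Flow Pool.Agent.H822.Par Pool.Agent.Q191.SY

namespace Pool.Agent.H822.EX

variable {n : ℕ} {P : Type} [NormedAddCommGroup P] [NormedSpace ℝ P]
  {W : P → E (n + 1) → E (n + 1)} {R : ℝ}

/-- On the right, `W` covers the family `b`. -/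
def Out (W : P → E (n + 1) → E (n + 1)) (b : P → ℝ → SympCt n) : Prop :=
  ∀ Q : Set P, IsCompact Q → ∃ M : ℝ, ∀ p ∈ Q, ∀ z, M ≤ cX z →
    cY (W p z) = cY z ∧ tl (W p z) = (b p (cY z)).map (tl z)

/-- a smooth family of elements of `Symp_ct(ℝ^{2n})`, with parameters in `P × ℝ` -/
structure BFam (b : P → ℝ → SympCt n) (R : ℝ) : Prop where
  smooth : ContDiff ℝ ∞ (fun q : P × ℝ × E n => (b q.1 q.2.1).map q.2.2)
  off : ∀ p y w, (R < |y| ∨ R < ‖w‖) → (b p y).map w = w

theorem fderiv_tl_comp {F : E (n + 1) → E (n + 1)} (hF : ContDiff ℝ ∞ F) (x y : ℝ) (w u : E n) :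
    fderiv ℝ (fun w => tl (F (pt x y w))) w u = tl (fderiv ℝ F (pt x y w) (up u)) := by
  have h1 : HasFDerivAt (fun w : E n => pt x y w) (up : E n →L[ℝ] E (n + 1)) w := by
    have h2 : (fun w : E n => pt x y w) = fun w => pt x y 0 + up w := by
      ext1 w
      rw [up_apply, pt_add]
      simp
    rw [h2]
    exact (up : E n →L[ℝ] E (n + 1)).hasFDerivAt.const_add _
  have h3 := (tl : E (n + 1) →L[ℝ] E n).hasFDerivAt.comp w
    ((hF.differentiable (by simp) (pt x y w)).hasFDerivAt.comp w h1)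
  have h4 : fderiv ℝ (fun w => tl (F (pt x y w))) w = _ := h3.fderiv
  rw [h4]
  rfl

theorem fderiv_cY_out {F : E (n + 1) → E (n + 1)} (hF : ContDiff ℝ ∞ F) {M : ℝ}
    (h : ∀ z, M ≤ cX z → cY (F z) = cY z) {z : E (n + 1)} (hz : M < cX z) (v : E (n + 1)) :
    cY (fderiv ℝ F z v) = cY v := by
  have h1 : (fun y => cY (F y)) =ᶠ[𝓝 z] cY := by
    have h2 : ∀ᶠ y in 𝓝 z, M < cX y :=
      continuousAt_const.eventually_lt (cX : E (n + 1) →L[ℝ] ℝ).continuous.continuousAt hz
    filter_upwards [h2] with y hy using h y hy.le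
  have h3 : fderiv ℝ (fun y => cY (F y)) z = (cY : E (n + 1) →L[ℝ] ℝ).comp (fderiv ℝ F z) :=
    ((cY : E (n + 1) →L[ℝ] ℝ).hasFDerivAt.comp z
      (hF.differentiable (by simp) z).hasFDerivAt).fderiv
  rw [h1.fderiv_eq, ContinuousLinearMap.fderiv] at h3
  exact (DFunLike.congr_fun h3 v).symm

variable [FiniteDimensional ℝ P]

/-- existence of the outgoing family -/
theorem Sc.exists_out (h : Sc W R) : ∃ b : P → ℝ → SympCt n, BFam b R ∧ Out W b := by
  choose M hM using fun p : P => h.out {p} isCompact_singleton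
  have hM := fun p => hM p p rfl
  -- the value does not depend on the first coordinate
  have hind : ∀ (p : P) (y : ℝ) (w : E n) (x x' : ℝ),
      (∀ r : ℝ, 0 ≤ r → W p (pt x y w + r • e0) = W p (pt x y w) + r • e0) →
      (∀ r : ℝ, 0 ≤ r → W p (pt x' y w + r • e0) = W p (pt x' y w) + r • e0) →
      tl (W p (pt x y w)) = tl (W p (pt x' y w)) := by
    intro p y w x x' h1 h2
    have h3 := h1 (max x x' - x) (by linarith [le_max_left x x'])
    have h4 := h2 (max x x' - x') (by linarith [le_max_right x x'])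
    have e1 : ∀ x₁ x₂ : ℝ, pt x₁ y w + (x₂ - x₁) • e0 = pt x₂ y w := by
      intro x₁ x₂
      refine ext_co ?_ ?_ ?_ <;> simp
    rw [e1] at h3 h4
    rw [h3] at h4
    have h5 := congrArg tl h4
    simpa using h5
  have hsm := fun p => h.fam.slice p
  let F : P → ℝ → E n → E n := fun p y w => tl (W p (pt (M p + 1) y w))
  have hFQ : ∀ (p : P) (y : ℝ) (w : E n) (x : ℝ),
      (∀ r : ℝ, 0 ≤ r → W p (pt x y w + r • e0) = W p (pt x y w) + r • e0) →
      tl (W p (pt x y w)) = F p y w := by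
    intro p y w x h1
    exact hind p y w x (M p + 1) h1 fun r hr => (hM p _ (by simp)).2 r hr
  have hoff : ∀ p y w, (R < |y| ∨ R < ‖w‖) → F p y w = w := by
    intro p y w hyw
    show tl (W p (pt (M p + 1) y w)) = w
    rw [h.tube p _ (by simpa using hyw)]
    simp
  have hFs : ∀ p y, ContDiff ℝ ∞ (F p y) := by
    intro p y
    have h1 : ContDiff ℝ ∞ (fun w : E n => pt (M p + 1) y w) :=
      (ptL (n := n)).contDiff.comp (contDiff_const.prodMk (contDiff_const.prodMk contDiff_id))
    exact (tl : E (n + 1) →L[ℝ] E n).contDiff.comp ((hsm p).comp h1)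
  have hFsymp : ∀ p y z u v, omega (fderiv ℝ (F p y) z u) (fderiv ℝ (F p y) z v) = omega u v := by
    intro p y w u v
    have h1 := h.fam.symp p (pt (M p + 1) y w) (up u) (up v)
    rw [omega_co, omega_co (up u)] at h1
    have h2 := fun v => fderiv_cY_out (hsm p) (M := M p) (fun z hz => (hM p z hz).1)
      (z := pt (M p + 1) y w) (by simp) v
    rw [h2, h2] at h1
    simp only [cY_up, mul_zero, zero_mul, sub_zero, zero_add, cX_up, tl_up] at h1
    rw [← h1, ← fderiv_tl_comp (hsm p), ← fderiv_tl_comp (hsm p)]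
  have hFinj : ∀ p y, Injective (F p y) := by
    intro p y w w' hww
    have e1 := hM p (pt (M p + 1) y w) (by simp)
    have e2 := hM p (pt (M p + 1) y w') (by simp)
    have e3 : tl (W p (pt (M p + 1) y w)) = tl (W p (pt (M p + 1) y w')) := hww
    have key : ∀ z z' : E (n + 1), (∀ r : ℝ, 0 ≤ r → W p (z + r • e0) = W p z + r • e0) →
        cY (W p z) = cY (W p z') → tl (W p z) = tl (W p z') → cX (W p z) ≤ cX (W p z') →
        tl z = tl z' := by
      intro z z' h1 h2 h3 h4
      have h5 := h1 (cX (W p z') - cX (W p z)) (by linarith)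
      have h6 : W p z + (cX (W p z') - cX (W p z)) • e0 = W p z' :=
        ext_co (by simp) (by simpa using h2) (by simpa using h3)
      rw [h6] at h5
      have h7 := (h.fam.bij p).1 h5
      rw [← h7]
      simp
    rcases le_total (cX (W p (pt (M p + 1) y w))) (cX (W p (pt (M p + 1) y w'))) with h8 | h8
    · have h9 := key _ _ e1.2 (by rw [e1.1, e2.1]; simp) e3 h8
      simpa using h9
    · have h9 := key _ _ e2.2 (by rw [e1.1, e2.1]; simp) e3.symm h8
      simpa using h9.symm
  choose b hb hbs using fun (p : P) (y : ℝ) => exists_symp (F p y) (hFs p y) (hFsymp p y)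
    (hFinj p y) (closedBall 0 R) (isCompact_closedBall _ _) fun z hz => hoff p y z (Or.inr (by
      rwa [mem_closedBall_zero_iff, not_le] at hz))
  refine ⟨b, ⟨?_, fun p y w hyw => by rw [hb]; exact hoff p y w hyw⟩, fun Q hQ => ?_⟩
  · have hPl : ProperSpace P := FiniteDimensional.proper_real P
    rw [contDiff_iff_contDiffAt]
    rintro ⟨p₀, y₀, w₀⟩
    obtain ⟨M', hM'⟩ := h.out (closedBall p₀ 1) (isCompact_closedBall _ _)
    have h1 : ContDiff ℝ ∞ (fun q : P × ℝ × E n => tl (W q.1 (pt M' q.2.1 q.2.2))) := by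
      have h2 : ContDiff ℝ ∞ (fun q : P × ℝ × E n => pt M' q.2.1 q.2.2) :=
        (ptL (n := n)).contDiff.comp (contDiff_const.prodMk contDiff_snd)
      exact (tl : E (n + 1) →L[ℝ] E n).contDiff.comp
        (h.fam.smooth.comp (contDiff_fst.prodMk h2))
    refine h1.contDiffAt.congr_of_eventuallyEq ?_
    have h3 : ∀ᶠ q : P × ℝ × E n in 𝓝 (p₀, y₀, w₀), q.1 ∈ closedBall p₀ 1 :=
      continuous_fst.continuousAt.eventually (closedBall_mem_nhds p₀ one_pos)
    filter_upwards [h3] with q hq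
    rw [hb]
    exact (hFQ q.1 q.2.1 q.2.2 M' fun r hr => (hM' q.1 hq _ (by simp)).2 r hr).symm
  · obtain ⟨M', hM'⟩ := h.out Q hQ
    refine ⟨M', fun p hp z hz => ⟨(hM' p hp z hz).1, ?_⟩⟩
    rw [hb]
    have h1 := hFQ p (cY z) (tl z) (cX z) (by
      rw [pt_eta]
      exact (hM' p hp z hz).2)
    rwa [pt_eta] at h1

omit [NormedSpace ℝ P] [FiniteDimensional ℝ P] in
/-- the outgoing family is unique -/
theorem Out.unique {b b' : P → ℝ → SympCt n} (h : Out W b) (h' : Out W b') : b = b' := by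
  ext1 p
  ext1 y
  refine ext_map fun w => ?_
  obtain ⟨M, hM⟩ := h {p} isCompact_singleton
  obtain ⟨M', hM'⟩ := h' {p} isCompact_singleton
  have h1 := (hM p rfl (pt (max M M') y w) (by simp)).2
  have h2 := (hM' p rfl (pt (max M M') y w) (by simp)).2
  rw [h1] at h2
  simpa using h2

omit [FiniteDimensional ℝ P] in
theorem exists_far (hn : 0 < n) (R : ℝ) : ∃ w : E n, R < ‖w‖ := by
  refine ⟨(fun _ => |R| + 1, 0), ?_⟩
  refine lt_of_lt_of_le ?_ (norm_fst_le _)
  refine lt_of_lt_of_le ?_ (norm_le_pi_norm _ (⟨0, hn⟩ : Fin n))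
  rw [Real.norm_of_nonneg (by positivity)]
  linarith [le_abs_self R]

omit [FiniteDimensional ℝ P] in
/-- on the right, a scattering family is determined by its outgoing family -/
theorem Sc.agree (hn : 0 < n) {W' : P → E (n + 1) → E (n + 1)} {R' : ℝ} (h : Sc W R)
    (h' : Sc W' R') {b : P → ℝ → SympCt n} (hb : Out W b) (hb' : Out W' b) (Q : Set P)
    (hQ : IsCompact Q) : ∃ M : ℝ, ∀ p ∈ Q, ∀ z, M ≤ cX z → W p z = W' p z := by
  obtain ⟨M, hM⟩ := hb Q hQ
  obtain ⟨M', hM'⟩ := hb' Q hQ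
  refine ⟨max M M' + 1, fun p hp z hz => ?_⟩
  have hzM : M < cX z := by linarith [le_max_left M M']
  have hzM' : M' < cX z := by linarith [le_max_right M M']
  refine ext_co ?_ ?_ ?_
  · -- the first coordinates
    have hsm := h.fam.slice p
    have hsm' := h'.fam.slice p
    set x := cX z
    set y := cY z
    have gen : ∀ (V : E (n + 1) → E (n + 1)) (N : ℝ), ContDiff ℝ ∞ V →
        (∀ z u v, omega (fderiv ℝ V z u) (fderiv ℝ V z v) = omega u v) →
        (∀ z, N ≤ cX z → cY (V z) = cY z) → N < x → ∀ w u : E n,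
        cX (fderiv ℝ V (pt x y w) (up u)) =
          omega (tl (fderiv ℝ V (pt x y w) f0)) (tl (fderiv ℝ V (pt x y w) (up u))) := by
      intro V N hV hVs hVY hN w u
      have h1 := hVs (pt x y w) f0 (up u)
      rw [omega_co, omega_co f0] at h1
      have h2 := fun v => fderiv_cY_out hV (M := N) hVY (z := pt x y w) (by simpa using hN) v
      rw [h2, h2] at h1
      simp only [cY_up, mul_zero, cY_f0, one_mul, cX_f0, cX_up, sub_self, tl_f0,
        omega_zero_left, add_zero] at h1
      linarith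
    have htl : ∀ (w : E n) (v : E (n + 1)), tl (fderiv ℝ (W p) (pt x y w) v) =
        tl (fderiv ℝ (W' p) (pt x y w) v) := by
      intro w v
      have h1 : (fun ζ => tl (W p ζ)) =ᶠ[𝓝 (pt x y w)] fun ζ => tl (W' p ζ) := by
        have h2 : ∀ᶠ ζ in 𝓝 (pt x y w), max M M' < cX ζ :=
          continuousAt_const.eventually_lt (cX : E (n + 1) →L[ℝ] ℝ).continuous.continuousAt (by
            simp only [cX_pt]
            linarith)
        filter_upwards [h2] with ζ hζ
        rw [(hM p hp ζ ((le_max_left _ _).trans hζ.le)).2,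
          (hM' p hp ζ ((le_max_right _ _).trans hζ.le)).2]
      have h2 : ∀ V : E (n + 1) → E (n + 1), ContDiff ℝ ∞ V → fderiv ℝ (fun ζ => tl (V ζ))
          (pt x y w) = (tl : E (n + 1) →L[ℝ] E n).comp (fderiv ℝ V (pt x y w)) := fun V hV =>
        ((tl : E (n + 1) →L[ℝ] E n).hasFDerivAt.comp (pt x y w)
          (hV.differentiable (by simp) _).hasFDerivAt).fderiv
      have h3 := h1.fderiv_eq (𝕜 := ℝ)
      rw [h2 _ hsm, h2 _ hsm'] at h3
      exact DFunLike.congr_fun h3 v
    let δ : E n → ℝ := fun w => cX (W p (pt x y w)) - cX (W' p (pt x y w))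
    have hmk : ∀ w, HasFDerivAt (fun w : E n => pt x y w) (up : E n →L[ℝ] E (n + 1)) w := by
      intro w
      have h2 : (fun w : E n => pt x y w) = fun w => pt x y 0 + up w := by
        ext1 w
        rw [up_apply, pt_add]
        simp
      rw [h2]
      exact (up : E n →L[ℝ] E (n + 1)).hasFDerivAt.const_add _
    have hδ : ∀ w, HasFDerivAt δ (0 : E n →L[ℝ] ℝ) w := by
      intro w
      have h1 := (cX : E (n + 1) →L[ℝ] ℝ).hasFDerivAt.comp w
        ((hsm.differentiable (by simp) (pt x y w)).hasFDerivAt.comp w (hmk w))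
      have h2 := (cX : E (n + 1) →L[ℝ] ℝ).hasFDerivAt.comp w
        ((hsm'.differentiable (by simp) (pt x y w)).hasFDerivAt.comp w (hmk w))
      refine (h1.sub h2).congr_fderiv ?_
      refine ContinuousLinearMap.ext fun u => ?_
      show cX (fderiv ℝ (W p) (pt x y w) (up u)) - cX (fderiv ℝ (W' p) (pt x y w) (up u)) = 0
      rw [gen (W p) M hsm (h.fam.symp p) (fun z hz => (hM p hp z hz).1) hzM w u,
        gen (W' p) M' hsm' (h'.fam.symp p) (fun z hz => (hM' p hp z hz).1) hzM' w u,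
        htl, htl, sub_self]
    obtain ⟨w₁, hw₁⟩ := exists_far hn (max R R')
    have h3 : δ (tl z) = δ w₁ := is_const_of_fderiv_eq_zero (𝕜 := ℝ)
      (fun w => (hδ w).differentiableAt) (fun w => (hδ w).fderiv) _ _
    have h4 : δ w₁ = 0 := by
      show cX (W p (pt x y w₁)) - cX (W' p (pt x y w₁)) = 0
      rw [h.tube p _ (Or.inr (by simpa using (le_max_left R R').trans_lt hw₁)),
        h'.tube p _ (Or.inr (by simpa using (le_max_right R R').trans_lt hw₁)), sub_self]
    rw [h4] at h3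
    have h5 : cX (W p (pt x y (tl z))) - cX (W' p (pt x y (tl z))) = 0 := h3
    rw [pt_eta] at h5
    linarith
  · rw [(hM p hp z hzM.le).1, (hM' p hp z hzM'.le).1]
  · rw [(hM p hp z hzM.le).2, (hM' p hp z hzM'.le).2]

/-- the quotient of two families which agree off a compact set -/
theorem exists_quot {m : ℕ} {W W' : P → E m → E m} (h : SFam W) (h' : SFam W')
    {K : Set (E m)} (hK : IsCompact K) (hoff : ∀ p z, z ∉ K → W p z = W' p z) :
    ∃ θ : P → SympCt m, ContDiff ℝ ∞ (fun q : P × E m => (θ q.1).map q.2) ∧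
      (∀ p, SuppIn K (θ p).perm) ∧ ∀ p z, W' p ((θ p).map z) = W p z := by
  obtain ⟨Ψ, hΨ, h1, h2⟩ := h'.exists_inv
  have hc : ContDiff ℝ ∞ (fun q : P × E m => Ψ q.1 (W q.1 q.2)) :=
    hΨ.smooth.comp (contDiff_fst.prodMk h.smooth)
  have hsm : ∀ p, ContDiff ℝ ∞ (fun z => Ψ p (W p z)) := fun p => (hΨ.slice p).comp (h.slice p)
  choose θ hθ hθs using fun p => exists_symp (fun z => Ψ p (W p z)) (hsm p)
    (fun z u v => by
      have h3 : fderiv ℝ (fun z => Ψ p (W p z)) z =
          (fderiv ℝ (Ψ p) (W p z)).comp (fderiv ℝ (W p) z) :=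
        fderiv_comp z ((hΨ.slice p).differentiable (by simp) _)
          ((h.slice p).differentiable (by simp) z)
      rw [h3]
      show omega (fderiv ℝ (Ψ p) (W p z) (fderiv ℝ (W p) z u))
        (fderiv ℝ (Ψ p) (W p z) (fderiv ℝ (W p) z v)) = _
      rw [hΨ.symp]
      exact h.symp p z u v)
    ((hΨ.bij p).1.comp (h.bij p).1) K hK (fun z hz => by rw [hoff p z hz, h1])
  refine ⟨θ, ?_, hθs, fun p z => ?_⟩
  · have : (fun q : P × E m => (θ q.1).map q.2) = fun q => Ψ q.1 (W q.1 q.2) := by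
      ext1 q
      exact hθ q.1 q.2
    rw [this]
    exact hc
  · rw [hθ, h2]

end Pool.Agent.H822.EX
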