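import Mathlib
import Pool.Agent.H822.EX.Out

/-!
# Cut off flows of families of Hamiltonians of `ℝ^{2n}`
-/

set_option autoImplicit false

open scoped ContDiff
open Set Filter Topology Function Metric
open Q170.SC Pool.Agent.H822.Ham Pool.Agent.H822.Pairs Pool.Agent.H822.PairsMain
open Pool.Agent.GR.Flow Pool.Agent.H822.Par Pool.Agent.Q191.SY

namespace Pool.Agent.H822.EX

variable {n : ℕ} {P : Type} [NormedAddCommGroup P] [NormedSpace ℝ P]

/-- a smooth family of time dependent Hamiltonians `K p s y` of `ℝ^{2n}`, zero for large `s`,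
`y`, `w` -/
structure KFam (K : P → ℝ → ℝ → E n → ℝ) (R : ℝ) : Prop where
  smooth : ContDiff ℝ ∞ (fun q : P × ℝ × ℝ × E n => K q.1 q.2.1 q.2.2.1 q.2.2.2)
  off : ∀ p s y w, (R < |s| ∨ R < |y| ∨ R < ‖w‖) → K p s y w = 0

/-- `K` generates the paths `s ↦ b (p, s) y` -/
def Gen (K : P → ℝ → ℝ → E n → ℝ) (b : P × ℝ → ℝ → SympCt n) : Prop :=
  ∀ p s y w, HasDerivAt (fun s => (b (p, s) y).map w) (ham (K p s y) ((b (p, s) y).map w)) s

/-- cut off functions -/
structure BetaFam (β : P → ℝ → ℝ) (B : ℝ) : Prop where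
  smooth : ContDiff ℝ ∞ (fun q : P × ℝ => β q.1 q.2)
  left : ∀ p x, x < -B → β p x = 0
  right : ∀ p x, B < x → β p x = 1

theorem map_eq_one {φ : SympCt n} (h : ∀ w, φ.map w = w) : φ = 1 := ext_map fun w => h w

/-- existence of generating Hamiltonians -/
theorem exists_K' [FiniteDimensional ℝ P] {R : ℝ} (hn : 0 < n)
    {b : P × ℝ → ℝ → SympCt n} (hb : BFam b R)
    (h1 : ∀ p s s' y, R ≤ s → R ≤ s' → b (p, s) y = b (p, s') y)
    (h2 : ∀ p s s' y, s ≤ -R → s' ≤ -R → b (p, s) y = b (p, s') y) :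
    ∃ K : P → ℝ → ℝ → E n → ℝ, KFam K R ∧ Gen K b ∧
      ∀ p, (∀ s s' y, b (p, s) y = b (p, s') y) → ∀ s y w, K p s y w = 0 := by
  let Φ : (P × ℝ) × ℝ → E n → E n := fun q w => (b (q.1.1, q.2) q.1.2).map w
  have hΦ : SFam Φ := by
    refine ⟨?_, fun q z u v => (b (q.1.1, q.2) q.1.2).2.1.form z u v,
      fun q => (b (q.1.1, q.2) q.1.2).perm.bijective⟩
    have h3 : ContDiff ℝ ∞ (fun q : ((P × ℝ) × ℝ) × E n =>
        (((q.1.1.1, q.1.2), q.1.1.2, q.2) : (P × ℝ) × ℝ × E n)) :=
      (((contDiff_fst.comp contDiff_fst).comp contDiff_fst).prodMk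
        (contDiff_snd.comp contDiff_fst)).prodMk
        (((contDiff_snd.comp contDiff_fst).comp contDiff_fst).prodMk contDiff_snd)
    exact hb.smooth.comp h3
  obtain ⟨H, hH, hd⟩ := exists_ham Φ hΦ
  have hHq : ∀ q, ContDiff ℝ ∞ (H q) := fun q => hH.comp (contDiff_const.prodMk contDiff_id)
  -- the field vanishes where the path is locally constant
  have hz : ∀ (p : P) (y s : ℝ) (w : E n),
      (∀ᶠ s' in 𝓝 s, (b (p, s') y).map w = (b (p, s) y).map w) →
      ham (H ((p, y), s)) ((b (p, s) y).map w) = 0 := by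
    intro p y s w hev
    have h3 := hd (p, y) s w
    have h4 : HasDerivAt (fun s => Φ ((p, y), s) w) 0 s :=
      (hasDerivAt_const s ((b (p, s) y).map w)).congr_of_eventuallyEq hev
    exact h3.unique h4
  have hz1 : ∀ (p : P) (y s : ℝ) (w : E n), R < ‖w‖ → ham (H ((p, y), s)) w = 0 := by
    intro p y s w hw
    have h3 := hz p y s w (Eventually.of_forall fun s' => by
      rw [hb.off _ _ _ (Or.inr hw), hb.off _ _ _ (Or.inr hw)])
    rwa [hb.off _ _ _ (Or.inr hw)] at h3
  have hz2 : ∀ (p : P) (y s : ℝ) (w : E n), (R < |s| ∨ R < |y|) → ham (H ((p, y), s)) w = 0 := by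
    intro p y s w hsy
    have h5 : ∀ w, ham (H ((p, y), s)) ((b (p, s) y).map w) = 0 := by
      intro w
      refine hz p y s w ?_
      rcases hsy with hs | hy
      · rcases lt_abs.1 hs with h6 | h6
        · filter_upwards [Ioi_mem_nhds h6] with s' hs'
          rw [h1 p s' s y (le_of_lt hs') h6.le]
        · have h7 : s < -R := by linarith
          filter_upwards [Iio_mem_nhds h7] with s' hs'
          rw [h2 p s' s y (le_of_lt hs') h7.le]
      · exact Eventually.of_forall fun s' => by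
          rw [hb.off _ _ _ (Or.inl hy), hb.off _ _ _ (Or.inl hy)]
    have h6 := h5 ((b (p, s) y)⁻¹.map w)
    rwa [map_inv_map] at h6
  let c : E n := (fun _ => |R| + 1, fun _ => |R| + 1)
  have hnc : ∀ v : Fin n → ℝ, R < ‖((fun _ => |R| + 1 : Fin n → ℝ), v)‖ := by
    intro v
    refine lt_of_lt_of_le ?_ (norm_fst_le _)
    refine lt_of_lt_of_le ?_ (norm_le_pi_norm _ (⟨0, hn⟩ : Fin n))
    rw [Real.norm_of_nonneg (by positivity)]
    linarith [le_abs_self R]
  have hnc' : ∀ v : Fin n → ℝ, R < ‖(v, (fun _ => |R| + 1 : Fin n → ℝ))‖ := by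
    intro v
    refine lt_of_lt_of_le ?_ (norm_snd_le _)
    refine lt_of_lt_of_le ?_ (norm_le_pi_norm _ (⟨0, hn⟩ : Fin n))
    rw [Real.norm_of_nonneg (by positivity)]
    linarith [le_abs_self R]
  have hfst : ∀ (a v v' : Fin n → ℝ) (z : E n), z ∈ segment ℝ (a, v) (a, v') → z.1 = a := by
    rintro a v v' z ⟨r, s, -, -, hrs, rfl⟩
    show r • a + s • a = a
    rw [← add_smul, hrs, one_smul]
  have hsnd : ∀ (a a' v : Fin n → ℝ) (z : E n), z ∈ segment ℝ (a, v) (a', v) → z.2 = v := by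
    rintro a a' v z ⟨r, s, -, -, hrs, rfl⟩
    show r • v + s • v = v
    rw [← add_smul, hrs, one_smul]
  have hconst : ∀ (p : P) (y s : ℝ) (w : E n), R < ‖w‖ → H ((p, y), s) w = H ((p, y), s) c := by
    intro p y s w hw
    rw [Prod.norm_def, lt_max_iff] at hw
    rcases hw with hw | hw
    · have e1 : H ((p, y), s) (w.1, c.2) = H ((p, y), s) (w.1, w.2) :=
        const_segment (hHq _) fun z hzs => hz1 p y s z (by
          refine lt_of_lt_of_le ?_ (norm_fst_le _)
          rwa [hfst _ _ _ z hzs])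
      have e2 : H ((p, y), s) (c.1, c.2) = H ((p, y), s) (w.1, c.2) :=
        const_segment (hHq _) fun z hzs => hz1 p y s z (by
          have h8 := hsnd _ _ _ z hzs
          have h9 := hnc' z.1
          have h10 : z = (z.1, c.2) := Prod.ext rfl h8
          rw [h10]
          exact h9)
      exact (e2.trans e1).symm
    · have e1 : H ((p, y), s) (c.1, w.2) = H ((p, y), s) (w.1, w.2) :=
        const_segment (hHq _) fun z hzs => hz1 p y s z (by
          refine lt_of_lt_of_le ?_ (norm_snd_le _)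
          rwa [hsnd _ _ _ z hzs])
      have e2 : H ((p, y), s) (c.1, c.2) = H ((p, y), s) (c.1, w.2) :=
        const_segment (hHq _) fun z hzs => hz1 p y s z (by
          have h8 := hfst _ _ _ z hzs
          have h9 := hnc z.2
          have h10 : z = (c.1, z.2) := Prod.ext h8 rfl
          rw [h10]
          exact h9)
      exact (e2.trans e1).symm
  have hconst2 : ∀ (p : P) (y s : ℝ) (w : E n), (R < |s| ∨ R < |y|) →
      H ((p, y), s) w = H ((p, y), s) c := by
    intro p y s w hsy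
    exact const_segment (hHq _) fun z _ => hz2 p y s z hsy
  refine ⟨fun p s y w => H ((p, y), s) w - H ((p, y), s) c, ⟨?_, fun p s y w h => ?_⟩,
    fun p s y w => ?_, fun p hp s y w => ?_⟩
  · have h3 : ContDiff ℝ ∞ (fun q : P × ℝ × ℝ × E n =>
        ((((q.1, q.2.2.1), q.2.1), q.2.2.2) : ((P × ℝ) × ℝ) × E n)) :=
      ((contDiff_fst.prodMk (contDiff_fst.comp (contDiff_snd.comp contDiff_snd))).prodMk
        (contDiff_fst.comp contDiff_snd)).prodMk
        (contDiff_snd.comp (contDiff_snd.comp contDiff_snd))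
    have h4 : ContDiff ℝ ∞ (fun q : P × ℝ × ℝ × E n =>
        ((((q.1, q.2.2.1), q.2.1), c) : ((P × ℝ) × ℝ) × E n)) :=
      ((contDiff_fst.prodMk (contDiff_fst.comp (contDiff_snd.comp contDiff_snd))).prodMk
        (contDiff_fst.comp contDiff_snd)).prodMk contDiff_const
    exact (hH.comp h3).sub (hH.comp h4)
  · show H ((p, y), s) w - H ((p, y), s) c = 0
    rw [sub_eq_zero]
    rcases h with h | h | h
    · exact hconst2 p y s w (Or.inl h)
    · exact hconst2 p y s w (Or.inr h)
    · exact hconst p y s w h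
  · have h3 : ham (fun w => H ((p, y), s) w - H ((p, y), s) c) ((b (p, s) y).map w) =
        ham (H ((p, y), s)) ((b (p, s) y).map w) := by
      rw [ham, ham, fderiv_sub_const]
    rw [h3]
    exact hd (p, y) s w
  · have h5 : ∀ w, ham (H ((p, y), s)) w = 0 := by
      intro w
      have h6 := hz p y s ((b (p, s) y)⁻¹.map w) (Eventually.of_forall fun s' => by
        rw [hp s' s y])
      rwa [map_inv_map] at h6
    show H ((p, y), s) w - H ((p, y), s) c = 0
    rw [sub_eq_zero]
    exact const_segment (hHq _) fun z _ => h5 z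

/-- existence of generating Hamiltonians -/
theorem exists_K [FiniteDimensional ℝ P] {R : ℝ} (hn : 0 < n)
    {b : P × ℝ → ℝ → SympCt n} (hb : BFam b R)
    (h1 : ∀ p s s' y, R ≤ s → R ≤ s' → b (p, s) y = b (p, s') y)
    (h2 : ∀ p s s' y, s ≤ -R → s' ≤ -R → b (p, s) y = b (p, s') y) :
    ∃ K : P → ℝ → ℝ → E n → ℝ, KFam K R ∧ Gen K b := by
  obtain ⟨K, hK, hg, -⟩ := exists_K' hn hb h1 h2
  exact ⟨K, hK, hg⟩

/-! ### The cut off Hamiltonians -/

/-- the Hamiltonian `K p s` as a function on `ℝ^{2n+2}` -/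
def lift (K : P → ℝ → ℝ → E n → ℝ) (p : P) (s : ℝ) (z : E (n + 1)) : ℝ := K p s (cY z) (tl z)

/-- the cut off Hamiltonian -/
def cut (β : P → ℝ → ℝ) (K : P → ℝ → ℝ → E n → ℝ) (p : P) (s : ℝ) (z : E (n + 1)) : ℝ :=
  β p (cX z) * K p s (cY z) (tl z)

section cut

variable {K : P → ℝ → ℝ → E n → ℝ} {β : P → ℝ → ℝ} {R B : ℝ}

theorem lift_smooth (hK : KFam K R) :
    ContDiff ℝ ∞ (fun q : (P × ℝ) × E (n + 1) => lift K q.1.1 q.1.2 q.2) := by
  have h : ContDiff ℝ ∞ (fun q : (P × ℝ) × E (n + 1) =>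
      ((q.1.1, q.1.2, cY q.2, tl q.2) : P × ℝ × ℝ × E n)) :=
    (contDiff_fst.comp contDiff_fst).prodMk ((contDiff_snd.comp contDiff_fst).prodMk
      (((cY : E (n + 1) →L[ℝ] ℝ).contDiff.comp contDiff_snd).prodMk
        ((tl : E (n + 1) →L[ℝ] E n).contDiff.comp contDiff_snd)))
  exact hK.smooth.comp h

theorem cut_smooth (hK : KFam K R) (hβ : BetaFam β B) :
    ContDiff ℝ ∞ (fun q : (P × ℝ) × E (n + 1) => cut β K q.1.1 q.1.2 q.2) := by
  have h : ContDiff ℝ ∞ (fun q : (P × ℝ) × E (n + 1) => β q.1.1 (cX q.2)) :=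
    hβ.smooth.comp ((contDiff_fst.comp contDiff_fst).prodMk
      ((cX : E (n + 1) →L[ℝ] ℝ).contDiff.comp contDiff_snd))
  exact h.mul (lift_smooth hK)

theorem lift_slice (hK : KFam K R) (p : P) (s : ℝ) : ContDiff ℝ ∞ (lift K p s) :=
  (lift_smooth hK).comp ((contDiff_const (c := (p, s))).prodMk contDiff_id)

theorem cut_slice (hK : KFam K R) (hβ : BetaFam β B) (p : P) (s : ℝ) :
    ContDiff ℝ ∞ (cut β K p s) :=
  (cut_smooth hK hβ).comp ((contDiff_const (c := (p, s))).prodMk contDiff_id)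

theorem ham_zero_of_ev {m : ℕ} {H : E m → ℝ} {z : E m} (h : H =ᶠ[𝓝 z] fun _ => 0) :
    ham H z = 0 := by
  rw [ham, h.fderiv_eq, fderiv_fun_const]
  exact (dualL m).map_zero

theorem ham_congr {m : ℕ} {H H' : E m → ℝ} {z : E m} (h : H =ᶠ[𝓝 z] H') :
    ham H z = ham H' z := by
  rw [ham, ham, h.fderiv_eq]

theorem cut_left (hβ : BetaFam β B) {p : P} {s : ℝ} {z : E (n + 1)} (hz : cX z < -B) :
    ham (cut β K p s) z = 0 := by
  refine ham_zero_of_ev ?_
  have h2 : ∀ᶠ y in 𝓝 z, cX y < -B :=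
    (cX : E (n + 1) →L[ℝ] ℝ).continuous.continuousAt.eventually_lt continuousAt_const hz
  filter_upwards [h2] with y hy
  rw [cut, hβ.left p _ hy, zero_mul]

theorem cut_tube (hK : KFam K R) {p : P} {s : ℝ} {z : E (n + 1)}
    (hz : R < |cY z| ∨ R < ‖tl z‖) : ham (cut β K p s) z = 0 := by
  refine ham_zero_of_ev ?_
  have h2 : ∀ᶠ y : E (n + 1) in 𝓝 z, R < |cY y| ∨ R < ‖tl y‖ := by
    rcases hz with hz | hz
    · filter_upwards [continuousAt_const.eventually_lt
        (cY : E (n + 1) →L[ℝ] ℝ).continuous.abs.continuousAt hz] with y hy using Or.inl hy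
    · filter_upwards [continuousAt_const.eventually_lt
        (tl : E (n + 1) →L[ℝ] E n).continuous.norm.continuousAt hz] with y hy using Or.inr hy
  filter_upwards [h2] with y hy
  rw [cut, hK.off p s _ _ (Or.inr hy), mul_zero]

theorem cut_time (hK : KFam K R) {p : P} {s : ℝ} (hs : R < |s|) (z : E (n + 1)) :
    ham (cut β K p s) z = 0 := by
  refine ham_zero_of_ev (Eventually.of_forall fun y => ?_)
  show β p (cX y) * K p s (cY y) (tl y) = 0
  rw [hK.off p s _ _ (Or.inl hs), mul_zero]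

theorem cut_right (hβ : BetaFam β B) {p : P} {s : ℝ} {z : E (n + 1)} (hz : B < cX z) :
    ham (cut β K p s) z = ham (lift K p s) z := by
  refine ham_congr ?_
  have h2 : ∀ᶠ y in 𝓝 z, B < cX y :=
    continuousAt_const.eventually_lt (cX : E (n + 1) →L[ℝ] ℝ).continuous.continuousAt hz
  filter_upwards [h2] with y hy
  rw [cut, hβ.right p _ hy, one_mul, lift]

omit [NormedAddCommGroup P] [NormedSpace ℝ P] in
theorem lift_inv (p : P) (s r : ℝ) (z : E (n + 1)) :
    ham (lift K p s) (z + r • e0) = ham (lift K p s) z := by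
  have h1 : (fun y => lift K p s (y + r • e0)) = lift K p s := by
    ext y
    simp [lift]
  rw [ham, ham, ← fderiv_comp_add_right, h1]

theorem lift_cY (hK : KFam K R) (p : P) (s : ℝ) (z : E (n + 1)) :
    cY (ham (lift K p s) z) = 0 := by
  have h1 := omega_ham (lift K p s) z e0
  rw [omega_e0'] at h1
  have h2 : HasDerivAt (fun t : ℝ => lift K p s (z + t • e0)) (fderiv ℝ (lift K p s) z e0) 0 := by
    have h3 : HasDerivAt (fun t : ℝ => z + t • (e0 : E (n + 1))) ((1 : ℝ) • e0) 0 :=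
      ((hasDerivAt_id (0 : ℝ)).smul_const _).const_add z
    rw [one_smul] at h3
    have h4 : HasFDerivAt (lift K p s) (fderiv ℝ (lift K p s) z) (z + (0 : ℝ) • e0) := by
      rw [zero_smul, add_zero]
      exact ((lift_slice hK p s).differentiable (by simp) z).hasFDerivAt
    exact h4.comp_hasDerivAt 0 h3
  have h5 : (fun t : ℝ => lift K p s (z + t • e0)) = fun _ => lift K p s z := by
    ext t
    simp [lift]
  rw [h5] at h2
  have h6 := h2.unique (hasDerivAt_const 0 _)
  rw [h6] at h1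
  linarith

theorem lift_tl (hK : KFam K R) (p : P) (s : ℝ) (z : E (n + 1)) :
    tl (ham (lift K p s) z) = ham (K p s (cY z)) (tl z) := by
  rw [ham, dual_co, tl_pt, ham]
  congr 1
  have h1 : HasFDerivAt (fun w : E n => z + up w) (up : E n →L[ℝ] E (n + 1)) 0 :=
    (up : E n →L[ℝ] E (n + 1)).hasFDerivAt.const_add _
  have h2 : HasFDerivAt (lift K p s) (fderiv ℝ (lift K p s) z) (z + up 0) := by
    rw [map_zero, add_zero]
    exact ((lift_slice hK p s).differentiable (by simp) z).hasFDerivAt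
  have h3 := h2.comp 0 h1
  have hKs : ContDiff ℝ ∞ (K p s (cY z)) := hK.smooth.comp
    (contDiff_const.prodMk (contDiff_const.prodMk (contDiff_const.prodMk contDiff_id)))
  have h4 : HasFDerivAt (fun w : E n => tl z + w) (ContinuousLinearMap.id ℝ (E n)) 0 :=
    (hasFDerivAt_id _).const_add _
  have h5 : HasFDerivAt (K p s (cY z)) (fderiv ℝ (K p s (cY z)) (tl z)) (tl z + 0) := by
    rw [add_zero]
    exact (hKs.differentiable (by simp) _).hasFDerivAt
  have h6 := h5.comp 0 h4
  have h7 : (lift K p s ∘ fun w : E n => z + up w) = (K p s (cY z) ∘ fun w : E n => tl z + w) := by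
    ext w
    simp [lift]
  rw [h7] at h3
  have h8 := h3.unique h6
  rw [h8]
  rfl

theorem cut_bound [FiniteDimensional ℝ P] (hK : KFam K R) (hβ : BetaFam β B) (Q : Set P)
    (hQ : IsCompact Q) :
    ∃ M : ℝ, 0 ≤ M ∧ ∀ p ∈ Q, ∀ s (z : E (n + 1)), ‖ham (cut β K p s) z‖ ≤ M := by
  have hc : Continuous (fun q : (P × ℝ) × E (n + 1) => ham (cut β K q.1.1 q.1.2) q.2) :=
    (ham_smooth_param (L := fun q : P × ℝ => cut β K q.1 q.2) (cut_smooth hK hβ)).continuous
  set D := max |R| (|B| + 1) with hD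
  obtain ⟨M, hM⟩ := (((hQ.prod (isCompact_Icc (a := -D) (b := D))).prod
    (isCompact_closedBall (0 : E (n + 1)) D)).image hc).isBounded.exists_norm_le
  have hRD : R ≤ D := (le_abs_self R).trans (le_max_left _ _)
  have hBD : |B| + 1 ≤ D := le_max_right _ _
  refine ⟨max M 0, le_max_right _ _, fun p hp s z => ?_⟩
  by_cases hs : R < |s|
  · rw [cut_time hK hs, norm_zero]
    exact le_max_right _ _
  rw [not_lt] at hs
  by_cases ht : R < |cY z| ∨ R < ‖tl z‖
  · rw [cut_tube hK ht, norm_zero]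
    exact le_max_right _ _
  rw [not_or, not_lt, not_lt] at ht
  by_cases hl : cX z < -B
  · rw [cut_left hβ hl, norm_zero]
    exact le_max_right _ _
  rw [not_lt] at hl
  have hsD := abs_le.1 (hs.trans hRD)
  have key : ∀ z : E (n + 1), |cX z| ≤ |B| + 1 → |cY z| ≤ R → ‖tl z‖ ≤ R →
      ‖ham (cut β K p s) z‖ ≤ max M 0 := by
    intro z h1 h2 h3
    refine (hM _ ⟨((p, s), z), ⟨⟨hp, hsD⟩, ?_⟩, rfl⟩).trans (le_max_left _ _)
    rw [mem_closedBall_zero_iff]
    exact norm_le_of (h1.trans hBD) (h2.trans hRD) (h3.trans hRD)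
  by_cases hr : |cX z| ≤ |B| + 1
  · exact key z hr ht.1 ht.2
  · rw [not_le] at hr
    have h3 : |B| + 1 < cX z := by
      rcases lt_abs.1 hr with h4 | h4
      · exact h4
      · exfalso
        linarith [le_abs_self B]
    have h5 : B < cX z := by linarith [le_abs_self B]
    set r := cX z - (|B| + 1) with hr'
    have h6 : ham (cut β K p s) z = ham (cut β K p s) (z - r • e0) := by
      have h7 : cX (z - r • e0) = |B| + 1 := by simp [hr']
      rw [cut_right hβ h5, cut_right hβ (by rw [h7]; linarith [le_abs_self B])]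
      have h8 := lift_inv (K := K) p s r (z - r • e0)
      rw [sub_add_cancel] at h8
      exact h8
    rw [h6]
    refine key _ ?_ (by simpa using ht.1) (by simpa using ht.2)
    have h7 : cX (z - r • e0) = |B| + 1 := by simp [hr']
    rw [h7, abs_of_nonneg (by positivity)]

/-- the flow of the cut off Hamiltonian is a scattering family -/
theorem exists_C [FiniteDimensional ℝ P] (hR : 0 < R) (hK : KFam K R) (hβ : BetaFam β B)
    {b : P × ℝ → ℝ → SympCt n} (hgen : Gen K b) (hb1 : ∀ p y, b (p, -R - 1) y = 1) :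
    ∃ C : P → ℝ → E (n + 1) → E (n + 1), TD (fun p s z => ham (cut β K p s) z) (-R - 1) C ∧
      Sc (fun q : P × ℝ => C q.1 q.2) (max R B) ∧ Out (fun q : P × ℝ => C q.1 q.2) b := by
  have hFs : ContDiff ℝ ∞ (fun q : P × ℝ × E (n + 1) => ham (cut β K q.1 q.2.1) q.2.2) :=
    (ham_smooth_param (L := fun q : P × ℝ => cut β K q.1 q.2) (cut_smooth hK hβ)).comp
      ((contDiff_fst.prodMk (contDiff_fst.comp contDiff_snd)).prodMk
        (contDiff_snd.comp contDiff_snd))
  have hbd : ∀ p, ∃ M : ℝ, ∀ s z, ‖ham (cut β K p s) z‖ ≤ M := by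
    intro p
    obtain ⟨M, -, hM⟩ := cut_bound hK hβ {p} isCompact_singleton
    exact ⟨M, hM p rfl⟩
  have hFp : ∀ p, ContDiff ℝ ∞ (fun q : ℝ × E (n + 1) => ham (cut β K p q.1) q.2) := fun p =>
    hFs.comp (contDiff_const.prodMk contDiff_id)
  obtain ⟨C, hC⟩ := exists_td (F := fun p s z => ham (cut β K p s) z) hFs hbd (-R - 1)
  have hCc : ∀ p z, Continuous fun s => C p s z := fun p z =>
    continuous_iff_continuousAt.2 fun s => (hC.deriv p s z).continuousAt
  have hsm : ContDiff ℝ ∞ (fun q : (P × ℝ) × E (n + 1) => C q.1.1 q.1.2 q.2) :=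
    hC.smooth.comp ((contDiff_fst.comp contDiff_fst).prodMk
      ((contDiff_snd.comp contDiff_fst).prodMk contDiff_snd))
  have hright : ∀ Q : Set (P × ℝ), IsCompact Q → ∃ M : ℝ, ∀ q ∈ Q, ∃ a c : ℝ,
      -R - 1 ∈ Ioo a c ∧ q.2 ∈ Icc a c ∧ ∀ s ∈ Icc a c, ∀ z, M ≤ cX z → B < cX (C q.1 s z) := by
    intro Q hQ
    obtain ⟨M, hM0, hM⟩ := cut_bound (β := β) hK hβ (Prod.fst '' Q) (hQ.image continuous_fst)
    obtain ⟨S, hS⟩ := (hQ.image continuous_snd).isBounded.exists_norm_le
    refine ⟨B + M * (2 * (|S| + R + 2)) + 1, fun q hq => ?_⟩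
    have hS' : |q.2| ≤ |S| := (hS _ ⟨q, hq, rfl⟩).trans (le_abs_self S)
    have hS'' := abs_le.1 hS'
    refine ⟨-(|S| + R + 2), |S| + R + 2, ⟨by linarith [abs_nonneg S], by linarith [abs_nonneg S]⟩,
      ⟨by linarith, by linarith⟩, fun s hs z hz => ?_⟩
    have h7 := Convex.norm_image_sub_le_of_norm_hasDerivWithin_le (f := fun t => C q.1 t z)
      (f' := fun t => ham (cut β K q.1 t) (C q.1 t z)) (s := univ) (C := M) (x := -R - 1) (y := s)
      (fun t _ => (hC.deriv q.1 t z).hasDerivWithinAt) (fun t _ => hM _ ⟨q, hq, rfl⟩ _ _)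
      convex_univ (mem_univ _) (mem_univ _)
    simp only [hC.zero] at h7
    have h8 := abs_cX_le (C q.1 s z - z)
    rw [map_sub] at h8
    have h9 : ‖s - (-R - 1)‖ ≤ 2 * (|S| + R + 2) := by
      rw [Real.norm_eq_abs, abs_le]
      constructor <;> linarith [hs.1, hs.2, abs_nonneg S]
    have h10 := mul_le_mul_of_nonneg_left h9 hM0
    have h11 := abs_le.1 (h8.trans (h7.trans h10))
    linarith [h11.1]
  refine ⟨C, hC, ⟨lt_max_of_lt_left hR, ⟨hsm, ?_, ?_⟩, ?_, ?_, ?_⟩, ?_⟩
  · -- symplectic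
    rintro ⟨p, s⟩ z u v
    have hΦp : ContDiff ℝ ∞ (fun r : ℝ × E (n + 1) => C p r.1 r.2) :=
      hC.smooth.comp (contDiff_const.prodMk contDiff_id)
    have h1 : ∀ s, HasDerivAt
        (fun s => omega (fderiv ℝ (C p s) z u) (fderiv ℝ (C p s) z v)) 0 s := by
      intro s
      have h2 := hasDerivAt_omega (Td.swap hΦp (hFp p) (fun s x => hC.deriv p s x) s z u)
        (Td.swap hΦp (hFp p) (fun s x => hC.deriv p s x) s z v)
      rwa [infinit (cut_slice hK hβ p s)] at h2
    have h5 := is_const_of_deriv_eq_zero (fun s => (h1 s).differentiableAt)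
      (fun s => (h1 s).deriv) s (-R - 1)
    show omega (fderiv ℝ (C p s) z u) (fderiv ℝ (C p s) z v) = _
    rw [h5]
    have e0 : C p (-R - 1) = id := funext (hC.zero p)
    rw [e0, fderiv_id]
    rfl
  · -- bijective
    rintro ⟨p, s⟩
    constructor
    · intro z z' hzz
      have h1 := td_uniq (hFp p) (t₀ := s) (fun t => hC.deriv p t z) (fun t => hC.deriv p t z')
        hzz (-R - 1)
      simpa [hC.zero] using h1
    · intro ζ
      obtain ⟨C', hC'⟩ := exists_td (F := fun p s z => ham (cut β K p s) z) hFs hbd s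
      refine ⟨C' p (-R - 1) ζ, ?_⟩
      have h1 := td_uniq (hFp p) (t₀ := -R - 1) (fun t => hC.deriv p t (C' p (-R - 1) ζ))
        (fun t => hC'.deriv p t ζ) (hC.zero p _) s
      rw [hC'.zero] at h1
      exact h1
  · rintro ⟨p, s⟩ z hz
    have hz' : cX z < -B := by
      linarith [le_max_right R B]
    exact (td_uniq (hFp p) (t₀ := -R - 1) (fun t => hC.deriv p t z)
      (fun t => by
        have := cut_left (K := K) (p := p) (s := t) hβ hz'
        show HasDerivAt (fun _ => z) (ham (cut β K p t) z) t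
        rw [this]
        exact hasDerivAt_const t z) (hC.zero p z) s)
  · rintro ⟨p, s⟩ z hz
    have hz' : R < |cY z| ∨ R < ‖tl z‖ :=
      hz.imp (fun h => (le_max_left R B).trans_lt h) (fun h => (le_max_left R B).trans_lt h)
    exact (td_uniq (hFp p) (t₀ := -R - 1) (fun t => hC.deriv p t z)
      (fun t => by
        have := cut_tube (β := β) (p := p) (s := t) hK hz'
        show HasDerivAt (fun _ => z) (ham (cut β K p t) z) t
        rw [this]
        exact hasDerivAt_const t z) (hC.zero p z) s)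
  · intro Q hQ
    obtain ⟨M, hM⟩ := hright Q hQ
    refine ⟨M, fun q hq z hz => ?_⟩
    obtain ⟨a, c, h0, hs, hX⟩ := hM q hq
    constructor
    · have h1 := unique_Ioo (W := ℝ) (X := fun _ => (0 : ℝ)) contDiff_const h0
        (γ₁ := fun s => cY (C q.1 s z)) (γ₂ := fun _ => cY z)
        ((cY : E (n + 1) →L[ℝ] ℝ).continuous.comp (hCc q.1 z)) continuous_const
        (fun t ht => by
          have h2 := (cY : E (n + 1) →L[ℝ] ℝ).hasFDerivAt.comp_hasDerivAt t (hC.deriv q.1 t z)
          rw [cut_right hβ (hX t (Ioo_subset_Icc_self ht) z hz), lift_cY hK] at h2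
          exact h2) (fun t _ => hasDerivAt_const t _) (by simp only [hC.zero])
      exact h1 hs
    · intro r hr
      have h1 := td_uniq_Ioo (hFp q.1) h0 (hCc q.1 (z + r • e0))
        (γ₂ := fun s => C q.1 s z + r • e0) ((hCc q.1 z).add continuous_const)
        (fun t _ => hC.deriv q.1 t _) (fun t ht => by
          have h2 := hX t (Ioo_subset_Icc_self ht) z hz
          have h3 := (hC.deriv q.1 t z).add_const (r • e0)
          have h4 : ham (cut β K q.1 t) (C q.1 t z + r • e0) = ham (cut β K q.1 t) (C q.1 t z) := by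
            rw [cut_right hβ h2, cut_right hβ (by simp; linarith), lift_inv]
          show HasDerivAt _ (ham (cut β K q.1 t) (C q.1 t z + r • e0)) t
          rw [h4]
          exact h3) (by simp only [hC.zero])
      exact h1 hs
  · intro Q hQ
    obtain ⟨M, hM⟩ := hright Q hQ
    refine ⟨M, fun q hq z hz => ?_⟩
    obtain ⟨a, c, h0, hs, hX⟩ := hM q hq
    have hYall : ∀ t ∈ Icc a c, cY (C q.1 t z) = cY z := by
      have h1 := unique_Ioo (W := ℝ) (X := fun _ => (0 : ℝ)) contDiff_const h0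
        (γ₁ := fun s => cY (C q.1 s z)) (γ₂ := fun _ => cY z)
        ((cY : E (n + 1) →L[ℝ] ℝ).continuous.comp (hCc q.1 z)) continuous_const
        (fun t ht => by
          have h2 := (cY : E (n + 1) →L[ℝ] ℝ).hasFDerivAt.comp_hasDerivAt t (hC.deriv q.1 t z)
          rw [cut_right hβ (hX t (Ioo_subset_Icc_self ht) z hz), lift_cY hK] at h2
          exact h2) (fun t _ => hasDerivAt_const t _) (by simp only [hC.zero])
      exact fun t ht => h1 ht
    refine ⟨hYall _ hs, ?_⟩
    have hKsm : ContDiff ℝ ∞ (fun r : ℝ × E n => ham (K q.1 r.1 (cY z)) r.2) :=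
      ham_smooth_param (L := fun s : ℝ => K q.1 s (cY z)) (hK.smooth.comp (contDiff_const.prodMk
        (contDiff_fst.prodMk (contDiff_const.prodMk contDiff_snd))))
    have h1 := td_uniq_Ioo hKsm h0 (γ₁ := fun s => tl (C q.1 s z))
      (γ₂ := fun s => (b (q.1, s) (cY z)).map (tl z))
      ((tl : E (n + 1) →L[ℝ] E n).continuous.comp (hCc q.1 z))
      (continuous_iff_continuousAt.2 fun t => (hgen q.1 t (cY z) (tl z)).continuousAt)
      (fun t ht => by
        have h2 := (tl : E (n + 1) →L[ℝ] E n).hasFDerivAt.comp_hasDerivAt t (hC.deriv q.1 t z)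
        rw [cut_right hβ (hX t (Ioo_subset_Icc_self ht) z hz), lift_tl hK,
          hYall t (Ioo_subset_Icc_self ht)] at h2
        exact h2) (fun t _ => hgen q.1 t (cY z) (tl z)) (by
        simp only [hC.zero, hb1]
        rfl)
    exact h1 hs

end cut

end Pool.Agent.H822.EX
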