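import Mathlib
import Pool.Agent.H822.EX.Cf

/-!
# Operations on scattering families
-/

set_option autoImplicit false

open scoped ContDiff
open Set Filter Topology Function Metric
open Q170.SC Pool.Agent.H822.Ham Pool.Agent.H822.Pairs Pool.Agent.H822.PairsMain
open Pool.Agent.GR.Flow Pool.Agent.H822.Par Pool.Agent.Q191.SY

namespace Pool.Agent.H822.EX

variable {n : ℕ} {P : Type} [NormedAddCommGroup P] [NormedSpace ℝ P]
  {W W' : P → E (n + 1) → E (n + 1)} {R R' : ℝ}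

/-- the part of the tube between two values of `X` -/
theorem compact_tube (a c R : ℝ) :
    IsCompact {z : E (n + 1) | a ≤ cX z ∧ cX z ≤ c ∧ |cY z| ≤ R ∧ ‖tl z‖ ≤ R} := by
  refine (isCompact_closedBall (0 : E (n + 1)) (max (max |a| |c|) R)).of_isClosed_subset ?_ ?_
  · have hX : Continuous (fun z : E (n + 1) => cX z) := (cX : E (n + 1) →L[ℝ] ℝ).continuous
    have hY : Continuous (fun z : E (n + 1) => cY z) := (cY : E (n + 1) →L[ℝ] ℝ).continuous
    have hT : Continuous (fun z : E (n + 1) => tl z) := (tl : E (n + 1) →L[ℝ] E n).continuous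
    exact (isClosed_le continuous_const hX).inter ((isClosed_le hX continuous_const).inter
      ((isClosed_le hY.abs continuous_const).inter (isClosed_le hT.norm continuous_const)))
  · rintro z ⟨h1, h2, h3, h4⟩
    rw [mem_closedBall_zero_iff]
    refine norm_le_of ?_ (h3.trans (le_max_right _ _)) (h4.trans (le_max_right _ _))
    refine le_trans ?_ (le_max_left _ _)
    rw [abs_le]
    constructor
    · linarith [neg_abs_le a, le_max_left |a| |c|]
    · linarith [le_abs_self c, le_max_right |a| |c|]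

/-- `W` pushes the right to the right -/
theorem Sc.right_large (h : Sc W R) (Q : Set P) (hQ : IsCompact Q) (A : ℝ) :
    ∃ M : ℝ, ∀ p ∈ Q, ∀ z, M ≤ cX z → A ≤ cX (W p z) := by
  obtain ⟨M, hM⟩ := h.out Q hQ
  have hc : Continuous (fun q : P × E (n + 1) => cX (W q.1 q.2)) :=
    (cX : E (n + 1) →L[ℝ] ℝ).continuous.comp h.fam.smooth.continuous
  obtain ⟨c, hc⟩ := ((hQ.prod (compact_tube (n := n) M M R)).image hc).isBounded.exists_norm_le
  refine ⟨max (M + A + c) (max M A), fun p hp z hz => ?_⟩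
  have h1 : M + A + c ≤ cX z := (le_max_left _ _).trans hz
  have h2 : M ≤ cX z := ((le_max_left _ _).trans (le_max_right _ _)).trans hz
  have h3 : A ≤ cX z := ((le_max_right _ _).trans (le_max_right _ _)).trans hz
  by_cases ht : R < |cY z| ∨ R < ‖tl z‖
  · rwa [h.tube p z ht]
  rw [not_or, not_lt, not_lt] at ht
  set r := cX z - M with hr
  have e1 : z - r • e0 + r • e0 = z := sub_add_cancel _ _
  have e2 : cX (z - r • e0) = M := by simp [hr]
  have h4 := (hM p hp (z - r • e0) e2.ge).2 r (by linarith)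
  rw [e1] at h4
  have h5 : ‖cX (W p (z - r • e0))‖ ≤ c :=
    hc _ ⟨(p, z - r • e0), ⟨hp, e2.ge, e2.le, by simpa using ht.1, by simpa using ht.2⟩, rfl⟩
  rw [h4]
  simp only [map_add, map_smul, cX_e0, smul_eq_mul, mul_one]
  have h6 := (abs_le.1 h5).1
  linarith

theorem SFam.comp {m : ℕ} {W W' : P → E m → E m} (h : SFam W) (h' : SFam W') :
    SFam (fun p z => W p (W' p z)) := by
  refine ⟨h.smooth.comp (contDiff_fst.prodMk h'.smooth), fun p z u v => ?_,
    fun p => (h.bij p).comp (h'.bij p)⟩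
  have h3 : fderiv ℝ (fun z => W p (W' p z)) z =
      (fderiv ℝ (W p) (W' p z)).comp (fderiv ℝ (W' p) z) :=
    fderiv_comp z ((h.slice p).differentiable (by simp) _)
      ((h'.slice p).differentiable (by simp) z)
  rw [h3]
  show omega (fderiv ℝ (W p) (W' p z) (fderiv ℝ (W' p) z u))
    (fderiv ℝ (W p) (W' p z) (fderiv ℝ (W' p) z v)) = _
  rw [h.symp]
  exact h'.symp p z u v

theorem Sc.comp (h : Sc W R) (h' : Sc W' R') : Sc (fun p z => W p (W' p z)) (max R R') := by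
  refine ⟨lt_max_of_lt_left h.pos, h.fam.comp h'.fam, fun p z hz => ?_, fun p z hz => ?_,
    fun Q hQ => ?_⟩
  · rw [h'.left p z (by linarith [le_max_right R R']), h.left p z (by linarith [le_max_left R R'])]
  · rw [h'.tube p z (hz.imp (lt_of_le_of_lt (le_max_right _ _)) (lt_of_le_of_lt (le_max_right _ _))),
      h.tube p z (hz.imp (lt_of_le_of_lt (le_max_left _ _)) (lt_of_le_of_lt (le_max_left _ _)))]
  · obtain ⟨M, hM⟩ := h.out Q hQ
    obtain ⟨M', hM'⟩ := h'.out Q hQ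
    obtain ⟨N, hN⟩ := h'.right_large Q hQ M
    refine ⟨max M' N, fun p hp z hz => ?_⟩
    have h1 := hM' p hp z ((le_max_left _ _).trans hz)
    have h2 := hM p hp (W' p z) (hN p hp z ((le_max_right _ _).trans hz))
    refine ⟨h2.1.trans h1.1, fun r hr => ?_⟩
    rw [h1.2 r hr, h2.2 r hr]

theorem Out.comp (h' : Sc W' R') {b b' : P → ℝ → SympCt n} (hb : Out W b) (hb' : Out W' b') :
    Out (fun p z => W p (W' p z)) (fun p y => b p y * b' p y) := by
  intro Q hQ
  obtain ⟨M, hM⟩ := hb Q hQ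
  obtain ⟨M', hM'⟩ := hb' Q hQ
  obtain ⟨N, hN⟩ := h'.right_large Q hQ M
  refine ⟨max M' N, fun p hp z hz => ?_⟩
  have h1 := hM' p hp z ((le_max_left _ _).trans hz)
  have h2 := hM p hp (W' p z) (hN p hp z ((le_max_right _ _).trans hz))
  refine ⟨h2.1.trans h1.1, ?_⟩
  rw [h2.2, h1.1, h1.2]
  rfl

/-- change of parameters -/
theorem Sc.pull {P' : Type} [NormedAddCommGroup P'] [NormedSpace ℝ P'] (h : Sc W R)
    {σ : P' → P} (hσ : ContDiff ℝ ∞ σ) : Sc (fun p => W (σ p)) R := by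
  refine ⟨h.pos, ⟨h.fam.smooth.comp ((hσ.comp contDiff_fst).prodMk contDiff_snd),
    fun p => h.fam.symp (σ p), fun p => h.fam.bij (σ p)⟩, fun p => h.left (σ p),
    fun p => h.tube (σ p), fun Q hQ => ?_⟩
  obtain ⟨M, hM⟩ := h.out (σ '' Q) (hQ.image hσ.continuous)
  exact ⟨M, fun p hp => hM (σ p) ⟨p, hp, rfl⟩⟩

theorem Out.pull {P' : Type} [NormedAddCommGroup P'] [NormedSpace ℝ P']
    {b : P → ℝ → SympCt n} (h : Out W b)
    {σ : P' → P} (hσ : ContDiff ℝ ∞ σ) : Out (fun p => W (σ p)) (fun p => b (σ p)) := by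
  intro Q hQ
  obtain ⟨M, hM⟩ := h (σ '' Q) (hQ.image hσ.continuous)
  exact ⟨M, fun p hp => hM (σ p) ⟨p, hp, rfl⟩⟩

/-- the constant family `1` -/
theorem Sc.id (hR : 0 < R) : Sc (fun (_ : P) (z : E (n + 1)) => z) R := by
  refine ⟨hR, ⟨contDiff_snd, fun p z u v => ?_, fun _ => bijective_id⟩, fun _ _ _ => rfl,
    fun _ _ _ => rfl, fun Q _ => ⟨0, fun _ _ _ _ => ⟨rfl, fun _ _ => rfl⟩⟩⟩
  have : fderiv ℝ (fun z : E (n + 1) => z) z = ContinuousLinearMap.id ℝ _ := fderiv_id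
  rw [this]
  rfl

omit [NormedSpace ℝ P] in
theorem Out.id : Out (fun (_ : P) (z : E (n + 1)) => z) (fun _ _ => (1 : SympCt n)) :=
  fun _ _ => ⟨0, fun _ _ _ _ => ⟨rfl, rfl⟩⟩

/-- a compactly supported family -/
theorem Sc.of_symp {Φ : P → SympCt (n + 1)}
    (hs : ContDiff ℝ ∞ (fun q : P × E (n + 1) => (Φ q.1).map q.2)) {R : ℝ} (hR : 0 < R)
    (hoff : ∀ p z, R < ‖z‖ → (Φ p).map z = z) :
    Sc (fun p => (Φ p).map) R ∧ Out (fun p => (Φ p).map) (fun _ _ => (1 : SympCt n)) := by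
  have h1 : ∀ (p : P) (z : E (n + 1)), R + 1 ≤ cX z → (Φ p).map z = z := fun p z hz =>
    hoff p z (by
      refine lt_of_lt_of_le ?_ (abs_cX_le z)
      linarith [le_abs_self (cX z)])
  refine ⟨⟨hR, ⟨hs, fun p z u v => (Φ p).2.1.form z u v, fun p => (Φ p).perm.bijective⟩,
    fun p z hz => hoff p z ?_, fun p z hz => hoff p z ?_, fun Q _ => ⟨R + 1, fun p _ z hz => ?_⟩⟩,
    fun Q _ => ⟨R + 1, fun p _ z hz => ?_⟩⟩
  · refine lt_of_lt_of_le ?_ (abs_cX_le z)
    linarith [neg_abs_le (cX z)]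
  · rcases hz with hz | hz
    · exact hz.trans_le (abs_cY_le z)
    · exact hz.trans_le (norm_tl_le z)
  · refine ⟨by rw [h1 p z hz], fun r hr => ?_⟩
    rw [h1 p z hz, h1 p _ (by simp; linarith)]
  · show cY ((Φ p).map z) = cY z ∧ tl ((Φ p).map z) = (1 : SympCt n).map (tl z)
    rw [h1 p z hz]
    exact ⟨rfl, rfl⟩

/-- two scattering families with the same outgoing families agree off a compact set -/
theorem Sc.agree_off (hn : 0 < n) (h : Sc W R) (h' : Sc W' R')
    {b : P → ℝ → SympCt n} (hb : Out W b) (hb' : Out W' b) (Q : Set P) (hQ : IsCompact Q) :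
    ∃ K : Set (E (n + 1)), IsCompact K ∧ ∀ p ∈ Q, ∀ z, z ∉ K → W p z = W' p z := by
  obtain ⟨M, hM⟩ := h.agree hn h' hb hb' Q hQ
  set D := max R R' with hD
  refine ⟨_, compact_tube (n := n) (-D) M D, fun p hp z hz => ?_⟩
  by_cases h1 : M ≤ cX z
  · exact hM p hp z h1
  by_cases h2 : cX z < -D
  · rw [h.left p z (by linarith [le_max_left R R']), h'.left p z (by linarith [le_max_right R R'])]
  have h3 : D < |cY z| ∨ D < ‖tl z‖ := by
    by_contra hcon
    rw [not_or, not_lt, not_lt] at hcon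
    exact hz ⟨not_lt.1 h2, (not_le.1 h1).le, hcon.1, hcon.2⟩
  rw [h'.tube p z (h3.imp (lt_of_le_of_lt (le_max_right _ _)) (lt_of_le_of_lt (le_max_right _ _))),
    h.tube p z (h3.imp (lt_of_le_of_lt (le_max_left _ _)) (lt_of_le_of_lt (le_max_left _ _)))]

theorem SFam.pull {m : ℕ} {W : P → E m → E m} {P' : Type} [NormedAddCommGroup P']
    [NormedSpace ℝ P'] (h : SFam W)
    {σ : P' → P} (hσ : ContDiff ℝ ∞ σ) : SFam (fun p => W (σ p)) :=
  ⟨h.smooth.comp ((hσ.comp contDiff_fst).prodMk contDiff_snd),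
    fun p => h.symp (σ p), fun p => h.bij (σ p)⟩

/-- the quotient `W'⁻¹ W` of scattering families with the same outgoing families, along a map from
a space `P'` to `P` with values in a compact set -/
theorem exists_quot_path (hn : 0 < n) {P' : Type} [NormedAddCommGroup P'] [NormedSpace ℝ P']
    [FiniteDimensional ℝ P'] (h : Sc W R) (h' : Sc W' R') {b : P → ℝ → SympCt n} (hb : Out W b)
    (hb' : Out W' b) {σ : P' → P} (hσ : ContDiff ℝ ∞ σ) {Q : Set P} (hQ : IsCompact Q)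
    (hσQ : ∀ s, σ s ∈ Q) :
    ∃ (θ : P' → SympCt (n + 1)) (K : Set (E (n + 1))), IsCompact K ∧
      ContDiff ℝ ∞ (fun q : P' × E (n + 1) => (θ q.1).map q.2) ∧
      (∀ s, SuppIn K (θ s).perm) ∧ ∀ s z, W' (σ s) ((θ s).map z) = W (σ s) z := by
  obtain ⟨K, hK, hoff⟩ := h.agree_off hn h' hb hb' Q hQ
  obtain ⟨θ, h1, h2, h3⟩ := exists_quot (h.fam.pull hσ) (h'.fam.pull hσ) hK
    (fun s z hz => hoff (σ s) (hσQ s) z hz)
  exact ⟨θ, K, hK, h1, h2, h3⟩

/-- compactly supported families from scattering families with trivial outgoing family -/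
theorem exists_symp_path (hn : 0 < n) {P' : Type} [NormedAddCommGroup P'] [NormedSpace ℝ P']
    [FiniteDimensional ℝ P'] (h : Sc W R) {b : P → ℝ → SympCt n} (hb : Out W b)
    {σ : P' → P} (hσ : ContDiff ℝ ∞ σ) {Q : Set P} (hQ : IsCompact Q) (hσQ : ∀ s, σ s ∈ Q)
    (h1 : ∀ s y, b (σ s) y = 1) :
    ∃ (θ : P' → SympCt (n + 1)) (K : Set (E (n + 1))), IsCompact K ∧
      ContDiff ℝ ∞ (fun q : P' × E (n + 1) => (θ q.1).map q.2) ∧
      (∀ s, SuppIn K (θ s).perm) ∧ ∀ s z, (θ s).map z = W (σ s) z := by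
  obtain ⟨M, hM⟩ := hb Q hQ
  have h2 := h.pull hσ
  -- the pulled back family has the trivial outgoing family, uniformly
  obtain ⟨M', hM'⟩ := h.out Q hQ
  have key : ∃ K : Set (E (n + 1)), IsCompact K ∧ ∀ s z, z ∉ K → W (σ s) z = z := by
    have hb' : Out (fun q : P' => W (σ q)) (fun q => b (σ q)) := hb.pull hσ
    have e1 : (fun q => b (σ q)) = fun (_ : P') (_ : ℝ) => (1 : SympCt n) := by
      ext1 q; ext1 y; exact h1 q y
    rw [e1] at hb'
    refine ⟨_, compact_tube (n := n) (-R) (max M M' + 1) R, fun s z hz => ?_⟩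
    by_cases h3 : cX z < -R
    · exact h.left _ _ h3
    by_cases h4 : R < |cY z| ∨ R < ‖tl z‖
    · exact h.tube _ _ h4
    rw [not_or, not_lt, not_lt] at h4
    have h5 : max M M' + 1 < cX z := by
      by_contra h5
      exact hz ⟨not_lt.1 h3, not_lt.1 h5, h4.1, h4.2⟩
    obtain ⟨N, hN⟩ := h2.agree hn (Sc.id (n := n) h.pos) hb' Out.id {s} isCompact_singleton
    -- compare far on the right
    set r := |N| + |cX z| with hr
    have hr0 : 0 ≤ r := by positivity
    have h6 := (hM' (σ s) (hσQ s) z (by linarith [le_max_right M M'])).2 r hr0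
    have h7 := hN s rfl (z + r • e0) (by
      simp only [map_add, map_smul, cX_e0, smul_eq_mul, mul_one]
      linarith [le_abs_self N, neg_abs_le (cX z)])
    have h8 : W (σ s) (z + r • e0) = z + r • e0 := h7
    rw [h8] at h6
    exact (add_right_cancel h6).symm
  obtain ⟨K, hK, hoff⟩ := key
  obtain ⟨θ, k1, k2, k3⟩ := exists_quot h2.fam (Sc.id (n := n) (P := P') h.pos).fam hK hoff
  exact ⟨θ, K, hK, k1, k2, k3⟩

/-- the functions `Y ∘ W⁻¹` -/
theorem Sc.tfam [FiniteDimensional ℝ P] (h : Sc W R) {σ : ℝ → P} (hσ : ContDiff ℝ ∞ σ)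
    {Q : Set P} (hQ : IsCompact Q) (hσQ : ∀ s, σ s ∈ Q) :
    ∃ (L : ℝ → E (n + 1) → ℝ) (R' : ℝ), TFam L R' ∧ ∀ s z, L s (W (σ s) z) = cY z := by
  obtain ⟨Ψ, hΨ, h1, h2⟩ := (h.fam.pull hσ).exists_inv
  obtain ⟨M, hM⟩ := h.out Q hQ
  obtain ⟨c, hc⟩ := ((hQ.prod (compact_tube (n := n) (-R) M R)).image
    h.fam.smooth.continuous).isBounded.exists_norm_le
  have hL : ContDiff ℝ ∞ (fun q : ℝ × E (n + 1) => cY (Ψ q.1 q.2)) :=
    (cY : E (n + 1) →L[ℝ] ℝ).contDiff.comp hΨ.smooth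
  have hLs : ∀ s, ContDiff ℝ ∞ (fun z => cY (Ψ s z)) := fun s =>
    hL.comp (contDiff_const.prodMk contDiff_id)
  have hLW : ∀ s z, cY (Ψ s (W (σ s) z)) = cY z := fun s z => by rw [h1]
  refine ⟨fun s z => cY (Ψ s z), |c| + 1, ⟨by positivity, hL, fun s z hz => ?_,
    fun s γ hγ hb => ?_⟩, hLW⟩
  · show cY (Ψ s z) = cY z
    obtain ⟨ζ, hζ⟩ : ∃ ζ, W (σ s) ζ = z := ⟨Ψ s z, h2 s z⟩
    rw [← hζ, hLW]
    by_cases h3 : cX ζ < -R
    · rw [h.left _ _ h3]
    by_cases h4 : R < |cY ζ| ∨ R < ‖tl ζ‖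
    · rw [h.tube _ _ h4]
    rw [not_or, not_lt, not_lt] at h4
    by_cases h5 : M ≤ cX ζ
    · exact (hM (σ s) (hσQ s) ζ h5).1.symm
    exfalso
    have h6 : ‖W (σ s) ζ‖ ≤ c :=
      hc _ ⟨(σ s, ζ), ⟨hσQ s, not_lt.1 h3, (not_le.1 h5).le, h4.1, h4.2⟩, rfl⟩
    rw [hζ] at h6
    linarith [le_abs_self c]
  · -- no bounded orbits
    have h3 : ∀ t, γ t = W (σ s) (Ψ s (γ 0) + t • e0) := by
      intro t
      refine unique_all (ham_smooth (hLs s)) hγ
        (line_orbit (h.fam.slice (σ s)) (h.fam.symp (σ s)) (hLs s) (hLW s) (Ψ s (γ 0)))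
        (t₀ := 0) ?_ t
      rw [zero_smul, add_zero]
      exact (h2 s (γ 0)).symm
    obtain ⟨B, hB⟩ := hb.exists_norm_le
    set ζ := Ψ s (γ 0)
    set t := -(|cX ζ| + |B| + R + 1) with ht
    have hR := h.pos
    have h4 : cX (ζ + t • e0) < -R := by
      simp only [map_add, map_smul, cX_e0, smul_eq_mul, mul_one]
      linarith [le_abs_self (cX ζ), abs_nonneg B]
    have h5 : γ t = ζ + t • e0 := by rw [h3, h.left _ _ h4]
    have h6 := hB _ ⟨t, rfl⟩
    rw [h5] at h6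
    have h7 := (abs_cX_le (ζ + t • e0)).trans h6
    have h8 := neg_abs_le (cX (ζ + t • e0))
    simp only [map_add, map_smul, cX_e0, smul_eq_mul, mul_one] at h7 h8
    linarith [le_abs_self (cX ζ), le_abs_self B]

end Pool.Agent.H822.EX
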