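import Mathlib
import Pool.Agent.H822.EX.Sc

/-!
# Non-trapping functions, their scattering families, and suspensions: definitions

`E n = ℝⁿ × ℝⁿ` is `ℝ^{2n}`, `SympCt n` the group `G_n = Symp_ct(ℝ^{2n})`, `ham L` the Hamiltonian
vector field of `L`, with `omega (ham L z) w = dL(z) w`.  On `ℝ^{2n+2}` we write `X = cX`, `Y = cY`
for the first `x` and `y` coordinates, `tl` for the other coordinates (a point of `ℝ^{2n}`),
`pt x y w` for the point with given coordinates and `e0 = ∂/∂X`; it is the Hamiltonian vector field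
of `Y`.
-/

set_option autoImplicit false

open scoped ContDiff
open Set Filter Topology Function Metric
open Q170.SC Pool.Agent.H822.Ham

namespace Pool.Agent.H822.EX

variable {n : ℕ}

/-- A smooth function on `ℝ^{2n+2}`, equal to `Y` off a compact set, is non-trapping if its
Hamiltonian flow has no bounded orbits. -/
structure NonTrapping (L : E (n + 1) → ℝ) : Prop where
  smooth : ContDiff ℝ ∞ L
  std : ∃ K : Set (E (n + 1)), IsCompact K ∧ ∀ z, z ∉ K → L z = cY z
  trapless : ∀ γ : ℝ → E (n + 1), (∀ t, HasDerivAt γ (ham L (γ t)) t) →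
    ¬ Bornology.IsBounded (range γ)

/-- `L₀` and `L₁` are joined by a smooth path of non-trapping functions, all equal to `Y` off one
compact set. -/
def Deform (L₀ L₁ : E (n + 1) → ℝ) : Prop :=
  ∃ (L : ℝ → E (n + 1) → ℝ) (K : Set (E (n + 1))), IsCompact K ∧
    ContDiff ℝ ∞ (fun q : ℝ × E (n + 1) => L q.1 q.2) ∧ (∀ s z, z ∉ K → L s z = cY z) ∧
    (∀ s, NonTrapping (L s)) ∧ L 0 = L₀ ∧ L 1 = L₁

/-- A smooth map `b` from the space `P` to the group `G_n`, with compact support. -/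
structure Fam {P : Type} [NormedAddCommGroup P] [NormedSpace ℝ P] (b : P → SympCt n) : Prop where
  smooth : ContDiff ℝ ∞ (fun q : P × E n => (b q.1).map q.2)
  supp : ∃ K : Set (P × E n), IsCompact K ∧ ∀ q, q ∉ K → (b q.1).map q.2 = q.2

/-- Two such maps are smoothly homotopic with compact support. -/
def Htp {P : Type} [NormedAddCommGroup P] [NormedSpace ℝ P] (b b' : P → SympCt n) : Prop :=
  ∃ (B : ℝ → P → SympCt n) (K : Set (P × E n)), IsCompact K ∧
    ContDiff ℝ ∞ (fun q : ℝ × P × E n => (B q.1 q.2.1).map q.2.2) ∧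
    (∀ s q, q ∉ K → (B s q.1).map q.2 = q.2) ∧ B 0 = b ∧ B 1 = b'

/-- `b` is the scattering family of `L`: each orbit of `L` which comes in along the line through
`z` leaves along a line with the same `Y` and with the other coordinates `b_Y (tl z)`. -/
def IsScattering (L : E (n + 1) → ℝ) (b : ℝ → SympCt n) : Prop :=
  ∀ (γ : ℝ → E (n + 1)) (z : E (n + 1)), (∀ t, HasDerivAt γ (ham L (γ t)) t) →
    (∀ᶠ t in atBot, γ t = z + t • e0) →
    ∃ x : ℝ, ∀ᶠ t in atTop, γ t = pt (x + t) (cY z) ((b (cY z)).map (tl z))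

/-- `ψ` is a suspension of the map `b` from the `(s, y)` plane to `G_n`: for each `y` the path
`s ↦ b (s, y)` is generated by the Hamiltonians `K s y` on `ℝ^{2n}`, and `ψ` is the time
`(-∞, ∞)` map of the Hamiltonians `β(X) K(s, Y, tl)` on `ℝ^{2n+2}`, where `β` is a cut off function
on the line. -/
def IsSuspension (b : ℝ × ℝ → SympCt n) (ψ : SympCt (n + 1)) : Prop :=
  ∃ (K : ℝ → ℝ → E n → ℝ) (β : ℝ → ℝ) (C : ℝ → E (n + 1) → E (n + 1)) (R : ℝ),
    ContDiff ℝ ∞ (fun q : ℝ × ℝ × E n => K q.1 q.2.1 q.2.2) ∧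
    (∀ s y w, (R < |s| ∨ R < |y| ∨ R < ‖w‖) → K s y w = 0) ∧
    (∀ s y w, HasDerivAt (fun s => (b (s, y)).map w)
      (ham (K s y) ((b (s, y)).map w)) s) ∧
    ContDiff ℝ ∞ β ∧ (∀ x, x < -R → β x = 0) ∧ (∀ x, R < x → β x = 1) ∧
    (∀ s z, HasDerivAt (fun s => C s z)
      (ham (fun z => β (cX z) * K s (cY z) (tl z)) (C s z)) s) ∧
    (∀ z, ∀ᶠ s in atBot, C s z = z) ∧ ∀ z, ∀ᶠ s in atTop, C s z = ψ.map z

end Pool.Agent.H822.EX
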