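import Mathlib
import Pool.Agent.H822.EX.Defs

/-!
# Scattering families of non-trapping functions
-/

set_option autoImplicit false

open scoped ContDiff
open Set Filter Topology Function Metric
open Q170.SC Pool.Agent.H822.Ham Pool.Agent.H822.Pairs Pool.Agent.H822.PairsMain
open Pool.Agent.GR.Flow Pool.Agent.H822.Par Pool.Agent.Q191.SY

namespace Pool.Agent.H822.EX

variable {n : ℕ}

open Td (et et_smooth et_zero et_one)

theorem et_mem (s : ℝ) : et s ∈ Icc (0 : ℝ) 1 :=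
  ⟨Real.smoothTransition.nonneg s, Real.smoothTransition.le_one s⟩

theorem exists_radius {V : Type} [NormedAddCommGroup V] {K : Set V} (hK : IsCompact K) :
    ∃ R : ℝ, 0 < R ∧ ∀ z, R < ‖z‖ → z ∉ K := by
  obtain ⟨R, hR⟩ := hK.isBounded.exists_norm_le
  exact ⟨|R| + 1, by positivity, fun z hz hzK => by
    linarith [hR z hzK, le_abs_self R]⟩

theorem deform_tfam {L₀ L₁ : E (n + 1) → ℝ} (h : Deform L₀ L₁) :
    ∃ (L : ℝ → E (n + 1) → ℝ) (R : ℝ), TFam L R ∧ (∀ s, s ≤ 0 → L s = L₀) ∧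
      ∀ s, 1 ≤ s → L s = L₁ := by
  obtain ⟨L, K, hK, h1, h2, h3, h4, h5⟩ := h
  obtain ⟨R, hR, hRK⟩ := exists_radius hK
  refine ⟨fun s => L (et s), R, ⟨hR, ?_, fun s z hz => h2 _ _ (hRK z hz),
    fun s => (h3 (et s)).trapless⟩, fun s hs => ?_, fun s hs => ?_⟩
  · exact h1.comp ((et_smooth.comp contDiff_fst).prodMk contDiff_snd)
  · show L (et s) = _
    rw [et_zero hs, h4]
  · show L (et s) = _
    rw [et_one hs, h5]

theorem nt_tfam {P : Type} [NormedAddCommGroup P] [NormedSpace ℝ P] {L : E (n + 1) → ℝ}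
    (h : NonTrapping L) : ∃ R : ℝ, TFam (fun _ : P => L) R := by
  obtain ⟨K, hK, hoff⟩ := h.std
  obtain ⟨R, hR, hRK⟩ := exists_radius hK
  exact ⟨R, hR, h.smooth.comp contDiff_snd, fun _ z hz => hoff z (hRK z hz),
    fun _ => h.trapless⟩

theorem tfam_nt {P : Type} [NormedAddCommGroup P] [NormedSpace ℝ P]
    {L : P → E (n + 1) → ℝ} {R : ℝ} (h : TFam L R) (p : P) : NonTrapping (L p) :=
  ⟨h.slice p, ⟨closedBall 0 R, isCompact_closedBall _ _, fun z hz => h.off p z (by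
    rwa [mem_closedBall_zero_iff, not_le] at hz)⟩, h.trapless p⟩

theorem tfam_deform {L : ℝ → E (n + 1) → ℝ} {R : ℝ} (h : TFam L R) : Deform (L 0) (L 1) :=
  ⟨L, closedBall 0 R, isCompact_closedBall _ _, h.smooth, fun s z hz => h.off s z (by
    rwa [mem_closedBall_zero_iff, not_le] at hz), fun s => tfam_nt h s, rfl, rfl⟩

theorem deform_symm {L₀ L₁ : E (n + 1) → ℝ} (h : Deform L₀ L₁) : Deform L₁ L₀ := by
  obtain ⟨L, K, hK, h1, h2, h3, h4, h5⟩ := h
  refine ⟨fun s => L (1 - s), K, hK, ?_, fun s => h2 _, fun s => h3 _, by simpa using h5,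
    by simpa using h4⟩
  exact h1.comp ((contDiff_const.sub contDiff_fst).prodMk contDiff_snd)

/-- the scattering family from the wave map -/
theorem scat_of {P : Type} [NormedAddCommGroup P] [NormedSpace ℝ P]
    {W : P → E (n + 1) → E (n + 1)} {R : ℝ} {b : P → ℝ → SympCt n} (h : Sc W R) (hb : Out W b)
    {L : E (n + 1) → ℝ} (hL : ContDiff ℝ ∞ L) (p : P) (hLW : ∀ z, L (W p z) = cY z) :
    IsScattering L (b p) := by
  intro γ z hγ hbot
  have hlin := line_orbit (h.fam.slice p) (h.fam.symp p) hL hLW z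
  obtain ⟨t₀, ht₀, ht₀'⟩ := (hbot.and (eventually_lt_atBot (-R - cX z))).exists
  have h1 : ∀ t, γ t = W p (z + t • e0) := by
    refine unique_all (ham_smooth hL) hγ hlin (t₀ := t₀) ?_
    rw [ht₀, h.left]
    simp
    linarith
  obtain ⟨M, hM⟩ := h.out {p} isCompact_singleton
  obtain ⟨M', hM'⟩ := hb {p} isCompact_singleton
  set t₁ := max M M' - cX z with ht₁
  refine ⟨cX (W p (z + t₁ • e0)) - t₁, ?_⟩
  filter_upwards [eventually_ge_atTop t₁] with t ht
  have h2 := (hM p rfl (z + t₁ • e0) (by simp [ht₁])).2 (t - t₁) (by linarith)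
  have e1 : z + t₁ • e0 + (t - t₁) • e0 = z + t • e0 := by
    rw [add_assoc, ← add_smul, add_sub_cancel]
  rw [e1] at h2
  have h3 := hM' p rfl (z + t • e0) (by
    simp only [map_add, map_smul, cX_e0, smul_eq_mul, mul_one]
    have := le_max_right M M'
    linarith)
  rw [h1]
  refine ext_co ?_ ?_ ?_
  · rw [h2, cX_pt]
    simp
    ring
  · rw [h3.1, cY_pt]
    simp
  · rw [h3.2, tl_pt]
    simp

theorem scat_unique {L : E (n + 1) → ℝ} (hL : NonTrapping L) {b b' : ℝ → SympCt n}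
    (h : IsScattering L b) (h' : IsScattering L b') : b = b' := by
  obtain ⟨R, hR⟩ := nt_tfam (P := ℝ) hL
  obtain ⟨W, hW, hLW⟩ := hR.exists_wave
  ext1 y
  refine ext_map fun w => ?_
  set z := pt 0 y w with hz
  have h1 := line_orbit (hW.fam.slice 0) (hW.fam.symp 0) hL.smooth (hLW 0) z
  have h2 : ∀ᶠ t : ℝ in atBot, W 0 (z + t • e0) = z + t • e0 := by
    filter_upwards [eventually_lt_atBot (-R)] with t ht
    rw [hW.left]
    simp [hz]
    linarith
  obtain ⟨x, hx⟩ := h _ z h1 h2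
  obtain ⟨x', hx'⟩ := h' _ z h1 h2
  obtain ⟨t, ht, ht'⟩ := (hx.and hx').exists
  rw [ht] at ht'
  have h3 := congrArg tl ht'
  simpa [hz] using h3

theorem bfam_fam {P : Type} [NormedAddCommGroup P] [NormedSpace ℝ P] {b : P → ℝ → SympCt n}
    {R : ℝ} (h : BFam b R) (p : P) : Fam (b p) := by
  refine ⟨?_, ⟨Icc (-R) R ×ˢ closedBall 0 R, isCompact_Icc.prod (isCompact_closedBall _ _),
    fun q hq => h.off p q.1 q.2 ?_⟩⟩
  · exact h.smooth.comp ((contDiff_const (c := p)).prodMk contDiff_id)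
  · rw [mem_prod, not_and_or, mem_closedBall_zero_iff, not_le] at hq
    refine hq.imp (fun h => ?_) (fun h => h)
    by_contra hcon
    exact h (abs_le.1 (not_lt.1 hcon))

theorem scat_exists {L : E (n + 1) → ℝ} (hL : NonTrapping L) :
    ∃ b : ℝ → SympCt n, Fam b ∧ IsScattering L b := by
  obtain ⟨R, hR⟩ := nt_tfam (P := ℝ) hL
  obtain ⟨W, hW, hLW⟩ := hR.exists_wave
  obtain ⟨b, hb, hbo⟩ := hW.exists_out
  exact ⟨b 0, bfam_fam hb 0, scat_of hW hbo hL.smooth 0 (hLW 0)⟩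

/-! ### The action of `G_{n+1}` -/

theorem orbit_comp (φ : SympCt (n + 1)) {L : E (n + 1) → ℝ} (hL : ContDiff ℝ ∞ L)
    {γ : ℝ → E (n + 1)} (hγ : ∀ t, HasDerivAt γ (ham (fun z => L (φ.map z)) (γ t)) t) (t : ℝ) :
    HasDerivAt (fun t => φ.map (γ t)) (ham L (φ.map (γ t))) t := by
  have h1 := ((map_smooth φ).differentiable (by simp) (γ t)).hasFDerivAt.comp_hasDerivAt t (hγ t)
  rw [ham_natural (map_smooth φ) φ.2.1.form hL] at h1
  exact h1

theorem nt_comp {L : E (n + 1) → ℝ} (hL : NonTrapping L) (φ : SympCt (n + 1)) :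
    NonTrapping (fun z => L (φ.map z)) := by
  obtain ⟨K, hK, hoff⟩ := hL.std
  obtain ⟨K', hK', hoff'⟩ := φ.2.2
  refine ⟨hL.smooth.comp (map_smooth φ), ⟨K ∪ K', hK.union hK', fun z hz => ?_⟩,
    fun γ hγ hb => ?_⟩
  · have h1 : φ.map z = z := hoff' z fun h => hz (Or.inr h)
    show L (φ.map z) = _
    rw [h1]
    exact hoff z fun h => hz (Or.inl h)
  · refine hL.trapless (fun t => φ.map (γ t)) (orbit_comp φ hL.smooth hγ) ?_
    have h1 : IsCompact (closure (range γ)) := hb.isCompact_closure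
    refine (h1.image (map_smooth φ).continuous).isBounded.subset ?_
    rintro _ ⟨t, rfl⟩
    exact ⟨γ t, subset_closure ⟨t, rfl⟩, rfl⟩

theorem scat_comp {L : E (n + 1) → ℝ} (hL : NonTrapping L) {b : ℝ → SympCt n}
    (h : IsScattering L b) (φ : SympCt (n + 1)) : IsScattering (fun z => L (φ.map z)) b := by
  intro γ z hγ hbot
  obtain ⟨K, hK, hoff⟩ := φ.2.2
  obtain ⟨R, hR, hRK⟩ := exists_radius hK
  have hoff' : ∀ z, R < ‖z‖ → φ.map z = z := fun z hz => hoff z (hRK z hz)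
  have h1 : ∀ᶠ t in atBot, φ.map (γ t) = z + t • e0 := by
    filter_upwards [hbot, eventually_lt_atBot (-R - cX z)] with t ht ht'
    rw [ht, hoff']
    refine norm_gt_of_cX (lt_of_lt_of_le ?_ (neg_le_abs _))
    simp
    linarith
  obtain ⟨x, hx⟩ := h (fun t => φ.map (γ t)) z (orbit_comp φ hL.smooth hγ) h1
  refine ⟨x, ?_⟩
  filter_upwards [hx, eventually_gt_atTop (R - x)] with t ht ht'
  have h2 : R < ‖φ.map (γ t)‖ := by
    rw [ht]
    refine norm_gt_of_cX (lt_of_lt_of_le ?_ (le_abs_self _))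
    rw [cX_pt]
    linarith
  have h3 : φ.map (φ.map (γ t)) = φ.map (γ t) := hoff' _ h2
  have h4 : φ.map (γ t) = γ t := by
    have := congrArg (fun z => φ⁻¹.map z) h3
    simpa only [inv_map_map] using this
  rw [← h4]
  exact ht

theorem deform_comp_path {L L' : E (n + 1) → ℝ} (h : Deform L L') {φ φ' : SympCt (n + 1)}
    (hφ : SmoothIsotopic φ φ') : Deform (fun z => L (φ.map z)) (fun z => L' (φ'.map z)) := by
  obtain ⟨F, K, hK, h1, h2, h3, h4, h5⟩ := h
  obtain ⟨K', hK', Φ, k1, k2, k3, k4⟩ := hφ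
  refine ⟨fun s z => F s ((Φ s).map z), K ∪ K', hK.union hK', ?_, fun s z hz => ?_,
    fun s => nt_comp (h3 s) (Φ s), ?_, ?_⟩
  · exact h1.comp (contDiff_fst.prodMk k1)
  · have e1 : (Φ s).map z = z := k2 s z fun h => hz (Or.inr h)
    show F s ((Φ s).map z) = _
    rw [e1]
    exact h2 s z fun h => hz (Or.inl h)
  · show (fun z => F 0 ((Φ 0).map z)) = _
    rw [h4, k3]
  · show (fun z => F 1 ((Φ 1).map z)) = _
    rw [h5, k4]

theorem trapless_cY (γ : ℝ → E (n + 1)) (hγ : ∀ t, HasDerivAt γ (ham (cY : E (n + 1) → ℝ) (γ t)) t) :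
    ¬ Bornology.IsBounded (range γ) := by
  intro hb
  obtain ⟨B, hB⟩ := hb.exists_norm_le
  have h1 : ∀ t, cX (γ t) = cX (γ 0) + t := by
    intro t
    refine unique_all (W := ℝ) (X := fun _ => (1 : ℝ)) contDiff_const (t₀ := 0)
      (γ₁ := fun t => cX (γ t)) (γ₂ := fun t => cX (γ 0) + t) (fun t => ?_)
      (fun t => by simpa using (hasDerivAt_id t).const_add (cX (γ 0))) (by simp) t
    have h2 := (cX : E (n + 1) →L[ℝ] ℝ).hasFDerivAt.comp_hasDerivAt t (hγ t)
    rw [ham_cY] at h2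
    exact h2
  have h2 := (abs_cX_le _).trans (hB _ ⟨|B| + |cX (γ 0)| + 1, rfl⟩)
  rw [h1] at h2
  have h3 := le_abs_self (cX (γ 0) + (|B| + |cX (γ 0)| + 1))
  linarith [neg_abs_le (cX (γ 0)), le_abs_self B]

theorem nt_cY : NonTrapping (cY : E (n + 1) → ℝ) :=
  ⟨(cY : E (n + 1) →L[ℝ] ℝ).contDiff, ⟨∅, isCompact_empty, fun _ _ => rfl⟩, trapless_cY⟩

theorem deform_refl {L : E (n + 1) → ℝ} (h : NonTrapping L) : Deform L L := by
  obtain ⟨K, hK, hoff⟩ := h.std
  exact ⟨fun _ => L, K, hK, h.smooth.comp contDiff_snd, fun _ z hz => hoff z hz, fun _ => h,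
    rfl, rfl⟩

theorem scat_cY : IsScattering (cY : E (n + 1) → ℝ) (1 : ℝ → SympCt n) :=
  scat_of (P := ℝ) (W := fun _ z => z) (b := fun _ _ => 1) (Sc.id one_pos) Out.id
    (cY : E (n + 1) →L[ℝ] ℝ).contDiff 0 fun _ => rfl

end Pool.Agent.H822.EX
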