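import Mathlib
import Pool.Agent.H822.EX.Scat

/-!
# Compactly supported families of non-trapping functions, scattering and suspension: definitions

`E n = ℝⁿ × ℝⁿ` is `ℝ^{2n}`, `SympCt n` the group `G_n = Symp_ct(ℝ^{2n})`, `ham L` the Hamiltonian
vector field of `L`, with `omega (ham L z) w = dL(z) w`.  On `ℝ^{2n+2}` we write `X = cX`, `Y = cY`
for the first `x` and `y` coordinates and `tl` for the other coordinates (a point of `ℝ^{2n}`).
The space `P` of parameters is any finite dimensional space, for instance a point; if it has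
dimension `k` then homotopy classes of compactly supported maps from `P` to a space correspond to
elements of its `k`-th homotopy group.
-/

set_option autoImplicit false

open scoped ContDiff
open Set Filter Topology Function Metric
open Q170.SC Pool.Agent.H822.Ham

namespace Pool.Agent.H822.EX

variable {n : ℕ} {P : Type} [NormedAddCommGroup P] [NormedSpace ℝ P]

/-- A smooth map `L` from `P` to the space `T` of the non-trapping functions on `ℝ^{2n+2}`, with
compact support: `L p z = Y z` off a compact subset of `P × ℝ^{2n+2}`. -/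
structure TMap (L : P → E (n + 1) → ℝ) : Prop where
  smooth : ContDiff ℝ ∞ (fun q : P × E (n + 1) => L q.1 q.2)
  supp : ∃ K : Set (P × E (n + 1)), IsCompact K ∧ ∀ q, q ∉ K → L q.1 q.2 = cY q.2
  nt : ∀ p, NonTrapping (L p)

/-- Two such maps are smoothly homotopic with compact support. -/
def THtp (L L' : P → E (n + 1) → ℝ) : Prop :=
  ∃ (F : ℝ → P → E (n + 1) → ℝ) (K : Set (P × E (n + 1))), IsCompact K ∧
    ContDiff ℝ ∞ (fun q : ℝ × P × E (n + 1) => F q.1 q.2.1 q.2.2) ∧
    (∀ s q, q ∉ K → F s q.1 q.2 = cY q.2) ∧ (∀ s p, NonTrapping (F s p)) ∧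
    F 0 = L ∧ F 1 = L'

/-- `b` is the scattering map of `L`: for each `p`, the family `y ↦ b (p, y)` is the scattering
family of `L p`. -/
def IsScat (L : P → E (n + 1) → ℝ) (b : P × ℝ → SympCt n) : Prop :=
  ∀ p, IsScattering (L p) (fun y => b (p, y))

/-- `ψ : P → G_{n+1}` is a suspension of the map `b : P × ℝ² → G_n`: for all `p`, `y` the path
`s ↦ b (p, s, y)` is generated by the Hamiltonians `K p s y` on `ℝ^{2n}`, and `ψ p` is the time
`(-∞, ∞)` map of the Hamiltonians `β(X) K(p, s, Y, tl)` on `ℝ^{2n+2}`, where `β` is a cut off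
function on the line. -/
def IsSusp (b : P × ℝ × ℝ → SympCt n) (ψ : P → SympCt (n + 1)) : Prop :=
  ∃ (K : P → ℝ → ℝ → E n → ℝ) (β : ℝ → ℝ) (C : P → ℝ → E (n + 1) → E (n + 1)) (R : ℝ),
    ContDiff ℝ ∞ (fun q : P × ℝ × ℝ × E n => K q.1 q.2.1 q.2.2.1 q.2.2.2) ∧
    (∀ p s y w, (R < |s| ∨ R < |y| ∨ R < ‖w‖) → K p s y w = 0) ∧
    (∀ p s y w, HasDerivAt (fun s => (b (p, s, y)).map w)
      (ham (K p s y) ((b (p, s, y)).map w)) s) ∧
    ContDiff ℝ ∞ β ∧ (∀ x, x < -R → β x = 0) ∧ (∀ x, R < x → β x = 1) ∧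
    (∀ p s z, HasDerivAt (fun s => C p s z)
      (ham (fun z => β (cX z) * K p s (cY z) (tl z)) (C p s z)) s) ∧
    (∀ p z, ∀ᶠ s in atBot, C p s z = z) ∧ ∀ p z, ∀ᶠ s in atTop, C p s z = (ψ p).map z

end Pool.Agent.H822.EX
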