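import Mathlib
import Pool.Agent.H822.EX.Scat

/-!
# Exactness
-/

set_option autoImplicit false

open scoped ContDiff
open Set Filter Topology Function Metric
open Q170.SC Pool.Agent.H822.Ham Pool.Agent.H822.Pairs Pool.Agent.H822.PairsMain
open Pool.Agent.GR.Flow Pool.Agent.H822.Par Pool.Agent.Q191.SY

namespace Pool.Agent.H822.EX

variable {n : ℕ}

open Td (et et_smooth et_zero et_one)

section bfam

variable {P : Type} [NormedAddCommGroup P] [NormedSpace ℝ P]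

theorem BFam.mono {b : P → ℝ → SympCt n} {R R' : ℝ} (h : BFam b R) (hR : R ≤ R') : BFam b R' :=
  ⟨h.smooth, fun p y w hyw => h.off p y w (hyw.imp (lt_of_le_of_lt hR) (lt_of_le_of_lt hR))⟩

theorem BFam.inv [FiniteDimensional ℝ P] {b : P → ℝ → SympCt n} {R : ℝ} (h : BFam b R) :
    BFam (fun p y => (b p y)⁻¹) R := by
  have hΦ : SFam (fun (q : P × ℝ) (w : E n) => (b q.1 q.2).map w) := by
    refine ⟨?_, fun q z u v => (b q.1 q.2).2.1.form z u v, fun q => (b q.1 q.2).perm.bijective⟩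
    exact h.smooth.comp ((contDiff_fst.comp contDiff_fst).prodMk
      ((contDiff_snd.comp contDiff_fst).prodMk contDiff_snd))
  obtain ⟨Ψ, hΨ, h1, h2⟩ := hΦ.exists_inv
  have h3 : ∀ p y w, ((b p y)⁻¹).map w = Ψ (p, y) w := by
    intro p y w
    have h4 := h1 (p, y) ((b p y)⁻¹.map w)
    have h5 : (b (p, y).1 (p, y).2).map ((b p y)⁻¹.map w) = w := map_inv_map (b p y) w
    rw [h5] at h4
    exact h4.symm
  refine ⟨?_, fun p y w hyw => ?_⟩
  · have h4 : (fun q : P × ℝ × E n => ((b q.1 q.2.1)⁻¹).map q.2.2) =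
        fun q => Ψ (q.1, q.2.1) q.2.2 := by
      ext1 q
      exact h3 _ _ _
    rw [h4]
    exact hΨ.smooth.comp ((contDiff_fst.prodMk (contDiff_fst.comp contDiff_snd)).prodMk
      (contDiff_snd.comp contDiff_snd))
  · have h4 := h.off p y w hyw
    have h5 := inv_map_map (b p y) w
    rwa [h4] at h5

theorem BFam.mul {b b' : P → ℝ → SympCt n} {R : ℝ} (h : BFam b R) (h' : BFam b' R) :
    BFam (fun p y => b p y * b' p y) R := by
  refine ⟨?_, fun p y w hyw => ?_⟩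
  · exact h.smooth.comp (contDiff_fst.prodMk ((contDiff_fst.comp contDiff_snd).prodMk h'.smooth))
  · rw [mul_map, h'.off p y w hyw, h.off p y w hyw]

theorem BFam.pull {P' : Type} [NormedAddCommGroup P'] [NormedSpace ℝ P'] {b : P → ℝ → SympCt n}
    {R : ℝ} (h : BFam b R) {σ : P' → P} (hσ : ContDiff ℝ ∞ σ) : BFam (fun p => b (σ p)) R :=
  ⟨h.smooth.comp ((hσ.comp contDiff_fst).prodMk contDiff_snd), fun p => h.off (σ p)⟩

end bfam

theorem betaFam_et {P : Type} [NormedAddCommGroup P] [NormedSpace ℝ P] :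
    BetaFam (fun (_ : P) x => et x) 1 :=
  ⟨et_smooth.comp contDiff_snd, fun _ x hx => et_zero (by linarith), fun _ x hx => et_one hx.le⟩

/-- two scattering maps with the same outgoing family differ by an element of `G_{n+1}` -/
theorem exists_between (hn : 0 < n) {P P' : Type} [NormedAddCommGroup P] [NormedSpace ℝ P]
    [NormedAddCommGroup P'] [NormedSpace ℝ P']
    {V : P → E (n + 1) → E (n + 1)} {W : P' → E (n + 1) → E (n + 1)} {R R' : ℝ} (hV : Sc V R)
    (hW : Sc W R') {b : P → ℝ → SympCt n} {b' : P' → ℝ → SympCt n} (hbV : Out V b)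
    (hbW : Out W b') (p : P) (q : P') (h : b p = b' q) :
    ∃ φ : SympCt (n + 1), ∀ z, φ.map (V p z) = W q z := by
  have hV' : Sc (fun _ : ℝ => V p) R := hV.pull (contDiff_const (c := p))
  have hW' : Sc (fun _ : ℝ => W q) R' := hW.pull (contDiff_const (c := q))
  have hbV' : Out (fun _ : ℝ => V p) (fun _ => b p) := hbV.pull (contDiff_const (c := p))
  have hbW' : Out (fun _ : ℝ => W q) (fun _ => b' q) := hbW.pull (contDiff_const (c := q))
  rw [← h] at hbW'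
  obtain ⟨K, hK, hoff⟩ := hV'.agree_off hn hW' hbV' hbW' {0} isCompact_singleton
  have hoff' : ∀ z, z ∉ K → V p z = W q z := hoff 0 rfl
  obtain ⟨Ψ, hΨ, h1, h2⟩ := hV'.fam.exists_inv
  obtain ⟨Ψ', hΨ', h1', h2'⟩ := hW'.fam.exists_inv
  obtain ⟨θ, k1, k2, k3⟩ := exists_quot hΨ hΨ' (hK.image (hV.fam.slice p).continuous)
    (fun s z hz => by
      have h3 : Ψ s z ∉ K := fun hmem => hz ⟨Ψ s z, hmem, h2 s z⟩
      have h4 : W q (Ψ s z) = z := by rw [← hoff' _ h3]; exact h2 s z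
      have h5 := h1' s (Ψ s z)
      rw [h4] at h5
      exact h5.symm)
  refine ⟨θ 0, fun z => ?_⟩
  have h3 := k3 0 (V p z)
  rw [h1] at h3
  have h4 := h2' 0 ((θ 0).map (V p z))
  rw [h3] at h4
  exact h4.symm

/-- the path of times -/
noncomputable def tm (R : ℝ) (s : ℝ) : ℝ := -R - 1 + (2 * R + 2) * et s

theorem tm_smooth (R : ℝ) : ContDiff ℝ ∞ (tm R) :=
  contDiff_const.add (contDiff_const.mul et_smooth)

theorem tm_zero (R : ℝ) : tm R 0 = -R - 1 := by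
  rw [tm, et_zero le_rfl]; ring

theorem tm_one (R : ℝ) : tm R 1 = R + 1 := by
  rw [tm, et_one le_rfl]; ring

theorem tm_mem {R : ℝ} (hR : 0 < R) (s : ℝ) : tm R s ∈ Icc (-R - 1) (R + 1) := by
  have h := et_mem s
  constructor
  · show -R - 1 ≤ -R - 1 + (2 * R + 2) * et s
    have := mul_nonneg (show 0 ≤ 2 * R + 2 by linarith) h.1
    linarith
  · show -R - 1 + (2 * R + 2) * et s ≤ R + 1
    have := mul_le_mul_of_nonneg_left h.2 (show 0 ≤ 2 * R + 2 by linarith)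
    linarith

/-- If the scattering families are homotopic then `L` can be deformed to the image of `L'` under
an element of `G_{n+1}`. -/
theorem orbit_of_htp (hn : 0 < n) {L L' : E (n + 1) → ℝ} (hL : NonTrapping L)
    (hL' : NonTrapping L') {b b' : ℝ → SympCt n} (hb : IsScattering L b)
    (hb' : IsScattering L' b') (h : Htp b b') :
    ∃ φ : SympCt (n + 1), Deform L (fun z => L' (φ.map z)) := by
  obtain ⟨B, K₀, hK₀, h1, h2, h3, h4⟩ := h
  obtain ⟨R₁, hR₁, hRK⟩ := exists_radius hK₀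
  have hB : BFam B R₁ := by
    refine ⟨h1, fun p y w hyw => h2 p (y, w) (hRK _ ?_)⟩
    rw [Prod.norm_def]
    exact lt_max_iff.2 hyw
  obtain ⟨R₂, hT⟩ := nt_tfam (P := ℝ × ℝ) hL
  obtain ⟨R₃, hT'⟩ := nt_tfam (P := ℝ × ℝ) hL'
  obtain ⟨W, hW, hLW⟩ := hT.exists_wave
  obtain ⟨W', hW', hLW'⟩ := hT'.exists_wave
  obtain ⟨bW, hbW, hbWo⟩ := hW.exists_out
  obtain ⟨bW', hbW', hbWo'⟩ := hW'.exists_out
  have e1 : ∀ p, bW p = b := fun p =>
    scat_unique hL (scat_of hW hbWo hL.smooth p (hLW p)) hb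
  have e2 : ∀ p, bW' p = b' := fun p =>
    scat_unique hL' (scat_of hW' hbWo' hL'.smooth p (hLW' p)) hb'
  set R := max (max R₁ R₂) 1 with hR
  have hR0 : 0 < R := by positivity
  have hR1 : 1 ≤ R := le_max_right _ _
  have hBs : BFam (fun q : ℝ × ℝ => B (et q.2)) R :=
    (hB.pull (et_smooth.comp contDiff_snd)).mono ((le_max_left _ _).trans (le_max_left _ _))
  have hD : BFam (fun (q : ℝ × ℝ) y => B (et q.2) y * (bW q y)⁻¹) R :=
    hBs.mul ((hbW.mono ((le_max_right _ _).trans (le_max_left _ _))).inv)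
  obtain ⟨K, hK, hgen⟩ := exists_K hn hD
    (fun p s s' y hs hs' => by
      show B (et s) y * (bW (p, s) y)⁻¹ = B (et s') y * (bW (p, s') y)⁻¹
      rw [et_one (hR1.trans hs), et_one (hR1.trans hs'), e1, e1])
    (fun p s s' y hs hs' => by
      show B (et s) y * (bW (p, s) y)⁻¹ = B (et s') y * (bW (p, s') y)⁻¹
      rw [et_zero (by linarith), et_zero (by linarith), e1, e1])
  obtain ⟨C, hC, hCS, hCo⟩ := exists_C (β := fun _ x => et x) hR0 hK betaFam_et hgen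
    (fun p y => by
      show B (et (-R - 1)) y * (bW (p, -R - 1) y)⁻¹ = 1
      rw [et_zero (by linarith), h3, e1, mul_inv_cancel])
  have hV := hCS.comp hW
  have hVo := Out.comp hW hCo hbWo
  let σ : ℝ → ℝ × ℝ := fun s => (0, tm R s)
  have hσ : ContDiff ℝ ∞ σ := contDiff_const.prodMk (tm_smooth R)
  have hQ : IsCompact (({0} : Set ℝ) ×ˢ Icc (-R - 1) (R + 1)) :=
    isCompact_singleton.prod isCompact_Icc
  obtain ⟨F, R', hF, hFV⟩ := hV.tfam hσ hQ (fun s => ⟨rfl, tm_mem hR0 s⟩)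
  have hF0 : F 0 = L := by
    ext ζ
    obtain ⟨z, rfl⟩ := (hW.fam.bij (σ 0)).2 ζ
    have h5 := hFV 0 z
    have h6 : C (σ 0).1 (σ 0).2 (W (σ 0) z) = W (σ 0) z := by
      show C 0 (tm R 0) _ = _
      rw [tm_zero]
      exact hC.zero _ _
    rw [h6] at h5
    rw [h5]
    exact (hLW (σ 0) z).symm
  obtain ⟨φ, hφ⟩ := exists_between hn hV hW' hVo hbWo' (σ 1) (σ 1) (by
    ext1 y
    show B (et (tm R 1)) y * (bW (σ 1) y)⁻¹ * bW (σ 1) y = bW' (σ 1) y
    rw [inv_mul_cancel_right, tm_one, et_one (by linarith), h4, e2])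
  refine ⟨φ, ?_⟩
  have hF1 : F 1 = fun z => L' (φ.map z) := by
    ext ζ
    obtain ⟨z, rfl⟩ := (hV.fam.bij (σ 1)).2 ζ
    rw [hFV]
    show _ = L' (φ.map _)
    rw [hφ, hLW']
  rw [← hF0, ← hF1]
  exact tfam_deform hF

/-- Conversely, the scattering families of the functions in such a deformation are homotopic. -/
theorem htp_of_orbit {L L' : E (n + 1) → ℝ} (hL : NonTrapping L)
    (hL' : NonTrapping L') {b b' : ℝ → SympCt n} (hb : IsScattering L b)
    (hb' : IsScattering L' b') (φ : SympCt (n + 1)) (h : Deform L (fun z => L' (φ.map z))) :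
    Htp b b' := by
  obtain ⟨F, R, hF, h0, h1⟩ := deform_tfam h
  obtain ⟨W, hW, hLW⟩ := hF.exists_wave
  obtain ⟨B, hB, hBo⟩ := hW.exists_out
  have e0 : B 0 = b := by
    have h2 := scat_of hW hBo (hF.slice 0) 0 (hLW 0)
    rw [h0 0 le_rfl] at h2
    exact scat_unique hL h2 hb
  have e1 : B 1 = b' := by
    have h2 := scat_of hW hBo (hF.slice 1) 1 (hLW 1)
    rw [h1 1 le_rfl] at h2
    exact scat_unique (nt_comp hL' φ) h2 (scat_comp hL' hb' φ)
  refine ⟨B, Icc (-R) R ×ˢ closedBall 0 R, isCompact_Icc.prod (isCompact_closedBall _ _),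
    hB.smooth, fun s q hq => hB.off s q.1 q.2 ?_, e0, e1⟩
  rw [mem_prod, not_and_or, mem_closedBall_zero_iff, not_le] at hq
  refine hq.imp (fun h => ?_) (fun h => h)
  by_contra hcon
  exact h (abs_le.1 (not_lt.1 hcon))

/-! ### Suspensions -/

/-- the flows are constant in time for large times -/
theorem C_early {P : Type} [NormedAddCommGroup P] [NormedSpace ℝ P]
    {K : P → ℝ → ℝ → E n → ℝ} {β : P → ℝ → ℝ} {R : ℝ} (hK : KFam K R)
    {C : P → ℝ → E (n + 1) → E (n + 1)} (hC : TD (fun p s z => ham (cut β K p s) z) (-R - 1) C)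
    (p : P) (z : E (n + 1)) {s : ℝ} (hs : s < -R) : C p s z = z := by
  have h7 := Convex.norm_image_sub_le_of_norm_hasDerivWithin_le (f := fun t => C p t z)
    (f' := fun t => ham (cut β K p t) (C p t z)) (s := Iio (-R)) (C := 0) (x := -R - 1) (y := s)
    (fun t _ => (hC.deriv p t z).hasDerivWithinAt) (fun t ht => by
      rw [cut_time hK (lt_abs.2 (Or.inr (by linarith [mem_Iio.1 ht]))), norm_zero])
    (convex_Iio _) (by simp) hs
  rw [zero_mul, norm_le_zero_iff, sub_eq_zero] at h7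
  rw [h7]
  exact hC.zero p z

theorem C_late {P : Type} [NormedAddCommGroup P] [NormedSpace ℝ P]
    {K : P → ℝ → ℝ → E n → ℝ} {β : P → ℝ → ℝ} {R : ℝ} (hK : KFam K R)
    {C : P → ℝ → E (n + 1) → E (n + 1)} (hC : TD (fun p s z => ham (cut β K p s) z) (-R - 1) C)
    (p : P) (z : E (n + 1)) {s : ℝ} (hs : R < s) : C p s z = C p (R + 1) z := by
  have h7 := Convex.norm_image_sub_le_of_norm_hasDerivWithin_le (f := fun t => C p t z)
    (f' := fun t => ham (cut β K p t) (C p t z)) (s := Ioi R) (C := 0) (x := R + 1) (y := s)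
    (fun t _ => (hC.deriv p t z).hasDerivWithinAt) (fun t ht => by
      rw [cut_time hK (lt_abs.2 (Or.inl (mem_Ioi.1 ht))), norm_zero])
    (convex_Ioi _) (by simp) hs
  rw [zero_mul, norm_le_zero_iff, sub_eq_zero] at h7
  exact h7

/-- a family of sphere families, with its Hamiltonians and flows -/
structure SData (B : ℝ → ℝ × ℝ → SympCt n) (β : ℝ → ℝ → ℝ) (R : ℝ)
    (K : ℝ → ℝ → ℝ → E n → ℝ) (C : ℝ → ℝ → E (n + 1) → E (n + 1)) : Prop where
  pos : 0 < R
  kfam : KFam K R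
  gen : Gen K (fun q y => B q.1 (q.2, y))
  beta : BetaFam β R
  one : ∀ τ s y, R ≤ |s| → B τ (s, y) = 1
  td : TD (fun p s z => ham (cut β K p s) z) (-R - 1) C
  sc : Sc (fun q : ℝ × ℝ => C q.1 q.2) R
  out : Out (fun q : ℝ × ℝ => C q.1 q.2) (fun q y => B q.1 (q.2, y))

theorem exists_sdata (hn : 0 < n) {B : ℝ → ℝ × ℝ → SympCt n}
    (hs : ContDiff ℝ ∞ (fun q : ℝ × (ℝ × ℝ) × E n => (B q.1 q.2.1).map q.2.2))
    {K₀ : Set ((ℝ × ℝ) × E n)} (hK₀ : IsCompact K₀)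
    (hoff : ∀ s q, q ∉ K₀ → (B s q.1).map q.2 = q.2) {β : ℝ → ℝ → ℝ} {R₀ : ℝ}
    (hβ : BetaFam β R₀) (R₁ : ℝ) : ∃ R K C, R₁ ≤ R ∧ SData B β R K C := by
  obtain ⟨R₂, hR₂, hRK⟩ := exists_radius hK₀
  set R := max (max R₀ (R₂ + 1)) R₁ with hR
  have hR2 : R₂ + 1 ≤ R := (le_max_right _ _).trans (le_max_left _ _)
  have hR0 : 0 < R := by linarith
  have hRR₀ : R₀ ≤ R := (le_max_left _ _).trans (le_max_left _ _)
  have hβ' : BetaFam β R := ⟨hβ.smooth, fun p x hx => hβ.left p x (by linarith),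
    fun p x hx => hβ.right p x (by linarith)⟩
  have hoff' : ∀ (τ s y : ℝ) (w : E n), (R₂ < |s| ∨ R₂ < |y| ∨ R₂ < ‖w‖) →
      (B τ (s, y)).map w = w := by
    intro τ s y w h
    refine hoff τ ((s, y), w) (hRK _ ?_)
    rw [Prod.norm_def, Prod.norm_def, lt_max_iff, lt_max_iff, or_assoc]
    exact h
  have hone : ∀ τ s y, R ≤ |s| → B τ (s, y) = 1 := fun τ s y h =>
    map_eq_one fun w => hoff' τ s y w (Or.inl (by linarith))
  have hb : BFam (fun (q : ℝ × ℝ) y => B q.1 (q.2, y)) R := by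
    refine ⟨?_, fun p y w h => hoff' _ _ _ _ (Or.inr (h.imp (fun h => by linarith)
      (fun h => by linarith)))⟩
    have h3 : ContDiff ℝ ∞ (fun q : (ℝ × ℝ) × ℝ × E n =>
        ((q.1.1, (q.1.2, q.2.1), q.2.2) : ℝ × (ℝ × ℝ) × E n)) :=
      (contDiff_fst.comp contDiff_fst).prodMk
        (((contDiff_snd.comp contDiff_fst).prodMk (contDiff_fst.comp contDiff_snd)).prodMk
          (contDiff_snd.comp contDiff_snd))
    exact hs.comp h3
  obtain ⟨K, hK, hgen⟩ := exists_K hn hb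
    (fun p s s' y h h' => by
      show B p (s, y) = B p (s', y)
      rw [hone _ _ _ (h.trans (le_abs_self s)), hone _ _ _ (h'.trans (le_abs_self s'))])
    (fun p s s' y h h' => by
      show B p (s, y) = B p (s', y)
      rw [hone _ s _ (by linarith [neg_abs_le s]), hone _ s' _ (by linarith [neg_abs_le s'])])
  obtain ⟨C, hC, hCS, hCo⟩ := exists_C hR0 hK hβ' hgen (fun p y => by
    show B p (-R - 1, y) = 1
    refine hone _ _ _ ?_
    have := neg_abs_le (-R - 1)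
    linarith)
  rw [max_self] at hCS
  exact ⟨R, K, C, le_max_right _ _, hR0, hK, hgen, hβ', hone, hC, hCS, hCo⟩

theorem SData.susp {B : ℝ → ℝ × ℝ → SympCt n} {β : ℝ → ℝ → ℝ} {R : ℝ}
    {K : ℝ → ℝ → ℝ → E n → ℝ} {C : ℝ → ℝ → E (n + 1) → E (n + 1)} (h : SData B β R K C) (τ : ℝ)
    {ψ : SympCt (n + 1)} (hψ : ∀ z, ψ.map z = C τ (R + 1) z) : IsSuspension (B τ) ψ := by
  refine ⟨K τ, β τ, C τ, R, h.kfam.smooth.comp (contDiff_const.prodMk contDiff_id),
    fun s y w hh => h.kfam.off τ s y w hh, fun s y w => h.gen τ s y w,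
    h.beta.smooth.comp (contDiff_const.prodMk contDiff_id), h.beta.left τ, h.beta.right τ,
    fun s z => h.td.deriv τ s z, fun z => ?_, fun z => ?_⟩
  · filter_upwards [eventually_lt_atBot (-R)] with s hs
    exact C_early h.kfam h.td τ z hs
  · filter_upwards [eventually_gt_atTop R] with s hs
    rw [C_late h.kfam h.td τ z hs, hψ]

/-- `ψ` is determined by `b` and `β` -/
theorem SData.unique (hn : 0 < n) {B : ℝ → ℝ × ℝ → SympCt n} {β : ℝ → ℝ → ℝ} {R : ℝ}
    {K : ℝ → ℝ → ℝ → E n → ℝ} {C : ℝ → ℝ → E (n + 1) → E (n + 1)} (h : SData B β R K C) (τ : ℝ)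
    {K₁ : ℝ → ℝ → E n → ℝ} {C₁ : ℝ → E (n + 1) → E (n + 1)} {R₁ : ℝ}
    (hK₁ : ContDiff ℝ ∞ (fun q : ℝ × ℝ × E n => K₁ q.1 q.2.1 q.2.2))
    (hK₁off : ∀ s y w, (R₁ < |s| ∨ R₁ < |y| ∨ R₁ < ‖w‖) → K₁ s y w = 0)
    (hgen : ∀ s y w, HasDerivAt (fun s => (B τ (s, y)).map w)
      (ham (K₁ s y) ((B τ (s, y)).map w)) s)
    (hC₁ : ∀ s z, HasDerivAt (fun s => C₁ s z)
      (ham (fun z => β τ (cX z) * K₁ s (cY z) (tl z)) (C₁ s z)) s)
    (hbot : ∀ z, ∀ᶠ s in atBot, C₁ s z = z) {ψ : SympCt (n + 1)}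
    (htop : ∀ z, ∀ᶠ s in atTop, C₁ s z = ψ.map z) (z : E (n + 1)) :
    ψ.map z = C τ (R + 1) z := by
  have hKK : ∀ s y, K₁ s y = K τ s y := by
    intro s y
    have hd1 : ContDiff ℝ ∞ (K₁ s y) :=
      hK₁.comp (contDiff_const.prodMk (contDiff_const.prodMk contDiff_id))
    have hd2 : ContDiff ℝ ∞ (K τ s y) := h.kfam.smooth.comp
      (contDiff_const.prodMk (contDiff_const.prodMk (contDiff_const.prodMk contDiff_id)))
    have h1 : ∀ w, ham (K₁ s y) w = ham (K τ s y) w := by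
      intro w
      have h2 := (hgen s y ((B τ (s, y))⁻¹.map w)).unique (h.gen τ s y ((B τ (s, y))⁻¹.map w))
      rw [map_inv_map] at h2
      exact h2
    have h5 : ∀ w, fderiv ℝ (fun w => K₁ s y w - K τ s y w) w = 0 := by
      intro w
      rw [fderiv_fun_sub (hd1.differentiable (by simp) w) (hd2.differentiable (by simp) w)]
      refine ContinuousLinearMap.ext fun v => ?_
      show fderiv ℝ (K₁ s y) w v - fderiv ℝ (K τ s y) w v = 0
      rw [← omega_ham, ← omega_ham, h1, sub_self]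
    obtain ⟨w₁, hw₁⟩ := exists_far hn (max R R₁)
    ext w
    have h6 := is_const_of_fderiv_eq_zero (𝕜 := ℝ)
      ((hd1.sub hd2).differentiable (by simp)) h5 w w₁
    have h7 : K₁ s y w - K τ s y w = K₁ s y w₁ - K τ s y w₁ := h6
    rw [hK₁off s y w₁ (Or.inr (Or.inr ((le_max_right _ _).trans_lt hw₁))),
      h.kfam.off τ s y w₁ (Or.inr (Or.inr ((le_max_left _ _).trans_lt hw₁))), sub_self] at h7
    linarith
  obtain ⟨s₀, hs₀, hs₀'⟩ := ((hbot z).and (eventually_lt_atBot (-R))).exists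
  have hFp : ContDiff ℝ ∞ (fun q : ℝ × E (n + 1) => ham (cut β K τ q.1) q.2) :=
    (ham_smooth_param (L := fun q : ℝ × ℝ => cut β K q.1 q.2)
      (cut_smooth h.kfam h.beta)).comp ((contDiff_const.prodMk contDiff_fst).prodMk contDiff_snd)
  have h1 := td_uniq hFp (t₀ := s₀) (γ₁ := fun s => C₁ s z) (fun s => by
    have h2 := hC₁ s z
    have h3 : (fun z => β τ (cX z) * K₁ s (cY z) (tl z)) = cut β K τ s := by
      ext z
      rw [hKK]
      rfl
    rw [h3] at h2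
    exact h2) (fun s => h.td.deriv τ s z) (by
      show C₁ s₀ z = C τ s₀ z
      rw [hs₀, C_early h.kfam h.td τ z hs₀'])
  obtain ⟨s₁, hs₁, hs₁'⟩ := ((htop z).and (eventually_gt_atTop R)).exists
  rw [← hs₁, ← C_late h.kfam h.td τ z hs₁']
  exact h1 s₁

/-- the maps given by the flows -/
theorem SData.path (hn : 0 < n) {B : ℝ → ℝ × ℝ → SympCt n} {β : ℝ → ℝ → ℝ} {R : ℝ}
    {K : ℝ → ℝ → ℝ → E n → ℝ} {C : ℝ → ℝ → E (n + 1) → E (n + 1)} (h : SData B β R K C) :
    ∃ θ : ℝ → SympCt (n + 1), (∀ s z, (θ s).map z = C (et s) (R + 1) z) ∧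
      SmoothIsotopic (θ 0) (θ 1) := by
  let σ : ℝ → ℝ × ℝ := fun s => (et s, R + 1)
  have hσ : ContDiff ℝ ∞ σ := et_smooth.prodMk contDiff_const
  obtain ⟨θ, K', hK', h1, h2, h3⟩ := exists_symp_path hn h.sc h.out hσ
    (isCompact_Icc.prod (isCompact_singleton (x := R + 1))) (fun s => ⟨et_mem s, rfl⟩)
    (fun s y => h.one _ _ _ (by
      show R ≤ |R + 1|
      linarith [le_abs_self (R + 1)]))
  exact ⟨θ, h3, K', hK', θ, h1, h2, rfl, rfl⟩

theorem fam_const {P : Type} [NormedAddCommGroup P] [NormedSpace ℝ P] {b : P → SympCt n}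
    (hb : Fam b) : ∃ K₀ : Set (P × E n), IsCompact K₀ ∧
      ContDiff ℝ ∞ (fun q : ℝ × P × E n => ((fun _ : ℝ => b) q.1 q.2.1).map q.2.2) ∧
      ∀ (s : ℝ) (q : P × E n), q ∉ K₀ → ((fun _ : ℝ => b) s q.1).map q.2 = q.2 := by
  obtain ⟨K₀, hK₀, hoff⟩ := hb.supp
  exact ⟨K₀, hK₀, hb.smooth.comp contDiff_snd, fun _ => hoff⟩

/-- each sphere family has a suspension -/
theorem susp_exists (hn : 0 < n) {b : ℝ × ℝ → SympCt n} (hb : Fam b) :
    ∃ ψ, IsSuspension b ψ := by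
  obtain ⟨K₀, hK₀, hs, hoff⟩ := fam_const hb
  obtain ⟨R, K, C, -, h⟩ := exists_sdata hn hs hK₀ hoff (betaFam_et (P := ℝ)) 1
  obtain ⟨θ, hθ, -⟩ := h.path hn
  exact ⟨θ 0, h.susp (et 0) (hθ 0)⟩

/-- homotopic sphere families have isotopic suspensions -/
theorem susp_joined (hn : 0 < n) {b b' : ℝ × ℝ → SympCt n} (h : Htp b b')
    {ψ ψ' : SympCt (n + 1)} (hψ : IsSuspension b ψ) (hψ' : IsSuspension b' ψ') :
    SmoothIsotopic ψ ψ' := by
  obtain ⟨B, K₀, hK₀, hs, hoff, hB0, hB1⟩ := h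
  obtain ⟨K₁, β₁, C₁, R₁, a1, a2, a3, a4, a5, a6, a7, a8, a9⟩ := hψ
  obtain ⟨K₂, β₂, C₂, R₂, c1, c2, c3, c4, c5, c6, c7, c8, c9⟩ := hψ'
  let β : ℝ → ℝ → ℝ := fun τ x => (1 - τ) * β₁ x + τ * β₂ x
  have hβ : BetaFam β (max R₁ R₂) := by
    refine ⟨?_, fun τ x hx => ?_, fun τ x hx => ?_⟩
    · exact ((contDiff_const.sub contDiff_fst).mul (a4.comp contDiff_snd)).add
        (contDiff_fst.mul (c4.comp contDiff_snd))
    · show (1 - τ) * β₁ x + τ * β₂ x = 0
      rw [a5 x (by linarith [le_max_left R₁ R₂]), c5 x (by linarith [le_max_right R₁ R₂])]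
      ring
    · show (1 - τ) * β₁ x + τ * β₂ x = 1
      rw [a6 x (by linarith [le_max_left R₁ R₂]), c6 x (by linarith [le_max_right R₁ R₂])]
      ring
  obtain ⟨R, K, C, -, hd⟩ := exists_sdata hn hs hK₀ hoff hβ 1
  obtain ⟨θ, hθ, hiso⟩ := hd.path hn
  have hβ0 : β 0 = β₁ := by ext x; show (1 - 0) * β₁ x + 0 * β₂ x = _; ring
  have hβ1 : β 1 = β₂ := by ext x; show (1 - 1) * β₁ x + 1 * β₂ x = _; ring
  have e0 : θ 0 = ψ := by
    refine ext_map fun z => ?_
    rw [hθ, et_zero le_rfl]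
    refine (hd.unique hn 0 a1 a2 ?_ ?_ a8 a9 z).symm
    · rw [hB0]; exact a3
    · rw [hβ0]; exact a7
  have e1 : θ 1 = ψ' := by
    refine ext_map fun z => ?_
    rw [hθ, et_one le_rfl]
    refine (hd.unique hn 1 c1 c2 ?_ ?_ c8 c9 z).symm
    · rw [hB1]; exact c3
    · rw [hβ1]; exact c7
  rwa [e0, e1] at hiso

/-- the kernel of `π₀(G_{n+1}) → π₀(T)` consists of suspensions -/
theorem susp_of_deform (hn : 0 < n) (φ : SympCt (n + 1))
    (h : Deform (cY : E (n + 1) → ℝ) (fun z => cY (φ⁻¹.map z))) :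
    ∃ (b : ℝ × ℝ → SympCt n) (ψ : SympCt (n + 1)), Fam b ∧ IsSuspension b ψ ∧
      SmoothIsotopic φ ψ := by
  obtain ⟨L, R₀, hL, h0, h1⟩ := deform_tfam h
  obtain ⟨W, hW, hLW⟩ := hL.exists_wave
  obtain ⟨c, hc, hco⟩ := hW.exists_out
  have hc0 : ∀ s, s ≤ 0 → c s = 1 := by
    intro s hs
    have h2 := scat_of hW hco (hL.slice s) s (hLW s)
    rw [h0 s hs] at h2
    exact scat_unique nt_cY h2 scat_cY
  have hc1 : ∀ s, 1 ≤ s → c s = 1 := by
    intro s hs
    have h2 := scat_of hW hco (hL.slice s) s (hLW s)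
    rw [h1 s hs] at h2
    exact scat_unique (nt_comp nt_cY φ⁻¹) h2 (scat_comp nt_cY scat_cY φ⁻¹)
  let b : ℝ × ℝ → SympCt n := fun q => c q.1 q.2
  have hb : Fam b := by
    refine ⟨?_, ⟨(Icc 0 1 ×ˢ Icc (-R₀) R₀) ×ˢ closedBall 0 R₀,
      (isCompact_Icc.prod isCompact_Icc).prod (isCompact_closedBall _ _), fun q hq => ?_⟩⟩
    · exact hc.smooth.comp ((contDiff_fst.comp contDiff_fst).prodMk
        ((contDiff_snd.comp contDiff_fst).prodMk contDiff_snd))
    · show (c q.1.1 q.1.2).map q.2 = q.2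
      rw [mem_prod, mem_prod, not_and_or, not_and_or, mem_closedBall_zero_iff, not_le] at hq
      rcases hq with (hq | hq) | hq
      · rw [mem_Icc, not_and_or, not_le, not_le] at hq
        rcases hq with hq | hq
        · rw [hc0 _ hq.le]; rfl
        · rw [hc1 _ hq.le]; rfl
      · refine hc.off _ _ _ (Or.inl ?_)
        by_contra hcon
        exact hq (abs_le.1 (not_lt.1 hcon))
      · exact hc.off _ _ _ (Or.inr hq)
  obtain ⟨K₀, hK₀, hs, hoff⟩ := fam_const hb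
  obtain ⟨R, K, C, hR1, hd⟩ := exists_sdata hn hs hK₀ hoff (betaFam_et (P := ℝ)) 1
  obtain ⟨θ', hθ', -⟩ := hd.path hn
  refine ⟨b, θ' 0, hb, hd.susp (et 0) (hθ' 0), ?_⟩
  have hR0 := hd.pos
  -- compare with the wave maps
  have hW2 : Sc (fun q : ℝ × ℝ => W q.2) R₀ := hW.pull contDiff_snd
  have hW2o : Out (fun q : ℝ × ℝ => W q.2) (fun q => c q.2) := hco.pull contDiff_snd
  let σ : ℝ → ℝ × ℝ := fun s => (0, tm R s)
  have hσ : ContDiff ℝ ∞ σ := contDiff_const.prodMk (tm_smooth R)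
  obtain ⟨θ, K', hK', k1, k2, k3⟩ := exists_quot_path hn hW2 hd.sc hW2o hd.out hσ
    (isCompact_singleton.prod isCompact_Icc) (fun s => ⟨rfl, tm_mem hR0 s⟩)
  have e0 : θ 0 = 1 := by
    refine map_eq_one fun z => ?_
    have h2 := k3 0 z
    have h3 : C (σ 0).1 (σ 0).2 ((θ 0).map z) = (θ 0).map z := by
      show C 0 (tm R 0) _ = _
      rw [tm_zero]
      exact hd.td.zero _ _
    rw [h3] at h2
    rw [h2]
    show W (tm R 0) z = z
    have h4 : L (tm R 0) = cY := h0 _ (by rw [tm_zero]; linarith)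
    refine wave_unique (hW.fam.slice _) (hW.fam.symp _) contDiff_id (fun z u v => ?_)
      (cY : E (n + 1) →L[ℝ] ℝ).contDiff (fun z => ?_) (fun z => rfl) (hW.left _)
      (R' := 0) (fun z _ => rfl) z
    · rw [fderiv_id]; rfl
    · have := hLW (tm R 0) z
      rwa [h4] at this
  have e1 : θ' 0 * θ 1 = φ := by
    refine ext_map fun z => ?_
    rw [mul_map, hθ', et_zero le_rfl]
    have h2 := k3 1 z
    have h3 : C (σ 1).1 (σ 1).2 ((θ 1).map z) = C 0 (R + 1) ((θ 1).map z) := by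
      show C 0 (tm R 1) _ = _
      rw [tm_one]
    rw [h3] at h2
    rw [h2]
    show W (tm R 1) z = φ.map z
    have h4 : L (tm R 1) = fun z => cY (φ⁻¹.map z) := h1 _ (by rw [tm_one]; linarith)
    obtain ⟨K₁, hK₁, hoff₁⟩ := φ.2.2
    obtain ⟨R₁, hR₁, hRK₁⟩ := exists_radius hK₁
    refine wave_unique (hW.fam.slice _) (hW.fam.symp _) (map_smooth φ) φ.2.1.form
      (L := fun z => cY (φ⁻¹.map z)) ?_ (fun z => ?_) (fun z => ?_) (hW.left _)
      (R' := R₁) (fun z hz => ?_) z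
    · exact (cY : E (n + 1) →L[ℝ] ℝ).contDiff.comp (map_smooth φ⁻¹)
    · have := hLW (tm R 1) z
      rwa [h4] at this
    · show cY (φ⁻¹.map (φ.map z)) = cY z
      rw [inv_map_map]
    · refine hoff₁ z (hRK₁ z (norm_gt_of_cX (lt_of_lt_of_le ?_ (neg_le_abs _))))
      linarith
  have h5 : SmoothIsotopic 1 (θ 1) := ⟨K', hK', θ, k1, k2, e0, rfl⟩
  have h6 := si_mul (si_refl (θ' 0)) h5
  rw [mul_one, e1] at h6
  exact si_symm h6

end Pool.Agent.H822.EX
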