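import Mathlib
import Pool.Agent.H822.EX.Sc

/-!
# Scattering families which are trivial off a compact set of parameters
-/

set_option autoImplicit false

open scoped ContDiff
open Set Filter Topology Function Metric
open Q170.SC Pool.Agent.H822.Ham Pool.Agent.H822.Pairs Pool.Agent.H822.PairsMain
open Pool.Agent.GR.Flow Pool.Agent.H822.Par Pool.Agent.Q191.SY

namespace Pool.Agent.H822.EX

variable {n : ℕ} {P P' : Type} [NormedAddCommGroup P] [NormedSpace ℝ P]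
  [NormedAddCommGroup P'] [NormedSpace ℝ P'] [FiniteDimensional ℝ P']
  {W W' : P → E (n + 1) → E (n + 1)} {R R' : ℝ}

/-- quotients of scattering families with the same outgoing family -/
theorem quot_path (hn : 0 < n) (h : Sc W R) (h' : Sc W' R') {b : P → ℝ → SympCt n} (hb : Out W b)
    (hb' : Out W' b) {σ : P' → P} (hσ : ContDiff ℝ ∞ σ) {Q : Set P} (hQ : IsCompact Q)
    (hσQ : ∀ s, σ s ∈ Q ∨ ∀ z, W (σ s) z = W' (σ s) z) :
    ∃ (θ : P' → SympCt (n + 1)) (K : Set (E (n + 1))), IsCompact K ∧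
      ContDiff ℝ ∞ (fun q : P' × E (n + 1) => (θ q.1).map q.2) ∧
      (∀ s, SuppIn K (θ s).perm) ∧ ∀ s z, W' (σ s) ((θ s).map z) = W (σ s) z := by
  obtain ⟨K, hK, hoff⟩ := h.agree_off hn h' hb hb' Q hQ
  obtain ⟨θ, h1, h2, h3⟩ := exists_quot (h.fam.pull hσ) (h'.fam.pull hσ) hK
    (fun s z hz => (hσQ s).elim (fun hs => hoff (σ s) hs z hz) (fun hs => hs z))
  exact ⟨θ, K, hK, h1, h2, h3⟩

/-- compactly supported families from scattering families with trivial outgoing family -/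
theorem symp_path (hn : 0 < n) (h : Sc W R) {b : P → ℝ → SympCt n} (hb : Out W b)
    {σ : P' → P} (hσ : ContDiff ℝ ∞ σ) {Q : Set P} (hQ : IsCompact Q)
    (hσQ : ∀ s, σ s ∈ Q ∨ ∀ z, W (σ s) z = z) (h1 : ∀ s y, b (σ s) y = 1) :
    ∃ (θ : P' → SympCt (n + 1)) (K : Set (E (n + 1))), IsCompact K ∧
      ContDiff ℝ ∞ (fun q : P' × E (n + 1) => (θ q.1).map q.2) ∧
      (∀ s, SuppIn K (θ s).perm) ∧ ∀ s z, (θ s).map z = W (σ s) z := by
  obtain ⟨M, hM⟩ := hb Q hQ
  have h2 := h.pull hσ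
  obtain ⟨M', hM'⟩ := h.out Q hQ
  have key : ∃ K : Set (E (n + 1)), IsCompact K ∧ ∀ s z, z ∉ K → W (σ s) z = z := by
    have hb' : Out (fun q : P' => W (σ q)) (fun q => b (σ q)) := hb.pull hσ
    have e1 : (fun q => b (σ q)) = fun (_ : P') (_ : ℝ) => (1 : SympCt n) := by
      ext1 q; ext1 y; exact h1 q y
    rw [e1] at hb'
    refine ⟨_, compact_tube (n := n) (-R) (max M M' + 1) R, fun s z hz => ?_⟩
    rcases hσQ s with hs | hs
    swap
    · exact hs z
    by_cases h3 : cX z < -R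
    · exact h.left _ _ h3
    by_cases h4 : R < |cY z| ∨ R < ‖tl z‖
    · exact h.tube _ _ h4
    rw [not_or, not_lt, not_lt] at h4
    have h5 : max M M' + 1 < cX z := by
      by_contra h5
      exact hz ⟨not_lt.1 h3, not_lt.1 h5, h4.1, h4.2⟩
    obtain ⟨N, hN⟩ := h2.agree hn (Sc.id (n := n) h.pos) hb' Out.id {s} isCompact_singleton
    set r := |N| + |cX z| with hr
    have hr0 : 0 ≤ r := by positivity
    have h6 := (hM' (σ s) hs z (by linarith [le_max_right M M'])).2 r hr0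
    have h7 := hN s rfl (z + r • e0) (by
      simp only [map_add, map_smul, cX_e0, smul_eq_mul, mul_one]
      linarith [le_abs_self N, neg_abs_le (cX z)])
    have h8 : W (σ s) (z + r • e0) = z + r • e0 := h7
    rw [h8] at h6
    exact (add_right_cancel h6).symm
  obtain ⟨K, hK, hoff⟩ := key
  obtain ⟨θ, k1, k2, k3⟩ := exists_quot h2.fam (Sc.id (n := n) (P := P') h.pos).fam hK hoff
  exact ⟨θ, K, hK, k1, k2, k3⟩

/-- the functions `Y ∘ W⁻¹` -/
theorem Sc.tfam_path (h : Sc W R) {σ : P' → P} (hσ : ContDiff ℝ ∞ σ)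
    {Q : Set P} (hQ : IsCompact Q) (hσQ : ∀ s, σ s ∈ Q ∨ ∀ z, W (σ s) z = z) :
    ∃ (L : P' → E (n + 1) → ℝ) (R' : ℝ), TFam L R' ∧ ∀ s z, L s (W (σ s) z) = cY z := by
  obtain ⟨Ψ, hΨ, h1, h2⟩ := (h.fam.pull hσ).exists_inv
  obtain ⟨M, hM⟩ := h.out Q hQ
  obtain ⟨c, hc⟩ := ((hQ.prod (compact_tube (n := n) (-R) M R)).image
    h.fam.smooth.continuous).isBounded.exists_norm_le
  have hL : ContDiff ℝ ∞ (fun q : P' × E (n + 1) => cY (Ψ q.1 q.2)) :=
    (cY : E (n + 1) →L[ℝ] ℝ).contDiff.comp hΨ.smooth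
  have hLs : ∀ s, ContDiff ℝ ∞ (fun z => cY (Ψ s z)) := fun s =>
    hL.comp (contDiff_const.prodMk contDiff_id)
  have hLW : ∀ s z, cY (Ψ s (W (σ s) z)) = cY z := fun s z => by rw [h1]
  refine ⟨fun s z => cY (Ψ s z), |c| + 1, ⟨by positivity, hL, fun s z hz => ?_,
    fun s γ hγ hb => ?_⟩, hLW⟩
  · show cY (Ψ s z) = cY z
    obtain ⟨ζ, hζ⟩ : ∃ ζ, W (σ s) ζ = z := ⟨Ψ s z, h2 s z⟩
    rw [← hζ, hLW]
    rcases hσQ s with hs | hs
    swap
    · rw [hs]
    by_cases h3 : cX ζ < -R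
    · rw [h.left _ _ h3]
    by_cases h4 : R < |cY ζ| ∨ R < ‖tl ζ‖
    · rw [h.tube _ _ h4]
    rw [not_or, not_lt, not_lt] at h4
    by_cases h5 : M ≤ cX ζ
    · exact (hM (σ s) hs ζ h5).1.symm
    exfalso
    have h6 : ‖W (σ s) ζ‖ ≤ c :=
      hc _ ⟨(σ s, ζ), ⟨hs, not_lt.1 h3, (not_le.1 h5).le, h4.1, h4.2⟩, rfl⟩
    rw [hζ] at h6
    linarith [le_abs_self c]
  · -- no bounded orbits
    have h3 : ∀ t, γ t = W (σ s) (Ψ s (γ 0) + t • e0) := by
      intro t
      refine unique_all (ham_smooth (hLs s)) hγ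
        (line_orbit (h.fam.slice (σ s)) (h.fam.symp (σ s)) (hLs s) (hLW s) (Ψ s (γ 0)))
        (t₀ := 0) ?_ t
      rw [zero_smul, add_zero]
      exact (h2 s (γ 0)).symm
    obtain ⟨B, hB⟩ := hb.exists_norm_le
    set ζ := Ψ s (γ 0)
    set t := -(|cX ζ| + |B| + R + 1) with ht
    have hR := h.pos
    have h4 : cX (ζ + t • e0) < -R := by
      simp only [map_add, map_smul, cX_e0, smul_eq_mul, mul_one]
      linarith [le_abs_self (cX ζ), abs_nonneg B]
    have h5 : γ t = ζ + t • e0 := by rw [h3, h.left _ _ h4]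
    have h6 := hB _ ⟨t, rfl⟩
    rw [h5] at h6
    have h7 := (abs_cX_le (ζ + t • e0)).trans h6
    have h8 := neg_abs_le (cX (ζ + t • e0))
    simp only [map_add, map_smul, cX_e0, smul_eq_mul, mul_one] at h7 h8
    linarith [le_abs_self (cX ζ), le_abs_self B]

/-- two scattering families with the same outgoing family differ by a family in `G_{n+1}` -/
theorem between (hn : 0 < n) {V V' : P' → E (n + 1) → E (n + 1)} (hV : Sc V R)
    (hV' : Sc V' R') {b : P' → ℝ → SympCt n} (hb : Out V b) (hb' : Out V' b) {Q : Set P'}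
    (hQ : IsCompact Q) (hoffQ : ∀ p, p ∉ Q → ∀ z, V p z = V' p z) :
    ∃ (φ : P' → SympCt (n + 1)) (K : Set (E (n + 1))), IsCompact K ∧
      ContDiff ℝ ∞ (fun q : P' × E (n + 1) => (φ q.1).map q.2) ∧
      (∀ s, SuppIn K (φ s).perm) ∧ ∀ p z, (φ p).map (V p z) = V' p z := by
  obtain ⟨K, hK, hoff⟩ := hV.agree_off hn hV' hb hb' Q hQ
  obtain ⟨Ψ, hΨ, h1, h2⟩ := hV.fam.exists_inv
  obtain ⟨Ψ', hΨ', h1', h2'⟩ := hV'.fam.exists_inv
  obtain ⟨θ, k1, k2, k3⟩ := exists_quot hΨ hΨ' ((hQ.prod hK).image hV.fam.smooth.continuous)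
    (fun s z hz => by
      have h4 : V' s (Ψ s z) = z := by
        by_cases hs : s ∈ Q
        · have h3 : Ψ s z ∉ K := fun hmem => hz ⟨(s, Ψ s z), ⟨hs, hmem⟩, h2 s z⟩
          rw [← hoff s hs _ h3]
          exact h2 s z
        · rw [← hoffQ s hs]
          exact h2 s z
      have h5 := h1' s (Ψ s z)
      rw [h4] at h5
      exact h5.symm)
  refine ⟨θ, _, (hQ.prod hK).image hV.fam.smooth.continuous, k1, k2, fun p z => ?_⟩
  have h3 := k3 p (V p z)
  rw [h1] at h3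
  have h4 := h2' p ((θ p).map (V p z))
  rw [h3] at h4
  exact h4.symm

end Pool.Agent.H822.EX
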