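import Mathlib
import Pool.Agent.H822.EX.DefsP
import Pool.Agent.H822.EX.Sc2
import Pool.Agent.H822.EX.Main1

/-!
# The long exact sequence
-/

set_option autoImplicit false

open scoped ContDiff
open Set Filter Topology Function Metric
open Q170.SC Pool.Agent.H822.Ham Pool.Agent.H822.Pairs Pool.Agent.H822.PairsMain
open Pool.Agent.GR.Flow Pool.Agent.H822.Par Pool.Agent.Q191.SY

namespace Pool.Agent.H822.EX

variable {n : ℕ}

open Td (et et_smooth et_zero et_one)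

section fam

variable {m : ℕ} {P : Type} [NormedAddCommGroup P] [NormedSpace ℝ P]

theorem pair_radius {V W : Type} [NormedAddCommGroup V] [NormedAddCommGroup W] {K : Set (V × W)}
    (hK : IsCompact K) :
    ∃ R : ℝ, 0 < R ∧ ∀ p w, (R < ‖p‖ ∨ R < ‖w‖) → (p, w) ∉ K := by
  obtain ⟨R, hR, h⟩ := exists_radius hK
  refine ⟨R, hR, fun p w hpw => h _ ?_⟩
  rw [Prod.norm_def]
  exact lt_max_iff.2 hpw

theorem fam_of [FiniteDimensional ℝ P] {φ : P → SympCt m}
    (hs : ContDiff ℝ ∞ (fun q : P × E m => (φ q.1).map q.2))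
    {K : Set (E m)} (hK : IsCompact K) (hoff : ∀ p, SuppIn K (φ p).perm) {R : ℝ}
    (h1 : ∀ p, R < ‖p‖ → φ p = 1) : Fam φ := by
  have : ProperSpace P := FiniteDimensional.proper_real P
  refine ⟨hs, ⟨closedBall 0 R ×ˢ K, (isCompact_closedBall _ _).prod hK, fun q hq => ?_⟩⟩
  rw [mem_prod, not_and_or, mem_closedBall_zero_iff, not_le] at hq
  rcases hq with hq | hq
  · rw [h1 _ hq]
    rfl
  · exact hoff q.1 q.2 hq

theorem htp_of [FiniteDimensional ℝ P] {θ : ℝ × P → SympCt m}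
    (hs : ContDiff ℝ ∞ (fun q : (ℝ × P) × E m => (θ q.1).map q.2))
    {K : Set (E m)} (hK : IsCompact K) (hoff : ∀ p, SuppIn K (θ p).perm) {R : ℝ}
    (h1 : ∀ s p, R < ‖p‖ → θ (s, p) = 1) : Htp (fun p => θ (0, p)) (fun p => θ (1, p)) := by
  have : ProperSpace P := FiniteDimensional.proper_real P
  refine ⟨fun s p => θ (s, p), closedBall 0 R ×ˢ K, (isCompact_closedBall _ _).prod hK, ?_,
    fun s q hq => ?_, rfl, rfl⟩
  · exact hs.comp ((contDiff_fst.prodMk (contDiff_fst.comp contDiff_snd)).prodMk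
      (contDiff_snd.comp contDiff_snd))
  · rw [mem_prod, not_and_or, mem_closedBall_zero_iff, not_le] at hq
    rcases hq with hq | hq
    · show (θ (s, q.1)).map q.2 = q.2
      rw [h1 _ _ hq]
      rfl
    · exact hoff (s, q.1) q.2 hq

theorem fam_radius {φ : P → SympCt m} (h : Fam φ) : ∃ R : ℝ, 0 < R ∧
    (∀ p z, R < ‖z‖ → (φ p).map z = z) ∧ ∀ p, R < ‖p‖ → φ p = 1 := by
  obtain ⟨K, hK, hoff⟩ := h.supp
  obtain ⟨R, hR, hRK⟩ := pair_radius hK
  exact ⟨R, hR, fun p z hz => hoff (p, z) (hRK p z (Or.inr hz)), fun p hp =>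
    map_eq_one fun z => hoff (p, z) (hRK p z (Or.inl hp))⟩

theorem inv_smooth {P' : Type} [NormedAddCommGroup P'] [NormedSpace ℝ P']
    [FiniteDimensional ℝ P'] {φ : P' → SympCt m}
    (hs : ContDiff ℝ ∞ (fun q : P' × E m => (φ q.1).map q.2)) :
    ContDiff ℝ ∞ (fun q : P' × E m => ((φ q.1)⁻¹).map q.2) := by
  have hΦ : SFam (fun (q : P') (w : E m) => (φ q).map w) :=
    ⟨hs, fun q z u v => (φ q).2.1.form z u v, fun q => (φ q).perm.bijective⟩
  obtain ⟨Ψ, hΨ, h1, h2⟩ := hΦ.exists_inv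
  have h3 : (fun q : P' × E m => ((φ q.1)⁻¹).map q.2) = fun q => Ψ q.1 q.2 := by
    ext1 q
    have h4 := h1 q.1 ((φ q.1)⁻¹.map q.2)
    have h5 : (φ q.1).map ((φ q.1)⁻¹.map q.2) = q.2 := map_inv_map _ _
    rw [h5] at h4
    exact h4.symm
  rw [h3]
  exact hΨ.smooth

theorem htp_symm {φ ψ : P → SympCt m} (h : Htp φ ψ) : Htp ψ φ := by
  obtain ⟨B, K, hK, h1, h2, h3, h4⟩ := h
  refine ⟨fun s => B (1 - s), K, hK, ?_, fun s => h2 _, by simpa using h4, by simpa using h3⟩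
  exact h1.comp ((contDiff_const.sub contDiff_fst).prodMk contDiff_snd)

theorem htp_fam_left {φ ψ : P → SympCt m} (h : Htp φ ψ) : Fam φ := by
  obtain ⟨B, K, hK, h1, h2, h3, h4⟩ := h
  rw [← h3]
  exact ⟨h1.comp ((contDiff_const (c := (0 : ℝ))).prodMk contDiff_id), K, hK, h2 0⟩

theorem htp_refl {φ : P → SympCt m} (h : Fam φ) : Htp φ φ := by
  obtain ⟨K, hK, hoff⟩ := h.supp
  exact ⟨fun _ => φ, K, hK, h.smooth.comp contDiff_snd, fun _ => hoff, rfl, rfl⟩

theorem htp_mul {φ ψ φ' ψ' : P → SympCt m} (h : Htp φ ψ) (h' : Htp φ' ψ') :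
    Htp (fun p => φ p * φ' p) (fun p => ψ p * ψ' p) := by
  obtain ⟨B, K, hK, h1, h2, h3, h4⟩ := h
  obtain ⟨B', K', hK', h1', h2', h3', h4'⟩ := h'
  refine ⟨fun s p => B s p * B' s p, K ∪ K', hK.union hK', ?_, fun s q hq => ?_, ?_, ?_⟩
  · exact h1.comp (contDiff_fst.prodMk ((contDiff_fst.comp contDiff_snd).prodMk h1'))
  · rw [mul_map, h2' s q (fun h => hq (Or.inr h)), h2 s q (fun h => hq (Or.inl h))]
  · show (fun p => B 0 p * B' 0 p) = _
    rw [h3, h3']
  · show (fun p => B 1 p * B' 1 p) = _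
    rw [h4, h4']

theorem htp_inv [FiniteDimensional ℝ P] {φ ψ : P → SympCt m} (h : Htp φ ψ) :
    Htp (fun p => (φ p)⁻¹) (fun p => (ψ p)⁻¹) := by
  obtain ⟨B, K, hK, h1, h2, h3, h4⟩ := h
  refine ⟨fun s p => (B s p)⁻¹, K, hK, ?_, fun s q hq => ?_, ?_, ?_⟩
  · have h5 : ContDiff ℝ ∞ (fun q : (ℝ × P) × E m => ((fun r : ℝ × P => B r.1 r.2) q.1).map q.2) :=
      h1.comp ((contDiff_fst.comp contDiff_fst).prodMk
        ((contDiff_snd.comp contDiff_fst).prodMk contDiff_snd))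
    exact (inv_smooth (φ := fun r : ℝ × P => B r.1 r.2) h5).comp
      ((contDiff_fst.prodMk (contDiff_fst.comp contDiff_snd)).prodMk
        (contDiff_snd.comp contDiff_snd))
  · have h5 := h2 s q hq
    have h6 := inv_map_map (B s q.1) q.2
    rwa [h5] at h6
  · show (fun p => (B 0 p)⁻¹) = _
    rw [h3]
  · show (fun p => (B 1 p)⁻¹) = _
    rw [h4]

theorem htp_trans [FiniteDimensional ℝ P] {φ ψ χ : P → SympCt m} (h : Htp φ ψ) (h' : Htp ψ χ) :
    Htp φ χ := by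
  have h3 := htp_mul (htp_mul h (htp_inv (htp_refl (htp_fam_left h')))) h'
  simpa using h3

theorem htp_fam_right {φ ψ : P → SympCt m} (h : Htp φ ψ) : Fam ψ := htp_fam_left (htp_symm h)

end fam

section tmap

variable {P : Type} [NormedAddCommGroup P] [NormedSpace ℝ P]

theorem tmap_tfam {L : P → E (n + 1) → ℝ} (h : TMap L) (R₁ : ℝ) :
    ∃ R : ℝ, R₁ ≤ R ∧ TFam L R ∧ ∀ p, R < ‖p‖ → L p = cY := by
  obtain ⟨K, hK, hoff⟩ := h.supp
  obtain ⟨R, hR, hRK⟩ := pair_radius hK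
  refine ⟨max R R₁, le_max_right _ _, ⟨lt_max_of_lt_left hR, h.smooth, fun p z hz =>
    hoff (p, z) (hRK p z (Or.inr ((le_max_left _ _).trans_lt hz))),
    fun p => (h.nt p).trapless⟩, fun p hp => ?_⟩
  ext z
  exact hoff (p, z) (hRK p z (Or.inl ((le_max_left _ _).trans_lt hp)))

theorem tfam_tmap [FiniteDimensional ℝ P] {L : P → E (n + 1) → ℝ} {R R₁ : ℝ} (h : TFam L R)
    (h1 : ∀ p, R₁ < ‖p‖ → L p = cY) : TMap L := by
  have : ProperSpace P := FiniteDimensional.proper_real P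
  refine ⟨h.smooth, ⟨closedBall 0 R₁ ×ˢ closedBall 0 R,
    (isCompact_closedBall _ _).prod (isCompact_closedBall _ _), fun q hq => ?_⟩,
    fun p => tfam_nt h p⟩
  rw [mem_prod, not_and_or, mem_closedBall_zero_iff, mem_closedBall_zero_iff, not_le,
    not_le] at hq
  rcases hq with hq | hq
  · rw [h1 _ hq]
  · exact h.off _ _ hq

theorem thtp_tfam {L L' : P → E (n + 1) → ℝ} (h : THtp L L') :
    ∃ (F : ℝ × P → E (n + 1) → ℝ) (R : ℝ), TFam F R ∧
      (∀ s p, R < ‖p‖ → F (s, p) = cY) ∧ (∀ s p, s ≤ 0 → F (s, p) = L p) ∧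
      ∀ s p, 1 ≤ s → F (s, p) = L' p := by
  obtain ⟨F, K, hK, h1, h2, h3, h4, h5⟩ := h
  obtain ⟨R, hR, hRK⟩ := pair_radius hK
  refine ⟨fun q => F (et q.1) q.2, R, ⟨hR, ?_, fun q z hz => h2 _ (q.2, z)
    (hRK _ _ (Or.inr hz)), fun q => (h3 (et q.1) q.2).trapless⟩, fun s p hp => ?_,
    fun s p hs => ?_, fun s p hs => ?_⟩
  · exact h1.comp ((et_smooth.comp (contDiff_fst.comp contDiff_fst)).prodMk
      ((contDiff_snd.comp contDiff_fst).prodMk contDiff_snd))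
  · ext z
    exact h2 _ (p, z) (hRK _ _ (Or.inl hp))
  · show F (et s) p = _
    rw [et_zero hs, h4]
  · show F (et s) p = _
    rw [et_one hs, h5]

theorem tfam_thtp [FiniteDimensional ℝ P] {F : ℝ × P → E (n + 1) → ℝ} {R R₁ : ℝ}
    (h : TFam F R) (h1 : ∀ s p, R₁ < ‖p‖ → F (s, p) = cY) :
    THtp (fun p => F (0, p)) (fun p => F (1, p)) := by
  have : ProperSpace P := FiniteDimensional.proper_real P
  refine ⟨fun s p => F (s, p), closedBall 0 R₁ ×ˢ closedBall 0 R,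
    (isCompact_closedBall _ _).prod (isCompact_closedBall _ _), ?_, fun s q hq => ?_,
    fun s p => tfam_nt h _, rfl, rfl⟩
  · exact h.smooth.comp ((contDiff_fst.prodMk (contDiff_fst.comp contDiff_snd)).prodMk
      (contDiff_snd.comp contDiff_snd))
  · rw [mem_prod, not_and_or, mem_closedBall_zero_iff, mem_closedBall_zero_iff, not_le,
      not_le] at hq
    rcases hq with hq | hq
    · show F (s, q.1) q.2 = _
      rw [h1 _ _ hq]
    · exact h.off _ _ hq

/-- where `L p = Y` the wave map is the identity -/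
theorem wave_id {W : P → E (n + 1) → E (n + 1)} {R : ℝ} (h : Sc W R) (p : P)
    (hLW : ∀ z, cY (W p z) = cY z) (z : E (n + 1)) : W p z = z :=
  wave_unique (h.fam.slice p) (h.fam.symp p) contDiff_id (fun z u v => by rw [fderiv_id]; rfl)
    (cY : E (n + 1) →L[ℝ] ℝ).contDiff hLW (fun _ => rfl) (h.left p) (R' := 0) (fun _ _ => rfl) z

theorem scat_existsP [FiniteDimensional ℝ P] {L : P → E (n + 1) → ℝ} (h : TMap L) :
    ∃ b : P × ℝ → SympCt n, Fam b ∧ IsScat L b := by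
  obtain ⟨R, -, hL, h0⟩ := tmap_tfam h 1
  obtain ⟨W, hW, hLW⟩ := hL.exists_wave
  obtain ⟨c, hc, hco⟩ := hW.exists_out
  have hsc : ∀ p, IsScattering (L p) (c p) := fun p => scat_of hW hco (hL.slice p) p (hLW p)
  refine ⟨fun q => c q.1 q.2, ?_, hsc⟩
  refine fam_of (K := closedBall 0 R) (R := R) ?_ (isCompact_closedBall _ _) (fun q w hw => ?_)
    (fun q hq => ?_)
  · exact hc.smooth.comp ((contDiff_fst.comp contDiff_fst).prodMk
      ((contDiff_snd.comp contDiff_fst).prodMk contDiff_snd))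
  · refine hc.off q.1 q.2 w (Or.inr ?_)
    rwa [mem_closedBall_zero_iff, not_le] at hw
  · rw [Prod.norm_def, lt_max_iff] at hq
    rcases hq with hq | hq
    · have h1 := hsc q.1
      rw [h0 _ hq] at h1
      show c q.1 q.2 = 1
      rw [scat_unique nt_cY h1 scat_cY]
      rfl
    · exact map_eq_one fun w => hc.off q.1 q.2 w (Or.inl hq)

omit [NormedAddCommGroup P] [NormedSpace ℝ P] in
theorem scat_uniqueP {L : P → E (n + 1) → ℝ} (hL : ∀ p, NonTrapping (L p))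
    {b b' : P × ℝ → SympCt n} (h : IsScat L b) (h' : IsScat L b') : b = b' := by
  ext1 q
  exact congrFun (scat_unique (hL q.1) (h q.1) (h' q.1)) q.2

/-- the flow is trivial where the Hamiltonian is -/
theorem C_triv {K : P → ℝ → ℝ → E n → ℝ} {β : P → ℝ → ℝ} {R : ℝ}
    {C : P → ℝ → E (n + 1) → E (n + 1)} (hC : TD (fun p s z => ham (cut β K p s) z) (-R - 1) C)
    {p : P} (hp : ∀ s y w, K p s y w = 0) (s : ℝ) (z : E (n + 1)) : C p s z = z := by
  have h1 : ∀ s z, ham (cut β K p s) z = 0 := fun s z => ham_zero_of_ev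
    (Eventually.of_forall fun y => by
      show β p (cX y) * K p s (cY y) (tl y) = 0
      rw [hp, mul_zero])
  have h7 := Convex.norm_image_sub_le_of_norm_hasDerivWithin_le (f := fun t => C p t z)
    (f' := fun t => ham (cut β K p t) (C p t z)) (s := univ) (C := 0) (x := -R - 1) (y := s)
    (fun t _ => (hC.deriv p t z).hasDerivWithinAt) (fun t _ => by rw [h1, norm_zero])
    convex_univ (mem_univ _) (mem_univ _)
  rw [zero_mul, norm_le_zero_iff, sub_eq_zero] at h7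
  rw [h7]
  exact hC.zero p z

end tmap

section exactT

variable {P : Type} [NormedAddCommGroup P] [NormedSpace ℝ P] [FiniteDimensional ℝ P]

/-- lifting of homotopies -/
theorem lift_htpP (hn : 0 < n) {L : P → E (n + 1) → ℝ} (hL : TMap L)
    {b b' : P × ℝ → SympCt n} (hb : IsScat L b) (h : Htp b b') :
    ∃ L' : P → E (n + 1) → ℝ, TMap L' ∧ IsScat L' b' ∧ THtp L L' := by
  have : ProperSpace P := FiniteDimensional.proper_real P
  obtain ⟨B, K₀, hK₀, h1, h2, h3, h4⟩ := h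
  obtain ⟨R₁, hR₁, hRK⟩ := pair_radius hK₀
  obtain ⟨R₂, -, hT, hT0⟩ := tmap_tfam hL 1
  obtain ⟨W, hW, hLW⟩ := hT.exists_wave
  obtain ⟨c, hc, hco⟩ := hW.exists_out
  have e1 : ∀ p, c p = fun y => b (p, y) := fun p =>
    scat_unique (hL.nt p) (scat_of hW hco (hT.slice p) p (hLW p)) (hb p)
  set R := max (max R₁ R₂) 1 with hR
  have hR0 : 0 < R := by positivity
  have hR1 : 1 ≤ R := le_max_right _ _
  have hRR₁ : R₁ ≤ R := (le_max_left _ _).trans (le_max_left _ _)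
  have hRR₂ : R₂ ≤ R := (le_max_right _ _).trans (le_max_left _ _)
  have hBoff : ∀ τ p y w, (R < ‖p‖ ∨ R < |y| ∨ R < ‖w‖) → (B τ (p, y)).map w = w := by
    intro τ p y w hh
    refine h2 τ ((p, y), w) (hRK _ _ ?_)
    rw [Prod.norm_def, lt_max_iff, or_assoc]
    exact hh.imp (lt_of_le_of_lt hRR₁) (fun hh => hh.imp (lt_of_le_of_lt hRR₁)
      (lt_of_le_of_lt hRR₁))
  have hBs : BFam (fun (q : P × ℝ) y => B (et q.2) (q.1, y)) R := by
    refine ⟨?_, fun q y w hh => hBoff _ _ _ _ (Or.inr hh)⟩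
    have h5 : ContDiff ℝ ∞ (fun q : (P × ℝ) × ℝ × E n =>
        ((et q.1.2, (q.1.1, q.2.1), q.2.2) : ℝ × (P × ℝ) × E n)) :=
      (et_smooth.comp (contDiff_snd.comp contDiff_fst)).prodMk
        (((contDiff_fst.comp contDiff_fst).prodMk (contDiff_fst.comp contDiff_snd)).prodMk
          (contDiff_snd.comp contDiff_snd))
    exact h1.comp h5
  have hcinv : BFam (fun (q : P × ℝ) y => (c q.1 y)⁻¹) R :=
    ((hc.mono hRR₂).inv).pull (σ := fun q : P × ℝ => q.1) contDiff_fst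
  have hD : BFam (fun (q : P × ℝ) y => B (et q.2) (q.1, y) * (c q.1 y)⁻¹) R := hBs.mul hcinv
  obtain ⟨K, hK, hgen, hKz⟩ := exists_K' hn hD
    (fun p s s' y hs hs' => by
      show B (et s) (p, y) * (c p y)⁻¹ = B (et s') (p, y) * (c p y)⁻¹
      rw [et_one (hR1.trans hs), et_one (hR1.trans hs')])
    (fun p s s' y hs hs' => by
      show B (et s) (p, y) * (c p y)⁻¹ = B (et s') (p, y) * (c p y)⁻¹
      rw [et_zero (by linarith), et_zero (by linarith)])
  obtain ⟨C, hC, hCS, hCo⟩ := exists_C (β := fun _ x => et x) hR0 hK betaFam_et hgen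
    (fun p y => by
      show B (et (-R - 1)) (p, y) * (c p y)⁻¹ = 1
      rw [et_zero (by linarith), h3, e1, mul_inv_cancel])
  have hBone : ∀ τ p y, R < ‖p‖ → B τ (p, y) = 1 := fun τ p y hp =>
    map_eq_one fun w => hBoff τ p y w (Or.inl hp)
  have hKp : ∀ p, R < ‖p‖ → ∀ s y w, K p s y w = 0 := by
    intro p hp
    refine hKz p fun s s' y => ?_
    show B (et s) (p, y) * (c p y)⁻¹ = B (et s') (p, y) * (c p y)⁻¹
    rw [hBone _ _ _ hp, hBone _ _ _ hp]
  have hWp : ∀ p, R < ‖p‖ → ∀ z, W p z = z := by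
    intro p hp
    refine wave_id hW p fun z => ?_
    have := hLW p z
    rwa [hT0 p (by linarith)] at this
  have hV := hCS.comp (hW.pull (σ := fun q : P × ℝ => q.1) contDiff_fst)
  have hVo := Out.comp (hW.pull (σ := fun q : P × ℝ => q.1) contDiff_fst) hCo
    (hco.pull (σ := fun q : P × ℝ => q.1) contDiff_fst)
  have hVp : ∀ p s, R < ‖p‖ → ∀ z, C p s (W p z) = z := by
    intro p s hp z
    rw [hWp p hp, C_triv hC (hKp p hp)]
  let σ : ℝ × P → P × ℝ := fun q => (q.2, tm R q.1)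
  have hσ : ContDiff ℝ ∞ σ := contDiff_snd.prodMk ((tm_smooth R).comp contDiff_fst)
  have hQ : IsCompact (closedBall (0 : P) R ×ˢ Icc (-R - 1) (R + 1)) :=
    (isCompact_closedBall _ _).prod isCompact_Icc
  obtain ⟨F, R', hF, hFV⟩ := hV.tfam_path hσ hQ (fun q => by
    by_cases hq : ‖q.2‖ ≤ R
    · exact Or.inl ⟨by simpa using hq, tm_mem hR0 q.1⟩
    · exact Or.inr (hVp q.2 (tm R q.1) (not_le.1 hq)))
  have hFfar : ∀ s p, R < ‖p‖ → F (s, p) = cY := by
    intro s p hp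
    ext z
    have h5 := hFV (s, p) z
    have h6 : C (σ (s, p)).1 (σ (s, p)).2 (W (σ (s, p)).1 z) = z := hVp p (tm R s) hp z
    rw [h6] at h5
    exact h5
  have hF0 : (fun p => F (0, p)) = L := by
    ext p ζ
    obtain ⟨z, rfl⟩ := (hW.fam.bij p).2 ζ
    have h5 := hFV (0, p) z
    have h6 : C (σ (0, p)).1 (σ (0, p)).2 (W (σ (0, p)).1 z) = W p z := by
      show C p (tm R 0) _ = _
      rw [tm_zero]
      exact hC.zero _ _
    rw [h6] at h5
    show F (0, p) (W p z) = L p (W p z)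
    rw [h5]
    exact (hLW p z).symm
  have hV1 := hV.pull (σ := fun p : P => (p, R + 1)) (contDiff_id.prodMk contDiff_const)
  have hV1o := hVo.pull (σ := fun p : P => (p, R + 1)) (contDiff_id.prodMk contDiff_const)
  have hout : (fun (p : P) (y : ℝ) => B (et (R + 1)) (p, y) * (c p y)⁻¹ * c p y) =
      fun p y => b' (p, y) := by
    ext1 p; ext1 y
    rw [inv_mul_cancel_right, et_one (by linarith), h4]
  have hV1o' : Out (fun p => fun z => C p (R + 1) (W p z)) (fun p y => b' (p, y)) := by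
    rw [← hout]
    exact hV1o
  have h8 := tfam_thtp hF hFfar
  rw [hF0] at h8
  have hF1 : TFam (fun p => F (1, p)) R' := ⟨hF.pos, hF.smooth.comp
    ((contDiff_const.prodMk contDiff_fst).prodMk contDiff_snd), fun p => hF.off (1, p),
    fun p => hF.trapless (1, p)⟩
  refine ⟨fun p => F (1, p), tfam_tmap hF1 (hFfar 1), fun p => ?_, h8⟩
  refine scat_of hV1 hV1o' (hF.slice (1, p)) p fun z => ?_
  have h5 := hFV (1, p) z
  have h6 : C (σ (1, p)).1 (σ (1, p)).2 (W (σ (1, p)).1 z) = C p (R + 1) (W p z) := by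
    show C p (tm R 1) _ = _
    rw [tm_one]
  rw [h6] at h5
  exact h5

/-- the group acts transitively on the fibres of the scattering map -/
theorem fibreP (hn : 0 < n) {L L' : P → E (n + 1) → ℝ} (hL : TMap L) (hL' : TMap L')
    {b : P × ℝ → SympCt n} (hb : IsScat L b) (hb' : IsScat L' b) :
    ∃ φ : P → SympCt (n + 1), Fam φ ∧ L = fun p z => L' p ((φ p).map z) := by
  have : ProperSpace P := FiniteDimensional.proper_real P
  obtain ⟨R₂, -, hT, hT0⟩ := tmap_tfam hL 1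
  obtain ⟨R₃, -, hT', hT0'⟩ := tmap_tfam hL' 1
  obtain ⟨W, hW, hLW⟩ := hT.exists_wave
  obtain ⟨W', hW', hLW'⟩ := hT'.exists_wave
  obtain ⟨c, hc, hco⟩ := hW.exists_out
  obtain ⟨c', hc', hco'⟩ := hW'.exists_out
  have e1 : ∀ p, c p = fun y => b (p, y) := fun p =>
    scat_unique (hL.nt p) (scat_of hW hco (hT.slice p) p (hLW p)) (hb p)
  have e2 : ∀ p, c' p = fun y => b (p, y) := fun p =>
    scat_unique (hL'.nt p) (scat_of hW' hco' (hT'.slice p) p (hLW' p)) (hb' p)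
  have e3 : c = c' := by
    ext1 p
    rw [e1, e2]
  rw [← e3] at hco'
  have hWp : ∀ p, max R₂ R₃ < ‖p‖ → ∀ z, W p z = z := by
    intro p hp
    refine wave_id hW p fun z => ?_
    have := hLW p z
    rwa [hT0 p ((le_max_left _ _).trans_lt hp)] at this
  have hWp' : ∀ p, max R₂ R₃ < ‖p‖ → ∀ z, W' p z = z := by
    intro p hp
    refine wave_id hW' p fun z => ?_
    have := hLW' p z
    rwa [hT0' p ((le_max_right _ _).trans_lt hp)] at this
  obtain ⟨φ, K', hK', k1, k2, k3⟩ := between hn hW hW' hco hco'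
    (isCompact_closedBall (0 : P) (max R₂ R₃)) (fun p hp z => by
      rw [mem_closedBall_zero_iff, not_le] at hp
      exact (hWp p hp z).trans (hWp' p hp z).symm)
  have hφ1 : ∀ p, max R₂ R₃ < ‖p‖ → φ p = 1 := by
    intro p hp
    refine map_eq_one fun z => ?_
    have h5 := k3 p z
    rwa [hWp p hp, hWp' p hp] at h5
  refine ⟨φ, fam_of k1 hK' k2 hφ1, ?_⟩
  ext p ζ
  obtain ⟨z, rfl⟩ := (hW.fam.bij p).2 ζ
  rw [hLW, k3, hLW']

theorem orbit_of_htpP (hn : 0 < n) {L L' : P → E (n + 1) → ℝ} (hL : TMap L) (hL' : TMap L')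
    {b b' : P × ℝ → SympCt n} (hb : IsScat L b) (hb' : IsScat L' b') (h : Htp b b') :
    ∃ φ : P → SympCt (n + 1), Fam φ ∧ THtp L (fun p z => L' p ((φ p).map z)) := by
  obtain ⟨M, hM, hMb, hLM⟩ := lift_htpP hn hL hb h
  obtain ⟨φ, hφ, rfl⟩ := fibreP hn hM hL' hMb hb'
  exact ⟨φ, hφ, hLM⟩

theorem tmap_comp {L : P → E (n + 1) → ℝ} (hL : TMap L) {φ : P → SympCt (n + 1)} (hφ : Fam φ) :
    TMap (fun p z => L p ((φ p).map z)) := by
  have : ProperSpace P := FiniteDimensional.proper_real P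
  obtain ⟨R, -, hT, hT0⟩ := tmap_tfam hL 1
  obtain ⟨R', hR', h1, h2⟩ := fam_radius hφ
  refine ⟨hL.smooth.comp (contDiff_fst.prodMk hφ.smooth),
    ⟨closedBall 0 (max R R') ×ˢ closedBall 0 (max R R'),
    (isCompact_closedBall _ _).prod (isCompact_closedBall _ _), fun q hq => ?_⟩,
    fun p => nt_comp (hL.nt p) (φ p)⟩
  rw [mem_prod, not_and_or, mem_closedBall_zero_iff, mem_closedBall_zero_iff, not_le,
    not_le] at hq
  rcases hq with hq | hq
  · rw [h2 _ ((le_max_right _ _).trans_lt hq), hT0 _ ((le_max_left _ _).trans_lt hq)]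
    rfl
  · rw [h1 _ _ ((le_max_right _ _).trans_lt hq)]
    exact hT.off _ _ ((le_max_left _ _).trans_lt hq)

theorem htp_of_orbitP {L L' : P → E (n + 1) → ℝ} (hL : TMap L) (hL' : TMap L')
    {b b' : P × ℝ → SympCt n} (hb : IsScat L b) (hb' : IsScat L' b')
    {φ : P → SympCt (n + 1)} (h : THtp L (fun p z => L' p ((φ p).map z))) :
    Htp b b' := by
  obtain ⟨F, R, hF, hF0, h0, h1⟩ := thtp_tfam h
  obtain ⟨W, hW, hLW⟩ := hF.exists_wave
  obtain ⟨c, hc, hco⟩ := hW.exists_out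
  have hsc : ∀ q, IsScattering (F q) (c q) := fun q => scat_of hW hco (hF.slice q) q (hLW q)
  have e0 : ∀ p, c (0, p) = fun y => b (p, y) := by
    intro p
    have h2 := hsc (0, p)
    rw [h0 0 p le_rfl] at h2
    exact scat_unique (hL.nt p) h2 (hb p)
  have e1 : ∀ p, c (1, p) = fun y => b' (p, y) := by
    intro p
    have h2 := hsc (1, p)
    rw [h1 1 p le_rfl] at h2
    exact scat_unique (nt_comp (hL'.nt p) (φ p)) h2 (scat_comp (hL'.nt p) (hb' p) (φ p))
  have key := htp_of (θ := fun q : ℝ × (P × ℝ) => c (q.1, q.2.1) q.2.2) (K := closedBall 0 R)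
    (R := R) ?_ (isCompact_closedBall _ _) (fun q w hw => ?_) (fun s q hq => ?_)
  · have a0 : (fun q : P × ℝ => c (0, q.1) q.2) = b := by
      ext1 q
      rw [e0]
    have a1 : (fun q : P × ℝ => c (1, q.1) q.2) = b' := by
      ext1 q
      rw [e1]
    rw [← a0, ← a1]
    exact key
  · exact hc.smooth.comp (((contDiff_fst.comp contDiff_fst).prodMk
      (contDiff_fst.comp (contDiff_snd.comp contDiff_fst))).prodMk
      ((contDiff_snd.comp (contDiff_snd.comp contDiff_fst)).prodMk contDiff_snd))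
  · refine hc.off _ _ w (Or.inr ?_)
    rwa [mem_closedBall_zero_iff, not_le] at hw
  · rw [Prod.norm_def, lt_max_iff] at hq
    show c (s, q.1) q.2 = 1
    rcases hq with hq | hq
    · have h2 := hsc (s, q.1)
      rw [hF0 _ _ hq] at h2
      rw [scat_unique nt_cY h2 scat_cY]
      rfl
    · exact map_eq_one fun w => hc.off _ _ w (Or.inl hq)

end exactT

/-! ### Suspensions of families -/

section susp

variable {P : Type} [NormedAddCommGroup P] [NormedSpace ℝ P] [FiniteDimensional ℝ P]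

/-- a homotopy of sphere families, with its Hamiltonians and flows -/
structure SDataP (B : ℝ → P × ℝ × ℝ → SympCt n) (β : ℝ → ℝ → ℝ) (R : ℝ)
    (K : ℝ × P → ℝ → ℝ → E n → ℝ) (C : ℝ × P → ℝ → E (n + 1) → E (n + 1)) : Prop where
  pos : 0 < R
  kfam : KFam K R
  gen : Gen K (fun (q : (ℝ × P) × ℝ) y => B q.1.1 (q.1.2, q.2, y))
  beta : BetaFam (fun (q : ℝ × P) => β q.1) R
  one : ∀ τ p s y, (R ≤ |s| ∨ R < ‖p‖) → B τ (p, s, y) = 1
  td : TD (fun p s z => ham (cut (fun q : ℝ × P => β q.1) K p s) z) (-R - 1) C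
  sc : Sc (fun q : (ℝ × P) × ℝ => C q.1 q.2) R
  out : Out (fun q : (ℝ × P) × ℝ => C q.1 q.2) (fun q y => B q.1.1 (q.1.2, q.2, y))
  far : ∀ τ p s z, R < ‖p‖ → C (τ, p) s z = z

theorem exists_sdataP (hn : 0 < n) {B : ℝ → P × ℝ × ℝ → SympCt n}
    (hs : ContDiff ℝ ∞ (fun q : ℝ × (P × ℝ × ℝ) × E n => (B q.1 q.2.1).map q.2.2))
    {K₀ : Set ((P × ℝ × ℝ) × E n)} (hK₀ : IsCompact K₀)
    (hoff : ∀ s q, q ∉ K₀ → (B s q.1).map q.2 = q.2) {β : ℝ → ℝ → ℝ} {R₀ : ℝ}
    (hβ : BetaFam β R₀) (R₁ : ℝ) : ∃ R K C, R₁ ≤ R ∧ SDataP B β R K C := by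
  obtain ⟨R₂, hR₂, hRK⟩ := pair_radius hK₀
  set R := max (max R₀ (R₂ + 1)) R₁ with hR
  have hR2 : R₂ + 1 ≤ R := (le_max_right _ _).trans (le_max_left _ _)
  have hR0 : 0 < R := by linarith
  have hRR₀ : R₀ ≤ R := (le_max_left _ _).trans (le_max_left _ _)
  have hβ' : BetaFam (fun (q : ℝ × P) => β q.1) R :=
    ⟨hβ.smooth.comp ((contDiff_fst.comp contDiff_fst).prodMk contDiff_snd),
      fun p x hx => hβ.left p.1 x (by linarith), fun p x hx => hβ.right p.1 x (by linarith)⟩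
  have hoff' : ∀ (τ : ℝ) (p : P) (s y : ℝ) (w : E n),
      (R₂ < ‖p‖ ∨ R₂ < |s| ∨ R₂ < |y| ∨ R₂ < ‖w‖) → (B τ (p, s, y)).map w = w := by
    intro τ p s y w h
    refine hoff τ ((p, s, y), w) (hRK _ _ ?_)
    rw [Prod.norm_def, Prod.norm_def, lt_max_iff, lt_max_iff, or_assoc, or_assoc]
    exact h
  have hone : ∀ τ p s y, (R ≤ |s| ∨ R < ‖p‖) → B τ (p, s, y) = 1 := fun τ p s y h =>
    map_eq_one fun w => hoff' τ p s y w (h.elim (fun h => Or.inr (Or.inl (by linarith)))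
      (fun h => Or.inl (by linarith)))
  have hb : BFam (fun (q : (ℝ × P) × ℝ) y => B q.1.1 (q.1.2, q.2, y)) R := by
    refine ⟨?_, fun p y w h => hoff' _ _ _ _ _ (Or.inr (Or.inr (h.imp (fun h => by linarith)
      (fun h => by linarith))))⟩
    have h3 : ContDiff ℝ ∞ (fun q : ((ℝ × P) × ℝ) × ℝ × E n =>
        ((q.1.1.1, (q.1.1.2, q.1.2, q.2.1), q.2.2) : ℝ × (P × ℝ × ℝ) × E n)) :=
      (contDiff_fst.comp (contDiff_fst.comp contDiff_fst)).prodMk
        (((contDiff_snd.comp (contDiff_fst.comp contDiff_fst)).prodMk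
          ((contDiff_snd.comp contDiff_fst).prodMk (contDiff_fst.comp contDiff_snd))).prodMk
          (contDiff_snd.comp contDiff_snd))
    exact hs.comp h3
  obtain ⟨K, hK, hgen, hKz⟩ := exists_K' hn hb
    (fun p s s' y h h' => by
      show B p.1 (p.2, s, y) = B p.1 (p.2, s', y)
      rw [hone _ _ _ _ (Or.inl (h.trans (le_abs_self s))),
        hone _ _ _ _ (Or.inl (h'.trans (le_abs_self s')))])
    (fun p s s' y h h' => by
      show B p.1 (p.2, s, y) = B p.1 (p.2, s', y)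
      rw [hone _ _ s _ (Or.inl (by linarith [neg_abs_le s])),
        hone _ _ s' _ (Or.inl (by linarith [neg_abs_le s']))])
  obtain ⟨C, hC, hCS, hCo⟩ := exists_C hR0 hK hβ' hgen (fun p y => by
    show B p.1 (p.2, -R - 1, y) = 1
    refine hone _ _ _ _ (Or.inl ?_)
    have := neg_abs_le (-R - 1)
    linarith)
  rw [max_self] at hCS
  refine ⟨R, K, C, le_max_right _ _, hR0, hK, hgen, hβ', hone, hC, hCS, hCo,
    fun τ p s z hp => C_triv hC (hKz (τ, p) fun s s' y => ?_) s z⟩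
  show B τ (p, s, y) = B τ (p, s', y)
  rw [hone _ _ _ _ (Or.inr hp), hone _ _ _ _ (Or.inr hp)]

variable {B : ℝ → P × ℝ × ℝ → SympCt n} {β : ℝ → ℝ → ℝ} {R : ℝ}
    {K : ℝ × P → ℝ → ℝ → E n → ℝ} {C : ℝ × P → ℝ → E (n + 1) → E (n + 1)}

omit [FiniteDimensional ℝ P] in
theorem SDataP.susp (h : SDataP B β R K C) (τ : ℝ)
    {ψ : P → SympCt (n + 1)} (hψ : ∀ p z, (ψ p).map z = C (τ, p) (R + 1) z) :
    IsSusp (B τ) ψ := by
  refine ⟨fun p => K (τ, p), β τ, fun p => C (τ, p), R, ?_,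
    fun p s y w hh => h.kfam.off (τ, p) s y w hh, fun p s y w => h.gen (τ, p) s y w,
    ?_, fun x hx => h.beta.left (τ, 0) x hx, fun x hx => h.beta.right (τ, 0) x hx,
    fun p s z => h.td.deriv (τ, p) s z, fun p z => ?_, fun p z => ?_⟩
  · exact h.kfam.smooth.comp (((contDiff_const (c := τ)).prodMk contDiff_fst).prodMk contDiff_snd)
  · exact h.beta.smooth.comp ((contDiff_const (c := ((τ, 0) : ℝ × P))).prodMk contDiff_id)
  · filter_upwards [eventually_lt_atBot (-R)] with s hs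
    exact C_early h.kfam h.td (τ, p) z hs
  · filter_upwards [eventually_gt_atTop R] with s hs
    rw [C_late h.kfam h.td (τ, p) z hs, hψ]

omit [FiniteDimensional ℝ P] in
theorem SDataP.unique (hn : 0 < n) (h : SDataP B β R K C) (τ : ℝ) (p : P)
    {K₁ : ℝ → ℝ → E n → ℝ} {C₁ : ℝ → E (n + 1) → E (n + 1)} {R₁ : ℝ}
    (hK₁ : ContDiff ℝ ∞ (fun q : ℝ × ℝ × E n => K₁ q.1 q.2.1 q.2.2))
    (hK₁off : ∀ s y w, (R₁ < |s| ∨ R₁ < |y| ∨ R₁ < ‖w‖) → K₁ s y w = 0)
    (hgen : ∀ s y w, HasDerivAt (fun s => (B τ (p, s, y)).map w)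
      (ham (K₁ s y) ((B τ (p, s, y)).map w)) s)
    (hC₁ : ∀ s z, HasDerivAt (fun s => C₁ s z)
      (ham (fun z => β τ (cX z) * K₁ s (cY z) (tl z)) (C₁ s z)) s)
    (hbot : ∀ z, ∀ᶠ s in atBot, C₁ s z = z) {ψ : SympCt (n + 1)}
    (htop : ∀ z, ∀ᶠ s in atTop, C₁ s z = ψ.map z) (z : E (n + 1)) :
    ψ.map z = C (τ, p) (R + 1) z := by
  have hKK : ∀ s y, K₁ s y = K (τ, p) s y := by
    intro s y
    have hd1 : ContDiff ℝ ∞ (K₁ s y) :=
      hK₁.comp (contDiff_const.prodMk (contDiff_const.prodMk contDiff_id))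
    have hd2 : ContDiff ℝ ∞ (K (τ, p) s y) := h.kfam.smooth.comp
      (contDiff_const.prodMk (contDiff_const.prodMk (contDiff_const.prodMk contDiff_id)))
    have h1 : ∀ w, ham (K₁ s y) w = ham (K (τ, p) s y) w := by
      intro w
      have h2 := (hgen s y ((B τ (p, s, y))⁻¹.map w)).unique
        (h.gen (τ, p) s y ((B τ (p, s, y))⁻¹.map w))
      rw [map_inv_map] at h2
      exact h2
    have h5 : ∀ w, fderiv ℝ (fun w => K₁ s y w - K (τ, p) s y w) w = 0 := by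
      intro w
      rw [fderiv_fun_sub (hd1.differentiable (by simp) w) (hd2.differentiable (by simp) w)]
      refine ContinuousLinearMap.ext fun v => ?_
      show fderiv ℝ (K₁ s y) w v - fderiv ℝ (K (τ, p) s y) w v = 0
      rw [← omega_ham, ← omega_ham, h1, sub_self]
    obtain ⟨w₁, hw₁⟩ := exists_far hn (max R R₁)
    ext w
    have h6 := is_const_of_fderiv_eq_zero (𝕜 := ℝ)
      ((hd1.sub hd2).differentiable (by simp)) h5 w w₁
    have h7 : K₁ s y w - K (τ, p) s y w = K₁ s y w₁ - K (τ, p) s y w₁ := h6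
    rw [hK₁off s y w₁ (Or.inr (Or.inr ((le_max_right _ _).trans_lt hw₁))),
      h.kfam.off (τ, p) s y w₁ (Or.inr (Or.inr ((le_max_left _ _).trans_lt hw₁))), sub_self] at h7
    linarith
  obtain ⟨s₀, hs₀, hs₀'⟩ := ((hbot z).and (eventually_lt_atBot (-R))).exists
  have hFp : ContDiff ℝ ∞ (fun q : ℝ × E (n + 1) =>
      ham (cut (fun q : ℝ × P => β q.1) K (τ, p) q.1) q.2) :=
    (ham_smooth_param (L := fun q : (ℝ × P) × ℝ => cut (fun q : ℝ × P => β q.1) K q.1 q.2)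
      (cut_smooth h.kfam h.beta)).comp
      (((contDiff_const (c := (τ, p))).prodMk contDiff_fst).prodMk contDiff_snd)
  have h1 := td_uniq hFp (t₀ := s₀) (γ₁ := fun s => C₁ s z) (fun s => by
    have h2 := hC₁ s z
    have h3 : (fun z => β τ (cX z) * K₁ s (cY z) (tl z)) =
        cut (fun q : ℝ × P => β q.1) K (τ, p) s := by
      ext z
      rw [hKK]
      rfl
    rw [h3] at h2
    exact h2) (fun s => h.td.deriv (τ, p) s z) (by
      show C₁ s₀ z = C (τ, p) s₀ z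
      rw [hs₀, C_early h.kfam h.td (τ, p) z hs₀'])
  obtain ⟨s₁, hs₁, hs₁'⟩ := ((htop z).and (eventually_gt_atTop R)).exists
  rw [← hs₁, ← C_late h.kfam h.td (τ, p) z hs₁']
  exact h1 s₁

/-- the maps given by the flows -/
theorem SDataP.path (hn : 0 < n) (h : SDataP B β R K C) :
    ∃ θ : ℝ → P → SympCt (n + 1), (∀ s p z, (θ s p).map z = C (et s, p) (R + 1) z) ∧
      Htp (θ 0) (θ 1) := by
  have : ProperSpace P := FiniteDimensional.proper_real P
  let σ : ℝ × P → (ℝ × P) × ℝ := fun q => ((et q.1, q.2), R + 1)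
  have hσ : ContDiff ℝ ∞ σ :=
    ((et_smooth.comp contDiff_fst).prodMk contDiff_snd).prodMk contDiff_const
  have hfar : ∀ q : ℝ × P, R < ‖q.2‖ → ∀ z, C (et q.1, q.2) (R + 1) z = z := fun q hq z =>
    h.far _ _ _ _ hq
  obtain ⟨θ, K', hK', h1, h2, h3⟩ := symp_path hn h.sc h.out hσ
    ((isCompact_Icc.prod (isCompact_closedBall (0 : P) R)).prod
      (isCompact_singleton (x := R + 1))) (fun q => by
      by_cases hq : ‖q.2‖ ≤ R
      · exact Or.inl ⟨⟨et_mem q.1, by simpa using hq⟩, rfl⟩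
      · exact Or.inr (hfar q (not_le.1 hq)))
    (fun q y => h.one _ _ _ _ (Or.inl (by
      show R ≤ |R + 1|
      linarith [le_abs_self (R + 1)])))
  refine ⟨fun s p => θ (s, p), fun s p z => h3 (s, p) z, ?_⟩
  refine htp_of h1 hK' h2 (R := R) fun s p hp => map_eq_one fun z => ?_
  exact (h3 (s, p) z).trans (hfar (s, p) hp z)

theorem susp_existsP (hn : 0 < n) {b : P × ℝ × ℝ → SympCt n} (hb : Fam b) :
    ∃ ψ : P → SympCt (n + 1), Fam ψ ∧ IsSusp b ψ := by
  obtain ⟨K₀, hK₀, hs, hoff⟩ := fam_const hb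
  obtain ⟨R, K, C, -, h⟩ := exists_sdataP hn hs hK₀ hoff (betaFam_et (P := ℝ)) 1
  obtain ⟨θ, hθ, hh⟩ := h.path hn
  exact ⟨θ 0, htp_fam_left hh, h.susp (et 0) (hθ 0)⟩

/-- homotopic families have homotopic suspensions -/
theorem susp_htpP (hn : 0 < n) {b b' : P × ℝ × ℝ → SympCt n} (h : Htp b b')
    {ψ ψ' : P → SympCt (n + 1)} (hψ : IsSusp b ψ) (hψ' : IsSusp b' ψ') : Htp ψ ψ' := by
  obtain ⟨B, K₀, hK₀, hs, hoff, hB0, hB1⟩ := h
  obtain ⟨K₁, β₁, C₁, R₁, a1, a2, a3, a4, a5, a6, a7, a8, a9⟩ := hψ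
  obtain ⟨K₂, β₂, C₂, R₂, c1, c2, c3, c4, c5, c6, c7, c8, c9⟩ := hψ'
  let β : ℝ → ℝ → ℝ := fun τ x => (1 - τ) * β₁ x + τ * β₂ x
  have hβ : BetaFam β (max R₁ R₂) := by
    refine ⟨?_, fun τ x hx => ?_, fun τ x hx => ?_⟩
    · exact ((contDiff_const.sub contDiff_fst).mul (a4.comp contDiff_snd)).add
        (contDiff_fst.mul (c4.comp contDiff_snd))
    · show (1 - τ) * β₁ x + τ * β₂ x = 0
      rw [a5 x (by linarith [le_max_left R₁ R₂]), c5 x (by linarith [le_max_right R₁ R₂])]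
      ring
    · show (1 - τ) * β₁ x + τ * β₂ x = 1
      rw [a6 x (by linarith [le_max_left R₁ R₂]), c6 x (by linarith [le_max_right R₁ R₂])]
      ring
  obtain ⟨R, K, C, -, hd⟩ := exists_sdataP hn hs hK₀ hoff hβ 1
  obtain ⟨θ, hθ, hiso⟩ := hd.path hn
  have hβ0 : β 0 = β₁ := by ext x; show (1 - 0) * β₁ x + 0 * β₂ x = _; ring
  have hβ1 : β 1 = β₂ := by ext x; show (1 - 1) * β₁ x + 1 * β₂ x = _; ring
  have e0 : θ 0 = ψ := by
    ext1 p
    refine ext_map fun z => ?_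
    rw [hθ, et_zero le_rfl]
    refine (hd.unique hn 0 p (K₁ := K₁ p) (C₁ := C₁ p)
      (a1.comp (contDiff_const.prodMk contDiff_id)) (a2 p) ?_ ?_ (a8 p) (a9 p) z).symm
    · rw [hB0]; exact a3 p
    · rw [hβ0]; exact a7 p
  have e1 : θ 1 = ψ' := by
    ext1 p
    refine ext_map fun z => ?_
    rw [hθ, et_one le_rfl]
    refine (hd.unique hn 1 p (K₁ := K₂ p) (C₁ := C₂ p)
      (c1.comp (contDiff_const.prodMk contDiff_id)) (c2 p) ?_ ?_ (c8 p) (c9 p) z).symm
    · rw [hB1]; exact c3 p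
    · rw [hβ1]; exact c7 p
  rwa [e0, e1] at hiso

/-- the data of one suspension -/
theorem exists_sdata_of (hn : 0 < n) {b : P × ℝ × ℝ → SympCt n} (hb : Fam b)
    {ψ : P → SympCt (n + 1)} (hψ : IsSusp b ψ) (R₁ : ℝ) :
    ∃ (β : ℝ → ℝ → ℝ) (R : ℝ) (K : ℝ × P → ℝ → ℝ → E n → ℝ)
      (C : ℝ × P → ℝ → E (n + 1) → E (n + 1)), R₁ ≤ R ∧ SDataP (fun _ => b) β R K C ∧
      ∀ p z, (ψ p).map z = C (0, p) (R + 1) z := by
  obtain ⟨K₀, hK₀, hs, hoff⟩ := fam_const hb
  obtain ⟨K₁, β₁, C₁, R₀, a1, a2, a3, a4, a5, a6, a7, a8, a9⟩ := hψ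
  have hβ : BetaFam (fun _ : ℝ => β₁) R₀ :=
    ⟨a4.comp contDiff_snd, fun _ x hx => a5 x hx, fun _ x hx => a6 x hx⟩
  obtain ⟨R, K, C, hR, hd⟩ := exists_sdataP hn hs hK₀ hoff hβ R₁
  exact ⟨_, R, K, C, hR, hd, fun p z => hd.unique hn 0 p (K₁ := K₁ p) (C₁ := C₁ p)
    (a1.comp (contDiff_const.prodMk contDiff_id)) (a2 p) (a3 p) (a7 p) (a8 p) (a9 p) z⟩

/-- Comparison of a path of scattering maps with the suspension of its outgoing family. -/
theorem compare (hn : 0 < n) {W : P × ℝ → E (n + 1) → E (n + 1)} {R₀ R₁ : ℝ} (hW : Sc W R₀)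
    {b : P × ℝ × ℝ → SympCt n} (hb : Fam b) (hWo : Out W (fun q y => b (q.1, q.2, y)))
    {φ : P → SympCt (n + 1)} (h0 : ∀ p s z, s < -R₁ → W (p, s) z = z)
    (h1 : ∀ p s z, R₁ < s → W (p, s) z = (φ p).map z)
    (hfar : ∀ p s z, R₁ < ‖p‖ → W (p, s) z = z)
    {ψ : P → SympCt (n + 1)} (hψ : IsSusp b ψ) : Htp φ ψ := by
  have : ProperSpace P := FiniteDimensional.proper_real P
  obtain ⟨β, R, K, C, hR, hd, hψC⟩ := exists_sdata_of hn hb hψ R₁
  have hR0 := hd.pos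
  let ι : P × ℝ → (ℝ × P) × ℝ := fun q => ((0, q.1), q.2)
  have hι : ContDiff ℝ ∞ ι := (contDiff_const.prodMk contDiff_fst).prodMk contDiff_snd
  let σ : ℝ × P → P × ℝ := fun q => (q.2, tm R q.1)
  have hσ : ContDiff ℝ ∞ σ := contDiff_snd.prodMk ((tm_smooth R).comp contDiff_fst)
  have hC := hd.sc.pull hι
  have hCo : Out (fun q : P × ℝ => C (0, q.1) q.2) (fun q y => b (q.1, q.2, y)) :=
    hd.out.pull hι
  have hfar' : ∀ p s z, R < ‖p‖ → W (p, s) z = C (0, p) s z := by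
    intro p s z hp
    rw [hfar p s z (by linarith), hd.far 0 p s z hp]
  obtain ⟨θ, K', hK', k1, k2, k3⟩ := quot_path hn hW hC hWo hCo hσ
    ((isCompact_closedBall (0 : P) R).prod (isCompact_Icc (a := -R - 1) (b := R + 1)))
    (fun q => by
      by_cases hq : ‖q.2‖ ≤ R
      · exact Or.inl ⟨by simpa using hq, tm_mem hR0 q.1⟩
      · exact Or.inr fun z => hfar' q.2 (tm R q.1) z (not_le.1 hq))
  have hCinj : ∀ p s, Injective (C (0, p) s) := fun p s => (hd.sc.fam.bij ((0, p), s)).1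
  have e0 : ∀ p, θ (0, p) = 1 := by
    intro p
    refine map_eq_one fun z => ?_
    have h2 : C (0, p) (tm R 0) ((θ (0, p)).map z) = W (p, tm R 0) z := k3 (0, p) z
    rw [tm_zero, h0 p _ z (by linarith)] at h2
    exact (hd.td.zero (0, p) _).symm.trans h2
  have e1 : ∀ p, ψ p * θ (1, p) = φ p := by
    intro p
    refine ext_map fun z => ?_
    have h2 : C (0, p) (tm R 1) ((θ (1, p)).map z) = W (p, tm R 1) z := k3 (1, p) z
    rw [tm_one, h1 p _ z (by linarith)] at h2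
    rw [mul_map, hψC, h2]
  have e2 : ∀ s p, R < ‖p‖ → θ (s, p) = 1 := by
    intro s p hp
    refine map_eq_one fun z => ?_
    have h2 : C (0, p) (tm R s) ((θ (s, p)).map z) = W (p, tm R s) z := k3 (s, p) z
    rw [hfar' p _ z hp] at h2
    exact hCinj p _ h2
  have hψF : Fam ψ := by
    obtain ⟨ψ', hψ'F, hψ'⟩ := susp_existsP hn hb
    exact htp_fam_left (susp_htpP hn (htp_refl hb) hψ hψ')
  have h3 : Htp (fun p => θ (0, p)) (fun p => θ (1, p)) := htp_of k1 hK' k2 e2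
  have h4 := htp_mul (htp_refl hψF) h3
  have a0 : (fun p => ψ p * θ (0, p)) = ψ := by ext1 p; rw [e0, mul_one]
  have a1 : (fun p => ψ p * θ (1, p)) = φ := by ext1 p; rw [e1]
  rw [a0, a1] at h4
  exact htp_symm h4

/-- the kernel of `π_k(G_{n+1}) → π_k(T)` consists of suspensions -/
theorem susp_of_thtp (hn : 0 < n) {φ : P → SympCt (n + 1)} (hφ : Fam φ)
    (h : THtp (fun _ => (cY : E (n + 1) → ℝ)) (fun p z => cY ((φ p)⁻¹.map z))) :
    ∃ (b : P × ℝ × ℝ → SympCt n) (ψ : P → SympCt (n + 1)), Fam b ∧ IsSusp b ψ ∧ Htp φ ψ := by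
  obtain ⟨F, R₀, hF, hFfar, h0, h1⟩ := thtp_tfam h
  obtain ⟨W, hW, hLW⟩ := hF.exists_wave
  obtain ⟨c, hc, hco⟩ := hW.exists_out
  have hsc : ∀ q, IsScattering (F q) (c q) := fun q => scat_of hW hco (hF.slice q) q (hLW q)
  have hc0 : ∀ s p, s ≤ 0 → c (s, p) = 1 := by
    intro s p hs
    have h2 := hsc (s, p)
    rw [h0 s p hs] at h2
    exact scat_unique nt_cY h2 scat_cY
  have hc1 : ∀ s p, 1 ≤ s → c (s, p) = 1 := by
    intro s p hs
    have h2 := hsc (s, p)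
    rw [h1 s p hs] at h2
    exact scat_unique (nt_comp nt_cY (φ p)⁻¹) h2 (scat_comp nt_cY scat_cY (φ p)⁻¹)
  have hcf : ∀ s p, R₀ < ‖p‖ → c (s, p) = 1 := by
    intro s p hp
    have h2 := hsc (s, p)
    rw [hFfar s p hp] at h2
    exact scat_unique nt_cY h2 scat_cY
  let b : P × ℝ × ℝ → SympCt n := fun q => c (q.2.1, q.1) q.2.2
  have hb : Fam b := by
    refine fam_of (K := closedBall 0 R₀) (R := max R₀ 1) ?_ (isCompact_closedBall _ _)
      (fun q w hw => ?_) (fun q hq => ?_)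
    · exact hc.smooth.comp (((contDiff_fst.comp (contDiff_snd.comp contDiff_fst)).prodMk
        (contDiff_fst.comp contDiff_fst)).prodMk
        ((contDiff_snd.comp (contDiff_snd.comp contDiff_fst)).prodMk contDiff_snd))
    · refine hc.off _ _ w (Or.inr ?_)
      rwa [mem_closedBall_zero_iff, not_le] at hw
    · show c (q.2.1, q.1) q.2.2 = 1
      rw [Prod.norm_def, Prod.norm_def, lt_max_iff, lt_max_iff] at hq
      rcases hq with hq | hq | hq
      · rw [hcf _ _ ((le_max_left _ _).trans_lt hq)]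
        rfl
      · rcases lt_abs.1 ((le_max_right R₀ 1).trans_lt hq) with h2 | h2
        · rw [hc1 _ _ h2.le]; rfl
        · rw [hc0 _ _ (by linarith)]; rfl
      · exact map_eq_one fun w => hc.off _ _ w (Or.inl ((le_max_left _ _).trans_lt hq))
  obtain ⟨ψ, -, hψ⟩ := susp_existsP hn hb
  refine ⟨b, ψ, hb, hψ, ?_⟩
  let κ : P × ℝ → ℝ × P := fun q => (q.2, q.1)
  have hκ : ContDiff ℝ ∞ κ := contDiff_snd.prodMk contDiff_fst
  obtain ⟨Rφ, hRφ, hφ1, -⟩ := fam_radius hφ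
  refine compare hn (hW.pull hκ) hb (hco.pull hκ) (R₁ := max R₀ 1) ?_ ?_ ?_ hψ
  · intro p s z hs
    refine wave_id hW (s, p) (fun z => ?_) z
    have := hLW (s, p) z
    rwa [h0 s p (by linarith [le_max_right R₀ 1])] at this
  · intro p s z hs
    have h4 : F (s, p) = fun z => cY ((φ p)⁻¹.map z) := h1 s p (by linarith [le_max_right R₀ 1])
    refine wave_unique (hW.fam.slice _) (hW.fam.symp _) (map_smooth (φ p)) (φ p).2.1.form
      (L := fun z => cY ((φ p)⁻¹.map z)) ?_ (fun z => ?_) (fun z => ?_) (hW.left _)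
      (R' := Rφ) (fun z hz => ?_) z
    · exact (cY : E (n + 1) →L[ℝ] ℝ).contDiff.comp (map_smooth (φ p)⁻¹)
    · have := hLW (s, p) z
      rwa [h4] at this
    · show cY ((φ p)⁻¹.map ((φ p).map z)) = cY z
      rw [inv_map_map]
    · refine hφ1 p z (norm_gt_of_cX (lt_of_lt_of_le ?_ (neg_le_abs _)))
      linarith
  · intro p s z hp
    refine wave_id hW (s, p) (fun z => ?_) z
    have := hLW (s, p) z
    rwa [hFfar s p (by linarith [le_max_left R₀ 1])] at this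

theorem thtp_comp {L L' : P → E (n + 1) → ℝ} (h : THtp L L') {φ φ' : P → SympCt (n + 1)}
    (hφ : Htp φ φ') :
    THtp (fun p z => L p ((φ p).map z)) (fun p z => L' p ((φ' p).map z)) := by
  have : ProperSpace P := FiniteDimensional.proper_real P
  obtain ⟨F, K, hK, h1, h2, h3, h4, h5⟩ := h
  obtain ⟨B, K', hK', k1, k2, k3, k4⟩ := hφ
  obtain ⟨R, hR, hRK⟩ := pair_radius hK
  obtain ⟨R', hR', hRK'⟩ := pair_radius hK'
  refine ⟨fun s p z => F s p ((B s p).map z),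
    closedBall 0 (max R R') ×ˢ closedBall 0 (max R R'),
    (isCompact_closedBall _ _).prod (isCompact_closedBall _ _), ?_, fun s q hq => ?_,
    fun s p => nt_comp (h3 s p) (B s p), ?_, ?_⟩
  · exact h1.comp (contDiff_fst.prodMk ((contDiff_fst.comp contDiff_snd).prodMk k1))
  · rw [mem_prod, not_and_or, mem_closedBall_zero_iff, mem_closedBall_zero_iff, not_le,
      not_le] at hq
    have a1 : (B s q.1).map q.2 = q.2 := k2 s q (hRK' q.1 q.2
      (hq.imp (lt_of_le_of_lt (le_max_right _ _)) (lt_of_le_of_lt (le_max_right _ _))))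
    show F s q.1 ((B s q.1).map q.2) = _
    rw [a1]
    exact h2 s q (hRK q.1 q.2
      (hq.imp (lt_of_le_of_lt (le_max_left _ _)) (lt_of_le_of_lt (le_max_left _ _))))
  · show (fun p z => F 0 p ((B 0 p).map z)) = _
    rw [h4, k3]
  · show (fun p z => F 1 p ((B 1 p).map z)) = _
    rw [h5, k4]

/-- the suspensions are in the kernel -/
theorem thtp_of_susp (hn : 0 < n) {b : P × ℝ × ℝ → SympCt n} (hb : Fam b)
    {ψ : P → SympCt (n + 1)} (hψ : IsSusp b ψ) :
    THtp (fun _ => (cY : E (n + 1) → ℝ)) (fun p z => cY ((ψ p)⁻¹.map z)) := by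
  have : ProperSpace P := FiniteDimensional.proper_real P
  obtain ⟨β, R, K, C, hR, hd, hψC⟩ := exists_sdata_of hn hb hψ 1
  have hR0 := hd.pos
  let σ : ℝ × P → (ℝ × P) × ℝ := fun q => ((0, q.2), tm R q.1)
  have hσ : ContDiff ℝ ∞ σ :=
    (contDiff_const.prodMk contDiff_snd).prodMk ((tm_smooth R).comp contDiff_fst)
  obtain ⟨F, R', hF, hFC⟩ := hd.sc.tfam_path hσ
    (((isCompact_singleton (x := (0 : ℝ))).prod (isCompact_closedBall (0 : P) R)).prod
      (isCompact_Icc (a := -R - 1) (b := R + 1))) (fun q => by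
      by_cases hq : ‖q.2‖ ≤ R
      · exact Or.inl ⟨⟨rfl, by simpa using hq⟩, tm_mem hR0 q.1⟩
      · exact Or.inr fun z => hd.far 0 q.2 (tm R q.1) z (not_le.1 hq))
  have h1 := tfam_thtp hF (R₁ := R) (fun s p hp => by
    ext z
    have h5 := hFC (s, p) z
    have h6 : C (σ (s, p)).1 (σ (s, p)).2 z = z := hd.far 0 p _ z hp
    rwa [h6] at h5)
  have e0 : (fun p => F (0, p)) = fun _ => (cY : E (n + 1) → ℝ) := by
    ext p z
    have h5 := hFC (0, p) z
    have h6 : C (σ (0, p)).1 (σ (0, p)).2 z = z := by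
      show C (0, p) (tm R 0) z = z
      rw [tm_zero]
      exact hd.td.zero _ _
    rwa [h6] at h5
  have e1 : (fun p => F (1, p)) = fun p z => cY ((ψ p)⁻¹.map z) := by
    ext p ζ
    obtain ⟨z, rfl⟩ : ∃ z, (ψ p).map z = ζ := ⟨(ψ p)⁻¹.map ζ, map_inv_map _ _⟩
    have h5 := hFC (1, p) z
    have h6 : C (σ (1, p)).1 (σ (1, p)).2 z = (ψ p).map z := by
      show C (0, p) (tm R 1) z = _
      rw [tm_one, hψC]
    rw [h6] at h5
    show F (1, p) ((ψ p).map z) = cY ((ψ p)⁻¹.map ((ψ p).map z))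
    rw [h5, inv_map_map]
  rw [e0, e1] at h1
  exact h1

theorem thtp_of_htp_susp (hn : 0 < n) {b : P × ℝ × ℝ → SympCt n} (hb : Fam b)
    {ψ φ : P → SympCt (n + 1)} (hψ : IsSusp b ψ) (h : Htp φ ψ) :
    THtp (fun _ => (cY : E (n + 1) → ℝ)) (fun p z => cY ((φ p)⁻¹.map z)) := by
  have h1 := htp_mul h (htp_inv (htp_refl (htp_fam_left h)))
  have h2 := thtp_comp (thtp_of_susp hn hb hψ) h1
  have e1 : (fun (p : P) (z : E (n + 1)) => cY ((φ p * (φ p)⁻¹).map z)) =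
      fun _ => (cY : E (n + 1) → ℝ) := by
    ext p z
    rw [mul_inv_cancel]
    rfl
  have e2 : (fun (p : P) (z : E (n + 1)) => cY ((ψ p)⁻¹.map ((ψ p * (φ p)⁻¹).map z))) =
      fun p z => cY ((φ p)⁻¹.map z) := by
    ext p z
    rw [mul_map, inv_map_map]
  rw [e1, e2] at h2
  exact h2

/-- exactness at `π_{k+2}(G_n)`, first half -/
theorem null_of_scat (hn : 0 < n) {b : P × ℝ × ℝ → SympCt n} (hb : Fam b)
    {ψ : P → SympCt (n + 1)} (hψ : IsSusp b ψ) {L : P × ℝ → E (n + 1) → ℝ} (hL : TMap L)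
    (hs : IsScat L (fun q => b (q.1.1, q.1.2, q.2))) : Htp ψ 1 := by
  obtain ⟨R, -, hT, hT0⟩ := tmap_tfam hL 1
  obtain ⟨W, hW, hLW⟩ := hT.exists_wave
  obtain ⟨c, hc, hco⟩ := hW.exists_out
  have e1 : c = fun q y => b (q.1, q.2, y) := by
    ext1 q
    exact scat_unique (hL.nt q) (scat_of hW hco (hT.slice q) q (hLW q)) (hs q)
  have hid : ∀ p s z, (R < ‖p‖ ∨ R < |s|) → W (p, s) z = z := by
    intro p s z h
    refine wave_id hW (p, s) (fun z => ?_) z
    have := hLW (p, s) z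
    rwa [hT0 (p, s) (by rw [Prod.norm_def]; exact lt_max_iff.2 h)] at this
  rw [e1] at hco
  refine htp_symm (compare hn hW hb hco (R₁ := R) (φ := 1) ?_ ?_ ?_ hψ)
  · exact fun p s z h => hid p s z (Or.inr (lt_abs.2 (Or.inr (by linarith))))
  · exact fun p s z h => hid p s z (Or.inr (lt_abs.2 (Or.inl h)))
  · exact fun p s z h => hid p s z (Or.inl h)

/-- exactness at `π_{k+2}(G_n)`, second half -/
theorem scat_of_null (hn : 0 < n) {b : P × ℝ × ℝ → SympCt n} (hb : Fam b)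
    {ψ : P → SympCt (n + 1)} (hψ : IsSusp b ψ) (h : Htp ψ 1) :
    ∃ L : P × ℝ → E (n + 1) → ℝ, TMap L ∧ IsScat L (fun q => b (q.1.1, q.1.2, q.2)) := by
  have : ProperSpace P := FiniteDimensional.proper_real P
  obtain ⟨B, K₀, hK₀, h1, h2, h3, h4⟩ := h
  obtain ⟨R₂, hR₂, hRK⟩ := pair_radius hK₀
  obtain ⟨β, R, K, C, hR, hd, hψC⟩ := exists_sdata_of hn hb hψ (max R₂ 1)
  have hR0 := hd.pos
  have hRR₂ : R₂ ≤ R := (le_max_left _ _).trans hR
  have hR1 : 1 ≤ R := (le_max_right _ _).trans hR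
  let Ψ : P × ℝ → SympCt (n + 1) := fun q => (B (1 - et q.2) q.1)⁻¹
  have hΨs : ContDiff ℝ ∞ (fun q : (P × ℝ) × E (n + 1) => (Ψ q.1).map q.2) := by
    refine inv_smooth (φ := fun q : P × ℝ => B (1 - et q.2) q.1) ?_
    have h5 : ContDiff ℝ ∞ (fun q : (P × ℝ) × E (n + 1) =>
        ((1 - et q.1.2, q.1.1, q.2) : ℝ × P × E (n + 1))) :=
      (contDiff_const.sub (et_smooth.comp (contDiff_snd.comp contDiff_fst))).prodMk
        ((contDiff_fst.comp contDiff_fst).prodMk contDiff_snd)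
    exact h1.comp h5
  have hinv : ∀ (χ : SympCt (n + 1)) (z : E (n + 1)), χ.map z = z → χ⁻¹.map z = z := by
    intro χ z hz
    have := inv_map_map χ z
    rwa [hz] at this
  have hΨoff : ∀ q z, R < ‖z‖ → (Ψ q).map z = z := fun q z hz =>
    hinv _ _ (h2 _ (q.1, z) (hRK _ _ (Or.inr (by linarith))))
  have hΨfar : ∀ q : P × ℝ, R < ‖q.1‖ → ∀ z, (Ψ q).map z = z := fun q hq z =>
    hinv _ _ (h2 _ (q.1, z) (hRK _ _ (Or.inl (by linarith))))
  have hΨ0 : ∀ q : P × ℝ, q.2 ≤ 0 → Ψ q = 1 := by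
    intro q hq
    show (B (1 - et q.2) q.1)⁻¹ = 1
    rw [et_zero hq, sub_zero, h4]
    simp
  have hΨ1 : ∀ q : P × ℝ, 1 ≤ q.2 → Ψ q = (ψ q.1)⁻¹ := by
    intro q hq
    show (B (1 - et q.2) q.1)⁻¹ = _
    rw [et_one hq, sub_self, h3]
  obtain ⟨hΨS, hΨo⟩ := Sc.of_symp hΨs hR0 hΨoff
  let ι : P × ℝ → (ℝ × P) × ℝ := fun q => ((0, q.1), q.2)
  have hι : ContDiff ℝ ∞ ι := (contDiff_const.prodMk contDiff_fst).prodMk contDiff_snd
  have hC := hd.sc.pull hι
  have hCo := hd.out.pull hι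
  have hV := hΨS.comp hC
  have hVo := Out.comp hC hΨo hCo
  have hVid : ∀ q : P × ℝ, (R < ‖q.1‖ ∨ R + 1 < |q.2|) → ∀ z,
      (Ψ q).map (C (0, q.1) q.2 z) = z := by
    intro q hq z
    rcases hq with hq | hq
    · rw [hd.far 0 q.1 q.2 z hq, hΨfar q hq]
    · rcases lt_abs.1 hq with h5 | h5
      · rw [hΨ1 q (by linarith), C_late hd.kfam hd.td (0, q.1) z (by linarith), ← hψC,
          inv_map_map]
      · rw [hΨ0 q (by linarith), C_early hd.kfam hd.td (0, q.1) z (by linarith)]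
        rfl
  obtain ⟨L, R', hL, hLV⟩ := hV.tfam_path (σ := fun q : P × ℝ => q) contDiff_id
    ((isCompact_closedBall (0 : P) R).prod (isCompact_Icc (a := -(R + 1)) (b := R + 1)))
    (fun q => by
      by_cases hq : ‖q.1‖ ≤ R ∧ |q.2| ≤ R + 1
      · exact Or.inl ⟨by simpa using hq.1, abs_le.1 hq.2⟩
      · rw [not_and_or, not_le, not_le] at hq
        exact Or.inr (hVid q hq))
  refine ⟨L, tfam_tmap hL (R₁ := R + 1) fun q hq => ?_, fun q => ?_⟩
  · ext z
    have h5 := hLV q z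
    rw [Prod.norm_def, lt_max_iff] at hq
    have h6 : (Ψ q).map (C (0, q.1) q.2 z) = z :=
      hVid q (hq.imp (fun h => by linarith) (fun h => h)) z
    have h7 : L q ((Ψ q).map (C (0, q.1) q.2 z)) = cY z := h5
    rwa [h6] at h7
  · have h5 := scat_of hV hVo (hL.slice q) q (hLV q)
    have h6 : (fun y => (1 : SympCt n) * b (q.1, q.2, y)) = fun y => b (q.1, q.2, y) := by
      ext1 y
      rw [one_mul]
    have h7 : IsScattering (L q) (fun y => (1 : SympCt n) * b (q.1, q.2, y)) := h5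
    rw [h6] at h7
    exact h7

end susp

end Pool.Agent.H822.EX
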