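import Mathlib
import Pool.Agent.H822.EX.MainP

/-!
# Consequences of the exact sequence
-/

set_option autoImplicit false

open scoped ContDiff
open Set Filter Topology Function Metric
open Q170.SC Pool.Agent.H822.Ham Pool.Agent.H822.Pairs Pool.Agent.H822.PairsMain
open Pool.Agent.GR.Flow Pool.Agent.H822.Par Pool.Agent.Q191.SY

namespace Pool.Agent.H822.EX

variable {n : ℕ}

open Td (et et_smooth et_zero et_one)

section

variable {P : Type} [NormedAddCommGroup P] [NormedSpace ℝ P]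

theorem thtp_left {L L' : P → E (n + 1) → ℝ} (h : THtp L L') : TMap L := by
  obtain ⟨F, K, hK, h1, h2, h3, h4, h5⟩ := h
  rw [← h4]
  exact ⟨h1.comp ((contDiff_const (c := (0 : ℝ))).prodMk contDiff_id), ⟨K, hK, h2 0⟩, h3 0⟩

theorem thtp_refl {L : P → E (n + 1) → ℝ} (h : TMap L) : THtp L L := by
  obtain ⟨K, hK, hoff⟩ := h.supp
  exact ⟨fun _ => L, K, hK, h.smooth.comp contDiff_snd, fun _ => hoff, fun _ => h.nt, rfl, rfl⟩

theorem thtp_symm {L L' : P → E (n + 1) → ℝ} (h : THtp L L') : THtp L' L := by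
  obtain ⟨F, K, hK, h1, h2, h3, h4, h5⟩ := h
  refine ⟨fun s => F (1 - s), K, hK, ?_, fun s => h2 _, fun s => h3 _, by simpa using h5,
    by simpa using h4⟩
  exact h1.comp ((contDiff_const.sub contDiff_fst).prodMk contDiff_snd)

theorem thtp_trans {L L' L'' : P → E (n + 1) → ℝ} (h : THtp L L') (h' : THtp L' L'') :
    THtp L L'' := by
  have hL' : TMap L' := thtp_left h'
  obtain ⟨F, K, hK, h1, h2, h3, h4, h5⟩ := h
  obtain ⟨G, K', hK', k1, k2, k3, k4, k5⟩ := h'
  have e1 : ∀ s : ℝ, s ≤ 1 / 2 → et (3 * s - 2) = 0 := fun s hs => et_zero (by linarith)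
  have e2 : ∀ s : ℝ, 1 / 2 ≤ s → et (3 * s) = 1 := fun s hs => et_one (by linarith)
  have hlo : ∀ s : ℝ, s ≤ 1 / 2 → (fun (p : P) (z : E (n + 1)) =>
      F (et (3 * s)) p z + G (et (3 * s - 2)) p z - L' p z) = F (et (3 * s)) := by
    intro s hs
    ext p z
    rw [e1 s hs, k4]
    ring
  have hhi : ∀ s : ℝ, 1 / 2 ≤ s → (fun (p : P) (z : E (n + 1)) =>
      F (et (3 * s)) p z + G (et (3 * s - 2)) p z - L' p z) = G (et (3 * s - 2)) := by
    intro s hs
    ext p z
    rw [e2 s hs, h5]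
    ring
  refine ⟨fun s p z => F (et (3 * s)) p z + G (et (3 * s - 2)) p z - L' p z, K ∪ K',
    hK.union hK', ?_, fun s q hq => ?_, fun s p => ?_, ?_, ?_⟩
  · have a1 : ContDiff ℝ ∞ (fun q : ℝ × P × E (n + 1) => F (et (3 * q.1)) q.2.1 q.2.2) :=
      h1.comp ((et_smooth.comp (contDiff_const.mul contDiff_fst)).prodMk contDiff_snd)
    have a2 : ContDiff ℝ ∞ (fun q : ℝ × P × E (n + 1) => G (et (3 * q.1 - 2)) q.2.1 q.2.2) :=
      k1.comp ((et_smooth.comp ((contDiff_const.mul contDiff_fst).sub contDiff_const)).prodMk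
        contDiff_snd)
    exact (a1.add a2).sub (hL'.smooth.comp contDiff_snd)
  · rcases le_total s (1 / 2) with hs | hs
    · exact (congrFun (congrFun (hlo s hs) q.1) q.2).trans
        (h2 _ q fun h => hq (Or.inl h))
    · exact (congrFun (congrFun (hhi s hs) q.1) q.2).trans
        (k2 _ q fun h => hq (Or.inr h))
  · rcases le_total s (1 / 2) with hs | hs
    · have a := congrFun (hlo s hs) p
      have b := h3 (et (3 * s)) p
      rw [← a] at b
      exact b
    · have a := congrFun (hhi s hs) p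
      have b := k3 (et (3 * s - 2)) p
      rw [← a] at b
      exact b
  · have hz : et (3 * (0 : ℝ)) = 0 := et_zero (by norm_num)
    exact (hlo 0 (by norm_num)).trans ((congrArg F hz).trans h4)
  · have hz : et (3 * (1 : ℝ) - 2) = 1 := et_one (by norm_num)
    exact (hhi 1 (by norm_num)).trans ((congrArg G hz).trans k5)

theorem tmap_cY : TMap (fun (_ : P) => (cY : E (n + 1) → ℝ)) :=
  ⟨(cY : E (n + 1) →L[ℝ] ℝ).contDiff.comp contDiff_snd, ⟨∅, isCompact_empty, fun _ _ => rfl⟩,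
    fun _ => nt_cY⟩

omit [NormedAddCommGroup P] [NormedSpace ℝ P] in
theorem scat_cYP : IsScat (fun (_ : P) => (cY : E (n + 1) → ℝ)) (1 : P × ℝ → SympCt n) :=
  fun _ => scat_cY

theorem fam_one : Fam (1 : P → SympCt n) :=
  ⟨contDiff_snd, ∅, isCompact_empty, fun _ _ => rfl⟩

theorem fam_inv [FiniteDimensional ℝ P] {φ : P → SympCt n} (h : Fam φ) :
    Fam (fun p => (φ p)⁻¹) := htp_fam_left (htp_inv (htp_refl h))

theorem fam_mul {φ ψ : P → SympCt n} (h : Fam φ) (h' : Fam ψ) :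
    Fam (fun p => φ p * ψ p) := htp_fam_left (htp_mul (htp_refl h) (htp_refl h'))

/-- freeness -/
theorem nt_free {L : E (n + 1) → ℝ} (hL : NonTrapping L) {φ φ' : SympCt (n + 1)}
    (h : ∀ z, L (φ.map z) = L (φ'.map z)) : φ = φ' := by
  have hT : TMap (fun _ : Unit => L) := by
    obtain ⟨K, hK, hoff⟩ := hL.std
    refine ⟨hL.smooth.comp contDiff_snd, ⟨univ ×ˢ K, isCompact_univ.prod hK, fun q hq => ?_⟩,
      fun _ => hL⟩
    rw [mem_prod, not_and_or] at hq
    exact hoff _ (hq.resolve_left fun h => h (mem_univ _))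
  obtain ⟨R, -, hT, hT0⟩ := tmap_tfam hT 1
  obtain ⟨W, hW, hLW⟩ := hT.exists_wave
  have key : ∀ χ : SympCt (n + 1), (∀ z, L (χ.map z) = L z) → χ = 1 := by
    intro χ hχ
    refine map_eq_one fun ζ => ?_
    obtain ⟨z, rfl⟩ := (hW.fam.bij ()).2 ζ
    obtain ⟨K, hK, hoff⟩ := χ.2.2
    obtain ⟨R', hR', hRK⟩ := exists_radius hK
    refine wave_unique (L := L) (W := fun z => χ.map (W () z)) (W' := W ())
      ((map_smooth χ).comp (hW.fam.slice ())) (fun z u v => ?_) (hW.fam.slice ())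
      (hW.fam.symp ()) hL.smooth (fun z => (hχ _).trans (hLW () z)) (hLW ())
      (R := max R R') (fun z hz => ?_) (hW.left ()) z
    · have h2 : fderiv ℝ (fun z => χ.map (W () z)) z =
          (fderiv ℝ χ.map (W () z)).comp (fderiv ℝ (W ()) z) :=
        fderiv_comp z ((map_smooth χ).differentiable (by simp) _)
          ((hW.fam.slice ()).differentiable (by simp) z)
      rw [h2]
      exact ((χ.2.1.form _ _ _).trans (hW.fam.symp () z u v))
    · have h3 : W () z = z := hW.left () z (by linarith [le_max_left R R'])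
      show χ.map (W () z) = z
      rw [h3]
      refine hoff z (hRK z (norm_gt_of_cX (lt_of_lt_of_le ?_ (neg_le_abs _))))
      linarith [le_max_right R R']
  have h1 : φ' * φ⁻¹ = 1 := by
    refine key _ fun z => ?_
    rw [mul_map, ← h, map_inv_map]
  exact (mul_inv_eq_one.1 h1).symm

end

/-! ### path components -/

theorem joined_iff_htp (φ ψ : SympCt n) :
    Joined φ ψ ↔ Htp (fun _ : Unit => φ) (fun _ : Unit => ψ) := by
  rw [joined_iff]
  constructor
  · rintro ⟨K, hK, Φ, h1, h2, h3, h4⟩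
    refine ⟨fun s _ => Φ s, univ ×ˢ K, isCompact_univ.prod hK,
      h1.comp (contDiff_fst.prodMk (contDiff_snd.comp contDiff_snd)), fun s q hq => ?_, ?_, ?_⟩
    · rw [mem_prod, not_and_or] at hq
      exact h2 s _ (hq.resolve_left fun h => h (mem_univ _))
    · ext1 u; exact h3
    · ext1 u; exact h4
  · rintro ⟨B, K, hK, h1, h2, h3, h4⟩
    refine ⟨Prod.snd '' K, hK.image continuous_snd, fun s => B s (), ?_, fun s z hz => ?_,
      congrFun h3 (), congrFun h4 ()⟩
    · exact h1.comp (contDiff_fst.prodMk (contDiff_const.prodMk contDiff_snd))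
    · exact h2 s ((), z) fun h => hz ⟨((), z), h, rfl⟩

theorem deform_iff_thtp (L L' : E (n + 1) → ℝ) :
    Deform L L' ↔ THtp (fun _ : Unit => L) (fun _ : Unit => L') := by
  constructor
  · rintro ⟨F, K, hK, h1, h2, h3, h4, h5⟩
    refine ⟨fun s _ => F s, univ ×ˢ K, isCompact_univ.prod hK,
      h1.comp (contDiff_fst.prodMk (contDiff_snd.comp contDiff_snd)), fun s q hq => ?_,
      fun s _ => h3 s, ?_, ?_⟩
    · rw [mem_prod, not_and_or] at hq
      exact h2 s _ (hq.resolve_left fun h => h (mem_univ _))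
    · ext1 u; exact h4
    · ext1 u; exact h5
  · rintro ⟨B, K, hK, h1, h2, h3, h4, h5⟩
    refine ⟨fun s => B s (), Prod.snd '' K, hK.image continuous_snd, ?_, fun s z hz => ?_,
      fun s => h3 s (), congrFun h4 (), congrFun h5 ()⟩
    · exact h1.comp (contDiff_fst.prodMk (contDiff_const.prodMk contDiff_snd))
    · exact h2 s ((), z) fun h => hz ⟨((), z), h, rfl⟩

theorem tmap_const {L : E (n + 1) → ℝ} (hL : NonTrapping L) : TMap (fun _ : Unit => L) := by
  obtain ⟨K, hK, hoff⟩ := hL.std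
  refine ⟨hL.smooth.comp contDiff_snd, ⟨univ ×ˢ K, isCompact_univ.prod hK, fun q hq => ?_⟩,
    fun _ => hL⟩
  rw [mem_prod, not_and_or] at hq
  exact hoff _ (hq.resolve_left fun h => h (mem_univ _))

theorem fam_const_unit (φ : SympCt n) : Fam (fun _ : Unit => φ) :=
  htp_fam_left ((joined_iff_htp φ φ).1 (Joined.refl φ))

/-! ### the kernel -/

section

variable {P : Type} [NormedAddCommGroup P] [NormedSpace ℝ P] [FiniteDimensional ℝ P]

/-- exactness at `π_k(G_{n+1})` -/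
theorem kernel_iff (hn : 0 < n) {φ : P → SympCt (n + 1)} (hφ : Fam φ) :
    THtp (fun _ => (cY : E (n + 1) → ℝ)) (fun p z => cY ((φ p)⁻¹.map z)) ↔
      ∃ (b : P × ℝ × ℝ → SympCt n) (ψ : P → SympCt (n + 1)),
        Fam b ∧ IsSusp b ψ ∧ Htp φ ψ :=
  ⟨susp_of_thtp hn hφ, fun ⟨_, _, hb, hψ, h⟩ => thtp_of_htp_susp hn hb hψ h⟩

theorem thtp_shift {φ φ' χ : P → SympCt (n + 1)} (hχ : Fam χ)
    (h : THtp (fun p z => cY ((φ p)⁻¹.map z)) (fun p z => cY ((φ' p)⁻¹.map z))) :
    THtp (fun p z => cY ((χ p * φ p)⁻¹.map z)) (fun p z => cY ((χ p * φ' p)⁻¹.map z)) := by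
  have h2 := thtp_comp h (htp_inv (htp_refl hχ))
  have e : ∀ (φ : P → SympCt (n + 1)), (fun (p : P) (z : E (n + 1)) =>
      cY ((φ p)⁻¹.map ((χ p)⁻¹.map z))) = fun p z => cY ((χ p * φ p)⁻¹.map z) := by
    intro φ
    ext p z
    rw [mul_inv_rev, mul_map]
  rw [← e φ, ← e φ']
  exact h2

/-- two families give homotopic functions iff they differ by a suspension -/
theorem same_iff (hn : 0 < n) {φ φ' : P → SympCt (n + 1)} (hφ : Fam φ) (hφ' : Fam φ') :
    THtp (fun p z => cY ((φ p)⁻¹.map z)) (fun p z => cY ((φ' p)⁻¹.map z)) ↔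
      ∃ (b : P × ℝ × ℝ → SympCt n) (ψ : P → SympCt (n + 1)),
        Fam b ∧ IsSusp b ψ ∧ Htp φ' (fun p => φ p * ψ p) := by
  have e1 : (fun (p : P) (z : E (n + 1)) => cY (((φ p)⁻¹ * φ p)⁻¹.map z)) =
      fun _ => (cY : E (n + 1) → ℝ) := by
    ext p z
    rw [inv_mul_cancel, inv_one]
    rfl
  have e2 : (fun (p : P) (z : E (n + 1)) => cY ((φ p * 1)⁻¹.map z)) =
      fun p z => cY ((φ p)⁻¹.map z) := by
    ext p z
    rw [mul_one]
  have e3 : (fun (p : P) (z : E (n + 1)) => cY ((φ p * ((φ p)⁻¹ * φ' p))⁻¹.map z)) =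
      fun p z => cY ((φ' p)⁻¹.map z) := by
    ext p z
    rw [mul_inv_cancel_left]
  constructor
  · intro h
    have h2 := thtp_shift (fam_inv hφ) h
    rw [e1] at h2
    obtain ⟨b, ψ, hb, hψ, h3⟩ := (kernel_iff hn (fam_mul (fam_inv hφ) hφ')).1 h2
    refine ⟨b, ψ, hb, hψ, ?_⟩
    have h4 := htp_mul (htp_refl hφ) h3
    simpa using h4
  · rintro ⟨b, ψ, hb, hψ, h⟩
    have h4 := htp_mul (htp_refl (fam_inv hφ)) h
    have h5 : Htp (fun p => (φ p)⁻¹ * φ' p) ψ := by simpa using h4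
    have h6 := (kernel_iff hn (fam_mul (fam_inv hφ) hφ')).2 ⟨b, ψ, hb, hψ, h5⟩
    have e4 : (fun (_ : P) => (cY : E (n + 1) → ℝ)) =
        fun p z => cY (((1 : P → SympCt (n + 1)) p)⁻¹.map z) := by
      ext p z
      show _ = cY ((1 : SympCt (n + 1))⁻¹.map z)
      rw [inv_one]
      rfl
    rw [e4] at h6
    have h7 := thtp_shift hφ h6
    rw [e3] at h7
    have e5 : (fun (p : P) (z : E (n + 1)) => cY ((φ p * (1 : P → SympCt (n + 1)) p)⁻¹.map z)) =
        fun p z => cY ((φ p)⁻¹.map z) := e2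
    rw [e5] at h7
    exact h7

end

/-- every compactly supported smooth family in `G_n` is null-homotopic -/
def GTrivial (n : ℕ) : Prop :=
  ∀ (P : Type) [NormedAddCommGroup P] [NormedSpace ℝ P] [FiniteDimensional ℝ P]
    (b : P → SympCt n), Fam b → Htp b 1

/-- every compactly supported smooth family of non-trapping functions is null-homotopic -/
def TTrivial (n : ℕ) : Prop :=
  ∀ (P : Type) [NormedAddCommGroup P] [NormedSpace ℝ P] [FiniteDimensional ℝ P]
    (L : P → E (n + 1) → ℝ), TMap L → THtp L (fun _ => cY)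

section

variable {P : Type} [NormedAddCommGroup P] [NormedSpace ℝ P] [FiniteDimensional ℝ P]

theorem surj_of_trivial (hn : 0 < n) (h : GTrivial n) {L : P → E (n + 1) → ℝ} (hL : TMap L) :
    ∃ φ : P → SympCt (n + 1), Fam φ ∧ THtp L (fun p z => cY ((φ p)⁻¹.map z)) := by
  obtain ⟨b, hb, hs⟩ := scat_existsP hL
  obtain ⟨φ, hφ, h2⟩ := orbit_of_htpP hn hL tmap_cY hs scat_cYP (h _ b hb)
  refine ⟨fun p => (φ p)⁻¹, fam_inv hφ, ?_⟩
  have e : (fun (p : P) (z : E (n + 1)) => cY (((φ p)⁻¹)⁻¹.map z)) =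
      fun p z => cY ((φ p).map z) := by
    ext p z
    rw [inv_inv]
  rw [e]
  exact h2

theorem inj_of_trivial (hn : 0 < n) (h : GTrivial n) {φ φ' : P → SympCt (n + 1)} (hφ : Fam φ)
    (hφ' : Fam φ') : Htp φ φ' ↔
      THtp (fun p z => cY ((φ p)⁻¹.map z)) (fun p z => cY ((φ' p)⁻¹.map z)) := by
  constructor
  · intro h2
    exact thtp_comp (thtp_refl (tmap_cY (P := P))) (htp_inv h2)
  · intro h2
    obtain ⟨b, ψ, hb, hψ, h3⟩ := (same_iff hn hφ hφ').1 h2
    have h4 := h _ b hb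
    obtain ⟨ψ', -, hψ'⟩ := susp_existsP (P := P) hn (fam_one (P := P × ℝ × ℝ) (n := n))
    have h5 : Htp ψ' 1 := null_of_scat hn (fam_one (P := P × ℝ × ℝ) (n := n)) hψ'
      (tmap_cY (P := P × ℝ)) (fun _ => scat_cY)
    have h6 : Htp ψ 1 := htp_trans (susp_htpP hn h4 hψ hψ') h5
    have h7 := htp_mul (htp_refl hφ) h6
    have h8 : Htp (fun p => φ p * ψ p) φ := by simpa using h7
    exact htp_symm (htp_trans h3 h8)

theorem gtrivial_iff (hn : 0 < n) (h : GTrivial n) : GTrivial (n + 1) ↔ TTrivial n := by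
  constructor
  · intro h2 P _ _ _ L hL
    obtain ⟨φ, hφ, h3⟩ := surj_of_trivial hn h hL
    have h4 := (inj_of_trivial hn h hφ fam_one).1 (h2 P φ hφ)
    exact thtp_trans h3 h4
  · intro h2 P _ _ _ φ hφ
    have h3 := h2 P (fun p z => cY ((φ p)⁻¹.map z)) (tmap_comp tmap_cY (fam_inv hφ))
    exact (inj_of_trivial hn h hφ fam_one).2 h3

end

theorem joined_of_trivial (hn : 0 < n) (h : GTrivial n) (φ ψ : SympCt (n + 1)) :
    Joined φ ψ ↔ Deform (fun z => cY (φ⁻¹.map z)) (fun z => cY (ψ⁻¹.map z)) := by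
  rw [joined_iff_htp, deform_iff_thtp]
  exact inj_of_trivial hn h (fam_const_unit φ) (fam_const_unit ψ)

theorem exists_of_trivial (hn : 0 < n) (h : GTrivial n) {L : E (n + 1) → ℝ}
    (hL : NonTrapping L) : ∃ φ : SympCt (n + 1), Deform L (fun z => cY (φ⁻¹.map z)) := by
  obtain ⟨φ, hφ, h2⟩ := surj_of_trivial hn h (tmap_const hL)
  exact ⟨φ (), (deform_iff_thtp _ _).2 h2⟩

theorem deform_symm2 {L L' : E (n + 1) → ℝ} (h : Deform L L') : Deform L' L :=
  (deform_iff_thtp _ _).2 (thtp_symm ((deform_iff_thtp _ _).1 h))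

theorem deform_trans2 {L L' L'' : E (n + 1) → ℝ} (h : Deform L L') (h' : Deform L' L'') :
    Deform L L'' :=
  (deform_iff_thtp _ _).2 (thtp_trans ((deform_iff_thtp _ _).1 h) ((deform_iff_thtp _ _).1 h'))

theorem cY_one : (fun z => cY ((1 : SympCt (n + 1))⁻¹.map z)) = (cY : E (n + 1) → ℝ) := by
  ext z
  rw [inv_one]
  rfl

theorem pathConnected_of_trivial (hn : 0 < n) (h : GTrivial n) :
    PathConnectedSpace (SympCt (n + 1)) ↔
      ∀ L : E (n + 1) → ℝ, NonTrapping L → Deform L cY := by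
  constructor
  · intro hpc L hL
    obtain ⟨φ, h2⟩ := exists_of_trivial hn h hL
    have h3 := (joined_of_trivial hn h φ 1).1 (hpc.joined _ _)
    rw [cY_one] at h3
    exact deform_trans2 h2 h3
  · intro h2
    have key : ∀ φ : SympCt (n + 1), Joined φ 1 := by
      intro φ
      rw [joined_of_trivial hn h, cY_one]
      exact h2 _ (nt_comp nt_cY φ⁻¹)
    exact ⟨⟨1⟩, fun φ ψ => (key φ).trans (key ψ).symm⟩

theorem countable_of_trivial (hn : 0 < n) (h : GTrivial n) :
    Countable (ZerothHomotopy (SympCt (n + 1))) ↔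
      ∃ S : Set (E (n + 1) → ℝ), S.Countable ∧ ∀ L : E (n + 1) → ℝ, NonTrapping L →
        ∃ M ∈ S, Deform L M := by
  constructor
  · intro hc
    refine ⟨range fun c : ZerothHomotopy (SympCt (n + 1)) =>
      fun z => cY ((Quotient.out c)⁻¹.map z), countable_range _, fun L hL => ?_⟩
    obtain ⟨φ, h2⟩ := exists_of_trivial hn h hL
    refine ⟨_, ⟨Quotient.mk _ φ, rfl⟩, deform_trans2 h2 ?_⟩
    exact (joined_of_trivial hn h _ _).1 (Quotient.exact (Quotient.out_eq
      (Quotient.mk (pathSetoid (SympCt (n + 1))) φ))).symm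
  · rintro ⟨S, hS, h2⟩
    have : Countable S := hS.to_subtype
    have h3 : ∀ φ : SympCt (n + 1), ∃ M : S, Deform (fun z => cY (φ⁻¹.map z)) M.1 := by
      intro φ
      obtain ⟨M, hM, h4⟩ := h2 _ (nt_comp nt_cY φ⁻¹)
      exact ⟨⟨M, hM⟩, h4⟩
    choose f hf using h3
    refine Function.Injective.countable (f := fun c : ZerothHomotopy (SympCt (n + 1)) =>
      f (Quotient.out c)) fun c d hcd => ?_
    have h5 : f (Quotient.out c) = f (Quotient.out d) := hcd
    have h6 := hf (Quotient.out c)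
    rw [h5] at h6
    have h7 := (joined_of_trivial hn h _ _).2 (deform_trans2 h6 (deform_symm2 (hf (Quotient.out d))))
    rw [← Quotient.out_eq c, ← Quotient.out_eq d]
    exact Quotient.sound h7

theorem pathConnected_of_trivial' (hn : 0 < n) (h : GTrivial n) :
    PathConnectedSpace (SympCt (n + 1)) ↔
      ∀ L : E (n + 1) → ℝ, NonTrapping L → THtp (fun _ : Unit => L) (fun _ => cY) := by
  simp only [← deform_iff_thtp]
  exact pathConnected_of_trivial hn h

theorem countable_of_trivial' (hn : 0 < n) (h : GTrivial n) :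
    Countable (ZerothHomotopy (SympCt (n + 1))) ↔
      ∃ S : Set (E (n + 1) → ℝ), S.Countable ∧ ∀ L : E (n + 1) → ℝ, NonTrapping L →
        ∃ M ∈ S, THtp (fun _ : Unit => L) (fun _ => M) := by
  simp only [← deform_iff_thtp]
  exact countable_of_trivial hn h

section

variable {P : Type} [NormedAddCommGroup P] [NormedSpace ℝ P] [FiniteDimensional ℝ P]

theorem fibre_iff (hn : 0 < n) {L L' : P → E (n + 1) → ℝ} (hL : TMap L) (hL' : TMap L')
    {b b' : P × ℝ → SympCt n} (hb : IsScat L b) (hb' : IsScat L' b') :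
    b = b' ↔ ∃! φ : P → SympCt (n + 1), Fam φ ∧ L = fun p z => L' p ((φ p).map z) := by
  constructor
  · rintro rfl
    obtain ⟨φ, hφ, h1⟩ := fibreP hn hL hL' hb hb'
    refine ⟨φ, ⟨hφ, h1⟩, fun φ' hφ' => ?_⟩
    ext1 p
    refine nt_free (hL'.nt p) fun z => ?_
    have h2 := congrFun (congrFun hφ'.2 p) z
    have h3 := congrFun (congrFun h1 p) z
    exact h2.symm.trans h3
  · rintro ⟨φ, ⟨-, rfl⟩, -⟩
    exact scat_uniqueP hL.nt hb fun p => scat_comp (hL'.nt p) (hb' p) (φ p)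

theorem lift_iff (hn : 0 < n) {L : P → E (n + 1) → ℝ} (hL : TMap L)
    {b b' : P × ℝ → SympCt n} (hb : IsScat L b) :
    Htp b b' ↔ ∃ L' : P → E (n + 1) → ℝ, TMap L' ∧ IsScat L' b' ∧ THtp L L' := by
  constructor
  · exact lift_htpP hn hL hb
  · rintro ⟨L', hL', hb', h⟩
    have h2 : THtp L (fun p z => L' p (((1 : P → SympCt (n + 1)) p).map z)) := h
    exact htp_of_orbitP hL hL' hb hb' h2

end

end Pool.Agent.H822.EX
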