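import Mathlib
import Pool.Agent.H822.EX.Seq
import Pool.Agent.H822.EX.FinDefs

/-!
# The two forms of the definitions agree
-/

set_option autoImplicit false

open scoped ContDiff
open Set Filter Topology Function
open Q170.SC Pool.Agent.H822.Ham

namespace Pool.Agent.H822.EF

variable {n : ℕ}

theorem orbit_iff (L : ℝ → E n → ℝ) (γ : ℝ → E n) :
    Orbit L γ ↔ ∀ t, HasDerivAt γ (ham (L t) (γ t)) t := Iff.rfl

theorem nt_iff (L : E (n + 1) → ℝ) : NonTrapping L ↔ EX.NonTrapping L :=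
  ⟨fun h => ⟨h.smooth, h.std, h.trapless⟩, fun h => ⟨h.smooth, h.std, h.trapless⟩⟩

variable {P : Type} [NormedAddCommGroup P] [NormedSpace ℝ P]

theorem fam_iff (b : P → SympCt n) : Fam b ↔ EX.Fam b :=
  ⟨fun ⟨h, K, hK, h2⟩ => ⟨h, K, hK, fun q hq => h2 q.1 q.2 hq⟩,
    fun ⟨h, K, hK, h2⟩ => ⟨h, K, hK, fun p z hq => h2 (p, z) hq⟩⟩

theorem htp_iff (b b' : P → SympCt n) : Htp b b' ↔ EX.Htp b b' := by
  constructor
  · rintro ⟨B, K, hK, h1, h2, h3⟩
    refine ⟨B, K, hK, ?_, fun s q hq => h2 s q.1 q.2 hq, h3⟩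
    exact h1.comp ((contDiff_fst.prodMk (contDiff_fst.comp contDiff_snd)).prodMk
      (contDiff_snd.comp contDiff_snd))
  · rintro ⟨B, K, hK, h1, h2, h3⟩
    refine ⟨B, K, hK, ?_, fun s p z hq => h2 s (p, z) hq, h3⟩
    exact h1.comp ((contDiff_fst.comp contDiff_fst).prodMk
      ((contDiff_snd.comp contDiff_fst).prodMk contDiff_snd))

theorem tmap_iff (L : P → E (n + 1) → ℝ) : TMap L ↔ EX.TMap L :=
  ⟨fun ⟨h, ⟨K, hK, h2⟩, h3⟩ => ⟨h, ⟨K, hK, fun q hq => h2 q.1 q.2 hq⟩, fun p => (nt_iff _).1 (h3 p)⟩,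
    fun ⟨h, ⟨K, hK, h2⟩, h3⟩ => ⟨h, ⟨K, hK, fun p z hq => h2 (p, z) hq⟩,
      fun p => (nt_iff _).2 (h3 p)⟩⟩

theorem thtp_iff (L L' : P → E (n + 1) → ℝ) : THtp L L' ↔ EX.THtp L L' := by
  constructor
  · rintro ⟨B, K, hK, h1, h2, h3, h4⟩
    refine ⟨B, K, hK, ?_, fun s q hq => h2 s q.1 q.2 hq, fun s p => (nt_iff _).1 (h3 s p), h4⟩
    exact h1.comp ((contDiff_fst.prodMk (contDiff_fst.comp contDiff_snd)).prodMk
      (contDiff_snd.comp contDiff_snd))
  · rintro ⟨B, K, hK, h1, h2, h3, h4⟩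
    refine ⟨B, K, hK, ?_, fun s p z hq => h2 s (p, z) hq, fun s p => (nt_iff _).2 (h3 s p), h4⟩
    exact h1.comp ((contDiff_fst.comp contDiff_fst).prodMk
      ((contDiff_snd.comp contDiff_fst).prodMk contDiff_snd))

theorem line_eq (z : E (n + 1)) (t : ℝ) :
    z + t • EX.e0 = point (X z + t) (Y z) (tail z) := by
  refine EX.ext_co ?_ ?_ ?_
  · rw [map_add, map_smul, EX.cX_e0, smul_eq_mul, mul_one]
    rfl
  · rw [map_add, map_smul, EX.cY_e0, smul_zero, add_zero]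
    rfl
  · rw [map_add, map_smul, EX.tl_e0, smul_zero, add_zero]
    rfl

omit [NormedAddCommGroup P] [NormedSpace ℝ P] in
theorem scat_iff (L : P → E (n + 1) → ℝ) (b : P × ℝ → SympCt n) :
    IsScat L b ↔ EX.IsScat L b := by
  have key : ∀ (γ : ℝ → E (n + 1)) (z : E (n + 1)), (fun t => γ t = z + t • EX.e0) =
      fun t => γ t = point (X z + t) (Y z) (tail z) := by
    intro γ z
    ext1 t
    rw [line_eq]
  refine forall_congr' fun p => forall_congr' fun γ => forall_congr' fun z => ?_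
  rw [key]
  exact Iff.rfl

theorem susp_iff (b : P × ℝ × ℝ → SympCt n) (ψ : P → SympCt (n + 1)) :
    IsSusp b ψ ↔ EX.IsSusp b ψ := by
  constructor
  · rintro ⟨K, β, C, R, h1, h2, h3, h4, h5, h6, h7, h8⟩
    refine ⟨fun p s y => K (p, s, y), β, C, R, ?_, h2, fun p s y w => h3 p y w s, h4, h5, h6,
      fun p s z => h7 p z s, h8⟩
    exact h1.comp ((contDiff_fst.prodMk ((contDiff_fst.comp contDiff_snd).prodMk
      (contDiff_fst.comp (contDiff_snd.comp contDiff_snd)))).prodMk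
      (contDiff_snd.comp (contDiff_snd.comp contDiff_snd)))
  · rintro ⟨K, β, C, R, h1, h2, h3, h4, h5, h6, h7, h8⟩
    refine ⟨fun q => K q.1 q.2.1 q.2.2, β, C, R, ?_, h2, fun p y w s => h3 p s y w, h4, h5, h6,
      fun p z s => h7 p s z, h8⟩
    exact h1.comp ((contDiff_fst.comp contDiff_fst).prodMk
      ((contDiff_fst.comp (contDiff_snd.comp contDiff_fst)).prodMk
        ((contDiff_snd.comp (contDiff_snd.comp contDiff_fst)).prodMk contDiff_snd)))

theorem gtrivial_iff' (n : ℕ) : GTrivial n ↔ EX.GTrivial n := by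
  constructor
  · intro h P _ _ _ b hb
    exact (htp_iff _ _).1 (h P b ((fam_iff _).2 hb))
  · intro h P _ _ _ b hb
    exact (htp_iff _ _).2 (h P b ((fam_iff _).1 hb))

theorem ttrivial_iff' (n : ℕ) : TTrivial n ↔ EX.TTrivial n := by
  constructor
  · intro h P _ _ _ b hb
    exact (thtp_iff _ _).1 (h P b ((tmap_iff _).2 hb))
  · intro h P _ _ _ b hb
    exact (thtp_iff _ _).2 (h P b ((tmap_iff _).1 hb))

end Pool.Agent.H822.EF
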