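import Mathlib
import Pool.Agent.H822.EX.FinDefs

/-!
# Symplectomorphisms with `∂X/∂x > 0`: definitions
-/

set_option autoImplicit false

open scoped ContDiff
open Set Filter Topology Function
open Q170.SC

namespace Pool.Agent.H822.EF

variable {n : ℕ}

/-- `ψ` lies in the subset `A_{n+1}` of `G_{n+1}`: the function `X ∘ ψ` has positive derivative in
the direction of the `X` axis, everywhere. -/
def Positive (ψ : SympCt (n + 1)) : Prop := ∀ z, 0 < X (fderiv ℝ ψ.map z (point 1 0 0))

/-- A smooth step function: `0` on the left, `1` on the right, with values in `[0, 1]`. -/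
structure Step (χ : ℝ → ℝ) : Prop where
  smooth : ContDiff ℝ ∞ χ
  ends : ∃ S : ℝ, (∀ s, s < -S → χ s = 0) ∧ ∀ s, S < s → χ s = 1
  mem : ∀ s, 0 ≤ χ s ∧ χ s ≤ 1

variable {P : Type} [NormedAddCommGroup P] [NormedSpace ℝ P]

/-- A smooth map with compact support from `P` to `A_{n+1}`. -/
structure PMap (φ : P → SympCt (n + 1)) : Prop where
  fam : Fam φ
  pos : ∀ p, Positive (φ p)

/-- Two such maps are smoothly homotopic in `A_{n+1}`, with compact support. -/
def PHtp (φ φ' : P → SympCt (n + 1)) : Prop :=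
  ∃ (B : ℝ → P → SympCt (n + 1)) (K : Set (P × E (n + 1))), IsCompact K ∧
    Smooth (fun q : ℝ × P => (B q.1 q.2).map) ∧
    (∀ s p z, (p, z) ∉ K → (B s p).map z = z) ∧ (∀ s p, Positive (B s p)) ∧ B 0 = φ ∧ B 1 = φ'

/-- `b` is the scattering map of the linear path from `Y` to `Y ∘ φ⁻¹`, run with the step function
`χ`: the family of the functions `(1 - χ s) Y + χ s Y ∘ (φ p)⁻¹`. -/
def IsLink (χ : ℝ → ℝ) (φ : P → SympCt (n + 1)) (b : P × ℝ × ℝ → SympCt n) : Prop :=
  IsScat (fun (q : P × ℝ) z => (1 - χ q.2) * Y z + χ q.2 * Y ((φ q.1)⁻¹.map z))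
    (fun q => b (q.1.1, q.1.2, q.2))

end Pool.Agent.H822.EF
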