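import Mathlib
import Pool.Agent.H822.EX.Main1

/-!
# Suspensions and symplectomorphisms with `∂X/∂x > 0`
-/

set_option autoImplicit false

open scoped ContDiff
open Set Filter Topology Function Metric
open Q170.SC Pool.Agent.H822.Ham Pool.Agent.H822.Pairs Pool.Agent.H822.PairsMain
open Pool.Agent.GR.Flow Pool.Agent.H822.Par Pool.Agent.Q191.SY

namespace Pool.Agent.H822.EX

variable {n : ℕ}

open Td (et et_smooth et_zero et_one det_smooth det_off et_deriv)

/-- the first `x` coordinate of `ψ` increases along the first `x` direction -/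
def Positive (ψ : SympCt (n + 1)) : Prop := ∀ z, 0 < cX (fderiv ℝ ψ.map z e0)

theorem trapless_of_pos {L : E (n + 1) → ℝ} {c : ℝ} (hc : 0 < c)
    (h : ∀ z, c ≤ cX (ham L z)) (γ : ℝ → E (n + 1)) (hγ : ∀ t, HasDerivAt γ (ham L (γ t)) t) :
    ¬ Bornology.IsBounded (range γ) := by
  intro hb
  obtain ⟨B, hB⟩ := hb.exists_norm_le
  have h1 : ∀ t, HasDerivAt (fun t => cX (γ t)) (cX (ham L (γ t))) t := fun t =>
    (cX : E (n + 1) →L[ℝ] ℝ).hasFDerivAt.comp_hasDerivAt t (hγ t)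
  have h2 := mul_sub_le_image_sub_of_le_deriv (f := fun t => cX (γ t)) (C := c)
    (fun t => (h1 t).differentiableAt) (fun t => by rw [(h1 t).deriv]; exact h _)
  have hB0 : 0 ≤ B := (norm_nonneg _).trans (hB _ ⟨0, rfl⟩)
  have h3 := h2 (x := 0) (y := (2 * B + 1) / c) (by positivity)
  rw [sub_zero, mul_div_cancel₀ _ hc.ne'] at h3
  have h4 := (abs_le.1 ((abs_cX_le _).trans (hB _ ⟨(2 * B + 1) / c, rfl⟩))).2
  have h5 := (abs_le.1 ((abs_cX_le _).trans (hB _ ⟨0, rfl⟩))).1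
  linarith

/-- the convex path from `Y` to `Y ∘ ψ⁻¹` -/
theorem deform_of_positive (ψ : SympCt (n + 1)) (h : Positive ψ) :
    Deform (cY : E (n + 1) → ℝ) (fun z => cY (ψ⁻¹.map z)) := by
  obtain ⟨K, hK, hoff⟩ := ψ⁻¹.2.2
  obtain ⟨R, hR, hRK⟩ := exists_radius hK
  set L : E (n + 1) → ℝ := fun z => cY (ψ⁻¹.map z) with hLdef
  have hL : ContDiff ℝ ∞ L := (cY : E (n + 1) →L[ℝ] ℝ).contDiff.comp (map_smooth ψ⁻¹)
  have hLoff : ∀ z, R < ‖z‖ → L z = cY z := fun z hz => congrArg cY (hoff z (hRK z hz))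
  have hpos : ∀ ζ, 0 < cX (ham L ζ) := by
    intro ζ
    have h1 := ham_natural (map_smooth ψ) ψ.2.1.form hL (ψ⁻¹.map ζ)
    have h2 : (fun y => L (ψ.map y)) = cY := by
      ext y
      show cY (ψ⁻¹.map (ψ.map y)) = cY y
      rw [inv_map_map]
    rw [h2, ham_cY, map_inv_map] at h1
    rw [← h1]
    exact h _
  obtain ⟨c, hc, hcL⟩ : ∃ c : ℝ, 0 < c ∧ ∀ ζ, c ≤ cX (ham L ζ) := by
    have hcont : Continuous (fun ζ => cX (ham L ζ)) :=
      (cX : E (n + 1) →L[ℝ] ℝ).continuous.comp (ham_smooth hL).continuous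
    obtain ⟨ζ₀, -, hmin⟩ := (isCompact_closedBall (0 : E (n + 1)) R).exists_isMinOn
      ⟨0, by simp [hR.le]⟩ hcont.continuousOn
    refine ⟨min 1 (cX (ham L ζ₀)), lt_min one_pos (hpos _), fun ζ => ?_⟩
    by_cases hζ : ‖ζ‖ ≤ R
    · exact (min_le_right _ _).trans (hmin (by simpa using hζ))
    · rw [ham_out hLoff (not_le.1 hζ), cX_e0]
      exact min_le_left _ _
  have hd1 : ∀ z, DifferentiableAt ℝ (cY : E (n + 1) → ℝ) z := fun z =>
    (cY : E (n + 1) →L[ℝ] ℝ).differentiableAt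
  have hd2 : ∀ z, DifferentiableAt ℝ L z := fun z => hL.differentiable (by simp) z
  have hT : TFam (fun s z => (1 - et s) * cY z + et s * L z) R := by
    refine ⟨hR, ?_, fun s z hz => ?_, fun s γ hγ => ?_⟩
    · exact ((contDiff_const.sub (et_smooth.comp contDiff_fst)).mul
        ((cY : E (n + 1) →L[ℝ] ℝ).contDiff.comp contDiff_snd)).add
        ((et_smooth.comp contDiff_fst).mul (hL.comp contDiff_snd))
    · show (1 - et s) * cY z + et s * L z = cY z
      rw [hLoff z hz]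
      ring
    · have hs := et_mem s
      refine trapless_of_pos (c := min 1 c) (lt_min one_pos hc) (fun z => ?_) γ hγ
      have e1 : ham (fun z => (1 - et s) * cY z + et s * L z) z =
          (1 - et s) • e0 + et s • ham L z := by
        have h1 : fderiv ℝ (fun z => (1 - et s) * cY z + et s * L z) z =
            (1 - et s) • fderiv ℝ (cY : E (n + 1) → ℝ) z + et s • fderiv ℝ L z :=
          ((hd1 z).hasFDerivAt.const_mul _ |>.add ((hd2 z).hasFDerivAt.const_mul _)).fderiv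
        rw [ham, h1, ← ham_cY z, ← dualL_apply, map_add, map_smul, map_smul]
        rfl
      rw [e1, map_add, map_smul, map_smul, cX_e0, smul_eq_mul, smul_eq_mul, mul_one]
      have h2 := mul_le_mul_of_nonneg_left (hcL z) hs.1
      have h3 := mul_le_mul_of_nonneg_left (min_le_right 1 c) hs.1
      have h4 := mul_le_mul_of_nonneg_left (min_le_left 1 c) (sub_nonneg.2 hs.2)
      linarith
  have h1 := tfam_deform hT
  have e0' : (fun z => (1 - et 0) * cY z + et 0 * L z) = (cY : E (n + 1) → ℝ) := by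
    ext z
    rw [et_zero le_rfl]
    ring
  have e1' : (fun z => (1 - et 1) * cY z + et 1 * L z) = L := by
    ext z
    rw [et_one le_rfl]
    ring
  rw [e0', e1'] at h1
  exact h1

theorem deform_of_iso {φ ψ : SympCt (n + 1)} (h : Positive ψ) (hiso : SmoothIsotopic φ ψ) :
    Deform (cY : E (n + 1) → ℝ) (fun z => cY (φ⁻¹.map z)) := by
  have h1 := si_mul hiso (si_refl φ⁻¹)
  rw [mul_inv_cancel] at h1
  have h2 := deform_comp_path (deform_of_positive ψ h) h1
  have e1 : (fun z => cY ((1 : SympCt (n + 1)).map z)) = (cY : E (n + 1) → ℝ) := rfl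
  have e2 : (fun z => cY (ψ⁻¹.map ((ψ * φ⁻¹).map z))) = fun z => cY (φ⁻¹.map z) := by
    ext z
    rw [mul_map, inv_map_map]
  rw [e1, e2] at h2
  exact h2

/-! ### Slow cut offs -/

theorem bdd_of_inv {F : Type} [NormedAddCommGroup F] {R : ℝ} {f : ℝ → E (n + 1) → F}
    (hf : Continuous (fun q : ℝ × E (n + 1) => f q.1 q.2))
    (hinv : ∀ s z (r : ℝ), f s (z + r • e0) = f s z)
    (hz : ∀ s z, (R < |s| ∨ R < |cY z| ∨ R < ‖tl z‖) → f s z = 0) :
    ∃ c : ℝ, 0 ≤ c ∧ ∀ s z, ‖f s z‖ ≤ c := by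
  obtain ⟨c, hc⟩ := (((isCompact_Icc (a := -R) (b := R)).prod
    (compact_tube (n := n) 0 0 R)).image hf).isBounded.exists_norm_le
  refine ⟨max c 0, le_max_right _ _, fun s z => ?_⟩
  by_cases h : R < |s| ∨ R < |cY z| ∨ R < ‖tl z‖
  · rw [hz s z h, norm_zero]
    exact le_max_right _ _
  · rw [not_or, not_or, not_lt, not_lt, not_lt] at h
    have h1 := hinv s z (-cX z)
    rw [← h1]
    have h2 : cX (z + (-cX z) • e0) = 0 := by simp
    exact (hc _ ⟨(s, z + (-cX z) • e0), ⟨abs_le.1 h.1, h2.ge, h2.le, by simpa using h.2.1,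
      by simpa using h.2.2⟩, rfl⟩).trans (le_max_left _ _)

theorem dual_cX : dual (cX : E (n + 1) →L[ℝ] ℝ) = -f0 := by
  refine omega_inj fun w => ?_
  rw [omega_dual]
  have h1 := omega_smul_left (-1) f0 w
  rw [neg_one_smul] at h1
  rw [h1, omega_f0]
  ring

/-- the cut off field with the slow cut off function -/
theorem ham_slow {K : ℝ → ℝ → ℝ → E n → ℝ} {R : ℝ} (hK : KFam K R) (ε p s : ℝ)
    (z : E (n + 1)) :
    ham (cut (fun _ x => et (ε * x)) K p s) z =
      et (ε * cX z) • ham (lift K p s) z +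
        (-(ε * deriv et (ε * cX z)) * lift K p s z) • f0 := by
  have h1 : HasFDerivAt (fun z : E (n + 1) => ε * cX z) (ε • (cX : E (n + 1) →L[ℝ] ℝ)) z :=
    (cX : E (n + 1) →L[ℝ] ℝ).hasFDerivAt.const_mul ε
  have h2 : HasFDerivAt (fun z : E (n + 1) => et (ε * cX z))
      (deriv et (ε * cX z) • (ε • (cX : E (n + 1) →L[ℝ] ℝ))) z :=
    (et_deriv (ε * cX z)).comp_hasFDerivAt z h1
  have h3 := ((lift_slice hK p s).differentiable (by simp) z).hasFDerivAt
  have h4 : fderiv ℝ (cut (fun _ x => et (ε * x)) K p s) z = _ := (h2.mul h3).fderiv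
  rw [ham, h4, ← dualL_apply, map_add, map_smul, map_smul, map_smul, map_smul, dualL_apply,
    dualL_apply, dual_cX, ham]
  rw [smul_neg, smul_neg, smul_neg, neg_mul, neg_smul, smul_smul, smul_smul]
  congr 2
  congr 1
  ring

theorem fderiv_slow {K : ℝ → ℝ → ℝ → E n → ℝ} {R : ℝ} (hK : KFam K R) (ε p s : ℝ)
    (z v : E (n + 1)) :
    fderiv ℝ (ham (cut (fun _ x => et (ε * x)) K p s)) z v =
      et (ε * cX z) • fderiv ℝ (ham (lift K p s)) z v +
      (deriv et (ε * cX z) * (ε * cX v)) • ham (lift K p s) z +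
        (-(ε * deriv et (ε * cX z)) * fderiv ℝ (lift K p s) z v +
          lift K p s z * -(ε * (deriv (deriv et) (ε * cX z) * (ε * cX v)))) • f0 := by
  have h1 : HasFDerivAt (fun z : E (n + 1) => ε * cX z) (ε • (cX : E (n + 1) →L[ℝ] ℝ)) z :=
    (cX : E (n + 1) →L[ℝ] ℝ).hasFDerivAt.const_mul ε
  have h2 : HasFDerivAt (fun z : E (n + 1) => et (ε * cX z))
      (deriv et (ε * cX z) • (ε • (cX : E (n + 1) →L[ℝ] ℝ))) z :=
    (et_deriv (ε * cX z)).comp_hasFDerivAt z h1
  have h2' : HasFDerivAt (fun z : E (n + 1) => deriv et (ε * cX z))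
      (deriv (deriv et) (ε * cX z) • (ε • (cX : E (n + 1) →L[ℝ] ℝ))) z := by
    have hdd : HasDerivAt (deriv et) (deriv (deriv et) (ε * cX z)) (ε * cX z) :=
      (det_smooth.differentiable (by simp) (ε * cX z)).hasDerivAt
    exact HasDerivAt.comp_hasFDerivAt (h₂ := deriv et) z hdd h1
  have h3 := ((lift_slice hK p s).differentiable (by simp) z).hasFDerivAt
  have h3' := ((ham_smooth (lift_slice hK p s)).differentiable (by simp) z).hasFDerivAt
  have h4 : ham (cut (fun _ x => et (ε * x)) K p s) = fun z =>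
      et (ε * cX z) • ham (lift K p s) z +
        (-(ε * deriv et (ε * cX z)) * lift K p s z) • f0 := funext fun z => ham_slow hK ε p s z
  have h5 := (h2.smul h3').add (((h2'.const_mul ε).neg.mul h3).smul_const (f0 : E (n + 1)))
  have h6 : fderiv ℝ (fun z => et (ε * cX z) • ham (lift K p s) z +
        (-(ε * deriv et (ε * cX z)) * lift K p s z) • (f0 : E (n + 1))) z = _ := h5.fderiv
  rw [h4, h6]
  simp only [_root_.add_apply, _root_.smul_apply, ContinuousLinearMap.smulRight_apply,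
    _root_.neg_apply, smul_eq_mul]
  rfl

theorem fderiv_e0 {F : Type} [NormedAddCommGroup F] [NormedSpace ℝ F] {f : E (n + 1) → F}
    (hf : Differentiable ℝ f) (hinv : ∀ z (r : ℝ), f (z + r • e0) = f z) (z : E (n + 1)) :
    fderiv ℝ f z e0 = 0 := by
  have h3 : HasDerivAt (fun t : ℝ => z + t • (e0 : E (n + 1))) ((1 : ℝ) • e0) 0 :=
    ((hasDerivAt_id (0 : ℝ)).smul_const _).const_add z
  rw [one_smul] at h3
  have h4 : HasFDerivAt f (fderiv ℝ f z) (z + (0 : ℝ) • e0) := by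
    rw [zero_smul, add_zero]
    exact (hf z).hasFDerivAt
  have h5 := h4.comp_hasDerivAt 0 h3
  have h6 : (f ∘ fun t : ℝ => z + t • (e0 : E (n + 1))) = fun _ => f z := by
    ext t
    exact hinv z t
  rw [h6] at h5
  exact h5.unique (hasDerivAt_const 0 _)

theorem fderiv_inv {F : Type} [NormedAddCommGroup F] [NormedSpace ℝ F] {f : E (n + 1) → F}
    (hinv : ∀ z (r : ℝ), f (z + r • e0) = f z) (z : E (n + 1)) (r : ℝ) :
    fderiv ℝ f (z + r • e0) = fderiv ℝ f z := by
  have h1 : (fun y => f (y + r • e0)) = f := funext fun y => hinv y r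
  conv_rhs => rw [← h1]
  rw [fderiv_comp_add_right]

theorem lift_zero {K : ℝ → ℝ → ℝ → E n → ℝ} {R : ℝ} (hK : KFam K R) (p s : ℝ)
    {z : E (n + 1)} (hz : R < |s| ∨ R < |cY z| ∨ R < ‖tl z‖) :
    lift K p s =ᶠ[𝓝 z] fun _ => 0 := by
  rcases hz with hz | hz | hz
  · exact Eventually.of_forall fun y => hK.off p s _ _ (Or.inl hz)
  · filter_upwards [continuousAt_const.eventually_lt
      (cY : E (n + 1) →L[ℝ] ℝ).continuous.abs.continuousAt hz] with y hy
    exact hK.off p s _ _ (Or.inr (Or.inl hy))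
  · filter_upwards [continuousAt_const.eventually_lt
      (tl : E (n + 1) →L[ℝ] E n).continuous.norm.continuousAt hz] with y hy
    exact hK.off p s _ _ (Or.inr (Or.inr hy))

theorem et_bounds : ∃ c : ℝ, 0 ≤ c ∧ ∀ t, |et t| ≤ c ∧ |deriv et t| ≤ c ∧
    |deriv (deriv et) t| ≤ c := by
  obtain ⟨M₁, hM₁⟩ := Par.exists_bound (deriv et) det_smooth.continuous (Icc (0 : ℝ) 1)
    isCompact_Icc 0 fun t ht => det_off ht
  have h2 : ∀ t, t ∉ Icc (0 : ℝ) 1 → deriv (deriv et) t = 0 := by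
    intro t ht
    have : deriv et =ᶠ[𝓝 t] fun _ => 0 := by
      filter_upwards [isClosed_Icc.isOpen_compl.mem_nhds ht] with s hs using det_off hs
    rw [this.deriv_eq]
    simp
  obtain ⟨M₂, hM₂⟩ := Par.exists_bound (deriv (deriv et))
    ((contDiff_infty_iff_deriv.1 det_smooth).2).continuous (Icc (0 : ℝ) 1) isCompact_Icc 0 h2
  refine ⟨max 1 (max M₁ M₂), by positivity, fun t => ⟨?_, ?_, ?_⟩⟩
  · have h := et_mem t
    rw [abs_of_nonneg h.1]
    exact h.2.trans (le_max_left _ _)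
  · exact (hM₁ t).trans ((le_max_left _ _).trans (le_max_right _ _))
  · exact (hM₂ t).trans ((le_max_right _ _).trans (le_max_right _ _))

theorem norm_f0_le : ‖(f0 : E (n + 1))‖ ≤ 1 := norm_le_of (by simp) (by simp) (by simp)
theorem norm_e0_le : ‖(e0 : E (n + 1))‖ ≤ 1 := norm_le_of (by simp) (by simp) (by simp)

theorem slow_bounds {K : ℝ → ℝ → ℝ → E n → ℝ} {R : ℝ} (hK : KFam K R) (p : ℝ) :
    ∃ κ c : ℝ, 0 ≤ κ ∧ 0 ≤ c ∧ ∀ ε ∈ Icc (0 : ℝ) 1, ∀ s z,
      (∀ v, ‖fderiv ℝ (ham (cut (fun _ x => et (ε * x)) K p s)) z v‖ ≤ κ * ‖v‖) ∧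
      ‖fderiv ℝ (ham (cut (fun _ x => et (ε * x)) K p s)) z e0‖ ≤ ε * c := by
  have hLs : ContDiff ℝ ∞ (fun q : ℝ × E (n + 1) => lift K p q.1 q.2) :=
    (lift_smooth hK).comp (((contDiff_const (c := p)).prodMk contDiff_fst).prodMk contDiff_snd)
  have hHs : ContDiff ℝ ∞ (fun q : ℝ × E (n + 1) => ham (lift K p q.1) q.2) :=
    ham_smooth_param hLs
  have hD : ∀ {F : Type} [NormedAddCommGroup F] [NormedSpace ℝ F] (f : ℝ → E (n + 1) → F),
      ContDiff ℝ ∞ (fun q : ℝ × E (n + 1) => f q.1 q.2) →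
      Continuous (fun q : ℝ × E (n + 1) => fderiv ℝ (f q.1) q.2) := by
    intro F _ _ f hf
    have h1 : ContDiff ℝ ∞ (fun q : ℝ × E (n + 1) => fderiv ℝ (f q.1) q.2) := by
      refine ContDiff.fderiv (m := ∞) (n := ∞) ?_ contDiff_snd (by simp)
      exact hf.comp ((contDiff_fst.comp contDiff_fst).prodMk contDiff_snd)
    exact h1.continuous
  have hLinv : ∀ s (z : E (n + 1)) (r : ℝ), lift K p s (z + r • e0) = lift K p s z := by
    intro s z r
    simp [lift]
  have hz1 : ∀ s z, (R < |s| ∨ R < |cY z| ∨ R < ‖tl z‖) →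
      ham (lift K p s) =ᶠ[𝓝 z] fun _ => 0 := by
    intro s z hz
    filter_upwards [(lift_zero hK p s hz).eventuallyEq_nhds] with y hy
    exact ham_zero_of_ev hy
  obtain ⟨a₁, ha₁, h₁⟩ := bdd_of_inv (R := R) (f := fun s z => lift K p s z) hLs.continuous hLinv
    (fun s z hz => (lift_zero hK p s hz).self_of_nhds)
  obtain ⟨a₂, ha₂, h₂⟩ := bdd_of_inv (R := R) (f := fun s z => ham (lift K p s) z)
    hHs.continuous (fun s z r => lift_inv p s r z) (fun s z hz => (hz1 s z hz).self_of_nhds)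
  obtain ⟨a₃, ha₃, h₃⟩ := bdd_of_inv (R := R) (f := fun s z => fderiv ℝ (lift K p s) z)
    (hD _ hLs) (fun s z r => fderiv_inv (hLinv s) z r) (fun s z hz => by
      rw [(lift_zero hK p s hz).fderiv_eq, fderiv_fun_const]; rfl)
  obtain ⟨a₄, ha₄, h₄⟩ := bdd_of_inv (R := R) (f := fun s z => fderiv ℝ (ham (lift K p s)) z)
    (hD (F := E (n + 1)) (fun s => ham (lift K p s)) hHs) (fun s z r => fderiv_inv (fun z r => lift_inv p s r z) z r) (fun s z hz => by
      rw [(hz1 s z hz).fderiv_eq, fderiv_fun_const]; rfl)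
  obtain ⟨c₀, hc₀, het⟩ := et_bounds
  refine ⟨c₀ * (a₄ + a₂ + a₃ + a₁), c₀ * (a₂ + a₁), by positivity, by positivity,
    fun ε hε s z => ?_⟩
  obtain ⟨b₁, b₂, b₃⟩ := het (ε * cX z)
  have hε1 : |ε| ≤ 1 := by rw [abs_of_nonneg hε.1]; exact hε.2
  have hεε : |ε| = ε := abs_of_nonneg hε.1
  have n1 : |lift K p s z| ≤ a₁ := h₁ s z
  have n2 : ‖ham (lift K p s) z‖ ≤ a₂ := h₂ s z
  constructor
  · intro v
    have hv := norm_nonneg v
    have hX : |cX v| ≤ ‖v‖ := abs_cX_le v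
    rw [fderiv_slow hK]
    have t1 : ‖et (ε * cX z) • fderiv ℝ (ham (lift K p s)) z v‖ ≤ c₀ * (a₄ * ‖v‖) := by
      rw [norm_smul]
      exact mul_le_mul b₁ ((ContinuousLinearMap.le_opNorm _ _).trans
        (mul_le_mul_of_nonneg_right (h₄ s z) hv)) (norm_nonneg _) hc₀
    have t2 : ‖(deriv et (ε * cX z) * (ε * cX v)) • ham (lift K p s) z‖ ≤
        c₀ * ‖v‖ * a₂ := by
      rw [norm_smul, Real.norm_eq_abs, abs_mul, abs_mul]
      refine mul_le_mul (mul_le_mul b₂ ?_ (by positivity) hc₀) n2 (norm_nonneg _) (by positivity)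
      calc |ε| * |cX v| ≤ 1 * ‖v‖ := mul_le_mul hε1 hX (abs_nonneg _) zero_le_one
        _ = ‖v‖ := one_mul _
    have t3 : |(-(ε * deriv et (ε * cX z)) * fderiv ℝ (lift K p s) z v)| ≤
        c₀ * (a₃ * ‖v‖) := by
      rw [abs_mul, abs_neg, abs_mul]
      refine mul_le_mul ?_ ((ContinuousLinearMap.le_opNorm _ _).trans
        (mul_le_mul_of_nonneg_right (h₃ s z) hv)) (abs_nonneg _) hc₀
      calc |ε| * |deriv et (ε * cX z)| ≤ 1 * c₀ := mul_le_mul hε1 b₂ (abs_nonneg _) zero_le_one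
        _ = c₀ := one_mul _
    have t4 : |lift K p s z * -(ε * (deriv (deriv et) (ε * cX z) * (ε * cX v)))| ≤
        a₁ * (c₀ * ‖v‖) := by
      rw [abs_mul, abs_neg, abs_mul, abs_mul, abs_mul]
      refine mul_le_mul n1 ?_ (by positivity) ha₁
      calc |ε| * (|deriv (deriv et) (ε * cX z)| * (|ε| * |cX v|))
          ≤ 1 * (c₀ * (1 * ‖v‖)) := mul_le_mul hε1 (mul_le_mul b₃
            (mul_le_mul hε1 hX (abs_nonneg _) zero_le_one) (by positivity) hc₀)
            (by positivity) zero_le_one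
        _ = c₀ * ‖v‖ := by ring
    have t5 : ‖(-(ε * deriv et (ε * cX z)) * fderiv ℝ (lift K p s) z v +
          lift K p s z * -(ε * (deriv (deriv et) (ε * cX z) * (ε * cX v)))) •
          (f0 : E (n + 1))‖ ≤ c₀ * (a₃ * ‖v‖) + a₁ * (c₀ * ‖v‖) := by
      rw [norm_smul]
      refine (mul_le_of_le_one_right (norm_nonneg _) norm_f0_le).trans ?_
      exact (norm_add_le _ _).trans (add_le_add t3 t4)
    refine (norm_add_le _ _).trans ((add_le_add ((norm_add_le _ _).trans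
      (add_le_add t1 t2)) t5).trans (le_of_eq ?_))
    ring
  · rw [fderiv_slow hK, fderiv_e0 (f := ham (lift K p s))
      ((ham_smooth (lift_slice hK p s)).differentiable (by simp)) (fun z r => lift_inv p s r z),
      fderiv_e0 (f := lift K p s) ((lift_slice hK p s).differentiable (by simp)) (hLinv s),
      smul_zero, zero_add, mul_zero, zero_add, cX_e0, mul_one]
    have t2 : ‖(deriv et (ε * cX z) * ε) • ham (lift K p s) z‖ ≤ c₀ * ε * a₂ := by
      rw [norm_smul, Real.norm_eq_abs, abs_mul, hεε]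
      exact mul_le_mul (mul_le_mul_of_nonneg_right b₂ hε.1) n2 (norm_nonneg _)
        (mul_nonneg hc₀ hε.1)
    have t4 : |lift K p s z * -(ε * (deriv (deriv et) (ε * cX z) * ε))| ≤ a₁ * (ε * c₀) := by
      rw [abs_mul, abs_neg, abs_mul, abs_mul, hεε]
      refine mul_le_mul n1 ?_ (mul_nonneg hε.1 (mul_nonneg (abs_nonneg _) hε.1)) ha₁
      refine mul_le_mul_of_nonneg_left ?_ hε.1
      calc |deriv (deriv et) (ε * cX z)| * ε ≤ c₀ * 1 := mul_le_mul b₃ hε.2 hε.1 hc₀
        _ = c₀ := mul_one _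
    have t5 : ‖(lift K p s z * -(ε * (deriv (deriv et) (ε * cX z) * ε))) •
          (f0 : E (n + 1))‖ ≤ a₁ * (ε * c₀) := by
      rw [norm_smul]
      exact (mul_le_of_le_one_right (norm_nonneg _) norm_f0_le).trans t4
    refine (norm_add_le _ _).trans ((add_le_add t2 t5).trans (le_of_eq ?_))
    ring

/-- a suspension is isotopic to a positive map -/
theorem positive_of_susp (hn : 0 < n) {b : ℝ × ℝ → SympCt n} (hb : Fam b)
    {ψ : SympCt (n + 1)} (hψ : IsSuspension b ψ) :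
    ∃ ψ' : SympCt (n + 1), Positive ψ' ∧ SmoothIsotopic ψ ψ' := by
  obtain ⟨K₀, hK₀, hs, hoff⟩ := fam_const hb
  obtain ⟨R, K, C, hR1, hd⟩ := exists_sdata hn hs hK₀ hoff (betaFam_et (P := ℝ)) 1
  have hR0 := hd.pos
  obtain ⟨κ, c, hκ, hc, hbd⟩ := slow_bounds hd.kfam 0
  obtain ⟨ε, hε0, hε1, hεg⟩ : ∃ ε : ℝ, 0 < ε ∧ ε ≤ 1 ∧
      gronwallBound 0 κ (ε * c) (R + 1 - (-R - 1)) < 1 := by
    have h1 : Tendsto (fun ε : ℝ => gronwallBound 0 κ (ε * c) (R + 1 - (-R - 1))) (𝓝 0)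
        (𝓝 (gronwallBound 0 κ (0 * c) (R + 1 - (-R - 1)))) :=
      ((gronwallBound_continuous_ε 0 κ (R + 1 - (-R - 1))).comp
        (continuous_id.mul continuous_const)).tendsto 0
    rw [zero_mul, gronwallBound_ε0_δ0] at h1
    have h2 : ∀ᶠ ε : ℝ in 𝓝 0, gronwallBound 0 κ (ε * c) (R + 1 - (-R - 1)) < 1 :=
      h1.eventually_lt_const zero_lt_one
    obtain ⟨δ, hδ, hball⟩ := Metric.eventually_nhds_iff.1 h2
    refine ⟨min (δ / 2) 1, by positivity, min_le_right _ _, hball ?_⟩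
    rw [Real.dist_eq, sub_zero, abs_of_pos (by positivity)]
    linarith [min_le_left (δ / 2) 1]
  let β : ℝ → ℝ → ℝ := fun _ x => et (ε * x)
  have hβ : BetaFam β (1 / ε) := by
    refine ⟨et_smooth.comp (contDiff_const.mul contDiff_snd), fun _ x hx => et_zero ?_,
      fun _ x hx => et_one ?_⟩
    · have h1 := mul_lt_mul_of_pos_left hx hε0
      have h2 : ε * -(1 / ε) = -1 := by field_simp
      rw [h2] at h1
      linarith
    · have h1 := mul_lt_mul_of_pos_left hx hε0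
      have h2 : ε * (1 / ε) = 1 := by field_simp
      rw [h2] at h1
      exact h1.le
  obtain ⟨C', hC', hC'S, hC'o⟩ := exists_C hR0 hd.kfam hβ hd.gen (fun p y => hd.one 0 _ _ (by
    show R ≤ |-R - 1|
    have := neg_abs_le (-R - 1)
    linarith))
  let σ : ℝ → ℝ × ℝ := fun _ => (0, R + 1)
  obtain ⟨θ, K', hK', k1, k2, k3⟩ := exists_symp_path hn hC'S hC'o (σ := σ) contDiff_const
    (isCompact_singleton (x := ((0 : ℝ), R + 1))) (fun s => rfl) (fun s y => hd.one 0 _ _ (by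
      show R ≤ |R + 1|
      linarith [le_abs_self (R + 1)]))
  have hmap : ∀ z, (θ 0).map z = C' 0 (R + 1) z := k3 0
  refine ⟨θ 0, fun z => ?_, ?_⟩
  · -- positivity
    have hmap' : (θ 0).map = C' 0 (R + 1) := funext hmap
    rw [hmap']
    have hΦp : ContDiff ℝ ∞ (fun r : ℝ × E (n + 1) => C' 0 r.1 r.2) :=
      hC'.smooth.comp (contDiff_const.prodMk contDiff_id)
    have hFp : ContDiff ℝ ∞ (fun q : ℝ × E (n + 1) => ham (cut β K 0 q.1) q.2) :=
      (ham_smooth_param (L := fun q : ℝ × ℝ => cut β K q.1 q.2)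
        (cut_smooth hd.kfam hβ)).comp ((contDiff_const.prodMk contDiff_fst).prodMk contDiff_snd)
    have h1 : ∀ s, HasDerivAt (fun s => fderiv ℝ (C' 0 s) z e0)
        (fderiv ℝ (ham (cut β K 0 s)) (C' 0 s z) (fderiv ℝ (C' 0 s) z e0)) s := fun s =>
      Td.swap hΦp hFp (fun s x => hC'.deriv 0 s x) s z e0
    have h2 := norm_le_gronwallBound_of_norm_deriv_right_le
      (f := fun s => fderiv ℝ (C' 0 s) z e0 - e0)
      (f' := fun s => fderiv ℝ (ham (cut β K 0 s)) (C' 0 s z) (fderiv ℝ (C' 0 s) z e0))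
      (δ := 0) (K := κ) (ε := ε * c) (a := -R - 1) (b := R + 1)
      (fun s _ => ((h1 s).sub_const _).continuousAt.continuousWithinAt)
      (fun s _ => ((h1 s).sub_const _).hasDerivWithinAt) (by
        have e0' : C' 0 (-R - 1) = id := funext (hC'.zero 0)
        rw [e0', fderiv_id]
        simp)
      (fun s _ => by
        have h3 := hbd ε ⟨hε0.le, hε1⟩ s (C' 0 s z)
        have h4 : fderiv ℝ (C' 0 s) z e0 = (fderiv ℝ (C' 0 s) z e0 - e0) + e0 := by abel
        have h5 : fderiv ℝ (ham (cut β K 0 s)) (C' 0 s z) (fderiv ℝ (C' 0 s) z e0) =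
            fderiv ℝ (ham (cut β K 0 s)) (C' 0 s z) (fderiv ℝ (C' 0 s) z e0 - e0) +
            fderiv ℝ (ham (cut β K 0 s)) (C' 0 s z) e0 := by
          conv_lhs => rw [h4]
          rw [map_add]
        rw [h5]
        exact (norm_add_le _ _).trans (add_le_add (h3.1 _) h3.2))
      (R + 1) ⟨by linarith, le_rfl⟩
    have h3 := h2.trans_lt hεg
    have h4 := (abs_le.1 ((abs_cX_le (fderiv ℝ (C' 0 (R + 1)) z e0 - e0)).trans le_rfl)).1
    rw [map_sub, cX_e0] at h4
    linarith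
  · refine susp_joined hn (b := b) (b' := b) ⟨fun _ => b, K₀, hK₀, hs, hoff, rfl, rfl⟩ hψ ?_
    refine ⟨K 0, β 0, C' 0, max R (1 / ε), hd.kfam.smooth.comp (contDiff_const.prodMk contDiff_id),
      fun s y w hh => hd.kfam.off 0 s y w ?_, fun s y w => hd.gen 0 s y w,
      hβ.smooth.comp ((contDiff_const (c := (0 : ℝ))).prodMk contDiff_id),
      fun x hx => hβ.left 0 x ?_,
      fun x hx => hβ.right 0 x ?_, fun s z => hC'.deriv 0 s z, fun z => ?_, fun z => ?_⟩
    · exact hh.imp (fun h => (le_max_left _ _).trans_lt h) (fun h =>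
        h.imp (fun h => (le_max_left _ _).trans_lt h) (fun h => (le_max_left _ _).trans_lt h))
    · linarith [le_max_right R (1 / ε)]
    · linarith [le_max_right R (1 / ε)]
    · filter_upwards [eventually_lt_atBot (-R)] with s hs
      exact C_early hd.kfam hC' 0 z hs
    · filter_upwards [eventually_gt_atTop R] with s hs
      rw [C_late hd.kfam hC' 0 z hs, hmap]

end Pool.Agent.H822.EX
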