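import Mathlib
import Pool.Agent.H822.EX.Seq
import Pool.Agent.H822.EX.Pos

/-!
# Slow cut offs, with parameters
-/

set_option autoImplicit false

open scoped ContDiff
open Set Filter Topology Function Metric
open Q170.SC Pool.Agent.H822.Ham Pool.Agent.H822.Pairs Pool.Agent.H822.PairsMain
open Pool.Agent.GR.Flow Pool.Agent.H822.Par Pool.Agent.Q191.SY

namespace Pool.Agent.H822.EX

variable {n : ℕ} {Q : Type} [NormedAddCommGroup Q] [NormedSpace ℝ Q]

open Td (et et_smooth et_zero et_one det_smooth det_off et_deriv)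

/-- the slow cut off function -/
noncomputable def slo (ε x₀ : ℝ) : Q → ℝ → ℝ := fun _ x => et (ε * (x - x₀))

theorem bdd_of_inv2 {T F : Type} [TopologicalSpace T] [NormedAddCommGroup F] {S : Set T}
    (hS : IsCompact S) {R : ℝ} {f : T → E (n + 1) → F}
    (hf : Continuous (fun q : T × E (n + 1) => f q.1 q.2))
    (hinv : ∀ s z (r : ℝ), f s (z + r • e0) = f s z)
    (hz : ∀ s z, (s ∉ S ∨ R < |cY z| ∨ R < ‖tl z‖) → f s z = 0) :
    ∃ c : ℝ, 0 ≤ c ∧ ∀ s z, ‖f s z‖ ≤ c := by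
  obtain ⟨c, hc⟩ := ((hS.prod
    (compact_tube (n := n) 0 0 R)).image hf).isBounded.exists_norm_le
  refine ⟨max c 0, le_max_right _ _, fun s z => ?_⟩
  by_cases h : s ∉ S ∨ R < |cY z| ∨ R < ‖tl z‖
  · rw [hz s z h, norm_zero]
    exact le_max_right _ _
  · rw [not_or, not_or, not_lt, not_lt, not_not] at h
    have h1 := hinv s z (-cX z)
    rw [← h1]
    have h2 : cX (z + (-cX z) • e0) = 0 := by simp
    exact (hc _ ⟨(s, z + (-cX z) • e0), ⟨h.1, h2.ge, h2.le, by simpa using h.2.1,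
      by simpa using h.2.2⟩, rfl⟩).trans (le_max_left _ _)

section

variable {K : Q → ℝ → ℝ → E n → ℝ} {R : ℝ}

/-- the cut off field with the slow cut off function -/
theorem ham_slo (hK : KFam K R) (ε x₀ : ℝ) (p : Q) (s : ℝ) (z : E (n + 1)) :
    ham (cut (slo ε x₀) K p s) z =
      et (ε * (cX z - x₀)) • ham (lift K p s) z +
        (-(ε * deriv et (ε * (cX z - x₀))) * lift K p s z) • f0 := by
  have h1 : HasFDerivAt (fun z : E (n + 1) => ε * (cX z - x₀))
      (ε • (cX : E (n + 1) →L[ℝ] ℝ)) z :=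
    ((cX : E (n + 1) →L[ℝ] ℝ).hasFDerivAt.sub_const x₀).const_mul ε
  have h2 : HasFDerivAt (fun z : E (n + 1) => et (ε * (cX z - x₀)))
      (deriv et (ε * (cX z - x₀)) • (ε • (cX : E (n + 1) →L[ℝ] ℝ))) z :=
    (et_deriv (ε * (cX z - x₀))).comp_hasFDerivAt z h1
  have h3 := ((lift_slice hK p s).differentiable (by simp) z).hasFDerivAt
  have h4 : fderiv ℝ (cut (slo ε x₀) K p s) z = _ := (h2.mul h3).fderiv
  rw [ham, h4, ← dualL_apply, map_add, map_smul, map_smul, map_smul, map_smul, dualL_apply,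
    dualL_apply, dual_cX, ham]
  rw [smul_neg, smul_neg, smul_neg, neg_mul, neg_smul, smul_smul, smul_smul]
  congr 2
  congr 1
  ring

theorem fderiv_slo (hK : KFam K R) (ε x₀ : ℝ) (p : Q) (s : ℝ) (z v : E (n + 1)) :
    fderiv ℝ (ham (cut (slo ε x₀) K p s)) z v =
      et (ε * (cX z - x₀)) • fderiv ℝ (ham (lift K p s)) z v +
      (deriv et (ε * (cX z - x₀)) * (ε * cX v)) • ham (lift K p s) z +
        (-(ε * deriv et (ε * (cX z - x₀))) * fderiv ℝ (lift K p s) z v +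
          lift K p s z * -(ε * (deriv (deriv et) (ε * (cX z - x₀)) * (ε * cX v)))) • f0 := by
  have h1 : HasFDerivAt (fun z : E (n + 1) => ε * (cX z - x₀))
      (ε • (cX : E (n + 1) →L[ℝ] ℝ)) z :=
    ((cX : E (n + 1) →L[ℝ] ℝ).hasFDerivAt.sub_const x₀).const_mul ε
  have h2 : HasFDerivAt (fun z : E (n + 1) => et (ε * (cX z - x₀)))
      (deriv et (ε * (cX z - x₀)) • (ε • (cX : E (n + 1) →L[ℝ] ℝ))) z :=
    (et_deriv (ε * (cX z - x₀))).comp_hasFDerivAt z h1
  have h2' : HasFDerivAt (fun z : E (n + 1) => deriv et (ε * (cX z - x₀)))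
      (deriv (deriv et) (ε * (cX z - x₀)) • (ε • (cX : E (n + 1) →L[ℝ] ℝ))) z := by
    have hdd : HasDerivAt (deriv et) (deriv (deriv et) (ε * (cX z - x₀))) (ε * (cX z - x₀)) :=
      (det_smooth.differentiable (by simp) (ε * (cX z - x₀))).hasDerivAt
    exact HasDerivAt.comp_hasFDerivAt (h₂ := deriv et) z hdd h1
  have h3 := ((lift_slice hK p s).differentiable (by simp) z).hasFDerivAt
  have h3' := ((ham_smooth (lift_slice hK p s)).differentiable (by simp) z).hasFDerivAt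
  have h4 : ham (cut (slo ε x₀) K p s) = fun z =>
      et (ε * (cX z - x₀)) • ham (lift K p s) z +
        (-(ε * deriv et (ε * (cX z - x₀))) * lift K p s z) • f0 :=
    funext fun z => ham_slo hK ε x₀ p s z
  have h5 := (h2.smul h3').add (((h2'.const_mul ε).neg.mul h3).smul_const (f0 : E (n + 1)))
  have h6 : fderiv ℝ (fun z => et (ε * (cX z - x₀)) • ham (lift K p s) z +
        (-(ε * deriv et (ε * (cX z - x₀))) * lift K p s z) • (f0 : E (n + 1))) z = _ := h5.fderiv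
  rw [h4, h6]
  simp only [_root_.add_apply, _root_.smul_apply, ContinuousLinearMap.smulRight_apply,
    _root_.neg_apply, smul_eq_mul]
  rfl

theorem lift_zero2 (hK : KFam K R) (p : Q) (s : ℝ)
    {z : E (n + 1)} (hz : R < |s| ∨ R < |cY z| ∨ R < ‖tl z‖) :
    lift K p s =ᶠ[𝓝 z] fun _ => 0 := by
  rcases hz with hz | hz | hz
  · exact Eventually.of_forall fun y => hK.off p s _ _ (Or.inl hz)
  · filter_upwards [continuousAt_const.eventually_lt
      (cY : E (n + 1) →L[ℝ] ℝ).continuous.abs.continuousAt hz] with y hy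
    exact hK.off p s _ _ (Or.inr (Or.inl hy))
  · filter_upwards [continuousAt_const.eventually_lt
      (tl : E (n + 1) →L[ℝ] E n).continuous.norm.continuousAt hz] with y hy
    exact hK.off p s _ _ (Or.inr (Or.inr hy))

theorem slo_bounds (hK : KFam K R) {Q₀ : Set Q} (hQ₀ : IsCompact Q₀)
    (hK0 : ∀ q, q ∉ Q₀ → ∀ s y w, K q s y w = 0) :
    ∃ κ c : ℝ, 0 ≤ κ ∧ 0 ≤ c ∧ ∀ ε ∈ Icc (0 : ℝ) 1, ∀ (x₀ : ℝ) (q : Q) s z,
      (∀ v, ‖fderiv ℝ (ham (cut (slo ε x₀) K q s)) z v‖ ≤ κ * ‖v‖) ∧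
      ‖fderiv ℝ (ham (cut (slo ε x₀) K q s)) z e0‖ ≤ ε * c := by
  have hLs : ContDiff ℝ ∞ (fun q : (Q × ℝ) × E (n + 1) => lift K q.1.1 q.1.2 q.2) :=
    lift_smooth hK
  have hHs : ContDiff ℝ ∞ (fun q : (Q × ℝ) × E (n + 1) => ham (lift K q.1.1 q.1.2) q.2) :=
    ham_smooth_param (L := fun q : Q × ℝ => lift K q.1 q.2) hLs
  have hD : ∀ {F : Type} [NormedAddCommGroup F] [NormedSpace ℝ F]
      (f : Q × ℝ → E (n + 1) → F),
      ContDiff ℝ ∞ (fun q : (Q × ℝ) × E (n + 1) => f q.1 q.2) →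
      Continuous (fun q : (Q × ℝ) × E (n + 1) => fderiv ℝ (f q.1) q.2) := by
    intro F _ _ f hf
    have h1 : ContDiff ℝ ∞ (fun q : (Q × ℝ) × E (n + 1) => fderiv ℝ (f q.1) q.2) := by
      refine ContDiff.fderiv (m := ∞) (n := ∞) ?_ contDiff_snd (by simp)
      exact hf.comp ((contDiff_fst.comp contDiff_fst).prodMk contDiff_snd)
    exact h1.continuous
  have hS : IsCompact (Q₀ ×ˢ Icc (-R) R) := hQ₀.prod isCompact_Icc
  have hLinv : ∀ (s : Q × ℝ) (z : E (n + 1)) (r : ℝ),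
      lift K s.1 s.2 (z + r • e0) = lift K s.1 s.2 z := by
    intro s z r
    simp [lift]
  have hz0 : ∀ (s : Q × ℝ) (z : E (n + 1)),
      (s ∉ Q₀ ×ˢ Icc (-R) R ∨ R < |cY z| ∨ R < ‖tl z‖) → lift K s.1 s.2 =ᶠ[𝓝 z] fun _ => 0 := by
    intro s z hz
    by_cases h1 : s.1 ∈ Q₀
    · refine lift_zero2 hK s.1 s.2 ?_
      rcases hz with hz | hz
      · refine Or.inl ?_
        by_contra h2
        exact hz ⟨h1, abs_le.1 (not_lt.1 h2)⟩
      · exact Or.inr hz
    · exact Eventually.of_forall fun y => hK0 _ h1 _ _ _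
  have hz1 : ∀ (s : Q × ℝ) (z : E (n + 1)),
      (s ∉ Q₀ ×ˢ Icc (-R) R ∨ R < |cY z| ∨ R < ‖tl z‖) →
      ham (lift K s.1 s.2) =ᶠ[𝓝 z] fun _ => 0 := by
    intro s z hz
    filter_upwards [(hz0 s z hz).eventuallyEq_nhds] with y hy
    exact ham_zero_of_ev hy
  obtain ⟨a₁, ha₁, h₁⟩ := bdd_of_inv2 hS (f := fun s : Q × ℝ => fun z => lift K s.1 s.2 z)
    hLs.continuous hLinv (fun s z hz => (hz0 s z hz).self_of_nhds)
  obtain ⟨a₂, ha₂, h₂⟩ := bdd_of_inv2 hS (f := fun s : Q × ℝ => fun z => ham (lift K s.1 s.2) z)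
    hHs.continuous (fun s z r => lift_inv s.1 s.2 r z) (fun s z hz => (hz1 s z hz).self_of_nhds)
  obtain ⟨a₃, ha₃, h₃⟩ := bdd_of_inv2 hS
    (f := fun s : Q × ℝ => fun z => fderiv ℝ (lift K s.1 s.2) z)
    (hD (F := ℝ) (fun s z => lift K s.1 s.2 z) hLs) (fun s z r => fderiv_inv (hLinv s) z r)
    (fun s z hz => by
      rw [(hz0 s z hz).fderiv_eq, fderiv_fun_const]; rfl)
  obtain ⟨a₄, ha₄, h₄⟩ := bdd_of_inv2 hS
    (f := fun s : Q × ℝ => fun z => fderiv ℝ (ham (lift K s.1 s.2)) z)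
    (hD (F := E (n + 1)) (fun s => ham (lift K s.1 s.2)) hHs)
    (fun s z r => fderiv_inv (fun z r => lift_inv s.1 s.2 r z) z r) (fun s z hz => by
      rw [(hz1 s z hz).fderiv_eq, fderiv_fun_const]; rfl)
  obtain ⟨c₀, hc₀, het⟩ := et_bounds
  refine ⟨c₀ * (a₄ + a₂ + a₃ + a₁), c₀ * (a₂ + a₁), by positivity, by positivity,
    fun ε hε x₀ p s z => ?_⟩
  obtain ⟨b₁, b₂, b₃⟩ := het (ε * (cX z - x₀))
  have hε1 : |ε| ≤ 1 := by rw [abs_of_nonneg hε.1]; exact hε.2
  have hεε : |ε| = ε := abs_of_nonneg hε.1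
  have n1 : |lift K p s z| ≤ a₁ := h₁ (p, s) z
  have n2 : ‖ham (lift K p s) z‖ ≤ a₂ := h₂ (p, s) z
  constructor
  · intro v
    have hv := norm_nonneg v
    have hX : |cX v| ≤ ‖v‖ := abs_cX_le v
    rw [fderiv_slo hK]
    have t1 : ‖et (ε * (cX z - x₀)) • fderiv ℝ (ham (lift K p s)) z v‖ ≤ c₀ * (a₄ * ‖v‖) := by
      rw [norm_smul]
      exact mul_le_mul b₁ ((ContinuousLinearMap.le_opNorm _ _).trans
        (mul_le_mul_of_nonneg_right (h₄ (p, s) z) hv)) (norm_nonneg _) hc₀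
    have t2 : ‖(deriv et (ε * (cX z - x₀)) * (ε * cX v)) • ham (lift K p s) z‖ ≤
        c₀ * ‖v‖ * a₂ := by
      rw [norm_smul, Real.norm_eq_abs, abs_mul, abs_mul]
      refine mul_le_mul (mul_le_mul b₂ ?_ (by positivity) hc₀) n2 (norm_nonneg _) (by positivity)
      calc |ε| * |cX v| ≤ 1 * ‖v‖ := mul_le_mul hε1 hX (abs_nonneg _) zero_le_one
        _ = ‖v‖ := one_mul _
    have t3 : |(-(ε * deriv et (ε * (cX z - x₀))) * fderiv ℝ (lift K p s) z v)| ≤
        c₀ * (a₃ * ‖v‖) := by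
      rw [abs_mul, abs_neg, abs_mul]
      refine mul_le_mul ?_ ((ContinuousLinearMap.le_opNorm _ _).trans
        (mul_le_mul_of_nonneg_right (h₃ (p, s) z) hv)) (abs_nonneg _) hc₀
      calc |ε| * |deriv et (ε * (cX z - x₀))| ≤ 1 * c₀ :=
            mul_le_mul hε1 b₂ (abs_nonneg _) zero_le_one
        _ = c₀ := one_mul _
    have t4 : |lift K p s z * -(ε * (deriv (deriv et) (ε * (cX z - x₀)) * (ε * cX v)))| ≤
        a₁ * (c₀ * ‖v‖) := by
      rw [abs_mul, abs_neg, abs_mul, abs_mul, abs_mul]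
      refine mul_le_mul n1 ?_ (by positivity) ha₁
      calc |ε| * (|deriv (deriv et) (ε * (cX z - x₀))| * (|ε| * |cX v|))
          ≤ 1 * (c₀ * (1 * ‖v‖)) := mul_le_mul hε1 (mul_le_mul b₃
            (mul_le_mul hε1 hX (abs_nonneg _) zero_le_one) (by positivity) hc₀)
            (by positivity) zero_le_one
        _ = c₀ * ‖v‖ := by ring
    have t5 : ‖(-(ε * deriv et (ε * (cX z - x₀))) * fderiv ℝ (lift K p s) z v +
          lift K p s z * -(ε * (deriv (deriv et) (ε * (cX z - x₀)) * (ε * cX v)))) •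
          (f0 : E (n + 1))‖ ≤ c₀ * (a₃ * ‖v‖) + a₁ * (c₀ * ‖v‖) := by
      rw [norm_smul]
      refine (mul_le_of_le_one_right (norm_nonneg _) norm_f0_le).trans ?_
      exact (norm_add_le _ _).trans (add_le_add t3 t4)
    refine (norm_add_le _ _).trans ((add_le_add ((norm_add_le _ _).trans
      (add_le_add t1 t2)) t5).trans (le_of_eq ?_))
    ring
  · rw [fderiv_slo hK, fderiv_e0 (f := ham (lift K p s))
      ((ham_smooth (lift_slice hK p s)).differentiable (by simp)) (fun z r => lift_inv p s r z),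
      fderiv_e0 (f := lift K p s) ((lift_slice hK p s).differentiable (by simp))
      (hLinv (p, s)),
      smul_zero, zero_add, mul_zero, zero_add, cX_e0, mul_one]
    have t2 : ‖(deriv et (ε * (cX z - x₀)) * ε) • ham (lift K p s) z‖ ≤ c₀ * ε * a₂ := by
      rw [norm_smul, Real.norm_eq_abs, abs_mul, hεε]
      exact mul_le_mul (mul_le_mul_of_nonneg_right b₂ hε.1) n2 (norm_nonneg _)
        (mul_nonneg hc₀ hε.1)
    have t4 : |lift K p s z * -(ε * (deriv (deriv et) (ε * (cX z - x₀)) * ε))| ≤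
        a₁ * (ε * c₀) := by
      rw [abs_mul, abs_neg, abs_mul, abs_mul, hεε]
      refine mul_le_mul n1 ?_ (mul_nonneg hε.1 (mul_nonneg (abs_nonneg _) hε.1)) ha₁
      refine mul_le_mul_of_nonneg_left ?_ hε.1
      calc |deriv (deriv et) (ε * (cX z - x₀))| * ε ≤ c₀ * 1 := mul_le_mul b₃ hε.2 hε.1 hc₀
        _ = c₀ := mul_one _
    have t5 : ‖(lift K p s z * -(ε * (deriv (deriv et) (ε * (cX z - x₀)) * ε))) •
          (f0 : E (n + 1))‖ ≤ a₁ * (ε * c₀) := by
      rw [norm_smul]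
      exact (mul_le_of_le_one_right (norm_nonneg _) norm_f0_le).trans t4
    refine (norm_add_le _ _).trans ((add_le_add t2 t5).trans (le_of_eq ?_))
    ring

/-- slow suspensions -/
theorem exists_slow [FiniteDimensional ℝ Q] (hR : 0 < R) (hK : KFam K R) {Q₀ : Set Q}
    (hQ₀ : IsCompact Q₀) (hK0 : ∀ q, q ∉ Q₀ → ∀ s y w, K q s y w = 0)
    {b : Q × ℝ → ℝ → SympCt n} (hgen : Gen K b) (hb1 : ∀ q y, b (q, -R - 1) y = 1) (x₀ : ℝ) :
    ∃ (β : Q → ℝ → ℝ) (B : ℝ) (C : Q → ℝ → E (n + 1) → E (n + 1)), BetaFam β B ∧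
      TD (fun q s z => ham (cut β K q s) z) (-R - 1) C ∧
      Sc (fun q : Q × ℝ => C q.1 q.2) (max R B) ∧ Out (fun q : Q × ℝ => C q.1 q.2) b ∧
      (∀ q s z, 0 < cX (fderiv ℝ (C q s) z e0)) ∧ ∀ q s z, cX z < x₀ → C q s z = z := by
  obtain ⟨κ, c, hκ, hc, hbd⟩ := slo_bounds hK hQ₀ hK0
  obtain ⟨ε, hε0, hε1, hεg⟩ : ∃ ε : ℝ, 0 < ε ∧ ε ≤ 1 ∧
      gronwallBound 0 κ (ε * c) (R + 1 - (-R - 1)) < 1 := by
    have h1 : Tendsto (fun ε : ℝ => gronwallBound 0 κ (ε * c) (R + 1 - (-R - 1))) (𝓝 0)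
        (𝓝 (gronwallBound 0 κ (0 * c) (R + 1 - (-R - 1)))) :=
      ((gronwallBound_continuous_ε 0 κ (R + 1 - (-R - 1))).comp
        (continuous_id.mul continuous_const)).tendsto 0
    rw [zero_mul, gronwallBound_ε0_δ0] at h1
    have h2 : ∀ᶠ ε : ℝ in 𝓝 0, gronwallBound 0 κ (ε * c) (R + 1 - (-R - 1)) < 1 :=
      h1.eventually_lt_const zero_lt_one
    obtain ⟨δ, hδ, hball⟩ := Metric.eventually_nhds_iff.1 h2
    refine ⟨min (δ / 2) 1, by positivity, min_le_right _ _, hball ?_⟩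
    rw [Real.dist_eq, sub_zero, abs_of_pos (by positivity)]
    linarith [min_le_left (δ / 2) 1]
  let β : Q → ℝ → ℝ := slo ε x₀
  have hβ : BetaFam β (|x₀| + 1 / ε) := by
    refine ⟨et_smooth.comp (contDiff_const.mul (contDiff_snd.sub contDiff_const)),
      fun _ x hx => et_zero ?_, fun _ x hx => et_one ?_⟩
    · have h1 : x - x₀ ≤ 0 := by
        have h3 : 0 < 1 / ε := by positivity
        linarith [neg_abs_le x₀]
      exact mul_nonpos_of_nonneg_of_nonpos hε0.le h1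
    · have h1 : 1 / ε ≤ x - x₀ := by linarith [le_abs_self x₀]
      have h2 := mul_le_mul_of_nonneg_left h1 hε0.le
      rwa [mul_one_div_cancel hε0.ne'] at h2
  obtain ⟨C, hC, hCS, hCo⟩ := exists_C hR hK hβ hgen hb1
  have hlow : ∀ q s z, cX z < x₀ → C q s z = z := by
    intro q s z hz
    have hFq : ContDiff ℝ ∞ (fun r : ℝ × E (n + 1) => ham (cut β K q r.1) r.2) :=
      (ham_smooth_param (L := fun q : Q × ℝ => cut β K q.1 q.2) (cut_smooth hK hβ)).comp
        ((contDiff_const.prodMk contDiff_fst).prodMk contDiff_snd)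
    refine td_uniq hFq (γ₂ := fun _ => z) (t₀ := -R - 1) (fun s => hC.deriv q s z) (fun t => ?_)
      (hC.zero q z) s
    have h1 : ham (cut β K q t) z = 0 := by
      refine ham_zero_of_ev ?_
      filter_upwards [(cX : E (n + 1) →L[ℝ] ℝ).continuous.continuousAt.eventually_lt_const hz]
        with y hy
      show et (ε * (cX y - x₀)) * _ = _
      rw [et_zero (mul_nonpos_of_nonneg_of_nonpos hε0.le (by linarith)), zero_mul]
    rw [h1]
    exact hasDerivAt_const _ _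
  have hmid : ∀ q s z, s ∈ Icc (-R - 1) (R + 1) → 0 < cX (fderiv ℝ (C q s) z e0) := by
    intro q s z hs
    have hΦp : ContDiff ℝ ∞ (fun r : ℝ × E (n + 1) => C q r.1 r.2) :=
      hC.smooth.comp (contDiff_const.prodMk contDiff_id)
    have hFp : ContDiff ℝ ∞ (fun r : ℝ × E (n + 1) => ham (cut β K q r.1) r.2) :=
      (ham_smooth_param (L := fun q : Q × ℝ => cut β K q.1 q.2)
        (cut_smooth hK hβ)).comp ((contDiff_const.prodMk contDiff_fst).prodMk contDiff_snd)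
    have h1 : ∀ s, HasDerivAt (fun s => fderiv ℝ (C q s) z e0)
        (fderiv ℝ (ham (cut β K q s)) (C q s z) (fderiv ℝ (C q s) z e0)) s := fun s =>
      Td.swap hΦp hFp (fun s x => hC.deriv q s x) s z e0
    have h2 := norm_le_gronwallBound_of_norm_deriv_right_le
      (f := fun s => fderiv ℝ (C q s) z e0 - e0)
      (f' := fun s => fderiv ℝ (ham (cut β K q s)) (C q s z) (fderiv ℝ (C q s) z e0))
      (δ := 0) (K := κ) (ε := ε * c) (a := -R - 1) (b := R + 1)
      (fun s _ => ((h1 s).sub_const _).continuousAt.continuousWithinAt)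
      (fun s _ => ((h1 s).sub_const _).hasDerivWithinAt) (by
        have e0' : C q (-R - 1) = id := funext (hC.zero q)
        rw [e0', fderiv_id]
        simp)
      (fun s _ => by
        have h3 := hbd ε ⟨hε0.le, hε1⟩ x₀ q s (C q s z)
        have h4 : fderiv ℝ (C q s) z e0 = (fderiv ℝ (C q s) z e0 - e0) + e0 := by abel
        have h5 : fderiv ℝ (ham (cut β K q s)) (C q s z) (fderiv ℝ (C q s) z e0) =
            fderiv ℝ (ham (cut β K q s)) (C q s z) (fderiv ℝ (C q s) z e0 - e0) +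
            fderiv ℝ (ham (cut β K q s)) (C q s z) e0 := by
          conv_lhs => rw [h4]
          rw [map_add]
        rw [h5]
        exact (norm_add_le _ _).trans (add_le_add (h3.1 _) h3.2))
      s hs
    have hmono : gronwallBound 0 κ (ε * c) (s - (-R - 1)) ≤
        gronwallBound 0 κ (ε * c) (R + 1 - (-R - 1)) :=
      gronwallBound_mono le_rfl (by positivity) hκ (by linarith [hs.2])
    have h3 := (h2.trans hmono).trans_lt hεg
    have h4 := (abs_le.1 ((abs_cX_le (fderiv ℝ (C q s) z e0 - e0)).trans le_rfl)).1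
    rw [map_sub, cX_e0] at h4
    linarith
  refine ⟨β, _, C, hβ, hC, hCS, hCo, fun q s z => ?_, hlow⟩
  by_cases h1 : s < -R
  · have h2 : C q s = id := funext fun z => C_early hK hC q z h1
    rw [h2, fderiv_id]
    simp
  by_cases h3 : R < s
  · have h2 : C q s = C q (R + 1) := funext fun z => C_late hK hC q z h3
    rw [h2]
    exact hmid q _ z ⟨by linarith, le_rfl⟩
  · exact hmid q s z ⟨by linarith, by linarith⟩

end

/-- composition of a slow suspension with a positive function which is standard where the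
suspension is not trivial -/
theorem pos_after {C : E (n + 1) → E (n + 1)} (hpos : ∀ z, 0 < cX (fderiv ℝ C z e0)) {x₀ : ℝ}
    (hlow : ∀ z, cX z < x₀ → C z = z) {M : E (n + 1) → ℝ} {R : ℝ}
    (hoff : ∀ z, R < ‖z‖ → M z = cY z) (hRx : R < x₀) (hM : ∀ z, 0 < cX (ham M z))
    (ζ : E (n + 1)) : 0 < cX (fderiv ℝ C ζ (ham M ζ)) := by
  by_cases h : cX ζ < x₀
  · have h1 : C =ᶠ[𝓝 ζ] id := by
      filter_upwards [(cX : E (n + 1) →L[ℝ] ℝ).continuous.continuousAt.eventually_lt_const h]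
        with y hy
      exact hlow y hy
    rw [h1.fderiv_eq, fderiv_id]
    exact hM ζ
  · have h1 : R < ‖ζ‖ := norm_gt_of_cX (lt_of_lt_of_le (hRx.trans_le (not_lt.1 h))
      (le_abs_self _))
    rw [ham_out hoff h1]
    exact hpos ζ

end Pool.Agent.H822.EX
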