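import Mathlib
import Pool.Agent.H822.EX.Slow

/-!
# Families of positive maps
-/

set_option autoImplicit false

open scoped ContDiff
open Set Filter Topology Function Metric
open Q170.SC Pool.Agent.H822.Ham Pool.Agent.H822.Pairs Pool.Agent.H822.PairsMain
open Pool.Agent.GR.Flow Pool.Agent.H822.Par Pool.Agent.Q191.SY

namespace Pool.Agent.H822.EX

variable {n : ℕ}

open Td (et et_smooth et_zero et_one det_smooth det_off et_deriv)

/-- a smooth step function -/
structure Step (χ : ℝ → ℝ) : Prop where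
  smooth : ContDiff ℝ ∞ χ
  ends : ∃ S : ℝ, (∀ s, s < -S → χ s = 0) ∧ ∀ s, S < s → χ s = 1
  mem : ∀ s, χ s ∈ Icc (0 : ℝ) 1

section defs

variable {P : Type} [NormedAddCommGroup P] [NormedSpace ℝ P]

/-- families of positive maps -/
structure PMap (φ : P → SympCt (n + 1)) : Prop where
  fam : Fam φ
  pos : ∀ p, Positive (φ p)

/-- homotopies through positive maps -/
def PHtp (φ φ' : P → SympCt (n + 1)) : Prop :=
  ∃ (B : ℝ → P → SympCt (n + 1)) (K : Set (P × E (n + 1))), IsCompact K ∧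
    ContDiff ℝ ∞ (fun q : ℝ × P × E (n + 1) => (B q.1 q.2.1).map q.2.2) ∧
    (∀ s q, q ∉ K → (B s q.1).map q.2 = q.2) ∧ (∀ s p, Positive (B s p)) ∧ B 0 = φ ∧ B 1 = φ'

omit [NormedAddCommGroup P] [NormedSpace ℝ P] in
/-- the linear path from `Y` to `Y ∘ φ⁻¹` -/
noncomputable def linkF (χ : ℝ → ℝ) (φ : P → SympCt (n + 1)) (q : P × ℝ) (z : E (n + 1)) : ℝ :=
  (1 - χ q.2) * cY z + χ q.2 * cY ((φ q.1)⁻¹.map z)

/-- `b` is the scattering map of the linear path from `Y` to `Y ∘ φ⁻¹` -/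
def IsLink (χ : ℝ → ℝ) (φ : P → SympCt (n + 1)) (b : P × ℝ × ℝ → SympCt n) : Prop :=
  IsScat (linkF χ φ) (fun q => b (q.1.1, q.1.2, q.2))

end defs

theorem ham_comb {L L' : E (n + 1) → ℝ} (hL : ContDiff ℝ ∞ L) (hL' : ContDiff ℝ ∞ L')
    (a b : ℝ) (z : E (n + 1)) :
    ham (fun z => a * L z + b * L' z) z = a • ham L z + b • ham L' z := by
  have h1 : fderiv ℝ (fun z => a * L z + b * L' z) z =
      a • fderiv ℝ L z + b • fderiv ℝ L' z :=
    ((hL.differentiable (by simp) z).hasFDerivAt.const_mul _ |>.add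
      ((hL'.differentiable (by simp) z).hasFDerivAt.const_mul _)).fderiv
  rw [ham, h1, ← dualL_apply, map_add, map_smul, map_smul]
  rfl

theorem pos_comb {L L' : E (n + 1) → ℝ} (hL : ContDiff ℝ ∞ L) (hL' : ContDiff ℝ ∞ L')
    (h : ∀ z, 0 < cX (ham L z)) (h' : ∀ z, 0 < cX (ham L' z)) {t : ℝ} (ht : t ∈ Icc (0 : ℝ) 1)
    (z : E (n + 1)) : 0 < cX (ham (fun z => (1 - t) * L z + t * L' z) z) := by
  rw [ham_comb hL hL', map_add, map_smul, map_smul, smul_eq_mul, smul_eq_mul]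
  rcases ht.1.eq_or_lt with h0 | h0
  · rw [← h0, sub_zero, one_mul, zero_mul, add_zero]
    exact h z
  · have h1 := mul_nonneg (sub_nonneg.2 ht.2) (h z).le
    have h2 := mul_pos h0 (h' z)
    linarith

theorem cX_ham_cY (z : E (n + 1)) : 0 < cX (ham (cY : E (n + 1) → ℝ) z) := by
  rw [ham_cY, cX_e0]
  exact one_pos

theorem ham_inv (ψ : SympCt (n + 1)) (z : E (n + 1)) :
    ham (fun z => cY (ψ⁻¹.map z)) (ψ.map z) = fderiv ℝ ψ.map z e0 := by
  have hL : ContDiff ℝ ∞ (fun z : E (n + 1) => cY (ψ⁻¹.map z)) :=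
    (cY : E (n + 1) →L[ℝ] ℝ).contDiff.comp (map_smooth ψ⁻¹)
  have h1 := ham_natural (map_smooth ψ) ψ.2.1.form hL z
  have h2 : (fun y => cY (ψ⁻¹.map (ψ.map y))) = (cY : E (n + 1) → ℝ) := by
    ext y
    rw [inv_map_map]
  rw [h2, ham_cY] at h1
  exact h1.symm

theorem pos_ham {ψ : SympCt (n + 1)} (h : Positive ψ) (z : E (n + 1)) :
    0 < cX (ham (fun z => cY (ψ⁻¹.map z)) z) := by
  have h1 := ham_inv ψ (ψ⁻¹.map z)
  rw [map_inv_map] at h1
  rw [h1]
  exact h _

/-- families of functions with `∂L/∂Y > 0` -/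
theorem tfam_of_pos {Q : Type} [NormedAddCommGroup Q] [NormedSpace ℝ Q]
    {L : Q → E (n + 1) → ℝ} {R : ℝ} (hR : 0 < R)
    (hs : ContDiff ℝ ∞ (fun q : Q × E (n + 1) => L q.1 q.2))
    (hoff : ∀ q z, R < ‖z‖ → L q z = cY z) (hpos : ∀ q z, 0 < cX (ham (L q) z)) :
    TFam L R := by
  refine ⟨hR, hs, hoff, fun q => ?_⟩
  have hLq : ContDiff ℝ ∞ (L q) := hs.comp (contDiff_const.prodMk contDiff_id)
  obtain ⟨c, hc, hcL⟩ : ∃ c : ℝ, 0 < c ∧ ∀ ζ, c ≤ cX (ham (L q) ζ) := by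
    have hcont : Continuous (fun ζ => cX (ham (L q) ζ)) :=
      (cX : E (n + 1) →L[ℝ] ℝ).continuous.comp (ham_smooth hLq).continuous
    obtain ⟨ζ₀, -, hmin⟩ := (isCompact_closedBall (0 : E (n + 1)) R).exists_isMinOn
      ⟨0, by simp [hR.le]⟩ hcont.continuousOn
    refine ⟨min 1 (cX (ham (L q) ζ₀)), lt_min one_pos (hpos _ _), fun ζ => ?_⟩
    by_cases hζ : ‖ζ‖ ≤ R
    · exact (min_le_right _ _).trans (hmin (by simpa using hζ))
    · rw [ham_out (hoff q) (not_le.1 hζ), cX_e0]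
      exact min_le_left _ _
  exact fun γ hγ => trapless_of_pos hc hcL γ hγ

section fam

variable {T : Type} [NormedAddCommGroup T] [NormedSpace ℝ T] [FiniteDimensional ℝ T]

theorem linkF_smooth {χ : ℝ → ℝ} (hχ : Step χ) {φ : T → SympCt (n + 1)}
    (hs : ContDiff ℝ ∞ (fun q : T × E (n + 1) => (φ q.1).map q.2)) :
    ContDiff ℝ ∞ (fun q : (T × ℝ) × E (n + 1) => linkF χ φ q.1 q.2) := by
  have h1 : ContDiff ℝ ∞ (fun q : (T × ℝ) × E (n + 1) => cY ((φ q.1.1)⁻¹.map q.2)) :=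
    (cY : E (n + 1) →L[ℝ] ℝ).contDiff.comp ((inv_smooth hs).comp
      ((contDiff_fst.comp contDiff_fst).prodMk contDiff_snd))
  have h2 : ContDiff ℝ ∞ (fun q : (T × ℝ) × E (n + 1) => χ q.1.2) :=
    hχ.smooth.comp (contDiff_snd.comp contDiff_fst)
  exact ((contDiff_const.sub h2).mul ((cY : E (n + 1) →L[ℝ] ℝ).contDiff.comp contDiff_snd)).add
    (h2.mul h1)

omit [NormedAddCommGroup T] [NormedSpace ℝ T] [FiniteDimensional ℝ T] in
theorem linkF_off {χ : ℝ → ℝ} {φ : T → SympCt (n + 1)} {R : ℝ}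
    (hoff : ∀ t z, R < ‖z‖ → (φ t).map z = z) (q : T × ℝ) (z : E (n + 1)) (hz : R < ‖z‖) :
    linkF χ φ q z = cY z := by
  have h1 := inv_map_map (φ q.1) z
  rw [hoff q.1 z hz] at h1
  show (1 - χ q.2) * cY z + χ q.2 * cY ((φ q.1)⁻¹.map z) = cY z
  rw [h1]
  ring

omit [NormedAddCommGroup T] [NormedSpace ℝ T] [FiniteDimensional ℝ T] in
theorem linkF_pos {χ : ℝ → ℝ} (hχ : Step χ) {φ : T → SympCt (n + 1)}
    (hpos : ∀ t, Positive (φ t)) (q : T × ℝ) (z : E (n + 1)) :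
    0 < cX (ham (linkF χ φ q) z) :=
  pos_comb (cY : E (n + 1) →L[ℝ] ℝ).contDiff
    ((cY : E (n + 1) →L[ℝ] ℝ).contDiff.comp (map_smooth (φ q.1)⁻¹)) cX_ham_cY
    (pos_ham (hpos q.1)) (hχ.mem q.2) z

omit [NormedAddCommGroup T] [NormedSpace ℝ T] [FiniteDimensional ℝ T] in
theorem linkF_early {χ : ℝ → ℝ} {φ : T → SympCt (n + 1)} {q : T × ℝ} (h : χ q.2 = 0) :
    linkF χ φ q = cY := by
  ext z
  show (1 - χ q.2) * cY z + χ q.2 * cY ((φ q.1)⁻¹.map z) = cY z
  rw [h]
  ring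

omit [NormedAddCommGroup T] [NormedSpace ℝ T] [FiniteDimensional ℝ T] in
theorem linkF_late {χ : ℝ → ℝ} {φ : T → SympCt (n + 1)} {q : T × ℝ} (h : χ q.2 = 1) :
    linkF χ φ q = fun z => cY ((φ q.1)⁻¹.map z) := by
  ext z
  show (1 - χ q.2) * cY z + χ q.2 * cY ((φ q.1)⁻¹.map z) = _
  rw [h]
  ring

omit [NormedAddCommGroup T] [NormedSpace ℝ T] [FiniteDimensional ℝ T] in
theorem linkF_one {χ : ℝ → ℝ} {φ : T → SympCt (n + 1)} {q : T × ℝ} (h : φ q.1 = 1) :
    linkF χ φ q = cY := by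
  ext z
  show (1 - χ q.2) * cY z + χ q.2 * cY ((φ q.1)⁻¹.map z) = cY z
  rw [h, inv_one]
  show (1 - χ q.2) * cY z + χ q.2 * cY z = cY z
  ring

theorem link_tfam {χ : ℝ → ℝ} (hχ : Step χ) {φ : T → SympCt (n + 1)} {R : ℝ} (hR : 0 < R)
    (hs : ContDiff ℝ ∞ (fun q : T × E (n + 1) => (φ q.1).map q.2))
    (hoff : ∀ t z, R < ‖z‖ → (φ t).map z = z) (hpos : ∀ t, Positive (φ t)) :
    TFam (linkF χ φ) R :=
  tfam_of_pos hR (linkF_smooth hχ hs) (linkF_off hoff) (linkF_pos hχ hpos)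

/-- scattering maps of families -/
theorem TFam.scat {L : T → E (n + 1) → ℝ} {R : ℝ} (h : TFam L R) :
    ∃ c : T → ℝ → SympCt n, BFam c R ∧ ∀ q, IsScattering (L q) (c q) := by
  obtain ⟨W, hW, hLW⟩ := h.exists_wave
  obtain ⟨c, hc, hco⟩ := hW.exists_out
  exact ⟨c, hc, fun q => scat_of hW hco (h.slice q) q (hLW q)⟩

theorem scat_inv (ψ : SympCt (n + 1)) :
    IsScattering (fun z => cY (ψ⁻¹.map z)) (1 : ℝ → SympCt n) := scat_comp nt_cY scat_cY ψ⁻¹

theorem scat_eq_one {L : E (n + 1) → ℝ} {c : ℝ → SympCt n} (h : IsScattering L c)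
    (h' : L = cY ∨ ∃ ψ : SympCt (n + 1), L = fun z => cY (ψ⁻¹.map z)) : c = 1 := by
  rcases h' with rfl | ⟨ψ, rfl⟩
  · exact scat_unique nt_cY h scat_cY
  · exact scat_unique (nt_comp nt_cY ψ⁻¹) h (scat_inv ψ)

end fam

section main

variable {P : Type} [NormedAddCommGroup P] [NormedSpace ℝ P] [FiniteDimensional ℝ P]

theorem link_exists {χ : ℝ → ℝ} (hχ : Step χ) {φ : P → SympCt (n + 1)} (h : PMap φ) :
    ∃ b : P × ℝ × ℝ → SympCt n, Fam b ∧ IsLink χ φ b := by
  obtain ⟨R, hR, hoff, hone⟩ := fam_radius h.fam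
  obtain ⟨S, hS0, hS1⟩ := hχ.ends
  have hT := link_tfam hχ hR h.fam.smooth hoff h.pos
  obtain ⟨c, hc, hsc⟩ := hT.scat
  refine ⟨fun q => c (q.1, q.2.1) q.2.2, ?_, fun q => hsc q⟩
  refine fam_of (K := closedBall 0 R) (R := max R S) ?_ (isCompact_closedBall _ _)
    (fun q w hw => ?_) (fun q hq => ?_)
  · exact hc.smooth.comp (((contDiff_fst.comp contDiff_fst).prodMk
      (contDiff_fst.comp (contDiff_snd.comp contDiff_fst))).prodMk
      ((contDiff_snd.comp (contDiff_snd.comp contDiff_fst)).prodMk contDiff_snd))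
  · refine hc.off _ _ w (Or.inr ?_)
    rwa [mem_closedBall_zero_iff, not_le] at hw
  · show c (q.1, q.2.1) q.2.2 = 1
    rw [Prod.norm_def, Prod.norm_def, lt_max_iff, lt_max_iff] at hq
    rcases hq with hq | hq | hq
    · rw [scat_eq_one (hsc _) (Or.inl (linkF_one (hone _ ((le_max_left _ _).trans_lt hq))))]
      rfl
    · rcases lt_abs.1 ((le_max_right R S).trans_lt hq) with h2 | h2
      · rw [scat_eq_one (hsc _) (Or.inr ⟨_, linkF_late (hS1 _ h2)⟩)]
        rfl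
      · rw [scat_eq_one (hsc _) (Or.inl (linkF_early (hS0 _ (by linarith))))]
        rfl
    · exact map_eq_one fun w => hc.off _ _ w (Or.inl ((le_max_left _ _).trans_lt hq))

theorem link_nt {χ : ℝ → ℝ} (hχ : Step χ) {φ : P → SympCt (n + 1)} (h : PMap φ) (q : P × ℝ) :
    NonTrapping (linkF χ φ q) := by
  obtain ⟨R, hR, hoff, hone⟩ := fam_radius h.fam
  exact tfam_nt (link_tfam hχ hR h.fam.smooth hoff h.pos) q

theorem link_unique {χ : ℝ → ℝ} (hχ : Step χ) {φ : P → SympCt (n + 1)} (h : PMap φ)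
    {b b' : P × ℝ × ℝ → SympCt n} (hb : IsLink χ φ b) (hb' : IsLink χ φ b') : b = b' := by
  have h1 := scat_uniqueP (link_nt hχ h) hb hb'
  ext1 q
  exact congrFun h1 ((q.1, q.2.1), q.2.2)

/-- homotopies of scattering maps of linear paths -/
theorem htp_of_phtp {χ : ℝ → ℝ} (hχ : Step χ) {φ φ' : P → SympCt (n + 1)} (h : PHtp φ φ')
    {b b' : P × ℝ × ℝ → SympCt n} (hb : IsLink χ φ b) (hb' : IsLink χ φ' b') : Htp b b' := by
  obtain ⟨B, K₀, hK₀, h1, h2, h3, h4, h5⟩ := h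
  obtain ⟨R, hR, hRK⟩ := pair_radius hK₀
  obtain ⟨S, hS0, hS1⟩ := hχ.ends
  have hBs : ContDiff ℝ ∞ (fun q : (ℝ × P) × E (n + 1) => (B q.1.1 q.1.2).map q.2) :=
    h1.comp ((contDiff_fst.comp contDiff_fst).prodMk
      ((contDiff_snd.comp contDiff_fst).prodMk contDiff_snd))
  have hT := link_tfam (φ := fun q : ℝ × P => B q.1 q.2) hχ hR hBs
    (fun t z hz => h2 t.1 (t.2, z) (hRK _ _ (Or.inr hz))) (fun t => h3 t.1 t.2)
  have hone : ∀ s p, R < ‖p‖ → B s p = 1 := fun s p hp =>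
    map_eq_one fun z => h2 s (p, z) (hRK _ _ (Or.inl hp))
  obtain ⟨c, hc, hsc⟩ := hT.scat
  have e0 : (fun q : P × ℝ × ℝ => c ((0, q.1), q.2.1) q.2.2) = b := by
    ext1 q
    refine congrFun (scat_unique (b' := fun y => b (q.1, q.2.1, y)) (tfam_nt hT _)
      (hsc ((0, q.1), q.2.1)) ?_) q.2.2
    have h6 := hb (q.1, q.2.1)
    rw [← h4] at h6
    exact h6
  have e1 : (fun q : P × ℝ × ℝ => c ((1, q.1), q.2.1) q.2.2) = b' := by
    ext1 q
    refine congrFun (scat_unique (b' := fun y => b' (q.1, q.2.1, y)) (tfam_nt hT _)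
      (hsc ((1, q.1), q.2.1)) ?_) q.2.2
    have h6 := hb' (q.1, q.2.1)
    rw [← h5] at h6
    exact h6
  rw [← e0, ← e1]
  refine htp_of (θ := fun q : ℝ × (P × ℝ × ℝ) => c ((q.1, q.2.1), q.2.2.1) q.2.2.2)
    (K := closedBall 0 R) (R := max R S) ?_ (isCompact_closedBall _ _)
    (fun q w hw => ?_) (fun s q hq => ?_)
  · have h6 : ContDiff ℝ ∞ (fun q : (ℝ × (P × ℝ × ℝ)) × E n =>
        ((((q.1.1, q.1.2.1), q.1.2.2.1), q.1.2.2.2, q.2) : ((ℝ × P) × ℝ) × ℝ × E n)) := by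
      fun_prop
    exact hc.smooth.comp h6
  · refine hc.off _ _ w (Or.inr ?_)
    rwa [mem_closedBall_zero_iff, not_le] at hw
  · show c ((s, q.1), q.2.1) q.2.2 = 1
    rw [Prod.norm_def, Prod.norm_def, lt_max_iff, lt_max_iff] at hq
    rcases hq with hq | hq | hq
    · rw [scat_eq_one (hsc _) (Or.inl (linkF_one (hone _ _ ((le_max_left _ _).trans_lt hq))))]
      rfl
    · rcases lt_abs.1 ((le_max_right R S).trans_lt hq) with h2 | h2
      · rw [scat_eq_one (hsc _) (Or.inr ⟨_, linkF_late (hS1 _ h2)⟩)]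
        rfl
      · rw [scat_eq_one (hsc _) (Or.inl (linkF_early (hS0 _ (by linarith))))]
        rfl
    · exact map_eq_one fun w => hc.off _ _ w (Or.inl ((le_max_left _ _).trans_lt hq))

/-- the suspension of the scattering map of the linear path -/
theorem link_susp (hn : 0 < n) {χ : ℝ → ℝ} (hχ : Step χ) {φ : P → SympCt (n + 1)} (h : PMap φ)
    {b : P × ℝ × ℝ → SympCt n} (hb : IsLink χ φ b) {ψ : P → SympCt (n + 1)}
    (hψ : IsSusp b ψ) : Htp φ ψ := by
  obtain ⟨R, hR, hoff, hone⟩ := fam_radius h.fam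
  obtain ⟨S, hS0, hS1⟩ := hχ.ends
  have hT := link_tfam hχ hR h.fam.smooth hoff h.pos
  obtain ⟨W, hW, hLW⟩ := hT.exists_wave
  obtain ⟨c, hc, hco⟩ := hW.exists_out
  obtain ⟨b₁, hb₁, hl₁⟩ := link_exists hχ h
  have hbF : Fam b := by
    rw [link_unique hχ h hb hl₁]
    exact hb₁
  have e1 : c = fun q y => b (q.1, q.2, y) := by
    ext1 q
    exact scat_unique (tfam_nt hT q) (scat_of hW hco (hT.slice q) q (hLW q)) (hb q)
  rw [e1] at hco
  refine compare hn hW hbF hco (R₁ := max R S) ?_ ?_ ?_ hψ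
  · intro p s z hs
    refine wave_id hW (p, s) (fun z => ?_) z
    have := hLW (p, s) z
    rwa [linkF_early (hS0 _ (by linarith [le_max_right R S]))] at this
  · intro p s z hs
    refine wave_unique (hW.fam.slice _) (hW.fam.symp _) (map_smooth (φ p)) (φ p).2.1.form
      (L := fun z => cY ((φ p)⁻¹.map z)) ?_ (fun z => ?_) (fun z => ?_) (hW.left _)
      (R' := R) (fun z hz => ?_) z
    · exact (cY : E (n + 1) →L[ℝ] ℝ).contDiff.comp (map_smooth (φ p)⁻¹)
    · have := hLW (p, s) z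
      rwa [linkF_late (hS1 _ (by linarith [le_max_right R S]))] at this
    · show cY ((φ p)⁻¹.map ((φ p).map z)) = cY z
      rw [inv_map_map]
    · refine hoff p z (norm_gt_of_cX (lt_of_lt_of_le ?_ (neg_le_abs _)))
      linarith
  · intro p s z hp
    refine wave_id hW (p, s) (fun z => ?_) z
    have := hLW (p, s) z
    rwa [linkF_one (hone _ (by linarith [le_max_left R S]))] at this

/-- lifting of homotopies to positive maps -/
theorem phtp_of_htp (hn : 0 < n) {χ : ℝ → ℝ} (hχ : Step χ) {φ φ' : P → SympCt (n + 1)}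
    (h : PMap φ) (h' : PMap φ') {b b' : P × ℝ × ℝ → SympCt n} (hb : IsLink χ φ b)
    (hb' : IsLink χ φ' b') (hB : Htp b b') : PHtp φ φ' := by
  have : ProperSpace P := FiniteDimensional.proper_real P
  obtain ⟨R₁, hR₁, hoff, hone⟩ := fam_radius h.fam
  obtain ⟨R₂, hR₂, hoff', hone'⟩ := fam_radius h'.fam
  obtain ⟨S, hS0, hS1⟩ := hχ.ends
  obtain ⟨B, K₀, hK₀, hBs, hBoff, hB0, hB1⟩ := hB
  obtain ⟨R₃, hR₃, hRK⟩ := pair_radius hK₀
  set R := max (max R₁ R₂) (max (R₃ + 1) (S + 1)) with hRdef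
  have r1 : R₁ ≤ R := (le_max_left _ _).trans (le_max_left _ _)
  have r2 : R₂ ≤ R := (le_max_right _ _).trans (le_max_left _ _)
  have r3 : R₃ + 1 ≤ R := (le_max_left _ _).trans (le_max_right _ _)
  have r4 : S + 1 ≤ R := (le_max_right _ _).trans (le_max_right _ _)
  have hR0 : 0 < R := by linarith
  -- the family of functions
  let M : (ℝ × P) × ℝ → E (n + 1) → ℝ := fun q z =>
    (1 - et q.1.1) * linkF χ φ (q.1.2, q.2) z + et q.1.1 * linkF χ φ' (q.1.2, q.2) z
  have hMs : ContDiff ℝ ∞ (fun q : ((ℝ × P) × ℝ) × E (n + 1) => M q.1 q.2) := by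
    have a1 : ContDiff ℝ ∞ (fun q : ((ℝ × P) × ℝ) × E (n + 1) => et q.1.1.1) :=
      et_smooth.comp (contDiff_fst.comp (contDiff_fst.comp contDiff_fst))
    have a0 : ContDiff ℝ ∞ (fun q : ((ℝ × P) × ℝ) × E (n + 1) =>
        (((q.1.1.2, q.1.2), q.2) : (P × ℝ) × E (n + 1))) := by fun_prop
    have a2 := (linkF_smooth hχ h.fam.smooth).comp a0
    have a3 := (linkF_smooth hχ h'.fam.smooth).comp a0
    exact ((contDiff_const.sub a1).mul a2).add (a1.mul a3)
  have hMoff : ∀ q z, R < ‖z‖ → M q z = cY z := by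
    intro q z hz
    show (1 - et q.1.1) * linkF χ φ (q.1.2, q.2) z + et q.1.1 * linkF χ φ' (q.1.2, q.2) z = _
    rw [linkF_off hoff _ z (by linarith), linkF_off hoff' _ z (by linarith)]
    ring
  have hMpos : ∀ q z, 0 < cX (ham (M q) z) := by
    intro q z
    exact pos_comb (link_nt hχ h _).smooth (link_nt hχ h' _).smooth
      (linkF_pos hχ h.pos _) (linkF_pos hχ h'.pos _) (et_mem q.1.1) z
  have hMT : TFam M R := tfam_of_pos hR0 hMs hMoff hMpos
  obtain ⟨W, hW, hMW⟩ := hMT.exists_wave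
  obtain ⟨c, hc, hco⟩ := hW.exists_out
  have hsc : ∀ q, IsScattering (M q) (c q) := fun q => scat_of hW hco (hMT.slice q) q (hMW q)
  -- special values
  have hM0 : ∀ τ p s, τ ≤ 0 → M ((τ, p), s) = linkF χ φ (p, s) := by
    intro τ p s hτ
    ext z
    show (1 - et τ) * linkF χ φ (p, s) z + et τ * linkF χ φ' (p, s) z = _
    rw [et_zero hτ]
    ring
  have hM1 : ∀ τ p s, 1 ≤ τ → M ((τ, p), s) = linkF χ φ' (p, s) := by
    intro τ p s hτ
    ext z
    show (1 - et τ) * linkF χ φ (p, s) z + et τ * linkF χ φ' (p, s) z = _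
    rw [et_one hτ]
    ring
  have hMcY : ∀ q : (ℝ × P) × ℝ, (R < ‖q.1.2‖ ∨ q.2 ≤ -R) → M q = cY := by
    intro q hq
    have a1 : linkF χ φ (q.1.2, q.2) = cY ∧ linkF χ φ' (q.1.2, q.2) = cY := by
      rcases hq with hq | hq
      · exact ⟨linkF_one (hone _ (by linarith)), linkF_one (hone' _ (by linarith))⟩
      · exact ⟨linkF_early (hS0 _ (by linarith)), linkF_early (hS0 _ (by linarith))⟩
    ext z
    show (1 - et q.1.1) * linkF χ φ (q.1.2, q.2) z + et q.1.1 * linkF χ φ' (q.1.2, q.2) z = _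
    rw [a1.1, a1.2]
    ring
  have hMlate : ∀ t s s', R ≤ s → R ≤ s' → M (t, s) = M (t, s') := by
    intro t s s' hs hs'
    ext z
    show (1 - et t.1) * linkF χ φ (t.2, s) z + et t.1 * linkF χ φ' (t.2, s) z =
      (1 - et t.1) * linkF χ φ (t.2, s') z + et t.1 * linkF χ φ' (t.2, s') z
    rw [linkF_late (q := (t.2, s)) (hS1 s (by linarith)),
      linkF_late (φ := φ') (q := (t.2, s)) (hS1 s (by linarith)),
      linkF_late (q := (t.2, s')) (hS1 s' (by linarith)),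
      linkF_late (φ := φ') (q := (t.2, s')) (hS1 s' (by linarith))]
  have hc1 : ∀ q : (ℝ × P) × ℝ, (R < ‖q.1.2‖ ∨ q.2 ≤ -R) → c q = 1 := fun q hq =>
    scat_eq_one (hsc q) (Or.inl (hMcY q hq))
  have hclate : ∀ t s s', R ≤ s → R ≤ s' → c (t, s) = c (t, s') := by
    intro t s s' hs hs'
    have a1 := hsc (t, s)
    rw [hMlate t s s' hs hs'] at a1
    exact scat_unique (tfam_nt hMT _) a1 (hsc (t, s'))
  have hc0 : ∀ τ p s, τ ≤ 0 → c ((τ, p), s) = fun y => b (p, s, y) := by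
    intro τ p s hτ
    have a1 := hsc ((τ, p), s)
    rw [hM0 τ p s hτ] at a1
    exact scat_unique (link_nt hχ h _) a1 (hb (p, s))
  have hc1' : ∀ τ p s, 1 ≤ τ → c ((τ, p), s) = fun y => b' (p, s, y) := by
    intro τ p s hτ
    have a1 := hsc ((τ, p), s)
    rw [hM1 τ p s hτ] at a1
    exact scat_unique (link_nt hχ h' _) a1 (hb' (p, s))
  have hB1' : ∀ τ p s y, (R < ‖p‖ ∨ R ≤ |s|) → B τ (p, s, y) = 1 := by
    intro τ p s y hh
    refine map_eq_one fun w => hBoff τ ((p, s, y), w) (hRK _ _ (Or.inl ?_))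
    rw [Prod.norm_def, Prod.norm_def, lt_max_iff, lt_max_iff]
    rcases hh with hh | hh
    · exact Or.inl (by linarith)
    · exact Or.inr (Or.inl (by rw [Real.norm_eq_abs]; linarith))
  -- the correction
  have hBF : BFam (fun (q : (ℝ × P) × ℝ) y => B (et q.1.1) (q.1.2, q.2, y)) R := by
    refine ⟨?_, fun q y w hh => hBoff _ ((q.1.2, q.2, y), w) (hRK _ _ ?_)⟩
    · have a1 : ContDiff ℝ ∞ (fun q : ((ℝ × P) × ℝ) × ℝ × E n =>
          ((et q.1.1.1, (q.1.1.2, q.1.2, q.2.1), q.2.2) : ℝ × (P × ℝ × ℝ) × E n)) := by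
        have a2 : ContDiff ℝ ∞ (fun q : ((ℝ × P) × ℝ) × ℝ × E n =>
          (((q.1.1.2, q.1.2, q.2.1), q.2.2) : (P × ℝ × ℝ) × E n)) := by fun_prop
        exact (et_smooth.comp (contDiff_fst.comp (contDiff_fst.comp contDiff_fst))).prodMk a2
      exact hBs.comp a1
    · rcases hh with hh | hh
      · refine Or.inl ?_
        rw [Prod.norm_def, Prod.norm_def, lt_max_iff, lt_max_iff]
        exact Or.inr (Or.inr (by
          show R₃ < ‖y‖
          rw [Real.norm_eq_abs]; linarith))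
      · exact Or.inr (by linarith)
  have hD : BFam (fun (q : (ℝ × P) × ℝ) y => B (et q.1.1) (q.1.2, q.2, y) * (c q y)⁻¹) R :=
    hBF.mul hc.inv
  have hDlate : ∀ (t : ℝ × P) (s s' y : ℝ), R ≤ s → R ≤ s' →
      B (et t.1) (t.2, s, y) * (c (t, s) y)⁻¹ = B (et t.1) (t.2, s', y) * (c (t, s') y)⁻¹ := by
    intro t s s' y hs hs'
    rw [hclate t s s' hs hs', hB1' _ _ s _ (Or.inr (hs.trans (le_abs_self s))),
      hB1' _ _ s' _ (Or.inr (hs'.trans (le_abs_self s')))]
  have hDearly : ∀ (t : ℝ × P) (s y : ℝ), s ≤ -R →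
      B (et t.1) (t.2, s, y) * (c (t, s) y)⁻¹ = 1 := by
    intro t s y hs
    rw [hc1 (t, s) (Or.inr hs), hB1' _ _ s _ (Or.inr (by linarith [neg_abs_le s]))]
    simp
  obtain ⟨K, hK, hgen, hKz⟩ := exists_K' hn hD hDlate (fun t s s' y hs hs' => by
    rw [hDearly t s y hs, hDearly t s' y hs'])
  have hKfar : ∀ t : ℝ × P, R < ‖t.2‖ → ∀ s y w, K t s y w = 0 := by
    intro t ht
    refine hKz t fun s s' y => ?_
    rw [hc1 (t, s) (Or.inl ht), hc1 (t, s') (Or.inl ht), hB1' _ _ s _ (Or.inl ht),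
      hB1' _ _ s' _ (Or.inl ht)]
  have hK0 : ∀ τ p, τ ≤ 0 → ∀ s y w, K (τ, p) s y w = 0 := by
    intro τ p hτ
    refine hKz (τ, p) fun s s' y => ?_
    rw [hc0 τ p s hτ, hc0 τ p s' hτ]
    show B (et τ) (p, s, y) * (b (p, s, y))⁻¹ = B (et τ) (p, s', y) * (b (p, s', y))⁻¹
    rw [et_zero hτ, hB0, mul_inv_cancel, mul_inv_cancel]
  have hK1 : ∀ τ p, 1 ≤ τ → ∀ s y w, K (τ, p) s y w = 0 := by
    intro τ p hτ
    refine hKz (τ, p) fun s s' y => ?_
    rw [hc1' τ p s hτ, hc1' τ p s' hτ]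
    show B (et τ) (p, s, y) * (b' (p, s, y))⁻¹ = B (et τ) (p, s', y) * (b' (p, s', y))⁻¹
    rw [et_one hτ, hB1, mul_inv_cancel, mul_inv_cancel]
  have hQ₀ : IsCompact ((Icc (0 : ℝ) 1) ×ˢ closedBall (0 : P) R) :=
    isCompact_Icc.prod (isCompact_closedBall _ _)
  obtain ⟨β, B', C, -, hC, hCS, hCo, hCpos, hClow⟩ := exists_slow hR0 hK hQ₀ (fun t ht => by
    rw [mem_prod, not_and_or, mem_closedBall_zero_iff, not_le] at ht
    rcases ht with ht | ht
    · rw [mem_Icc, not_and_or, not_le, not_le] at ht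
      rcases ht with ht | ht
      · exact hK0 t.1 t.2 ht.le
      · exact hK1 t.1 t.2 ht.le
    · exact hKfar t ht) hgen (fun t y => hDearly t _ y (by linarith)) (R + 1)
  have hV := hCS.comp hW
  have hVo := Out.comp hW hCo hco
  let σ : ℝ × P → (ℝ × P) × ℝ := fun q => ((et q.1, q.2), R + 1)
  have hσ : ContDiff ℝ ∞ σ :=
    ((et_smooth.comp contDiff_fst).prodMk contDiff_snd).prodMk contDiff_const
  have hfar : ∀ q : ℝ × P, R < ‖q.2‖ → ∀ z, C (et q.1, q.2) (R + 1) (W (σ q) z) = z := by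
    intro q hq z
    rw [C_triv hC (hKfar (et q.1, q.2) hq)]
    refine wave_id hW (σ q) (fun z => ?_) z
    have a1 := hMW (σ q) z
    rwa [hMcY (σ q) (Or.inl hq)] at a1
  obtain ⟨θ, K', hK', k1, k2, k3⟩ := symp_path hn hV hVo hσ
    (hQ₀.prod (isCompact_singleton (x := R + 1)))
    (fun q => by
      by_cases hq : ‖q.2‖ ≤ R
      · exact Or.inl ⟨⟨et_mem q.1, by simpa using hq⟩, rfl⟩
      · exact Or.inr (hfar q (not_le.1 hq)))
    (fun q y => by
      show B (et (et q.1)) (q.2, R + 1, y) * (c (σ q) y)⁻¹ * c (σ q) y = 1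
      rw [inv_mul_cancel_right]
      exact hB1' _ _ _ _ (Or.inr (by linarith [le_abs_self (R + 1)])))
  refine ⟨fun s p => θ (s, p), closedBall 0 R ×ˢ K', (isCompact_closedBall _ _).prod hK', ?_,
    fun s q hq => ?_, fun s p => ?_, ?_, ?_⟩
  · exact k1.comp ((contDiff_fst.prodMk (contDiff_fst.comp contDiff_snd)).prodMk
      (contDiff_snd.comp contDiff_snd))
  · rw [mem_prod, not_and_or, mem_closedBall_zero_iff, not_le] at hq
    rcases hq with hq | hq
    · exact (k3 (s, q.1) q.2).trans (hfar (s, q.1) hq q.2)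
    · exact k2 (s, q.1) q.2 hq
  · -- positivity
    intro z
    have hmap : (θ (s, p)).map = fun z => C (et s, p) (R + 1) (W (σ (s, p)) z) :=
      funext (k3 (s, p))
    have hCd : Differentiable ℝ (C (et s, p) (R + 1)) :=
      (hC.smooth.comp (contDiff_const.prodMk (contDiff_const.prodMk
        contDiff_id))).differentiable (by simp)
    have hWd : ContDiff ℝ ∞ (W (σ (s, p))) := hW.fam.slice _
    have a1 : fderiv ℝ (fun z => C (et s, p) (R + 1) (W (σ (s, p)) z)) z =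
        (fderiv ℝ (C (et s, p) (R + 1)) (W (σ (s, p)) z)).comp (fderiv ℝ (W (σ (s, p))) z) :=
      fderiv_comp z (hCd _) (hWd.differentiable (by simp) z)
    have a2 : fderiv ℝ (W (σ (s, p))) z e0 = ham (M (σ (s, p))) (W (σ (s, p)) z) := by
      have a3 := ham_natural hWd (hW.fam.symp _) (hMT.slice (σ (s, p))) z
      have a4 : (fun y => M (σ (s, p)) (W (σ (s, p)) y)) = (cY : E (n + 1) → ℝ) :=
        funext fun y => hMW (σ (s, p)) y
      rw [a4, ham_cY] at a3
      exact a3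
    show 0 < cX (fderiv ℝ (θ (s, p)).map z e0)
    rw [hmap, a1, ContinuousLinearMap.comp_apply, a2]
    exact pos_after (fun z => hCpos (et s, p) (R + 1) z) (fun z hz => hClow _ _ z hz)
      (hMoff (σ (s, p))) (by linarith) (hMpos _) _
  · ext1 p
    refine ext_map fun z => (k3 (0, p) z).trans ?_
    show C (et 0, p) (R + 1) (W ((et 0, p), R + 1) z) = (φ p).map z
    rw [et_zero le_rfl, C_triv hC (hK0 0 p le_rfl)]
    refine wave_unique (hW.fam.slice _) (hW.fam.symp _) (map_smooth (φ p)) (φ p).2.1.form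
      (L := fun z => cY ((φ p)⁻¹.map z)) ?_ (fun z => ?_) (fun z => ?_) (hW.left _)
      (R' := R₁) (fun z hz => ?_) z
    · exact (cY : E (n + 1) →L[ℝ] ℝ).contDiff.comp (map_smooth (φ p)⁻¹)
    · have a1 := hMW ((0, p), R + 1) z
      rwa [hM0 0 p _ le_rfl, linkF_late (q := (p, R + 1)) (hS1 _ (by linarith))] at a1
    · show cY ((φ p)⁻¹.map ((φ p).map z)) = cY z
      rw [inv_map_map]
    · refine hoff p z (norm_gt_of_cX (lt_of_lt_of_le ?_ (neg_le_abs _)))
      linarith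
  · ext1 p
    refine ext_map fun z => (k3 (1, p) z).trans ?_
    show C (et 1, p) (R + 1) (W ((et 1, p), R + 1) z) = (φ' p).map z
    rw [et_one le_rfl, C_triv hC (hK1 1 p le_rfl)]
    refine wave_unique (hW.fam.slice _) (hW.fam.symp _) (map_smooth (φ' p)) (φ' p).2.1.form
      (L := fun z => cY ((φ' p)⁻¹.map z)) ?_ (fun z => ?_) (fun z => ?_) (hW.left _)
      (R' := R₂) (fun z hz => ?_) z
    · exact (cY : E (n + 1) →L[ℝ] ℝ).contDiff.comp (map_smooth (φ' p)⁻¹)
    · have a1 := hMW ((1, p), R + 1) z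
      rwa [hM1 1 p _ le_rfl, linkF_late (φ := φ') (q := (p, R + 1)) (hS1 _ (by linarith))] at a1
    · show cY ((φ' p)⁻¹.map ((φ' p).map z)) = cY z
      rw [inv_map_map]
    · refine hoff' p z (norm_gt_of_cX (lt_of_lt_of_le ?_ (neg_le_abs _)))
      linarith

/-- reparametrisation of the second variable -/
theorem htp_reparam {m : ℕ} {b : P × ℝ × ℝ → SympCt m} (hb : Fam b) {R : ℝ}
    (hR : ∀ p s y, R < |s| → b (p, s, y) = 1) {t : ℝ → ℝ} (ht : ContDiff ℝ ∞ t) {T : ℝ}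
    (ht0 : ∀ s, s < -T → t s < -R) (ht1 : ∀ s, T < s → R < t s) :
    Htp b (fun q => b (q.1, t q.2.1, q.2.2)) := by
  have : ProperSpace P := FiniteDimensional.proper_real P
  obtain ⟨R₁, hR₁, hoff, hone⟩ := fam_radius hb
  have key := htp_of (m := m) (P := P × ℝ × ℝ) (θ := fun q => b (q.2.1,
      (1 - et q.1) * q.2.2.1 + et q.1 * t q.2.2.1, q.2.2.2)) (K := closedBall 0 R₁)
    (R := max R₁ (max R T)) ?_ (isCompact_closedBall _ _) (fun q w hw => ?_) (fun s q hq => ?_)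
  · have a0 : (fun q : P × ℝ × ℝ => b (q.1, (1 - et 0) * q.2.1 + et 0 * t q.2.1, q.2.2)) = b := by
      ext1 q
      rw [et_zero le_rfl, sub_zero, one_mul, zero_mul, add_zero]
    have a1 : (fun q : P × ℝ × ℝ => b (q.1, (1 - et 1) * q.2.1 + et 1 * t q.2.1, q.2.2)) =
        fun q => b (q.1, t q.2.1, q.2.2) := by
      ext1 q
      rw [et_one le_rfl, sub_self, zero_mul, one_mul, zero_add]
    have key' : Htp (fun q : P × ℝ × ℝ => b (q.1, (1 - et 0) * q.2.1 + et 0 * t q.2.1, q.2.2))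
      (fun q : P × ℝ × ℝ => b (q.1, (1 - et 1) * q.2.1 + et 1 * t q.2.1, q.2.2)) := key
    rw [a0, a1] at key'
    exact key'
  · have a1 : ContDiff ℝ ∞ (fun q : (ℝ × (P × ℝ × ℝ)) × E m =>
        (((q.1.2.1, (1 - et q.1.1) * q.1.2.2.1 + et q.1.1 * t q.1.2.2.1, q.1.2.2.2), q.2) :
          (P × ℝ × ℝ) × E m)) := by
      have a2 : ContDiff ℝ ∞ (fun q : (ℝ × (P × ℝ × ℝ)) × E m => et q.1.1) :=
        et_smooth.comp (contDiff_fst.comp contDiff_fst)
      have a3 : ContDiff ℝ ∞ (fun q : (ℝ × (P × ℝ × ℝ)) × E m => t q.1.2.2.1) :=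
        ht.comp (contDiff_fst.comp (contDiff_snd.comp (contDiff_snd.comp contDiff_fst)))
      fun_prop
    exact hb.smooth.comp a1
  · refine hoff _ w ?_
    rwa [mem_closedBall_zero_iff, not_le] at hw
  · show b (q.1, (1 - et s) * q.2.1 + et s * t q.2.1, q.2.2) = 1
    rw [Prod.norm_def, Prod.norm_def, lt_max_iff, lt_max_iff] at hq
    have hm := et_mem s
    rcases hq with hq | hq | hq
    · refine hone _ ?_
      rw [Prod.norm_def, lt_max_iff]
      exact Or.inl ((le_max_left _ _).trans_lt hq)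
    · have h1 : max R T < |q.2.1| := (le_max_right _ _).trans_lt hq
      refine hR _ _ _ ?_
      rcases lt_abs.1 h1 with h2 | h2
      · have h3 := ht1 q.2.1 ((le_max_right R T).trans_lt h2)
        have h4 : R < q.2.1 := (le_max_left R T).trans_lt h2
        refine lt_of_lt_of_le ?_ (le_abs_self _)
        have h5 := mul_le_mul_of_nonneg_left h3.le hm.1
        have h6 := mul_le_mul_of_nonneg_left h4.le (sub_nonneg.2 hm.2)
        rcases hm.1.eq_or_lt with h7 | h7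
        · rw [← h7]; linarith
        · have h8 := mul_lt_mul_of_pos_left h3 h7
          linarith
      · have h3 := ht0 q.2.1 (by linarith [le_max_right R T])
        have h4 : q.2.1 < -R := by linarith [le_max_left R T]
        refine lt_of_lt_of_le ?_ (neg_le_abs _)
        have h6 := mul_le_mul_of_nonneg_left h4.le (sub_nonneg.2 hm.2)
        rcases hm.1.eq_or_lt with h7 | h7
        · rw [← h7]; linarith
        · have h8 := mul_lt_mul_of_pos_left h3 h7
          linarith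
    · refine hone _ ?_
      rw [Prod.norm_def, Prod.norm_def, lt_max_iff, lt_max_iff]
      exact Or.inr (Or.inr ((le_max_left _ _).trans_lt hq))

/-- each family is the scattering map of a linear path, up to homotopy -/
theorem link_surj (hn : 0 < n) {χ : ℝ → ℝ} (hχ : Step χ) {b : P × ℝ × ℝ → SympCt n}
    (hb : Fam b) : ∃ (φ : P → SympCt (n + 1)) (b' : P × ℝ × ℝ → SympCt n), PMap φ ∧
      IsLink χ φ b' ∧ Htp b b' := by
  have : ProperSpace P := FiniteDimensional.proper_real P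
  obtain ⟨R₁, hR₁, hoff, hone⟩ := fam_radius hb
  set R := R₁ + 1 with hRdef
  have hR0 : 0 < R := by linarith
  have hb1 : ∀ p s y, (R < ‖p‖ ∨ R ≤ |s| ∨ R < |y|) → b (p, s, y) = 1 := by
    intro p s y hh
    refine hone _ ?_
    rw [Prod.norm_def, Prod.norm_def, lt_max_iff, lt_max_iff]
    rcases hh with hh | hh | hh
    · exact Or.inl (by linarith)
    · exact Or.inr (Or.inl (by rw [Real.norm_eq_abs]; linarith))
    · exact Or.inr (Or.inr (by rw [Real.norm_eq_abs]; linarith))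
  have hBF : BFam (fun (q : P × ℝ) y => b (q.1, q.2, y)) R := by
    refine ⟨?_, fun q y w hh => ?_⟩
    · have a1 : ContDiff ℝ ∞ (fun q : (P × ℝ) × ℝ × E n =>
          (((q.1.1, q.1.2, q.2.1), q.2.2) : (P × ℝ × ℝ) × E n)) := by fun_prop
      exact hb.smooth.comp a1
    · rcases hh with hh | hh
      · rw [hb1 _ _ _ (Or.inr (Or.inr hh))]
        rfl
      · exact hoff _ _ (by linarith)
  obtain ⟨K, hK, hgen, hKz⟩ := exists_K' hn hBF (fun p s s' y hs hs' => by
      rw [hb1 p s y (Or.inr (Or.inl (hs.trans (le_abs_self s)))),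
        hb1 p s' y (Or.inr (Or.inl (hs'.trans (le_abs_self s'))))])
    (fun p s s' y hs hs' => by
      rw [hb1 p s y (Or.inr (Or.inl (by linarith [neg_abs_le s]))),
        hb1 p s' y (Or.inr (Or.inl (by linarith [neg_abs_le s'])))])
  have hKfar : ∀ p : P, R < ‖p‖ → ∀ s y w, K p s y w = 0 := by
    intro p hp
    refine hKz p fun s s' y => ?_
    rw [hb1 _ _ _ (Or.inl hp), hb1 _ _ _ (Or.inl hp)]
  obtain ⟨β, B', C, -, hC, hCS, hCo, hCpos, -⟩ := exists_slow hR0 hK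
    (isCompact_closedBall (0 : P) R) (fun p hp => by
      rw [mem_closedBall_zero_iff, not_le] at hp
      exact hKfar p hp) hgen (fun p y => hb1 _ _ _ (Or.inr (Or.inl (by
      have := neg_abs_le (-R - 1)
      linarith)))) 0
  have hfar : ∀ p : P, R < ‖p‖ → ∀ s z, C p s z = z := fun p hp s z =>
    C_triv hC (hKfar p hp) s z
  -- the positive maps
  obtain ⟨φ, K', hK', k1, k2, k3⟩ := symp_path hn hCS hCo (σ := fun p : P => (p, R + 1))
    (contDiff_id.prodMk contDiff_const)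
    ((isCompact_closedBall (0 : P) R).prod (isCompact_singleton (x := R + 1)))
    (fun p => by
      by_cases hp : ‖p‖ ≤ R
      · exact Or.inl ⟨by simpa using hp, rfl⟩
      · exact Or.inr (fun z => hfar p (not_le.1 hp) _ z))
    (fun p y => hb1 _ _ _ (Or.inr (Or.inl (by linarith [le_abs_self (R + 1)]))))
  have hφC : ∀ p z, (φ p).map z = C p (R + 1) z := k3
  have hφ : PMap φ := by
    refine ⟨fam_of k1 hK' k2 (R := R) fun p hp => map_eq_one fun z => ?_, fun p z => ?_⟩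
    · exact (hφC p z).trans (hfar p hp _ z)
    · rw [show (φ p).map = C p (R + 1) from funext (hφC p)]
      exact hCpos p (R + 1) z
  obtain ⟨b', hb', hl'⟩ := link_exists hχ hφ
  refine ⟨φ, b', hφ, hl', ?_⟩
  -- the slow path of functions
  let σ : P × ℝ → P × ℝ := fun q => (q.1, tm R q.2)
  have hσ : ContDiff ℝ ∞ σ := contDiff_fst.prodMk ((tm_smooth R).comp contDiff_snd)
  obtain ⟨N, R', hN, hNC⟩ := hCS.tfam_path hσ ((isCompact_closedBall (0 : P) R).prod
    (isCompact_Icc (a := -R - 1) (b := R + 1))) (fun q => by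
      by_cases hp : ‖q.1‖ ≤ R
      · exact Or.inl ⟨by simpa using hp, tm_mem hR0 q.2⟩
      · exact Or.inr (fun z => hfar q.1 (not_le.1 hp) _ z))
  have hNpos : ∀ q z, 0 < cX (ham (N q) z) := by
    intro q ζ
    obtain ⟨z, rfl⟩ := (hCS.fam.bij (σ q)).2 ζ
    have a3 := ham_natural (hCS.fam.slice (σ q)) (hCS.fam.symp _) (hN.slice q) z
    have a4 : (fun y => N q (C (σ q).1 (σ q).2 y)) = (cY : E (n + 1) → ℝ) :=
      funext fun y => hNC q y
    rw [a4, ham_cY] at a3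
    rw [← a3]
    exact hCpos _ _ _
  have hNsc : ∀ q, IsScattering (N q) (fun y => b (q.1, tm R q.2, y)) := fun q =>
    scat_of hCS hCo (hN.slice q) (σ q) (hNC q)
  have htm0 : ∀ s, s ≤ 0 → tm R s = -R - 1 := fun s hs => by rw [tm, et_zero hs]; ring
  have htm1 : ∀ s, 1 ≤ s → tm R s = R + 1 := fun s hs => by rw [tm, et_one hs]; ring
  have hN0 : ∀ q : P × ℝ, q.2 ≤ 0 → N q = cY := by
    intro q hq
    ext z
    have a1 := hNC q z
    have a2 : C (σ q).1 (σ q).2 z = z := by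
      show C q.1 (tm R q.2) z = z
      rw [htm0 _ hq]
      exact hC.zero _ _
    rwa [a2] at a1
  have hN1 : ∀ q : P × ℝ, 1 ≤ q.2 → N q = fun z => cY ((φ q.1)⁻¹.map z) := by
    intro q hq
    ext ζ
    obtain ⟨z, rfl⟩ : ∃ z, (φ q.1).map z = ζ := ⟨(φ q.1)⁻¹.map ζ, map_inv_map _ _⟩
    have a1 := hNC q z
    have a2 : C (σ q).1 (σ q).2 z = (φ q.1).map z := by
      show C q.1 (tm R q.2) z = _
      rw [htm1 _ hq, hφC]
    rw [a2] at a1
    rw [a1, inv_map_map]
  have hNfar : ∀ q : P × ℝ, R < ‖q.1‖ → N q = cY := by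
    intro q hq
    ext z
    have a1 := hNC q z
    have a2 : C (σ q).1 (σ q).2 z = z := hfar q.1 hq _ z
    rwa [a2] at a1
  -- the interpolation with the linear path
  obtain ⟨R₂, hR₂, hoff', hone'⟩ := fam_radius hφ.fam
  obtain ⟨S, hS0, hS1⟩ := hχ.ends
  set D := max (max R R') (max R₂ (max S 1)) with hDdef
  have d1 : R ≤ D := (le_max_left _ _).trans (le_max_left _ _)
  have d2 : R' ≤ D := (le_max_right _ _).trans (le_max_left _ _)
  have d3 : R₂ ≤ D := (le_max_left _ _).trans (le_max_right _ _)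
  have d4 : S ≤ D := ((le_max_left _ _).trans (le_max_right _ _)).trans (le_max_right _ _)
  have d5 : 1 ≤ D := ((le_max_right _ _).trans (le_max_right _ _)).trans (le_max_right _ _)
  let M : ℝ × (P × ℝ) → E (n + 1) → ℝ := fun q z =>
    (1 - et q.1) * N q.2 z + et q.1 * linkF χ φ q.2 z
  have hMs : ContDiff ℝ ∞ (fun q : (ℝ × (P × ℝ)) × E (n + 1) => M q.1 q.2) := by
    have a1 : ContDiff ℝ ∞ (fun q : (ℝ × (P × ℝ)) × E (n + 1) => et q.1.1) :=
      et_smooth.comp (contDiff_fst.comp contDiff_fst)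
    have a0 : ContDiff ℝ ∞ (fun q : (ℝ × (P × ℝ)) × E (n + 1) =>
        ((q.1.2, q.2) : (P × ℝ) × E (n + 1))) := by fun_prop
    exact ((contDiff_const.sub a1).mul (hN.smooth.comp a0)).add
      (a1.mul ((linkF_smooth hχ hφ.fam.smooth).comp a0))
  have hMoff : ∀ q z, D < ‖z‖ → M q z = cY z := by
    intro q z hz
    show (1 - et q.1) * N q.2 z + et q.1 * linkF χ φ q.2 z = _
    rw [hN.off q.2 z (by linarith), linkF_off hoff' _ z (by linarith)]
    ring
  have hMpos : ∀ q z, 0 < cX (ham (M q) z) := fun q z =>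
    pos_comb (hN.slice q.2) (link_nt hχ hφ _).smooth (hNpos q.2) (linkF_pos hχ hφ.pos _)
      (et_mem q.1) z
  have hMT : TFam M D := tfam_of_pos (by linarith) hMs hMoff hMpos
  obtain ⟨c, hc, hsc⟩ := hMT.scat
  have hM0 : ∀ q, M (0, q) = N q := by
    intro q
    ext z
    show (1 - et 0) * N q z + et 0 * linkF χ φ q z = _
    rw [et_zero le_rfl]
    ring
  have hM1 : ∀ q, M (1, q) = linkF χ φ q := by
    intro q
    ext z
    show (1 - et 1) * N q z + et 1 * linkF χ φ q z = _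
    rw [et_one le_rfl]
    ring
  have hMone : ∀ τ (q : P × ℝ), (D < ‖q.1‖ ∨ D < |q.2|) → c (τ, q) = 1 := by
    intro τ q hq
    refine scat_eq_one (hsc _) ?_
    rcases hq with hq | hq
    · refine Or.inl ?_
      ext z
      show (1 - et τ) * N q z + et τ * linkF χ φ q z = _
      rw [hNfar q (by linarith), linkF_one (hone' _ (by linarith))]
      ring
    · rcases lt_abs.1 hq with h2 | h2
      · refine Or.inr ⟨φ q.1, ?_⟩
        ext z
        show (1 - et τ) * N q z + et τ * linkF χ φ q z = _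
        rw [hN1 q (by linarith), linkF_late (hS1 _ (by linarith))]
        ring
      · refine Or.inl ?_
        ext z
        show (1 - et τ) * N q z + et τ * linkF χ φ q z = _
        rw [hN0 q (by linarith), linkF_early (hS0 _ (by linarith))]
        ring
  have key : Htp (fun q : P × ℝ × ℝ => b (q.1, tm R q.2.1, q.2.2)) b' := by
    have e0 : (fun q : P × ℝ × ℝ => c (0, (q.1, q.2.1)) q.2.2) =
        fun q : P × ℝ × ℝ => b (q.1, tm R q.2.1, q.2.2) := by
      ext1 q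
      have h6 := hsc (0, (q.1, q.2.1))
      rw [hM0] at h6
      exact congrFun (scat_unique (tfam_nt hN _) h6 (hNsc (q.1, q.2.1))) q.2.2
    have e1 : (fun q : P × ℝ × ℝ => c (1, (q.1, q.2.1)) q.2.2) = b' := by
      ext1 q
      have h6 := hsc (1, (q.1, q.2.1))
      rw [hM1] at h6
      exact congrFun (scat_unique (link_nt hχ hφ _) h6 (hl' (q.1, q.2.1))) q.2.2
    rw [← e0, ← e1]
    refine htp_of (θ := fun q : ℝ × (P × ℝ × ℝ) => c (q.1, (q.2.1, q.2.2.1)) q.2.2.2)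
      (K := closedBall 0 D) (R := D) ?_ (isCompact_closedBall _ _)
      (fun q w hw => ?_) (fun s q hq => ?_)
    · have h6 : ContDiff ℝ ∞ (fun q : (ℝ × (P × ℝ × ℝ)) × E n =>
          (((q.1.1, (q.1.2.1, q.1.2.2.1)), q.1.2.2.2, q.2) : (ℝ × (P × ℝ)) × ℝ × E n)) := by
        fun_prop
      exact hc.smooth.comp h6
    · refine hc.off _ _ w (Or.inr ?_)
      rwa [mem_closedBall_zero_iff, not_le] at hw
    · show c (s, (q.1, q.2.1)) q.2.2 = 1
      rw [Prod.norm_def, Prod.norm_def, lt_max_iff, lt_max_iff] at hq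
      rcases hq with hq | hq | hq
      · rw [hMone s (q.1, q.2.1) (Or.inl hq)]
        rfl
      · rw [hMone s (q.1, q.2.1) (Or.inr hq)]
        rfl
      · exact map_eq_one fun w => hc.off _ _ w (Or.inl hq)
  refine htp_trans (htp_reparam hb (R := R) (fun p s y hs => hb1 _ _ _ (Or.inr (Or.inl hs.le)))
    (tm_smooth R) (T := 1) (fun s hs => ?_) (fun s hs => ?_)) key
  · rw [htm0 s (by linarith)]
    linarith
  · rw [htm1 s (by linarith)]
    linarith

end main

end Pool.Agent.H822.EX
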