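import Mathlib
import Pool.Agent.H822.EX.Bridge
import Pool.Agent.H822.EX.PosFam
import Pool.Agent.H822.EX.FinPos

/-!
# The two forms of the definitions agree
-/

set_option autoImplicit false

open scoped ContDiff
open Set Filter Topology Function
open Q170.SC Pool.Agent.H822.Ham Pool.Agent.H822.Pairs Pool.Agent.H822.PairsMain
open Pool.Agent.Q191.SY

namespace Pool.Agent.H822.EF

variable {n : ℕ}

theorem positive_iff (ψ : SympCt (n + 1)) : Positive ψ ↔ EX.Positive ψ := Iff.rfl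

theorem step_iff (χ : ℝ → ℝ) : Step χ ↔ EX.Step χ :=
  ⟨fun h => ⟨h.smooth, h.ends, h.mem⟩, fun h => ⟨h.smooth, h.ends, h.mem⟩⟩

variable {P : Type} [NormedAddCommGroup P] [NormedSpace ℝ P]

theorem pmap_iff (φ : P → SympCt (n + 1)) : PMap φ ↔ EX.PMap φ :=
  ⟨fun h => ⟨(fam_iff _).1 h.fam, h.pos⟩, fun h => ⟨(fam_iff _).2 h.fam, h.pos⟩⟩

theorem phtp_iff (b b' : P → SympCt (n + 1)) : PHtp b b' ↔ EX.PHtp b b' := by
  constructor
  · rintro ⟨B, K, hK, h1, h2, h3, h4⟩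
    refine ⟨B, K, hK, ?_, fun s q hq => h2 s q.1 q.2 hq, h3, h4⟩
    exact h1.comp ((contDiff_fst.prodMk (contDiff_fst.comp contDiff_snd)).prodMk
      (contDiff_snd.comp contDiff_snd))
  · rintro ⟨B, K, hK, h1, h2, h3, h4⟩
    refine ⟨B, K, hK, ?_, fun s p z hq => h2 s (p, z) hq, h3, h4⟩
    exact h1.comp ((contDiff_fst.comp contDiff_fst).prodMk
      ((contDiff_snd.comp contDiff_fst).prodMk contDiff_snd))

omit [NormedAddCommGroup P] [NormedSpace ℝ P] in
theorem link_iff (χ : ℝ → ℝ) (φ : P → SympCt (n + 1)) (b : P × ℝ × ℝ → SympCt n) :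
    IsLink χ φ b ↔ EX.IsLink χ φ b := scat_iff _ _

end Pool.Agent.H822.EF

namespace Pool.Agent.H822.EX

variable {n : ℕ} {P : Type} [NormedAddCommGroup P] [NormedSpace ℝ P] [FiniteDimensional ℝ P]

/-- the families which are homotopic to positive ones -/
theorem pos_kernel (hn : 0 < n) {χ : ℝ → ℝ} (hχ : Step χ) {φ : P → SympCt (n + 1)}
    (hφ : Fam φ) :
    THtp (fun _ => (cY : E (n + 1) → ℝ)) (fun p z => cY ((φ p)⁻¹.map z)) ↔
      ∃ φ' : P → SympCt (n + 1), PMap φ' ∧ Htp φ φ' := by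
  rw [kernel_iff hn hφ]
  constructor
  · rintro ⟨b, ψ, hb, hψ, h⟩
    obtain ⟨φ', b', hφ', hl, hbb⟩ := link_surj hn hχ hb
    obtain ⟨ψ', hψ'F, hψ'⟩ := susp_existsP hn (htp_fam_right hbb)
    have h1 : Htp ψ ψ' := susp_htpP hn hbb hψ hψ'
    have h2 : Htp φ' ψ' := link_susp hn hχ hφ' hl hψ'
    exact ⟨φ', hφ', htp_trans (htp_trans h h1) (htp_symm h2)⟩
  · rintro ⟨φ', hφ', h⟩
    obtain ⟨b', hb', hl⟩ := link_exists hχ hφ'
    obtain ⟨ψ', hψ'F, hψ'⟩ := susp_existsP hn hb'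
    exact ⟨b', ψ', hb', hψ', htp_trans h (link_susp hn hχ hφ' hl hψ')⟩

theorem positive_one : Positive (1 : SympCt (n + 1)) := by
  intro z
  have h : (1 : SympCt (n + 1)).map = id := rfl
  rw [h, fderiv_id, ContinuousLinearMap.id_apply, cX_e0]
  exact one_pos

omit [FiniteDimensional ℝ P] in
theorem pmap_one : PMap (fun _ : P => (1 : SympCt (n + 1))) := ⟨fam_one, fun _ => positive_one⟩

omit [NormedAddCommGroup P] [NormedSpace ℝ P] [FiniteDimensional ℝ P] in
theorem link_one {χ : ℝ → ℝ} :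
    IsLink χ (fun _ : P => (1 : SympCt (n + 1))) (fun _ => (1 : SympCt n)) := by
  intro q
  have h : linkF χ (fun _ : P => (1 : SympCt (n + 1))) q = cY := linkF_one rfl
  rw [h]
  exact scat_cY

/-- if all families in `G_n` are null-homotopic then so are all families of positive maps -/
theorem pos_trivial (hn : 0 < n) {χ : ℝ → ℝ} (hχ : Step χ) (h : GTrivial n)
    {φ : P → SympCt (n + 1)} (hφ : PMap φ) : PHtp φ (fun _ => 1) := by
  obtain ⟨b, hb, hl⟩ := link_exists hχ hφ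
  exact phtp_of_htp hn hχ hφ pmap_one hl link_one (h _ b hb)

end Pool.Agent.H822.EX
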